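import Pool.Agent.H13.K2S.Claim
import Pool.Agent.H35.K2S.LineU

/-!
# The skeleton of `K'(2)`

All scales are multiples of the mesh unit `u = J / N`. `P₁ = p₁ u` is the bottom of the zone,
`w = (p₁ - j) u` runs down from `P₁` to a small window, `lam = j u` runs up from `0` to `P₁`.
-/

set_option autoImplicit false

namespace Pool.K2S

open Finset Real
open Pool.Agent.H49.Ent Pool.Agent.H32.Dense Pool.STK Pool.KA Pool.KSAT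

variable {m J : ℕ}

/-- The fans at exact points lie within `2 ^ (-h)` of lines, the slopes are at most `1` (in the
chart `i₀`). -/
def Lb (F : Fam m J) (i₀ : Fin m) (h : ℕ) (A : F.Ω → Prop) : Prop :=
  LineAt i₀ (1 / 2 ^ h) (Fam.pt F) F.d A

/-- The fans at exact points lie within `2 ^ (-h)` of lines. -/
def Ln (F : Fam m J) (i₀ : Fin m) (h : ℕ) (A : F.Ω → Prop) : Prop :=
  LineU i₀ (1 / 2 ^ h) (Fam.pt F) F.d A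

/-- The frames of precision `2 ^ (-l)` are functions of the windows of length `2 ^ (-w)`, up to
`2 ^ (-l)`. -/
def Cn (F : Fam m J) (i₀ : Fin m) (l w : ℕ) (A : F.Ω → Prop) : Prop :=
  RotU i₀ (1 / 2 ^ l) (1 / 2 ^ l) (Fam.pt F) (slam F w) F.d A

/-- The rows `(P₁, P₂]` are not full. -/
def Zn (F : Fam 2 J) (c : ℝ) (P₁ P₂ : ℕ) (A : F.Ω → Prop) : Prop :=
  CH (Pool.Agent.H49.Ent.cond F.p A True) (F.X P₂) (fun ω => (F.X P₁ ω, F.W ω)) ≤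
    (2 - c) * (((P₂ : ℝ) - P₁) * Real.log 2)

/-- **(CHT)** The fans are flat up to a fixed proportion of the resolution, in a fixed chart. -/
def CHTStmt : Prop :=
  ∀ a R : ℝ, 1 ≤ a → 0 < R → UBa 2 a R → ∃ c₁ : ℝ, 0 < c₁ ∧ c₁ ≤ 1 ∧
    Claim (m := 2) a R (fun J F A => ∃ i₀ : Fin 2, Lb F i₀ ⌊c₁ * J⌋₊ A)

/-- **(ZON)** In every tail there is a zone with unsaturated rows. -/
def ZONStmt : Prop :=
  ∀ a R : ℝ, 1 ≤ a → 0 < R → UBa 2 a R → ∀ X : ℝ, 0 < X → X ≤ 1 →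
    ∃ c : ℝ, 0 < c ∧ ∃ X' : ℝ, 0 < X' ∧
    ∀ e : ℝ, 0 < e → e ≤ X' → ∃ N₁ : ℕ, ∀ N ≥ N₁,
    Claim (m := 2) a R (fun J F A => ∃ p₁ p₂ : ℕ, p₁ ≤ p₂ ∧ p₂ ≤ N ∧ (1 - X) * N ≤ p₁ ∧
      X' * N ≤ (N : ℝ) - p₂ ∧ e * N ≤ (p₂ : ℝ) - p₁ ∧ (p₂ : ℝ) - p₁ ≤ 2 * (e * N) ∧
      Zn F c (p₁ * (J / N)) (p₂ * (J / N)) A)

/-- **(FF)** If the fans at exact points are flat to precision `lam` and the frames are conserved
to precision `lam` on windows of length `2 ^ (-w)`, where the row `lam + w` is in the tail, then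
the fans are flat to precision `lam + h`, with `h` macroscopic. -/
def FFStmt : Prop :=
  ∀ a R : ℝ, 1 < a → 0 < R → UBa 2 a R → ∀ X h₁ ω₀ : ℝ, 0 < X → 0 < h₁ → 0 < ω₀ →
    ∃ h₂ : ℝ, 0 < h₂ ∧ ∃ N₁ : ℕ, ∀ N ≥ N₁, ∀ (i₀ : Fin 2) (p j : ℕ), j ≤ p → p ≤ N →
    X * N ≤ (N : ℝ) - p → h₁ * N ≤ j → ω₀ * N ≤ (p : ℝ) - j →
    Claim (m := 2) a R (fun J F A => Lb F i₀ ⌊h₁ * J⌋₊ A → Ln F i₀ (j * (J / N)) A →
      Cn F i₀ (j * (J / N)) ((p - j) * (J / N)) A →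
      ∀ h : ℕ, (h : ℝ) ≤ h₂ * J → Ln F i₀ (j * (J / N) + h) A)

/-- **(ENG)** The engine: the frames cannot turn while the critical row crosses the zone. -/
def ENGStmt : Prop :=
  ∀ a R : ℝ, 1 < a → 0 < R → UBa 2 a R → ∀ c e μ h₁ ω₀ : ℝ, 0 < c → 0 < e → 0 < μ → 0 < h₁ →
    0 < ω₀ → ∃ N₁ : ℕ, ∀ N ≥ N₁, ∀ (i₀ : Fin 2) (p₁ p₂ j : ℕ), p₁ ≤ p₂ → p₂ ≤ N →
    e * N ≤ (p₂ : ℝ) - p₁ → j ≤ p₁ → 1 ≤ j → ω₀ * N ≤ (p₁ : ℝ) - j →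
    Claim (m := 2) a R (fun J F A => Zn F c (p₁ * (J / N)) (p₂ * (J / N)) A →
      Lb F i₀ ⌊h₁ * J⌋₊ A →
      (∀ h : ℕ, (h : ℝ) ≤ ((p₂ : ℝ) - p₁ + j) * (J / N : ℕ) + μ * J → Ln F i₀ h A) →
      (∀ i < j, Cn F i₀ (i * (J / N)) ((p₁ - i) * (J / N)) A) →
      Cn F i₀ (j * (J / N)) ((p₁ - j) * (J / N)) A)

/-- **(NPC)** The end: on macroscopic windows of small length exponent the frames cannot be
conserved to almost full precision. -/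
def NPCStmt : Prop :=
  ∀ a R : ℝ, 1 < a → 0 < R → UBa 2 a R → ∃ x : ℝ, 0 < x ∧ x ≤ 1 ∧ ∀ h₁ : ℝ, 0 < h₁ →
    ∃ N₁ : ℕ, ∀ N ≥ N₁,
    ∀ (i₀ : Fin 2) (j v : ℕ), j ≤ N → (1 - x) * N ≤ (j : ℝ) → (v : ℝ) ≤ x * N →
    Claim (m := 2) a R (fun J F A => Lb F i₀ ⌊h₁ * J⌋₊ A →
      Cn F i₀ (j * (J / N)) (v * (J / N)) A → False)

/-! ### Elementary facts -/

theorem Lb.mono {F : Fam m J} {i₀ : Fin m} {h h' : ℕ} {A : F.Ω → Prop} (hh : h' ≤ h)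
    (H : Lb F i₀ h A) : Lb F i₀ h' A := by
  obtain ⟨e, n, h1, h2⟩ := H
  refine ⟨e, n, h1, fun ω hω j => (h2 ω hω j).trans ?_⟩
  exact one_div_le_one_div_of_le (by positivity) (pow_le_pow_right₀ (by norm_num) hh)

theorem Ln.mono {F : Fam m J} {i₀ : Fin m} {h h' : ℕ} {A : F.Ω → Prop} (hh : h' ≤ h)
    (H : Ln F i₀ h A) : Ln F i₀ h' A :=
  LineU.mono H (one_div_le_one_div_of_le (by positivity)
    (pow_le_pow_right₀ (by norm_num) hh))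

theorem Lb.ln {F : Fam m J} {i₀ : Fin m} {h : ℕ} {A : F.Ω → Prop} (H : Lb F i₀ h A) :
    Ln F i₀ h A := LineAt.lineU H

/-- Precision `1` is trivial. -/
theorem Lb.cn {F : Fam m J} {i₀ : Fin m} {h : ℕ} {A : F.Ω → Prop} (H : Lb F i₀ h A) (w : ℕ) :
    Cn F i₀ 0 w A := by
  obtain ⟨e, n, h1, h2⟩ := H.mono (Nat.zero_le h)
  refine ⟨e, n, fun _ _ => 0, h2, fun ω hω j => ?_⟩
  have := h1 ω hω j
  simpa using this

/-! ### The assembly -/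

theorem Claim.fin {a R : ℝ} : ∀ {n : ℕ} {Φ : Fin n → Stat m}, (∀ i, Claim a R (Φ i)) →
    Claim a R (fun _ F A => ∀ i, Φ i _ F A)
  | 0, _, _ => Claim.of one_pos 0 (fun _ _ _ _ _ i => Fin.elim0 i)
  | n + 1, Φ, h => by
    refine Claim.mono 0 ?_ ((h 0).and (Claim.fin (Φ := fun i : Fin n => Φ i.succ)
      fun i => h i.succ))
    rintro J - F A ⟨h1, h2⟩ i
    exact Fin.cases h1 h2 i

theorem Claim.finite {a R : ℝ} {ι : Type} [Finite ι] {Φ : ι → Stat m}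
    (h : ∀ i, Claim a R (Φ i)) : Claim a R (fun _ F A => ∀ i, Φ i _ F A) := by
  obtain ⟨n, ⟨e⟩⟩ := Finite.exists_equiv_fin ι
  refine Claim.mono 0 ?_ (Claim.fin (Φ := fun i : Fin n => Φ (e.symm i)) fun i => h _)
  intro J _ F A h1 i
  have := h1 (e i)
  simpa using this

/-- A claim under a condition which does not depend on the family. -/
theorem Claim.cnd {a R : ℝ} {P : Prop} {Φ : Stat m} (h : P → Claim a R Φ) :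
    Claim a R (fun _ F A => P → Φ _ F A) := by
  by_cases hP : P
  · exact Claim.mono 0 (fun _ _ _ _ h1 _ => h1) (h hP)
  · exact Claim.of one_pos 0 (fun _ _ _ _ _ h1 => absurd h1 hP)

theorem Ln.of_le {F : Fam m J} {i₀ : Fin m} {k : ℕ} {H : ℝ} {A : F.Ω → Prop} (hH : 0 ≤ H)
    (h : ∀ h : ℕ, (h : ℝ) ≤ H → Ln F i₀ (k + h) A) (h' : ℕ) (hh : (h' : ℝ) ≤ k + H) :
    Ln F i₀ h' A := by
  by_cases hle : h' ≤ k
  · exact (h 0 (by simpa using hH)).mono (by omega)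
  · obtain ⟨h'', rfl⟩ := Nat.exists_eq_add_of_le (Nat.le_of_lt (Nat.lt_of_not_le hle))
    refine h h'' ?_
    push_cast at hh
    linarith

/-- The induction along the line `w + lam = P₁`. -/
theorem induct {F : Fam 2 J} {A : F.Ω → Prop} {i₀ : Fin 2} {N u p₁ : ℕ}
    {h₁ h₂ ω₀ c₁ z : ℝ} (hN : (0 : ℝ) < N) (hu1 : (N : ℝ) * u ≤ J) (hh₁ : h₁ = c₁ / 4)
    (hc₁ : 0 < c₁) (hh₂0 : 0 < h₂) (hh₂ : h₂ ≤ h₁) (hω₀ : 0 < ω₀)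
    (hb : Lb F i₀ ⌊c₁ * J⌋₊ A) (hb1 : Lb F i₀ ⌊h₁ * J⌋₊ A)
    (hz0 : 0 ≤ z) (hz : z * u + h₂ / 4 * J + u ≤ h₂ * J)
    (d1 : ∀ j : ℕ, j ≤ p₁ → h₁ * N ≤ (j : ℝ) → ω₀ * N ≤ (p₁ : ℝ) - j →
      Lb F i₀ ⌊h₁ * J⌋₊ A → Ln F i₀ (j * u) A → Cn F i₀ (j * u) ((p₁ - j) * u) A →
      ∀ h' : ℕ, (h' : ℝ) ≤ h₂ * J → Ln F i₀ (j * u + h') A)
    (d2 : ∀ j : ℕ, j ≤ p₁ → 1 ≤ j → ω₀ * N ≤ (p₁ : ℝ) - j → Lb F i₀ ⌊h₁ * J⌋₊ A →
      (∀ h' : ℕ, (h' : ℝ) ≤ (z + j) * u + h₂ / 4 * J → Ln F i₀ h' A) →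
      (∀ i < j, Cn F i₀ (i * u) ((p₁ - i) * u) A) → Cn F i₀ (j * u) ((p₁ - j) * u) A) :
    ∀ j : ℕ, ω₀ * N ≤ (p₁ : ℝ) - j → (∀ i ≤ j, Cn F i₀ (i * u) ((p₁ - i) * u) A) ∧
      ∀ h : ℕ, (h : ℝ) ≤ h₂ * J → Ln F i₀ (j * u + h) A := by
  have hJ0 : (0 : ℝ) ≤ J := Nat.cast_nonneg J
  have hu0 : (0 : ℝ) ≤ u := Nat.cast_nonneg u
  have hh₁0 : 0 < h₁ := by rw [hh₁]; linarith
  have hH : 0 ≤ h₂ * J := by positivity
  have hbig : h₁ * J + h₂ * J ≤ c₁ * J := by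
    have e1 : h₂ * J ≤ h₁ * J := mul_le_mul_of_nonneg_right hh₂ hJ0
    have e2 : h₁ * J = c₁ * J / 4 := by rw [hh₁]; ring
    have e3 : 0 ≤ c₁ * J := by positivity
    linarith
  have h1J : 0 ≤ h₁ * J := by positivity
  intro j
  induction j with
  | zero =>
    intro _
    constructor
    · intro i hi
      have : i = 0 := by omega
      rw [this, Nat.zero_mul]
      exact hb.cn _
    · intro h hh
      refine hb.ln.mono (Nat.le_floor ?_)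
      push_cast
      linarith
  | succ j ih =>
    intro hj
    have hj' : ω₀ * N ≤ (p₁ : ℝ) - j := by
      push_cast at hj
      linarith
    obtain ⟨ih1, ih2⟩ := ih hj'
    have hjp : j + 1 ≤ p₁ := by
      have h1 : 0 < ω₀ * N := by positivity
      have h2 : ((j + 1 : ℕ) : ℝ) ≤ p₁ := by linarith
      exact_mod_cast h2
    have hz2 : (z + ((j + 1 : ℕ) : ℝ)) * u + h₂ / 4 * J ≤ ((j * u : ℕ) : ℝ) + h₂ * J := by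
      push_cast
      have : (z + ((j : ℝ) + 1)) * u = z * u + j * u + u := by ring
      rw [this]
      linarith
    have hcn : Cn F i₀ ((j + 1) * u) ((p₁ - (j + 1)) * u) A := by
      refine d2 (j + 1) hjp (by omega) hj hb1 ?_ fun i hi => ih1 i (by omega)
      intro h hh
      exact Ln.of_le hH ih2 h (hh.trans hz2)
    refine ⟨fun i hi => ?_, ?_⟩
    · rcases Nat.lt_or_ge i (j + 1) with h | h
      · exact ih1 i (by omega)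
      · have : i = j + 1 := by omega
        rw [this]
        exact hcn
    by_cases hsmall : h₁ * N ≤ ((j + 1 : ℕ) : ℝ)
    · refine d1 (j + 1) hjp hsmall hj hb1 ?_ hcn
      refine Ln.of_le hH ih2 _ ?_
      have hz1 : ((((j + 1) * u : ℕ) : ℕ) : ℝ) ≤ (j * u : ℕ) + (u : ℝ) := by
        push_cast
        linarith
      refine hz1.trans ?_
      have : 0 ≤ z * u := by positivity
      linarith
    · push Not at hsmall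
      intro h hh
      refine hb.ln.mono (Nat.le_floor ?_)
      push_cast at hsmall ⊢
      have e1 : ((j : ℝ) + 1) * u ≤ h₁ * J := by
        calc ((j : ℝ) + 1) * u ≤ h₁ * N * u := mul_le_mul_of_nonneg_right hsmall.le hu0
          _ = h₁ * (N * u) := by ring
          _ ≤ _ := mul_le_mul_of_nonneg_left hu1 hh₁0.le
      linarith

/-- The scales of the last step. -/
theorem last_scales {x N ω₀ : ℝ} {p₁ : ℕ} (hx : 0 < x) (hx1 : x ≤ 1) (hN : 4 < N * x)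
    (hN0 : 0 < N) (hω₀ : ω₀ = x / 4) (h : (1 - x / 4) * N ≤ p₁) :
    ∃ j v : ℕ, j ≤ p₁ ∧ p₁ - j = v ∧ ω₀ * N ≤ (p₁ : ℝ) - j ∧ (1 - x) * N ≤ (j : ℝ) ∧
      (v : ℝ) ≤ x * N := by
  have hceil : ω₀ * N ≤ ⌈ω₀ * N⌉₊ := Nat.le_ceil _
  have h0 : 0 ≤ ω₀ * N := by rw [hω₀]; positivity
  have hceil2 : (⌈ω₀ * N⌉₊ : ℝ) < ω₀ * N + 1 := Nat.ceil_lt_add_one h0
  have hωN : ω₀ * N + 1 ≤ x / 2 * N := by
    rw [hω₀]
    linarith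
  have hxN : x / 4 * N ≤ 1 / 4 * N := mul_le_mul_of_nonneg_right (by linarith) hN0.le
  have hle : ⌈ω₀ * N⌉₊ ≤ p₁ := by
    have : (⌈ω₀ * N⌉₊ : ℝ) ≤ p₁ := by
      refine le_trans ?_ h
      linarith
    exact_mod_cast this
  refine ⟨p₁ - ⌈ω₀ * N⌉₊, ⌈ω₀ * N⌉₊, Nat.sub_le _ _, by omega, ?_, ?_, ?_⟩
  · rw [Nat.cast_sub hle]
    linarith
  · rw [Nat.cast_sub hle]
    linarith
  · have : x / 2 * N ≤ x * N := mul_le_mul_of_nonneg_right (by linarith) hN0.le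
    linarith

theorem kp_two_of_claims (hAEX : AEXStmt) (hREX : REXStmt) (hCHT : CHTStmt) (hZON : ZONStmt)
    (hFF : FFStmt) (hENG : ENGStmt) (hNPC : NPCStmt) : KP 2 := by
  refine kp_of_claim hAEX hREX fun a R ha hR hU => ?_
  obtain ⟨c₁, hc₁, hc₁1, hcht⟩ := hCHT a R ha.le hR hU
  obtain ⟨x, hx, hx1, hnpc⟩ := hNPC a R ha hR hU
  obtain ⟨c, hc, X', hX', hzon⟩ := hZON a R ha.le hR hU (x / 4) (by linarith) (by linarith)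
  obtain ⟨h₁, hh₁⟩ : ∃ h₁, h₁ = c₁ / 4 := ⟨_, rfl⟩
  have hh₁0 : 0 < h₁ := by rw [hh₁]; linarith
  obtain ⟨ω₀, hω₀⟩ : ∃ ω₀, ω₀ = x / 4 := ⟨_, rfl⟩
  have hω₀0 : 0 < ω₀ := by rw [hω₀]; linarith
  obtain ⟨h₂', hh₂', N₁, hff⟩ := hFF a R ha hR hU X' h₁ ω₀ hX' hh₁0 hω₀0
  obtain ⟨h₂, hh₂⟩ : ∃ h₂, h₂ = min h₂' h₁ := ⟨_, rfl⟩
  have hh₂0 : 0 < h₂ := by rw [hh₂]; exact lt_min hh₂' hh₁0
  have hh₂1 : h₂ ≤ h₂' := by rw [hh₂]; exact min_le_left _ _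
  have hh₂2 : h₂ ≤ h₁ := by rw [hh₂]; exact min_le_right _ _
  obtain ⟨e, he⟩ : ∃ e, e = min (h₂ / 8) X' := ⟨_, rfl⟩
  have he0 : 0 < e := by rw [he]; exact lt_min (by linarith) hX'
  have he1 : e ≤ h₂ / 8 := by rw [he]; exact min_le_left _ _
  have he2 : e ≤ X' := by rw [he]; exact min_le_right _ _
  obtain ⟨N₂, hzon⟩ := hzon e he0 he2
  obtain ⟨N₃, heng⟩ := hENG a R ha hR hU c e (h₂ / 4) h₁ ω₀ hc he0 (by linarith) hh₁0 hω₀0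
  obtain ⟨N₄, hnpc⟩ := hnpc h₁ hh₁0
  obtain ⟨N₅, hN₅⟩ := exists_nat_gt (8 / h₂ + 4 / x + 1)
  obtain ⟨N, hN⟩ : ∃ N, N = N₁ + N₂ + N₃ + N₄ + N₅ := ⟨_, rfl⟩
  have hNr : 8 / h₂ + 4 / x + 1 < N := by
    refine hN₅.trans_le ?_
    have : N₅ ≤ N := by omega
    exact_mod_cast this
  have q1 : 0 < 8 / h₂ := by positivity
  have q2 : 0 < 4 / x := by positivity
  have hNh : 8 < N * h₂ := by
    have : 8 / h₂ < N := by linarith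
    rwa [div_lt_iff₀ hh₂0] at this
  have hNx : 4 < N * x := by
    have : 4 / x < N := by linarith
    rwa [div_lt_iff₀ hx] at this
  have hNpos : (0 : ℝ) < N := by linarith
  have hN0 : 0 < N := by exact_mod_cast hNpos
  -- all the claims
  have c1 : Claim (m := 2) a R (fun J F A => ∀ i : Fin 2 × Fin (N + 1) × Fin (N + 1),
      ((i.2.2 : ℕ) ≤ i.2.1 ∧ X' * N ≤ (N : ℝ) - (i.2.1 : ℕ) ∧ h₁ * N ≤ (i.2.2 : ℕ) ∧
        ω₀ * N ≤ ((i.2.1 : ℕ) : ℝ) - (i.2.2 : ℕ)) →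
      (Lb F i.1 ⌊h₁ * J⌋₊ A → Ln F i.1 (i.2.2 * (J / N)) A →
      Cn F i.1 (i.2.2 * (J / N)) ((i.2.1 - i.2.2) * (J / N)) A →
      ∀ h' : ℕ, (h' : ℝ) ≤ h₂' * J → Ln F i.1 (i.2.2 * (J / N) + h') A)) :=
    Claim.finite fun i => Claim.cnd fun k =>
      hff N (by omega) i.1 i.2.1 i.2.2 k.1 (by omega) k.2.1 k.2.2.1 k.2.2.2
  have c2 : Claim (m := 2) a R (fun J F A => ∀ i : Fin 2 × Fin (N + 1) × Fin (N + 1) ×
      Fin (N + 1), ((i.2.1 : ℕ) ≤ i.2.2.1 ∧ e * N ≤ ((i.2.2.1 : ℕ) : ℝ) - (i.2.1 : ℕ) ∧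
        (i.2.2.2 : ℕ) ≤ i.2.1 ∧ 1 ≤ (i.2.2.2 : ℕ) ∧
        ω₀ * N ≤ ((i.2.1 : ℕ) : ℝ) - (i.2.2.2 : ℕ)) →
      (Zn F c (i.2.1 * (J / N)) (i.2.2.1 * (J / N)) A → Lb F i.1 ⌊h₁ * J⌋₊ A →
      (∀ h : ℕ, (h : ℝ) ≤ (((i.2.2.1 : ℕ) : ℝ) - (i.2.1 : ℕ) + (i.2.2.2 : ℕ)) * (J / N : ℕ) +
        h₂ / 4 * J → Ln F i.1 h A) →
      (∀ l < (i.2.2.2 : ℕ), Cn F i.1 (l * (J / N)) ((i.2.1 - l) * (J / N)) A) →
      Cn F i.1 (i.2.2.2 * (J / N)) ((i.2.1 - i.2.2.2) * (J / N)) A)) :=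
    Claim.finite fun i => Claim.cnd fun k =>
      heng N (by omega) i.1 i.2.1 i.2.2.1 i.2.2.2 k.1 (by omega) k.2.1 k.2.2.1 k.2.2.2.1
        k.2.2.2.2
  have c3 : Claim (m := 2) a R (fun J F A => ∀ i : Fin 2 × Fin (N + 1) × Fin (N + 1),
      ((1 - x) * N ≤ (i.2.1 : ℕ) ∧ ((i.2.2 : ℕ) : ℝ) ≤ x * N) →
      (Lb F i.1 ⌊h₁ * J⌋₊ A → Cn F i.1 (i.2.1 * (J / N)) (i.2.2 * (J / N)) A → False)) :=
    Claim.finite fun i => Claim.cnd fun k =>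
      hnpc N (by omega) i.1 i.2.1 i.2.2 (by omega) k.1 k.2
  obtain ⟨J₂, hJ₂⟩ := exists_nat_gt (4 / c₁)
  refine Claim.mono J₂ ?_ (((c1.and c2).and c3).and (hcht.and (hzon N (by omega))))
  rintro J hJ F A ⟨⟨⟨d1, d2⟩, d3⟩, ⟨i₀, hb⟩, p₁, p₂, z1, z2, z3, z4, z5, z6, z7⟩
  have hJr : 4 / c₁ < J := hJ₂.trans_le (by exact_mod_cast hJ)
  have r2 : 0 < 4 / c₁ := by positivity
  have hJ0 : (0 : ℝ) < J := by linarith
  have hu1 : (N : ℝ) * (J / N : ℕ) ≤ J := by exact_mod_cast Nat.mul_div_le J N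
  have hu0 : (0 : ℝ) ≤ (J / N : ℕ) := Nat.cast_nonneg _
  have hfl : ⌊h₁ * J⌋₊ ≤ ⌊c₁ * J⌋₊ := by
    refine Nat.floor_le_floor (mul_le_mul_of_nonneg_right ?_ hJ0.le)
    rw [hh₁]; linarith
  have hb1 : Lb F i₀ ⌊h₁ * J⌋₊ A := hb.mono hfl
  have hp₁N : p₁ < N + 1 := by omega
  have hp₂N : p₂ < N + 1 := by omega
  have hp12 : (p₁ : ℝ) ≤ p₂ := by exact_mod_cast z1
  have hzu : ((p₂ : ℝ) - p₁) * (J / N : ℕ) + h₂ / 4 * J + (J / N : ℕ) ≤ h₂ * J := by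
    have e1 : ((p₂ : ℝ) - p₁) * (J / N : ℕ) ≤ h₂ / 4 * J := by
      calc ((p₂ : ℝ) - p₁) * (J / N : ℕ) ≤ 2 * (e * N) * (J / N : ℕ) :=
            mul_le_mul_of_nonneg_right z6 hu0
        _ = 2 * e * (N * (J / N : ℕ)) := by ring
        _ ≤ 2 * e * J := mul_le_mul_of_nonneg_left hu1 (by positivity)
        _ ≤ _ := mul_le_mul_of_nonneg_right (by linarith) hJ0.le
    have e2 : ((J / N : ℕ) : ℝ) * 8 ≤ h₂ * J := by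
      calc ((J / N : ℕ) : ℝ) * 8 ≤ (J / N : ℕ) * (N * h₂) :=
            mul_le_mul_of_nonneg_left hNh.le hu0
        _ = h₂ * (N * (J / N : ℕ)) := by ring
        _ ≤ h₂ * J := mul_le_mul_of_nonneg_left hu1 hh₂0.le
    have e3 : 0 ≤ h₂ * J := by positivity
    linarith
  have key := induct (F := F) (A := A) (i₀ := i₀) (N := N) (u := J / N) (p₁ := p₁)
    (h₁ := h₁) (h₂ := h₂) (ω₀ := ω₀) (c₁ := c₁) (z := (p₂ : ℝ) - p₁) hNpos hu1 hh₁ hc₁ hh₂0 hh₂2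
    hω₀0 hb hb1 (by linarith) hzu
    (fun j k1 k2 k3 k4 k5 k6 h' hh' => by
      refine d1 (i₀, ⟨p₁, hp₁N⟩, ⟨j, by omega⟩) ⟨k1, ?_, k2, k3⟩ k4 k5 k6 h' (hh'.trans ?_)
      · have : X' * N ≤ (N : ℝ) - p₂ := z4
        change X' * N ≤ (N : ℝ) - p₁
        linarith
      · exact mul_le_mul_of_nonneg_right hh₂1 hJ0.le)
    (fun j k1 k2 k3 k4 k5 k6 =>
      d2 (i₀, ⟨p₁, hp₁N⟩, ⟨p₂, hp₂N⟩, ⟨j, by omega⟩) ⟨z1, z5, k1, k2, k3⟩ z7 k4 k5 k6)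
  obtain ⟨j, v, s1, s2, s3, s4, s5⟩ := last_scales hx hx1 hNx hNpos hω₀ z3
  have hcn := (key j s3).1 j le_rfl
  rw [s2] at hcn
  exact d3 (i₀, ⟨j, by omega⟩, ⟨v, by omega⟩) ⟨s4, s5⟩ hb1 hcn

end Pool.K2S
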