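import Mathlib

/-!
# Two-scale selection

A sequence with increments in `[0, 2]` whose mean increment on an interval is at most `2 - c` has a
subinterval, of length at least a fixed proportion, on all of whose long subintervals the mean
increment is at most `2 - c / 2`.
-/

set_option autoImplicit false

namespace Pool.K2S

open Finset

/-- The mean deficit. -/
noncomputable def mdf (f : ℕ → ℝ) (x : ℕ × ℕ) : ℝ :=
  2 - (f x.2 - f x.1) / ((x.2 : ℝ) - x.1)

theorem two_scale (c θ : ℝ) (hc : 0 < c) (hθ : 0 < θ) : ∃ ρ : ℝ, 0 < ρ ∧ ρ ≤ 1 ∧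
    ∀ (n₁ n₂ : ℕ) (f : ℕ → ℝ), n₁ < n₂ →
    (∀ s t : ℕ, s ≤ t → 0 ≤ f t - f s ∧ f t - f s ≤ 2 * ((t : ℝ) - s)) →
    f n₂ - f n₁ ≤ (2 - c) * ((n₂ : ℝ) - n₁) →
    ∃ s₀ t₀ : ℕ, n₁ ≤ s₀ ∧ s₀ < t₀ ∧ t₀ ≤ n₂ ∧ ρ * ((n₂ : ℝ) - n₁) ≤ (t₀ : ℝ) - s₀ ∧
      ∀ s t : ℕ, s₀ ≤ s → t ≤ t₀ → θ * ((t₀ : ℝ) - s₀) ≤ (t : ℝ) - s →
        f t - f s ≤ (2 - c / 2) * ((t : ℝ) - s) := by
  classical
  -- the parameter
  obtain ⟨q, hq⟩ : ∃ q, q = min (min θ (c / 16)) (1 / 2) := ⟨_, rfl⟩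
  have hq0 : 0 < q := by rw [hq]; positivity
  have hqθ : q ≤ θ := by rw [hq]; exact (min_le_left _ _).trans (min_le_left _ _)
  have hqc : q ≤ c / 16 := by rw [hq]; exact (min_le_left _ _).trans (min_le_right _ _)
  have hq1 : q ≤ 1 / 2 := by rw [hq]; exact min_le_right _ _
  obtain ⟨ε, hε⟩ : ∃ ε, ε = c * q / 8 := ⟨_, rfl⟩
  have hε0 : 0 < ε := by rw [hε]; positivity
  obtain ⟨K, hK⟩ := exists_nat_gt (2 / ε)
  have hK' : 2 < K * ε := by rwa [div_lt_iff₀ hε0] at hK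
  refine ⟨q ^ (2 * K), by positivity, pow_le_one₀ hq0.le (by linarith only [hq0, hq1]), ?_⟩
  intro n₁ n₂ f hn hf hfc
  have hn' : (0 : ℝ) < (n₂ : ℝ) - n₁ := by
    have : (n₁ : ℝ) < n₂ := by exact_mod_cast hn
    linarith only [this]
  set L : ℝ := (n₂ : ℝ) - n₁ with hL
  -- the pairs
  set P : ℕ → Finset (ℕ × ℕ) := fun k =>
    ((Finset.Icc n₁ n₂) ×ˢ (Finset.Icc n₁ n₂)).filter
      (fun x => q ^ (2 * k) * L ≤ (x.2 : ℝ) - x.1) with hP
  have hmem : ∀ k (x : ℕ × ℕ), x ∈ P k ↔ (n₁ ≤ x.1 ∧ x.1 ≤ n₂) ∧ (n₁ ≤ x.2 ∧ x.2 ≤ n₂) ∧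
      q ^ (2 * k) * L ≤ (x.2 : ℝ) - x.1 := by
    intro k x
    rw [hP]
    simp only [mem_filter, mem_product, mem_Icc, and_assoc]
  have h0 : ∀ k, (n₁, n₂) ∈ P k := by
    intro k
    rw [hmem]
    refine ⟨⟨le_rfl, hn.le⟩, ⟨hn.le, le_rfl⟩, ?_⟩
    show q ^ (2 * k) * L ≤ (n₂ : ℝ) - n₁
    have : q ^ (2 * k) ≤ 1 := pow_le_one₀ hq0.le (by linarith only [hq0, hq1])
    nlinarith only [hq0, hq1, hn', this]
  have hne : ∀ k, (P k).Nonempty := fun k => ⟨_, h0 k⟩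
  set M : ℕ → ℝ := fun k => (P k).sup' (hne k) (mdf f) with hM
  have hMge : ∀ k x, x ∈ P k → mdf f x ≤ M k := fun k x hx => Finset.le_sup' (mdf f) hx
  have hMex : ∀ k, ∃ x ∈ P k, M k = mdf f x := fun k => Finset.exists_mem_eq_sup' (hne k) (mdf f)
  have hMc : ∀ k, c ≤ M k := by
    intro k
    refine le_trans ?_ (hMge k _ (h0 k))
    show c ≤ 2 - (f n₂ - f n₁) / ((n₂ : ℝ) - n₁)
    rw [← hL]
    have : (f n₂ - f n₁) / L ≤ 2 - c := by
      rw [div_le_iff₀ hn']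
      linarith only [hfc]
    linarith only [this]
  have hM2 : ∀ k, M k ≤ 2 := by
    intro k
    obtain ⟨x, hx, hx'⟩ := hMex k
    rw [hx']
    unfold mdf
    have h1 := (hmem k x).1 hx
    have h2 : (0 : ℝ) < (x.2 : ℝ) - x.1 := lt_of_lt_of_le (by positivity) h1.2.2
    have h3 : x.1 ≤ x.2 := by
      have : (x.1 : ℝ) < x.2 := by linarith only [h2]
      exact_mod_cast this.le
    have h4 := (hf x.1 x.2 h3).1
    have : 0 ≤ (f x.2 - f x.1) / ((x.2 : ℝ) - x.1) := by positivity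
    linarith only [this]
  -- pigeonhole
  obtain ⟨k, hk, hkM⟩ : ∃ k < K, M (k + 1) ≤ M k + ε := by
    by_contra hcon
    push Not at hcon
    have h1 : ∀ n ≤ K, M 0 + n * ε ≤ M n := by
      intro n
      induction n with
      | zero => intro _; simp
      | succ n ih =>
        intro hn
        have h2 := ih (by omega)
        have h3 := hcon n (by omega)
        push_cast
        linarith only [h2, h3]
    have h2 := h1 K le_rfl
    have h3 := hMc 0
    have h4 := hM2 K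
    linarith only [hq0, hqc, hK', h2, h3, h4]
  obtain ⟨⟨s₀, t₀⟩, hx, hMx⟩ := hMex k
  obtain ⟨⟨a1, a2⟩, ⟨a3, a4⟩, a5⟩ := (hmem k _).1 hx
  simp only at a1 a2 a3 a4 a5
  have hI : (0 : ℝ) < (t₀ : ℝ) - s₀ := lt_of_lt_of_le (by positivity) a5
  have hst : s₀ < t₀ := by
    have : (s₀ : ℝ) < t₀ := by linarith only [hI]
    exact_mod_cast this
  refine ⟨s₀, t₀, a1, hst, a4, ?_, ?_⟩
  · refine le_trans ?_ a5
    refine mul_le_mul_of_nonneg_right ?_ hn'.le
    exact pow_le_pow_of_le_one hq0.le (by linarith only [hq0, hq1]) (by omega)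
  intro s t hs ht hlen
  set I : ℝ := (t₀ : ℝ) - s₀ with hI'
  have hlen' : q * I ≤ (t : ℝ) - s := le_trans (mul_le_mul_of_nonneg_right hqθ hI.le) hlen
  have hst' : (s : ℝ) < t := by
    have : 0 < q * I := by positivity
    linarith only [hlen', this]
  have hst'' : s < t := by exact_mod_cast hst'
  by_contra hcon
  push Not at hcon
  -- the deficit of the whole interval
  have e1 : 2 * I - (f t₀ - f s₀) = M k * I := by
    rw [hMx]
    unfold mdf
    simp only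
    rw [← hI']
    field_simp
  -- the outer pieces
  have outer : ∀ s' t' : ℕ, s₀ ≤ s' → s' ≤ t' → t' ≤ t₀ →
      2 * ((t' : ℝ) - s') - (f t' - f s') ≤ (M k + ε) * ((t' : ℝ) - s') + 2 * q ^ 2 * I := by
    intro s' t' h1 h2 h3
    have h4 : (s' : ℝ) ≤ t' := by exact_mod_cast h2
    by_cases hc1 : q ^ 2 * I ≤ (t' : ℝ) - s'
    · have h5 : (s', t') ∈ P (k + 1) := by
        rw [hmem]
        refine ⟨⟨by omega, by omega⟩, ⟨by omega, by omega⟩, ?_⟩
        show q ^ (2 * (k + 1)) * L ≤ (t' : ℝ) - s'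
        have : q ^ (2 * (k + 1)) * L = q ^ 2 * (q ^ (2 * k) * L) := by ring
        rw [this]
        exact le_trans (mul_le_mul_of_nonneg_left a5 (by positivity)) hc1
      have h6 := (hMge (k + 1) _ h5).trans hkM
      unfold mdf at h6
      simp only at h6
      have h7 : (0 : ℝ) < (t' : ℝ) - s' := lt_of_lt_of_le (by positivity) hc1
      have h8 : 2 - (M k + ε) ≤ (f t' - f s') / ((t' : ℝ) - s') := by linarith only [h6]
      rw [le_div_iff₀ h7] at h8
      have h9 : 0 ≤ 2 * q ^ 2 * I := by positivity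
      linarith only [h8, h9]
    · push Not at hc1
      have h5 := (hf s' t' h2).1
      have h6 : 0 ≤ (M k + ε) * ((t' : ℝ) - s') :=
        mul_nonneg (by have := hMc k; linarith only [hq0, hqc, hε0, this]) (by linarith only [h4])
      linarith only [hc1, h5, h6]
  have hs1 := outer s₀ s le_rfl hs (by omega)
  have ht1 := outer t t₀ (by omega) ht le_rfl
  have hMk := hMc k
  have hMk2 := hM2 k
  have e2 : 2 * ((t : ℝ) - s) - (f t - f s) < c / 2 * ((t : ℝ) - s) := by linarith only [hcon]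
  have e3 : M k * I ≤ c / 2 * ((t : ℝ) - s) + (M k + ε) * (I - ((t : ℝ) - s)) +
      4 * q ^ 2 * I := by
    have : I = ((s : ℝ) - s₀) + ((t : ℝ) - s) + ((t₀ : ℝ) - t) := by rw [hI']; ring
    have h9 : (M k + ε) * (I - ((t : ℝ) - s)) = (M k + ε) * ((s : ℝ) - s₀) +
        (M k + ε) * ((t₀ : ℝ) - t) := by rw [this]; ring
    rw [h9, ← e1]
    linarith only [hcon, hs1, ht1]
  have e4 : (M k + ε - c / 2) * ((t : ℝ) - s) ≤ ε * I + 4 * q ^ 2 * I := by linarith only [hcon, e1, hs1, ht1]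
  have e5 : (M k + ε - c / 2) * (q * I) ≤ (M k + ε - c / 2) * ((t : ℝ) - s) :=
    mul_le_mul_of_nonneg_left hlen' (by linarith only [hq0, hqc, hε0, hMk])
  have e6 : c / 2 * (q * I) ≤ (M k + ε - c / 2) * (q * I) :=
    mul_le_mul_of_nonneg_right (by linarith only [hε0, hMk]) (by positivity)
  have e7 : c / 2 * q ≤ ε + 4 * q ^ 2 := by
    have : c / 2 * q * I ≤ (ε + 4 * q ^ 2) * I := by linarith only [hcon, e1, hs1, ht1, e5, e6]
    exact le_of_mul_le_mul_right this hI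
  have e8 : 4 * q ^ 2 ≤ c * q / 4 := by nlinarith only [hε, hε0, e7, hq0, hqc]
  have e9 : 0 < c * q := by positivity
  rw [hε] at e7
  linarith only [hε, hε0, e7, e8]

end Pool.K2S
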