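import Pool.Agent.H13.K2S.Zon
import Pool.Agent.H13.K2S.Two

/-!
# The macroscopic part of (ENG): a two-scale zone and its crossing

(ENG) follows from (MNJ), no jumps over rows which are not full, and (MIC), the crossing of a zone
in which all long intervals of rows are not full.
-/

set_option autoImplicit false

namespace Pool.K2S

open Finset Real
open Pool.Agent.H49.Ent Pool.Agent.H32.Dense Pool.STK Pool.KA Pool.KSAT

/-- **(MNJ)** No jumps: if the frames of the windows `v + 1` are conserved up to the row `t` and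
those of the windows `v` are not conserved up to the row `s`, then the rows `(s, t]` are full up
to `η N` rows. -/
def MNJStmt : Prop :=
  ∀ a R : ℝ, 1 < a → 0 < R → UBa 2 a R → ∀ η μ h₁ ω₀ : ℝ, 0 < η → 0 < μ →
    0 < h₁ → 0 < ω₀ → ∃ N₁ : ℕ, ∀ N ≥ N₁, ∀ (i₀ : Fin 2) (v s t : ℕ), v ≤ s → s ≤ t →
    v + 1 ≤ t → ω₀ * N ≤ (v : ℝ) → ω₀ * N ≤ (N : ℝ) - t →
    Claim (m := 2) a R (fun J F A => Lb F i₀ ⌊h₁ * J⌋₊ A →
      (∀ h : ℕ, (h : ℝ) ≤ ((t : ℝ) - v) * (J / N : ℕ) + μ * J → Ln F i₀ h A) →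
      Cn F i₀ ((t - (v + 1)) * (J / N)) ((v + 1) * (J / N)) A →
      ¬ Cn F i₀ ((s - v) * (J / N)) (v * (J / N)) A →
      (2 * ((t : ℝ) - s) - η * N) * ((J / N : ℕ) * Real.log 2) ≤
        CH (Pool.Agent.H49.Ent.cond F.p A True) (F.X (t * (J / N)))
          (fun ω => (F.X (s * (J / N)) ω, F.W ω)))

/-- **(MIC)** The engine proper: the critical row `w + lam w` cannot cross a zone `(pa, pb]` all of
whose long subintervals (of relative length at least `θ`) have unsaturated rows. -/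
def MICStmt : Prop :=
  ∀ a R : ℝ, 1 < a → 0 < R → UBa 2 a R → ∀ c μ h₁ ω₀ : ℝ, 0 < c → 0 < μ → 0 < h₁ → 0 < ω₀ →
    ∃ θ : ℝ, 0 < θ ∧ ∀ e : ℝ, 0 < e → ∃ N₁ : ℕ, ∀ N ≥ N₁, ∀ (i₀ : Fin 2) (pa pb wa wb : ℕ)
    (lam : ℕ → ℕ), e * N ≤ (pb : ℝ) - pa → ω₀ * N ≤ (wa : ℝ) → wa ≤ wb →
    ω₀ * N ≤ (N : ℝ) - pb →
    (∀ w, wa ≤ w → w ≤ wb → pa ≤ w + lam w ∧ w + lam w ≤ pb) →
    (∀ w, wa ≤ w → w < wb → lam w ≤ lam (w + 1) ∧
      (lam (w + 1) : ℝ) ≤ lam w + θ * ((pb : ℝ) - pa)) →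
    (wa : ℝ) + lam wa ≤ pa + θ * ((pb : ℝ) - pa) →
    (pb : ℝ) - θ * ((pb : ℝ) - pa) ≤ wb + lam wb →
    Claim (m := 2) a R (fun J F A =>
      (∀ s t : ℕ, pa ≤ s → t ≤ pb → θ * ((pb : ℝ) - pa) ≤ (t : ℝ) - s →
        CH (Pool.Agent.H49.Ent.cond F.p A True) (F.X (t * (J / N)))
          (fun ω => (F.X (s * (J / N)) ω, F.W ω)) ≤
        (2 - c) * (((t : ℝ) - s) * ((J / N : ℕ) * Real.log 2))) →
      Lb F i₀ ⌊h₁ * J⌋₊ A →
      (∀ h : ℕ, (h : ℝ) ≤ ((pb : ℝ) - wa) * (J / N : ℕ) + μ * J → Ln F i₀ h A) →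
      (∀ w, wa ≤ w → w ≤ wb → Cn F i₀ (lam w * (J / N)) (w * (J / N)) A ∧
        ¬ Cn F i₀ ((lam w + 1) * (J / N)) (w * (J / N)) A) → False)

/-- The rows have at most full entropy. -/
theorem row_ub {Ω S : Type} [Fintype Ω] {m : ℕ} {p : Ω → ℝ} (hp : IsLaw p) (x : Ω → Fin m → ℝ)
    (W : Ω → S) (i k : ℕ) : CH p (fun ω => fl (i + k) (x ω)) (fun ω => (fl i (x ω), W ω)) ≤
      m * (k * Real.log 2) := by
  classical
  have h1 := CH_le_card hp.nonneg hp.sum_one (fun ω => fl (i + k) (x ω))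
    (fun ω => (fl i (x ω), W ω))
    (fun w => Fintype.piFinset fun j => Finset.Ico (2 ^ k * w.1 j) (2 ^ k * w.1 j + 2 ^ k))
    (fun ω _ => by
      rw [Fintype.mem_piFinset]
      intro j
      rw [Finset.mem_Ico]
      show 2 ^ k * ⌊(2 : ℝ) ^ i * x ω j⌋ ≤ ⌊(2 : ℝ) ^ (i + k) * x ω j⌋ ∧
        ⌊(2 : ℝ) ^ (i + k) * x ω j⌋ < 2 ^ k * ⌊(2 : ℝ) ^ i * x ω j⌋ + 2 ^ k
      have e1 : (2 : ℝ) ^ (i + k) * x ω j = 2 ^ k * (2 ^ i * x ω j) := by
        rw [pow_add]; ring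
      rw [e1]
      have h2 := Int.floor_le ((2 : ℝ) ^ i * x ω j)
      have h3 := Int.lt_floor_add_one ((2 : ℝ) ^ i * x ω j)
      have h4 : (0 : ℝ) < 2 ^ k := by positivity
      refine ⟨Int.le_floor.2 ?_, Int.floor_lt.2 ?_⟩
      · push_cast
        exact mul_le_mul_of_nonneg_left h2 h4.le
      · push_cast
        have := mul_lt_mul_of_pos_left h3 h4
        linarith only [this])
  refine h1.trans (le_of_eq ?_)
  have h2 : ∀ ω, Real.log ((Fintype.piFinset fun j : Fin m =>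
      Finset.Ico (2 ^ k * fl i (x ω) j) (2 ^ k * fl i (x ω) j + 2 ^ k)).card) =
      m * (k * Real.log 2) := by
    intro ω
    have e1 : ((Fintype.piFinset fun j : Fin m =>
      Finset.Ico (2 ^ k * fl i (x ω) j) (2 ^ k * fl i (x ω) j + 2 ^ k)).card) =
        (2 ^ k) ^ m := by
      rw [Fintype.card_piFinset]
      have : ∀ j : Fin m, (Finset.Ico (2 ^ k * fl i (x ω) j)
          (2 ^ k * fl i (x ω) j + 2 ^ k)).card = 2 ^ k := by
        intro j
        rw [Int.card_Ico]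
        have : (2 ^ k * fl i (x ω) j + 2 ^ k - 2 ^ k * fl i (x ω) j) = ((2 ^ k : ℕ) : ℤ) := by
          push_cast; ring
        rw [this, Int.toNat_natCast]
      simp only [this]
      simp
    rw [e1]
    push_cast
    rw [Real.log_pow, Real.log_pow]
  unfold Ex
  simp only [h2]
  rw [← Finset.sum_mul, hp.sum_one, one_mul]

/-- Conservation is monotone in the precision. -/
theorem Cn.mono {m J : ℕ} {F : Fam m J} {i₀ : Fin m} {l l' w : ℕ} (hl : l' ≤ l)
    {A : F.Ω → Prop} (h : Cn F i₀ l w A) : Cn F i₀ l' w A := by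
  have : (1 : ℝ) / 2 ^ l ≤ 1 / 2 ^ l' :=
    one_div_le_one_div_of_le (by positivity) (pow_le_pow_right₀ (by norm_num) hl)
  exact RotU.mono this this h

/-- Conservation is monotone in the window. -/
theorem Cn.mono_w {m J : ℕ} {F : Fam m J} {i₀ : Fin m} {l w w' : ℕ} (hw : w ≤ w')
    (hw' : w' ≤ J) {A : F.Ω → Prop} (h : Cn F i₀ l w A) : Cn F i₀ l w' A := by
  obtain ⟨K, rfl⟩ := Nat.exists_eq_add_of_le hw
  refine RotU.window (φ := fun v => (v.1, v.2.1, v.2.2 / 2 ^ K)) (fun ω => ?_) h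
  show (F.l ω, F.Z ω, F.T1 w ω) = (F.l ω, F.Z ω, F.T1 (w + K) ω / 2 ^ K)
  rw [T1_div F hw' ω]

/-- The crossing of a zone by the critical row. -/
theorem crossing (Q : ℕ → ℕ → Prop) {w₀ pa pb : ℕ} {δ : ℝ}
    (hQ0 : ∀ w, Q 0 w) (hQl : ∀ l l' w, l' ≤ l → Q l w → Q l' w)
    (hQw : ∀ l w w', w ≤ w' → w' ≤ pb → Q l w → Q l w')
    (hw₀ : w₀ ≤ pa) (hpab : pa ≤ pb) (hδ : δ ≤ (pb : ℝ) - pa)
    (h0 : ¬ Q (pa - w₀) w₀)
    (hj : ∀ w s t : ℕ, w₀ ≤ w → w ≤ s → s ≤ t → w + 1 ≤ t → pa ≤ s → t ≤ pb →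
      Q (t - (w + 1)) (w + 1) → ¬ Q (s - w) w → (t : ℝ) - s < δ) :
    ∃ (wa wb : ℕ) (lam : ℕ → ℕ), w₀ < wa ∧ wa ≤ wb ∧ wb ≤ pb ∧ (∀ w, lam w ≤ pb + 1) ∧
      (∀ w, wa ≤ w → w ≤ wb → pa ≤ w + lam w ∧ w + lam w ≤ pb) ∧
      (∀ w, wa ≤ w → w < wb → lam w ≤ lam (w + 1) ∧ (lam (w + 1) : ℝ) ≤ lam w + δ) ∧
      (wa : ℝ) + lam wa ≤ pa + δ ∧ (pb : ℝ) - (δ + 1) ≤ wb + lam wb ∧
      ∀ w, wa ≤ w → w ≤ wb → Q (lam w) w ∧ ¬ Q (lam w + 1) w := by
  classical
  obtain ⟨lam, hlam⟩ : ∃ lam : ℕ → ℕ, lam = fun w => Nat.findGreatest (fun l => Q l w)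
    (pb + 1 - w) := ⟨_, rfl⟩
  have l1 : ∀ w, lam w ≤ pb + 1 - w := fun w => by rw [hlam]; exact Nat.findGreatest_le _
  have l2 : ∀ w, Q (lam w) w := fun w => by
    rw [hlam]
    exact Nat.findGreatest_spec (P := fun l => Q l w) (Nat.zero_le _) (hQ0 w)
  have l3 : ∀ w l, l ≤ pb + 1 - w → Q l w → l ≤ lam w := fun w l h h' => by
    rw [hlam]
    exact Nat.le_findGreatest (P := fun l => Q l w) h h'
  have l4 : ∀ w, w ≤ pb → w + lam w ≤ pb → ¬ Q (lam w + 1) w := fun w h h' hq => by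
    have := l3 w _ (by omega) hq
    omega
  have l5 : ∀ w w', w ≤ w' → w' ≤ pb → w + lam w ≤ w' + lam w' := fun w w' h h' => by
    have h2 := hQw _ _ _ h h' (l2 w)
    by_cases h3 : lam w ≤ pb + 1 - w'
    · have := l3 w' _ h3 h2
      omega
    · have h4 := l3 w' (pb + 1 - w') le_rfl (hQl _ _ _ (by omega) h2)
      have h5 := l1 w
      omega
  -- the first window
  have hex : ∃ w, w₀ ≤ w ∧ pa ≤ w + lam w := ⟨pa, hw₀, Nat.le_add_right _ _⟩
  obtain ⟨wa, ⟨ha1, ha2⟩, ha3⟩ : ∃ wa, (w₀ ≤ wa ∧ pa ≤ wa + lam wa) ∧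
      ∀ w < wa, ¬ (w₀ ≤ w ∧ pa ≤ w + lam w) :=
    ⟨Nat.find hex, Nat.find_spec hex, fun w hw => Nat.find_min hex hw⟩
  have ha4 : wa ≤ pa := by
    by_contra hcon
    exact ha3 pa (by omega) ⟨hw₀, Nat.le_add_right _ _⟩
  have ha5 : w₀ < wa := by
    rcases Nat.eq_or_lt_of_le ha1 with h | h
    · exfalso
      rw [← h] at ha2
      exact h0 (hQl _ _ _ (by omega) (l2 w₀))
    · exact h
  exact by
   have ha6 : ¬ Q (pa - (wa - 1)) (wa - 1) := fun hq => by
     refine ha3 (wa - 1) (by omega) ⟨by omega, ?_⟩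
     have := l3 (wa - 1) _ (by omega) hq
     omega
   have ha7 : wa + lam wa ≤ pb ∧ (wa : ℝ) + lam wa ≤ pa + δ := by
     have e1 : wa - 1 + 1 = wa := by omega
     have key := hj (wa - 1) pa (min (wa + lam wa) pb) (by omega) (by omega)
       (le_min ha2 hpab) (by rw [e1]; exact le_min (by omega) (by omega)) le_rfl
       (min_le_right _ _)
       (by rw [e1]; exact hQl _ _ _ (by omega) (l2 wa)) ha6
     rcases Nat.le_total (wa + lam wa) pb with h | h
     · rw [min_eq_left h] at key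
       push_cast at key
       exact ⟨h, by linarith only [key]⟩
     · rw [min_eq_right h] at key
       linarith only [hδ, key]
   -- the last window
   obtain ⟨wb, hwb⟩ : ∃ wb, wb = Nat.findGreatest (fun w => wa ≤ w ∧ w + lam w ≤ pb) pb :=
     ⟨_, rfl⟩
   have b0 : wb ≤ pb := by rw [hwb]; exact Nat.findGreatest_le _
   obtain ⟨b1, b2⟩ : wa ≤ wb ∧ wb + lam wb ≤ pb := by
     rw [hwb]
     exact Nat.findGreatest_spec (P := fun w => wa ≤ w ∧ w + lam w ≤ pb) (n := pb) (m := wa)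
       (by omega) ⟨le_rfl, ha7.1⟩
   have b3 : ∀ w, wb < w → w ≤ pb → pb < w + lam w := fun w h h' => by
     by_contra hcon
     have : w ≤ wb := by
       rw [hwb]
       exact Nat.le_findGreatest (P := fun w => wa ≤ w ∧ w + lam w ≤ pb) h'
         ⟨by omega, by omega⟩
     omega
   exact by
    have b4 : (pb : ℝ) - (δ + 1) ≤ wb + lam wb := by
      rcases Nat.eq_or_lt_of_le b2 with h | h
      · have h1 : ((wb + lam wb : ℕ) : ℝ) = pb := by exact_mod_cast h
        have h2 : 0 ≤ δ := by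
          have h3 : ((wa + lam wa : ℕ) : ℝ) ≤ pa + δ := by push_cast; exact ha7.2
          have h4 : (pa : ℝ) ≤ (wa + lam wa : ℕ) := by exact_mod_cast ha2
          linarith only [h3, h4]
        push_cast at h1
        linarith only [h2, h1]
      · have h1 : wb < pb := by omega
        have h2 := b3 (wb + 1) (by omega) (by omega)
        have key := hj wb (wb + lam wb + 1) pb (by omega) (by omega) (by omega) (by omega)
          (by have := l5 wa wb b1 b0; omega) le_rfl (hQl _ _ _ (by omega) (l2 (wb + 1)))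
          (by
            have : wb + lam wb + 1 - wb = lam wb + 1 := by omega
            rw [this]
            exact l4 wb b0 b2)
        push_cast at key
        linarith only [key]
    have b5 : ∀ w, wa ≤ w → w ≤ wb → pa ≤ w + lam w ∧ w + lam w ≤ pb := fun w h h' => by
      have h1 := l5 wa w h (by omega)
      have h2 := l5 w wb h' b0
      omega
    refine ⟨wa, wb, lam, ha5, b1, b0, fun w => (l1 w).trans (Nat.sub_le _ _), b5, ?_, ha7.2, b4,
      fun w h h' => ⟨l2 w, l4 w (by omega) (b5 w h h').2⟩⟩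
    intro w h h'
    obtain ⟨c1, c2⟩ := b5 w h (by omega)
    obtain ⟨c3, c4⟩ := b5 (w + 1) (by omega) (by omega)
    have h2 := hQw _ _ _ (Nat.le_succ w) (by omega) (l2 w)
    have h3 : lam w ≤ lam (w + 1) := by
      by_cases h3 : lam w ≤ pb + 1 - (w + 1)
      · exact l3 (w + 1) _ h3 h2
      · have h4 := l3 (w + 1) (pb + 1 - (w + 1)) le_rfl (hQl _ _ _ (by omega) h2)
        omega
    exact by
     refine ⟨h3, ?_⟩
     have key := hj w (w + lam w + 1) (w + 1 + lam (w + 1)) (by omega) (by omega) (by omega)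
       (by omega) (by omega) c4
       (by
         have : w + 1 + lam (w + 1) - (w + 1) = lam (w + 1) := by omega
         rw [this]
         exact l2 (w + 1))
       (by
         have : w + lam w + 1 - w = lam w + 1 := by omega
         rw [this]
         exact l4 w (by omega) c2)
     push_cast at key
     linarith only [key]

/-- The rows of the mesh, in units of full rows. -/
noncomputable def rowf {m J : ℕ} (F : Fam m J) (A : F.Ω → Prop) (u t : ℕ) : ℝ :=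
  CH (Pool.Agent.H49.Ent.cond F.p A True) (F.X (t * u)) F.W / (u * Real.log 2)

theorem rowf_eq {J : ℕ} (F : Fam 2 J) (A : F.Ω → Prop)
    (hq : IsLaw (Pool.Agent.H49.Ent.cond F.p A True)) {u : ℕ} (hu : 0 < u) {s t : ℕ}
    (h : s ≤ t) : (rowf F A u t - rowf F A u s) * (u * Real.log 2) =
      CH (Pool.Agent.H49.Ent.cond F.p A True) (F.X (t * u))
        (fun ω => (F.X (s * u) ω, F.W ω)) := by
  have hl2 : 0 < Real.log 2 := Real.log_pos (by norm_num)
  have hur : (0 : ℝ) < u := by exact_mod_cast hu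
  have h1 := Rows.chain_det hq.nonneg (F.X (t * u)) (F.X (s * u)) F.W
    fun ω ω' _ _ e => Pool.STK.B58.fl_fine (Nat.mul_le_mul_right u h) e
  unfold rowf
  rw [sub_mul, div_mul_cancel₀ _ (by positivity), div_mul_cancel₀ _ (by positivity)]
  linarith only [h1]

theorem rowf_bd {J : ℕ} (F : Fam 2 J) (A : F.Ω → Prop)
    (hq : IsLaw (Pool.Agent.H49.Ent.cond F.p A True)) {u : ℕ} (hu : 0 < u) (s t : ℕ)
    (h : s ≤ t) : 0 ≤ rowf F A u t - rowf F A u s ∧
      rowf F A u t - rowf F A u s ≤ 2 * ((t : ℝ) - s) := by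
  have hl2 : 0 < Real.log 2 := Real.log_pos (by norm_num)
  have hur : (0 : ℝ) < u := by exact_mod_cast hu
  have h1 := rowf_eq F A hq hu h
  have h2 := CH_nonneg hq.nonneg (F.X (t * u)) (fun ω => (F.X (s * u) ω, F.W ω))
  have h3 : CH (Pool.Agent.H49.Ent.cond F.p A True) (F.X (t * u))
      (fun ω => (F.X (s * u) ω, F.W ω)) ≤ 2 * (((t - s) * u : ℕ) * Real.log 2) := by
    have e1 : t * u = s * u + (t - s) * u := by
      rw [← Nat.add_mul]
      congr 1
      omega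
    have := row_ub hq F.x F.W (s * u) ((t - s) * u)
    rw [← e1] at this
    exact_mod_cast this
  have hpos : (0 : ℝ) < u * Real.log 2 := by positivity
  constructor
  · by_contra hcon
    push Not at hcon
    have := mul_neg_of_neg_of_pos hcon hpos
    linarith only [h1, h2, this]
  · refine le_of_mul_le_mul_right ?_ hpos
    rw [h1]
    refine h3.trans (le_of_eq ?_)
    push_cast [Nat.cast_sub h]
    ring

/-- The arithmetic of a jump: a long interval of rows which are not full is not jumped over. -/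
theorem jump_arith {c θ n k N e η x : ℝ} (hc : 0 < c) (hθ : 0 < θ)
    (hn : e * N ≤ n) (hη : η = c * θ * e / 32)
    (hk : θ / 2 * n ≤ k) (h1 : 2 * k - η * N ≤ x)
    (h2 : x ≤ (2 - c / 4) * k) (hpos : 0 < c * θ * e * N) : False := by
  have h3 : c / 4 * k ≤ η * N := by linarith only [h1, h2]
  have h4 : c / 4 * (θ / 2 * n) ≤ c / 4 * k := mul_le_mul_of_nonneg_left hk (by linarith only [hc])
  have h5 : c / 4 * (θ / 2 * (e * N)) ≤ c / 4 * (θ / 2 * n) :=
    mul_le_mul_of_nonneg_left (mul_le_mul_of_nonneg_left hn (by linarith only [hθ])) (by linarith only [hc])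
  rw [hη] at h3
  nlinarith only [hpos, h3, h4, h5]

theorem eng_thm (hMNJ : MNJStmt) (hMIC : MICStmt) : ENGStmt := by
  classical
  intro a R ha hR hU c₀ e μ h₁ ω₀ hc₀ he hμ hh₁ hω₀
  have hl2 : 0 < Real.log 2 := Real.log_pos (by norm_num)
  obtain ⟨c, hc⟩ : ∃ c, c = min c₀ 1 := ⟨_, rfl⟩
  have hc0 : 0 < c := by rw [hc]; exact lt_min hc₀ one_pos
  have hcc : c ≤ c₀ := by rw [hc]; exact min_le_left _ _
  have hc1 : c ≤ 1 := by rw [hc]; exact min_le_right _ _
  obtain ⟨ω₁, hω₁⟩ : ∃ ω₁, ω₁ = min ω₀ (c * e / 16) := ⟨_, rfl⟩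
  have hω₁0 : 0 < ω₁ := by rw [hω₁]; exact lt_min hω₀ (by positivity)
  have hω₁ω : ω₁ ≤ ω₀ := by rw [hω₁]; exact min_le_left _ _
  have hω₁c : ω₁ ≤ c * e / 16 := by rw [hω₁]; exact min_le_right _ _
  have hmnj := hMNJ a R ha hR hU
  obtain ⟨θ₀, hθ₀, hmic⟩ := hMIC a R ha hR hU (c / 4) μ h₁ ω₁ (by linarith only [hc0]) hμ hh₁ hω₁0
  obtain ⟨θ, hθe⟩ : ∃ θ, θ = min θ₀ 1 := ⟨_, rfl⟩
  have hθ : 0 < θ := by rw [hθe]; exact lt_min hθ₀ one_pos
  have hθθ : θ ≤ θ₀ := by rw [hθe]; exact min_le_left _ _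
  have hθ1 : θ ≤ 1 := by rw [hθe]; exact min_le_right _ _
  obtain ⟨ρ, hρ, hρ1, htwo⟩ := two_scale (c / 2) (θ / 2) (by linarith only [hc0]) (by linarith only [hθ])
  obtain ⟨e', he'⟩ : ∃ e', e' = ρ * (e / 2) := ⟨_, rfl⟩
  have he'0 : 0 < e' := by rw [he']; positivity
  obtain ⟨N₁, hmic⟩ := hmic e' he'0
  obtain ⟨η, hη⟩ : ∃ η, η = c * θ * e' / 32 := ⟨_, rfl⟩
  have hη0 : 0 < η := by rw [hη]; positivity
  obtain ⟨N₂, hmnj⟩ := hmnj η μ h₁ ω₁ hη0 hμ hh₁ hω₁0
  obtain ⟨N₃, hN₃⟩ := exists_nat_gt (32 / (c * e) + 2 / (θ * e') + 1)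
  refine ⟨max N₁ (max N₂ N₃), fun N hN i₀ p₁ p₂ j hp12 hp2N hep hjp hj1 hωp => ?_⟩
  have hN1 : N₁ ≤ N := (le_max_left _ _).trans hN
  have hN2 : N₂ ≤ N := (le_max_left _ _).trans ((le_max_right _ _).trans hN)
  have hN3 : N₃ ≤ N := (le_max_right _ _).trans ((le_max_right _ _).trans hN)
  have hNr : 32 / (c * e) + 2 / (θ * e') + 1 < N :=
    hN₃.trans_le (by exact_mod_cast hN3)
  exact by
   have q2 : 0 < 32 / (c * e) := by positivity
   have q3 : 0 < 2 / (θ * e') := by positivity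
   have hNpos : (0 : ℝ) < N := by linarith only [hNr, q2, q3]
   have hN0 : 0 < N := by exact_mod_cast hNpos
   have r2 : 32 ≤ c * e * N := by
     have : 32 / (c * e) ≤ N := by linarith only [hNr, q3]
     rw [div_le_iff₀ (by positivity)] at this
     linarith only [this]
   have r3 : 2 ≤ θ * e' * N := by
     have : 2 / (θ * e') ≤ N := by linarith only [hNr, q2]
     rw [div_le_iff₀ (by positivity)] at this
     linarith only [this]
   -- the zone without its top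
   obtain ⟨k, hk⟩ : ∃ k, k = ⌊c / 8 * ((p₂ : ℝ) - p₁)⌋₊ := ⟨_, rfl⟩
   have hp12r : 0 < (p₂ : ℝ) - p₁ := lt_of_lt_of_le (by positivity) hep
   have hk1 : (k : ℝ) ≤ c / 8 * ((p₂ : ℝ) - p₁) := by
     rw [hk]; exact Nat.floor_le (by positivity)
   have hk2 : c / 8 * ((p₂ : ℝ) - p₁) < k + 1 := by rw [hk]; exact Nat.lt_floor_add_one _
   have hk3 : k ≤ p₂ := by
     have h1 : (k : ℝ) ≤ p₂ := by
       have : c / 8 * ((p₂ : ℝ) - p₁) ≤ 1 * ((p₂ : ℝ) - p₁) :=
         mul_le_mul_of_nonneg_right (by linarith only [hc1]) hp12r.le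
       have : (0 : ℝ) ≤ p₁ := Nat.cast_nonneg _
       linarith
     exact_mod_cast h1
   obtain ⟨p₃, hp₃⟩ : ∃ p₃, p₃ = p₂ - k := ⟨_, rfl⟩
   have hp₃r : (p₃ : ℝ) = p₂ - k := by rw [hp₃, Nat.cast_sub hk3]
   have hp13 : ((p₂ : ℝ) - p₁) / 2 ≤ (p₃ : ℝ) - p₁ := by
     rw [hp₃r]
     have : c / 8 * ((p₂ : ℝ) - p₁) ≤ 1 / 8 * ((p₂ : ℝ) - p₁) :=
       mul_le_mul_of_nonneg_right (by linarith only [hc1]) hp12r.le
     linarith only [hp12r, hk1, this]
   exact by
    have hp13' : p₁ < p₃ := by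
      have : (p₁ : ℝ) < p₃ := by linarith only [hp12r, hp13]
      exact_mod_cast this
    have hp32 : p₃ ≤ p₂ := by rw [hp₃]; exact Nat.sub_le _ _
    have hω₁p : ∀ t : ℕ, t ≤ p₃ → ω₁ * N ≤ (N : ℝ) - t := by
      intro t ht
      have h1 : (t : ℝ) ≤ p₃ := by exact_mod_cast ht
      have h2 : (p₂ : ℝ) ≤ N := by exact_mod_cast hp2N
      have h3 : c / 8 * (e * N) ≤ c / 8 * ((p₂ : ℝ) - p₁) :=
        mul_le_mul_of_nonneg_left hep (by positivity)
      have h4 : ω₁ * N ≤ c * e / 16 * N := mul_le_mul_of_nonneg_right hω₁c hNpos.le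
      nlinarith only [r2, hk2, hp₃r, h1, h2, h3, h4]
    have hωp' : ω₁ * N ≤ (p₁ : ℝ) - j := by
      refine le_trans (mul_le_mul_of_nonneg_right hω₁ω hNpos.le) hωp
    -- the claims
    have hA : Claim (m := 2) a R (fun J F A => ∀ x : Fin (N + 1) × Fin (N + 1) × Fin (N + 1),
        ((x.1 : ℕ) ≤ x.2.1 ∧ (x.2.1 : ℕ) ≤ x.2.2 ∧ (x.1 : ℕ) + 1 ≤ x.2.2 ∧
          ω₁ * N ≤ ((x.1 : ℕ) : ℝ) ∧ ω₁ * N ≤ (N : ℝ) - ((x.2.2 : ℕ) : ℝ)) →
        Lb F i₀ ⌊h₁ * J⌋₊ A →
        (∀ h : ℕ, (h : ℝ) ≤ (((x.2.2 : ℕ) : ℝ) - ((x.1 : ℕ) : ℝ)) * (J / N : ℕ) + μ * J →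
          Ln F i₀ h A) →
        Cn F i₀ (((x.2.2 : ℕ) - ((x.1 : ℕ) + 1)) * (J / N)) (((x.1 : ℕ) + 1) * (J / N)) A →
        ¬ Cn F i₀ (((x.2.1 : ℕ) - (x.1 : ℕ)) * (J / N)) ((x.1 : ℕ) * (J / N)) A →
        (2 * (((x.2.2 : ℕ) : ℝ) - ((x.2.1 : ℕ) : ℝ)) - η * N) *
            ((J / N : ℕ) * Real.log 2) ≤
          CH (Pool.Agent.H49.Ent.cond F.p A True) (F.X ((x.2.2 : ℕ) * (J / N)))
            (fun ω => (F.X ((x.2.1 : ℕ) * (J / N)) ω, F.W ω))) := by
      refine Claim.finite fun x => Claim.cnd fun hx => ?_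
      exact hmnj N hN2 i₀ (x.1 : ℕ) (x.2.1 : ℕ) (x.2.2 : ℕ) hx.1 hx.2.1 hx.2.2.1
        hx.2.2.2.1 hx.2.2.2.2
    exact by
     obtain ⟨ext, hext⟩ : ∃ ext : (Fin (N + 1) → Fin (N + 2)) → ℕ → ℕ, ext = fun g w =>
         if h : w < N + 1 then ((g ⟨w, h⟩ : Fin (N + 2)) : ℕ) else 0 := ⟨_, rfl⟩
     have hB : Claim (m := 2) a R (fun J F A => ∀ x : (Fin (N + 1) × Fin (N + 1)) ×
         (Fin (N + 1) × Fin (N + 1)) × (Fin (N + 1) → Fin (N + 2)),
         (e' * N ≤ (((x.1.2 : ℕ) : ℝ)) - ((x.1.1 : ℕ) : ℝ) ∧ ω₁ * N ≤ (((x.2.1.1 : ℕ) : ℝ)) ∧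
           (x.2.1.1 : ℕ) ≤ x.2.1.2 ∧ ω₁ * N ≤ (N : ℝ) - ((x.1.2 : ℕ) : ℝ) ∧
           (∀ w, (x.2.1.1 : ℕ) ≤ w → w ≤ (x.2.1.2 : ℕ) →
             (x.1.1 : ℕ) ≤ w + ext x.2.2 w ∧ w + ext x.2.2 w ≤ (x.1.2 : ℕ)) ∧
           (∀ w, (x.2.1.1 : ℕ) ≤ w → w < (x.2.1.2 : ℕ) → ext x.2.2 w ≤ ext x.2.2 (w + 1) ∧
             (ext x.2.2 (w + 1) : ℝ) ≤ ext x.2.2 w +
               θ₀ * ((((x.1.2 : ℕ) : ℝ)) - ((x.1.1 : ℕ) : ℝ))) ∧
           ((x.2.1.1 : ℕ) : ℝ) + ext x.2.2 (x.2.1.1 : ℕ) ≤ ((x.1.1 : ℕ) : ℝ) +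
             θ₀ * ((((x.1.2 : ℕ) : ℝ)) - ((x.1.1 : ℕ) : ℝ)) ∧
           ((x.1.2 : ℕ) : ℝ) - θ₀ * ((((x.1.2 : ℕ) : ℝ)) - ((x.1.1 : ℕ) : ℝ)) ≤
             ((x.2.1.2 : ℕ) : ℝ) + ext x.2.2 (x.2.1.2 : ℕ)) →
         (∀ s t : ℕ, (x.1.1 : ℕ) ≤ s → t ≤ (x.1.2 : ℕ) →
           θ₀ * ((((x.1.2 : ℕ) : ℝ)) - ((x.1.1 : ℕ) : ℝ)) ≤ (t : ℝ) - s →
           CH (Pool.Agent.H49.Ent.cond F.p A True) (F.X (t * (J / N)))
             (fun ω => (F.X (s * (J / N)) ω, F.W ω)) ≤
           (2 - c / 4) * (((t : ℝ) - s) * ((J / N : ℕ) * Real.log 2))) →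
         Lb F i₀ ⌊h₁ * J⌋₊ A →
         (∀ h : ℕ, (h : ℝ) ≤ (((x.1.2 : ℕ) : ℝ) - ((x.2.1.1 : ℕ) : ℝ)) * (J / N : ℕ) + μ * J →
           Ln F i₀ h A) →
         (∀ w, (x.2.1.1 : ℕ) ≤ w → w ≤ (x.2.1.2 : ℕ) →
           Cn F i₀ (ext x.2.2 w * (J / N)) (w * (J / N)) A ∧
           ¬ Cn F i₀ ((ext x.2.2 w + 1) * (J / N)) (w * (J / N)) A) → False) := by
       refine Claim.finite fun x => Claim.cnd fun hx => ?_
       obtain ⟨x1, x2, x3, x4, x5, x6, x7, x8⟩ := hx
       exact hmic N hN1 i₀ (x.1.1 : ℕ) (x.1.2 : ℕ) (x.2.1.1 : ℕ) (x.2.1.2 : ℕ) (ext x.2.2)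
         x1 x2 x3 x4 x5 x6 x7 x8
     -- the large event
     exact by
      have hL : Claim (m := 2) a R (fun J F A => IsLaw (Pool.Agent.H49.Ent.cond F.p A True)) := by
        refine Claim.of one_pos 0 fun J _ F A hS => ?_
        obtain ⟨h, -⟩ := hS.res ha.le zero_le_one
        exact h
      refine Claim.mono N ?_ ((hA.and hB).and hL)
      rintro J hJ F A ⟨⟨hA, hB⟩, hq⟩ hZn hLb hLn hhist
      by_contra hcon
      obtain ⟨u, hu⟩ : ∃ u, u = J / N := ⟨_, rfl⟩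
      have hu0 : 0 < u := by rw [hu]; exact Nat.div_pos hJ hN0
      have hu1 : N * u ≤ J := by rw [hu]; exact Nat.mul_div_le J N
      have hur : (0 : ℝ) < u := by exact_mod_cast hu0
      rw [← hu] at hA hB hZn hLn hhist hcon
      have hUL : (0 : ℝ) < u * Real.log 2 := by positivity
      have hbd := rowf_bd F A hq hu0
      -- the deficit of the zone without its top
      have hzone : rowf F A u p₃ - rowf F A u p₁ ≤ (2 - c / 2) * ((p₃ : ℝ) - p₁) := by
        have h1 := (hbd p₃ p₂ hp32).1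
        have h2 := rowf_eq F A hq hu0 hp12
        have h3 : rowf F A u p₂ - rowf F A u p₁ ≤ (2 - c₀) * ((p₂ : ℝ) - p₁) := by
          refine le_of_mul_le_mul_right ?_ hUL
          rw [h2]
          refine hZn.trans (le_of_eq ?_)
          push_cast
          ring
        have h4 : (2 - c₀) * ((p₂ : ℝ) - p₁) ≤ (2 - c) * ((p₂ : ℝ) - p₁) :=
          mul_le_mul_of_nonneg_right (by linarith only [hcc]) hp12r.le
        have h5 : (p₂ : ℝ) - p₁ = ((p₃ : ℝ) - p₁) + k := by rw [hp₃r]; ring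
        have h6 : (2 - c) * ((p₂ : ℝ) - p₁) = (2 - c) * ((p₃ : ℝ) - p₁) + (2 - c) * k := by
          rw [h5]; ring
        have h7 : (2 - c) * (k : ℝ) ≤ 2 * k :=
          mul_le_mul_of_nonneg_right (by linarith only [hc0]) (Nat.cast_nonneg k)
        have h8 : (k : ℝ) ≤ c / 4 * ((p₃ : ℝ) - p₁) := by
          refine hk1.trans ?_
          have : c / 8 * ((p₂ : ℝ) - p₁) ≤ c / 8 * (2 * ((p₃ : ℝ) - p₁)) :=
            mul_le_mul_of_nonneg_left (by linarith only [hp13]) (by positivity)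
          linarith only [this]
        linarith only [hk1, hp₃r, h1, h3, h4, h6, h7]
      exact by
       obtain ⟨pa, pb, hpa1, hpab, hpb1, hlen, hsub⟩ := htwo p₁ p₃ (rowf F A u) hp13' hbd hzone
       have hpabr : (0 : ℝ) < (pb : ℝ) - pa := by
         have : (pa : ℝ) < pb := by exact_mod_cast hpab
         linarith only [this]
       have hlen' : e' * N ≤ (pb : ℝ) - pa := by
         refine le_trans ?_ hlen
         rw [he']
         have : ρ * (e / 2 * N) ≤ ρ * ((p₃ : ℝ) - p₁) :=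
           mul_le_mul_of_nonneg_left (by linarith only [hep, hp13]) hρ.le
         linarith only [this]
       have hpbN : pb ≤ N := by omega
       have hpos : 0 < c * θ * e' * N := by positivity
       -- the crossing
       obtain ⟨δ, hδ⟩ : ∃ δ, δ = θ / 2 * ((pb : ℝ) - pa) := ⟨_, rfl⟩
       have hδ1 : δ ≤ (pb : ℝ) - pa := by
         rw [hδ]
         have : θ / 2 * ((pb : ℝ) - pa) ≤ 1 * ((pb : ℝ) - pa) :=
           mul_le_mul_of_nonneg_right (by linarith only [hθ1]) hpabr.le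
         linarith only [this]
       have hδ2 : δ + 1 ≤ θ * ((pb : ℝ) - pa) := by
         rw [hδ]
         have : θ * (e' * N) ≤ θ * ((pb : ℝ) - pa) := mul_le_mul_of_nonneg_left hlen' hθ.le
         linarith only [r3, this]
       have hLn' : ∀ v t : ℕ, p₁ - j ≤ v → t ≤ p₂ →
           ∀ h : ℕ, (h : ℝ) ≤ ((t : ℝ) - v) * u + μ * J → Ln F i₀ h A := by
         intro v t hv ht h hh
         refine hLn h (hh.trans ?_)
         have h1 : (t : ℝ) - v ≤ (p₂ : ℝ) - p₁ + j := by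
           have h2 : ((p₁ - j : ℕ) : ℝ) ≤ v := by exact_mod_cast hv
           rw [Nat.cast_sub hjp] at h2
           have h3 : (t : ℝ) ≤ p₂ := by exact_mod_cast ht
           linarith only [h2, h3]
         have := mul_le_mul_of_nonneg_right h1 hur.le
         linarith only [this]
       exact by
        have hcross := crossing (fun l w => Cn F i₀ (l * u) (w * u) A) (w₀ := p₁ - j) (pa := pa)
          (pb := pb) (δ := δ)
          (fun w => by simpa using hLb.cn (w * u))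
          (fun l l' w hl h => h.mono (Nat.mul_le_mul_right u hl))
          (fun l w w' hw hw' h => h.mono_w (Nat.mul_le_mul_right u hw)
            ((Nat.mul_le_mul_right u (hw'.trans hpbN)).trans hu1))
          (by omega) hpab.le hδ1
          (fun h => hcon (h.mono (Nat.mul_le_mul_right u (by omega))))
          (fun w s t hw hws hst hwt hpas htpb hQ1 hQ2 => by
            by_contra hc2
            push Not at hc2
            have hv : ω₁ * N ≤ (w : ℝ) := by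
              refine hωp'.trans ?_
              have : ((p₁ - j : ℕ) : ℝ) ≤ w := by exact_mod_cast hw
              rw [Nat.cast_sub hjp] at this
              exact this
            have h1 := hA (⟨w, by omega⟩, ⟨s, by omega⟩, ⟨t, by omega⟩)
              ⟨hws, hst, hwt, hv, hω₁p t (by omega)⟩ hLb
              (hLn' w t hw (by omega)) hQ1 hQ2
            have h2 := rowf_eq F A hq hu0 hst
            have h3 := hsub s t hpas htpb (by rw [← hδ]; exact hc2)
            have h4 : (2 * ((t : ℝ) - s) - η * N) ≤ rowf F A u t - rowf F A u s := by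
              refine le_of_mul_le_mul_right ?_ hUL
              rw [h2]
              exact h1
            refine jump_arith (c := c) (θ := θ) (n := (pb : ℝ) - pa) (k := (t : ℝ) - s)
              (N := N) (e := e') (η := η) hc0 hθ hlen' hη (by rw [← hδ]; exact hc2) h4 ?_ hpos
            refine h3.trans (le_of_eq ?_)
            ring)
        obtain ⟨wa, wb, lam, k1, k2, k3, k4, k5, k6, k7, k8, k9⟩ := hcross
        -- the engine
        exact by
         obtain ⟨g, hg⟩ : ∃ g : Fin (N + 1) → Fin (N + 2), g = fun w =>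
             ⟨lam w, by have := k4 w; omega⟩ := ⟨_, rfl⟩
         have hext' : ∀ w, w ≤ N → ext g w = lam w := by
           intro w hw
           rw [hext, hg]
           simp only
           rw [dif_pos (by omega)]
         have hth : θ * ((pb : ℝ) - pa) ≤ θ₀ * ((pb : ℝ) - pa) :=
           mul_le_mul_of_nonneg_right hθθ hpabr.le
         refine hB ((⟨pa, by omega⟩, ⟨pb, by omega⟩), (⟨wa, by omega⟩, ⟨wb, by omega⟩), g)
           ⟨hlen', ?_, k2, hω₁p pb hpb1, ?_, ?_, ?_, ?_⟩ ?_ hLb ?_ ?_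
         · refine hωp'.trans ?_
           have : ((p₁ - j : ℕ) : ℝ) ≤ wa := by exact_mod_cast k1.le
           rw [Nat.cast_sub hjp] at this
           exact this
         · intro w h1 h2
           rw [hext' w (by simp only at h2; omega)]
           exact k5 w h1 h2
         · intro w h1 h2
           rw [hext' w (by simp only at h2; omega), hext' (w + 1) (by simp only at h2; omega)]
           obtain ⟨h3, h4⟩ := k6 w h1 h2
           refine ⟨h3, h4.trans ?_⟩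
           show (lam w : ℝ) + δ ≤ lam w + θ₀ * ((pb : ℝ) - pa)
           linarith only [hδ2, hth]
         · show (wa : ℝ) + ext g wa ≤ pa + θ₀ * ((pb : ℝ) - pa)
           rw [hext' wa (by omega)]
           linarith only [hδ2, k7, hth]
         · show (pb : ℝ) - θ₀ * ((pb : ℝ) - pa) ≤ wb + ext g wb
           rw [hext' wb (by omega)]
           linarith only [hδ2, k8, hth]
         · intro s t hs ht hst
           have hst' : θ₀ * ((pb : ℝ) - pa) ≤ (t : ℝ) - s := hst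
           have h0 : (s : ℝ) ≤ t := by
             have : 0 ≤ θ₀ * ((pb : ℝ) - pa) := by positivity
             linarith only [hpab, hpbN, k2, k3, hδ, hδ2, hth, hst]
           have h0' : s ≤ t := by exact_mod_cast h0
           have h1 := hsub s t hs ht (by
             have : θ / 2 * ((pb : ℝ) - pa) ≤ θ * ((pb : ℝ) - pa) :=
               mul_le_mul_of_nonneg_right (by linarith only [hθ]) hpabr.le
             linarith only [hpab, hpbN, k2, k3, hδ, hδ2, hth, hst])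
           rw [← rowf_eq F A hq hu0 h0']
           have h2 : (2 - c / 2 / 2) * ((t : ℝ) - s) = (2 - c / 4) * ((t : ℝ) - s) := by ring
           rw [h2] at h1
           have := mul_le_mul_of_nonneg_right h1 hUL.le
           linarith only [this]
         · intro h hh
           exact hLn' wa pb k1.le (by omega) h hh
         · intro w h1 h2
           rw [hext' w (by simp only at h2; omega)]
           exact k9 w h1 h2

end Pool.K2S
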