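import Pool.Agent.H13.K2S.Rows
import Pool.Agent.H35.K2S.Lev
import Pool.Agent.H33.K2.AP3

/-!
# Stable maximal families: the fans at exact points are flat

In a stable event of a maximal family the directions at each exact point lie within
`2 ^ (-h)` of a hyperplane, for every `h` up to a fixed proportion of the resolution.
-/

set_option autoImplicit false

namespace Pool.K2S

open Finset Real
open Pool.Agent.H49.Ent Pool.Agent.H32.Dense Pool.STK Pool.KA Pool.KSAT Pool.KA.TRC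

variable {m J : ℕ}

/-- The exact point: position at full resolution, time and side information. -/
noncomputable def Fam.pt (F : Fam m J) (ω : F.Ω) : (Fin m → ℤ) × (ℕ × F.ζ) := (F.X J ω, F.W ω)

/-- The setting: a regular maximal family with constant side information, and a large event. -/
def Fam.Stt (F : Fam m J) (a R τ : ℝ) (A : F.Ω → Prop) : Prop :=
  F.Tr ∧ F.Mx a R τ ∧ F.Rb (τ * J) ∧ Real.exp (-(τ * J)) ≤ Pe F.p A

/-- At each point the directions lie within `r` of a hyperplane. -/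
def Hyp {Ω U : Type} {k : ℕ} (r : ℝ) (pt : Ω → U) (d : Ω → Fin (k + 1) → ℝ) :
    (Ω → Prop) → Prop :=
  Fn d pt (fun D (s : (Fin (k + 1) → ℝ) × (Fin k → Fin (k + 1) → ℝ)) =>
    ∃ c : Fin k → ℝ, ∀ j, |D j - s.1 j - ∑ i, c i * s.2 i j| ≤ r)

theorem Hyp.hered {Ω U : Type} {k : ℕ} (r : ℝ) (pt : Ω → U) (d : Ω → Fin (k + 1) → ℝ) :
    Hered (Hyp r pt d) := Fn.hered _ _ _

section Gen

variable {Ω S S' T L : Type} [Fintype Ω]

/-- Additional labels with small entropy given `g`. -/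
theorem Stb.refine {p : Ω → ℝ} (hp : IsLaw p) {κ δ : ℝ} {A : Ω → Prop} {c : Ω → S'}
    {g : Ω → T} {l : Ω → L} {r : S' → S → Prop} (hs : Stb p κ A (Fn c g r))
    (hn : ¬ Fn c g r A) (hA : 0 < Pe p A) (hδ : 0 < δ)
    (hl : ∀ B : Ω → Prop, Sub B A → 0 < Pe p B →
      CH (Pool.Agent.H49.Ent.cond p B True) l g ≤ δ) (hκ : 2 * δ + Real.log 2 ≤ κ) :
    Stb p (κ - (2 * δ + Real.log 2)) A (Fn c (fun ω => (g ω, l ω)) r) ∧
      ¬ Fn c (fun ω => (g ω, l ω)) r A := by
  have key : ∀ B : Ω → Prop, Sub B A →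
      Real.exp (-(κ - (2 * δ + Real.log 2))) * Pe p A ≤ Pe p B →
      ¬ Fn c (fun ω => (g ω, l ω)) r B := by
    rintro B hB hP ⟨ζ, hζ⟩
    have hB0 : 0 < Pe p B := lt_of_lt_of_le (mul_pos (Real.exp_pos _) hA) hP
    have hne : Nonempty Ω := by
      by_contra h
      rw [not_nonempty_iff] at h
      have : Pe p B = 0 := by rw [Pe_eq]; exact Finset.sum_of_isEmpty _
      linarith only [hB0, this]
    have : Nonempty L := ⟨l (Classical.arbitrary Ω)⟩
    obtain ⟨ζ', hζ'⟩ := exists_fns_of_CH (n := 1) (S := fun _ => L) (T := fun _ => T)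
      (isLaw_cond hp hB0) (fun _ => l) (fun _ => g) hδ (fun _ => hl B hB hB0)
    rw [Pe_cond, le_div_iff₀ hB0] at hζ'
    have h1 : Real.exp (-κ) * Pe p A ≤ Pe p (fun ω => B ω ∧ ∀ i : Fin 1, l ω = ζ' i (g ω)) := by
      refine le_trans ?_ hζ'
      calc Real.exp (-κ) * Pe p A = Real.exp (-(2 * ((1 : ℕ) : ℝ) ^ 2 * δ)) / 2 *
            (Real.exp (-(κ - (2 * δ + Real.log 2))) * Pe p A) := by
            rw [show -κ = -(2 * ((1 : ℕ) : ℝ) ^ 2 * δ) + (-Real.log 2) +
              -(κ - (2 * δ + Real.log 2)) by push_cast; ring, Real.exp_add, Real.exp_add,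
              Real.exp_neg (Real.log 2), Real.exp_log (by norm_num : (0 : ℝ) < 2)]
            ring
        _ ≤ _ := mul_le_mul_of_nonneg_left hP (by positivity)
    rcases hs with hs | hs
    · exact hn hs
    · refine hs _ (fun ω hω => hB ω hω.1) h1 ⟨fun t => ζ (t, ζ' 0 t), fun ω hω => ?_⟩
      have h2 := hζ ω hω.1
      have h3 := hω.2 0
      simp only at h2
      rw [h3] at h2
      exact h2
  refine ⟨Or.inr key, key A (fun _ h => h) ?_⟩
  have : Real.exp (-(κ - (2 * δ + Real.log 2))) ≤ 1 := by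
    rw [Real.exp_le_one_iff]
    linarith only [hκ]
  calc _ ≤ 1 * Pe p A := mul_le_mul_of_nonneg_right this hA.le
    _ = _ := one_mul _

/-- Entropy of finitely many labels, each of which has small entropy. -/
theorem CH_pi_le {p : Ω → ℝ} (hp : ∀ ω, 0 ≤ p ω) {c : ℝ} (g : Ω → T) :
    ∀ (n : ℕ) (l : Fin n → Ω → L), (∀ i, CH p (l i) g ≤ c) →
      CH p (fun ω i => l i ω) g ≤ n * c := by
  intro n
  induction n with
  | zero =>
    intro l _
    rw [CH_eq_zero hp (fun ω ω' _ _ _ => funext fun i => Fin.elim0 i)]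
    simp
  | succ n ih =>
    intro l hl
    have h1 := CH_subadd hp (l 0) (fun ω (i : Fin n) => l i.succ ω) g
    have h2 := ih (fun i => l i.succ) (fun i => hl i.succ)
    have h3 := hl 0
    have h4 : CH p (fun ω i => l i ω) g ≤
        CH p (fun ω => (l 0 ω, fun i : Fin n => l i.succ ω)) g := by
      refine CH_mono_left hp fun ω ω' _ _ e => ?_
      have e1 := (Prod.ext_iff.mp e).1
      funext i
      refine Fin.cases ?_ (fun j => ?_) i
      · exact (Prod.ext_iff.mp e1).1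
      · exact congrFun (Prod.ext_iff.mp e1).2 j
    push_cast
    linarith

end Gen





/-- The arithmetic of the last step. -/
theorem lin_arith {k g N K a' J h' e ρ η L2 C₁ C₃ S c : ℝ} (hk : 0 ≤ k) (hg : 0 < g)
    (hN : 0 ≤ N) (hK : 0 ≤ K) (hL2 : 0 ≤ L2) (ha' : K - (k + 2) * (h' + 3) ≤ a')
    (haK : a' ≤ K) (hρ0 : 0 ≤ ρ) (hNK : J / 4 ≤ N * K) (hNK2 : N * K ≤ J) (hJ : 0 ≤ J)
    (h1 : N * ((k + 1) * (a' * L2) - (k + 2) ^ 2 * (a' * L2) * ρ - (k + 3) * e - C₁) -
      (k + 2) * ((k + 1) * (K * L2) + C₁) ≤ S)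
    (h2 : S ≤ ((k + 1) * L2 - g) * (N * K) + 2 * η * J + e + C₃)
    (hN2 : (k + 2) * (k + 1) * L2 ≤ g / 16 * N) (hh : h' ≤ c * J + 2)
    (hc : (k + 1) * (k + 2) * L2 * N * c ≤ g / 64) (hρ : (k + 2) ^ 2 * L2 * ρ ≤ g / 64)
    (he : N * ((k + 3) * e) + e ≤ g / 64 * J) (hη : 2 * η ≤ g / 64)
    (hC : N * C₁ + (k + 2) * C₁ + C₃ + 5 * ((k + 1) * (k + 2) * L2 * N) ≤ g / 64 * J)
    (hJ0 : 0 < J) : False := by
  have e1 : (k + 1) * L2 * N * (K - a') ≤ (k + 1) * L2 * N * ((k + 2) * (c * J + 5)) := by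
    refine mul_le_mul_of_nonneg_left ?_ (by positivity)
    have : (k + 2) * (h' + 3) ≤ (k + 2) * (c * J + 5) :=
      mul_le_mul_of_nonneg_left (by linarith only [hh]) (by linarith only [hk])
    linarith only [ha', this]
  have e2 : (k + 1) * L2 * N * ((k + 2) * (c * J + 5)) =
      (k + 1) * (k + 2) * L2 * N * c * J + 5 * ((k + 1) * (k + 2) * L2 * N) := by ring
  have e3 : (k + 1) * (k + 2) * L2 * N * c * J ≤ g / 64 * J :=
    mul_le_mul_of_nonneg_right hc hJ
  have e4 : N * ((k + 2) ^ 2 * (a' * L2) * ρ) ≤ g / 64 * J := by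
    have a1 : N * ((k + 2) ^ 2 * (a' * L2) * ρ) = ((k + 2) ^ 2 * L2 * ρ) * (N * a') := by ring
    rw [a1]
    have a2 : N * a' ≤ J := (mul_le_mul_of_nonneg_left haK hN).trans hNK2
    have a3 : 0 ≤ (k + 2) ^ 2 * L2 * ρ := by positivity
    calc _ ≤ ((k + 2) ^ 2 * L2 * ρ) * J := mul_le_mul_of_nonneg_left a2 a3
      _ ≤ _ := mul_le_mul_of_nonneg_right hρ hJ
  have e5 : (k + 2) * ((k + 1) * (K * L2)) ≤ g / 16 * (N * K) := by
    calc (k + 2) * ((k + 1) * (K * L2)) = ((k + 2) * (k + 1) * L2) * K := by ring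
      _ ≤ (g / 16 * N) * K := mul_le_mul_of_nonneg_right hN2 hK
      _ = _ := by ring
  have e6 : 2 * η * J ≤ g / 64 * J := mul_le_mul_of_nonneg_right hη hJ
  have e7 : g * (J / 4) ≤ g * (N * K) := mul_le_mul_of_nonneg_left hNK hg.le
  have e8 : 0 < g * J := mul_pos hg hJ0
  nlinarith only [h1, h2, he, hC, e1, e3, e4, e5, e6, e7, e8, h1, h2, e1, e2, e3, e4, e5, e6, e7, e8, he, hC]

theorem lin_room {k N J K h : ℝ} (hk : 0 ≤ k) (hN : 0 < N) (hh : h ≤ 1 / (8 * N * (k + 2)) * J)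
    (hj : 80 * N * (k + 2) < J) (hK : J / (2 * N) - 1 < K) :
    (h + 2 + 3) * (k + 1) + (h + 2) ≤ K := by
  obtain ⟨X, hX⟩ : ∃ X, X = J / (16 * N) := ⟨_, rfl⟩
  have f2 : (k + 2) * h ≤ 2 * X := by
    calc (k + 2) * h ≤ (k + 2) * (1 / (8 * N * (k + 2)) * J) :=
          mul_le_mul_of_nonneg_left hh (by positivity)
      _ = 2 * X := by rw [hX]; field_simp; ring
  have f3 : 5 * (k + 2) ≤ X := by
    rw [hX, le_div_iff₀ (by positivity)]
    linarith only [hj]
  have f5 : J / (2 * N) = 8 * X := by rw [hX]; field_simp; ring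
  have f6 : (h + 2 + 3) * (k + 1) + (h + 2) = (k + 2) * h + 5 * (k + 2) - 3 := by ring
  rw [f6]
  linarith only [hk, hK, f2, f3, f5]

theorem lin_cast {a' h k K : ℕ} (H : a' + (h + 2 + 3) * (k + 1) + (h + 2) = K) :
    (K : ℝ) - (k + 2) * ((h : ℝ) + 2 + 3) ≤ a' := by
  have h1 : (a' : ℝ) + (h + 2 + 3) * (k + 1) + (h + 2) = K := by exact_mod_cast H
  rw [← h1]
  have h2 : (0 : ℝ) ≤ h := by positivity
  have h3 : (a' : ℝ) + (h + 2 + 3) * (k + 1) + (h + 2) - (k + 2) * ((h : ℝ) + 2 + 3) = a' - 3 := by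
    ring
  linarith only

open Classical in
/-- **Fans at exact points are flat** (in codimension one): for every `h` up to a fixed proportion
of the resolution. -/
theorem lin_thm (hO : AOPStmt) (k : ℕ) {a R : ℝ} (ha : 1 ≤ a) (hR : 0 < R)
    (hU : UBa (k + 1) a R) :
    ∃ c₁ > 0, ∀ κ > 0, ∃ τ > 0, ∃ J₁ : ℕ, ∀ J ≥ J₁, ∀ F : Fam (k + 1) J, ∀ A : F.Ω → Prop,
      Fam.Stt F a R τ A → ∀ h : ℕ, (h : ℝ) ≤ c₁ * J →
      Stb F.p (κ * J) A (Hyp (1 / 2 ^ h) (Fam.pt F) F.d) → Hyp (1 / 2 ^ h) (Fam.pt F) F.d A := by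
  obtain ⟨C₁, hC₁, hrows⟩ := rows_thm k
  obtain ⟨C₃, hC₃, hap3⟩ := ap3_thm hO (k + 1)
  obtain ⟨C₄, hC₄, htrc⟩ := trc_thm (k + 1)
  have hl2 : 0 < Real.log 2 := Real.log_pos (by norm_num)
  have ha0 : 0 < a := by linarith only [ha]
  have hk : (0 : ℝ) ≤ k := by positivity
  obtain ⟨g, hg⟩ : ∃ g, g = R / a := ⟨_, rfl⟩
  have hg0 : 0 < g := by rw [hg]; positivity
  obtain ⟨N, hN⟩ := exists_nat_gt (16 * ((k + 2) * (k + 1) * Real.log 2) / g)
  have hN0 : (0 : ℝ) < N := lt_of_le_of_lt (by positivity) hN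
  have hN2 : (k + 2) * (k + 1) * Real.log 2 ≤ g / 16 * N := by
    rw [div_lt_iff₀ hg0] at hN
    linarith only [hN]
  obtain ⟨η, hη⟩ : ∃ η, η = g / 128 := ⟨_, rfl⟩
  have hη0 : 0 < η := by rw [hη]; positivity
  obtain ⟨θ, hθ, J₂, hU⟩ := hU η hη0
  obtain ⟨c₁, hc⟩ : ∃ c₁, c₁ = g / (64 * ((k + 1) * (k + 2) * Real.log 2 * N)) := ⟨_, rfl⟩
  have hc0 : 0 < c₁ := by rw [hc]; positivity
  obtain ⟨c₂, hc2⟩ : ∃ c₂, c₂ = min c₁ (1 / (8 * N * (k + 2))) := ⟨_, rfl⟩
  have hc20 : 0 < c₂ := by rw [hc2]; positivity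
  refine ⟨c₂, hc20, fun κ hκ => ?_⟩
  -- the constant `τ`
  obtain ⟨τ', hτ'⟩ : ∃ τ', τ' = min (min (g / (64 * (N * (k + 3) + 1))) (θ / 2)) η := ⟨_, rfl⟩
  have hτ'0 : 0 < τ' := by rw [hτ']; positivity
  obtain ⟨τ, hτ⟩ : ∃ τ, τ = τ' / (7 * (1 + a)) := ⟨_, rfl⟩
  have hτ0 : 0 < τ := by rw [hτ]; positivity
  obtain ⟨δ, hδ⟩ : ∃ δ, δ = (N + 1 : ℝ) * cc (k + 1) + 1 := ⟨_, rfl⟩
  have hcc : 0 ≤ cc (k + 1) := by
    unfold cc
    exact mul_nonneg (by positivity) (Real.log_nonneg (by norm_num))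
  exact by
   have hδ0 : 0 < δ := by rw [hδ]; positivity
   -- how large `J` has to be
   obtain ⟨Cst, hCst⟩ : ∃ Cst, Cst = N * C₁ + (k + 2) * C₁ + C₃ +
     5 * ((k + 1) * (k + 2) * Real.log 2 * N) := ⟨_, rfl⟩
   obtain ⟨Lρ, hLρ⟩ : ∃ L, L = Real.log ((k + 2) ^ 2 * Real.log 2 * 64 / g + 1) := ⟨_, rfl⟩
   have hLρ0 : 0 ≤ Lρ := by
     rw [hLρ]
     exact Real.log_nonneg (by linarith only [hg0, show 0 ≤ (k + 2) ^ 2 * Real.log 2 * 64 / g by positivity])
   obtain ⟨J₁, hJ₁⟩ := exists_nat_gt (64 * Cst / g + Real.log 2 / τ +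
     (4 * δ + 4 * Real.log 2 + 4 * Lρ) / κ + 8 * N + 2 * J₂ + 80 * N * (k + 2) + 1)
   refine ⟨τ, hτ0, J₁, ?_⟩
   intro J hJ F A hS h hh hstab
   by_contra hnot
   have hJr : (J₁ : ℝ) ≤ J := by exact_mod_cast hJ
   have t1 : 0 ≤ 64 * Cst / g := by rw [hCst]; positivity
   have t2 : 0 ≤ Real.log 2 / τ := by positivity
   have t3 : 0 ≤ (4 * δ + 4 * Real.log 2 + 4 * Lρ) / κ := by positivity
   have t4 : (0 : ℝ) ≤ J₂ := by positivity
   have t5 : 0 ≤ 80 * N * ((k : ℝ) + 2) := by positivity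
   have t6 : 0 ≤ 8 * (N : ℝ) := by positivity
   have hJ0 : (0 : ℝ) < J := by linarith only [hN0, hJ₁, hJr, t1, t2, t3, t5]
   have j1 : 64 * Cst / g < J := by linarith only [hN0, hJ₁, hJr, t2, t3, t5]
   have j2 : Real.log 2 / τ < J := by linarith only [hN0, hJ₁, hJr, t1, t3, t5]
   have j3 : (4 * δ + 4 * Real.log 2 + 4 * Lρ) / κ < J := by linarith only [hN0, hJ₁, hJr, t1, t2, t5]
   have j4 : 8 * (N : ℝ) < J := by linarith only [hJ₁, hJr, t1, t2, t3, t5]
   have j5 : 2 * (J₂ : ℝ) < J := by linarith only [hN0, hJ₁, hJr, t1, t2, t3, t5]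
   have j6 : 80 * N * ((k : ℝ) + 2) < J := by linarith only [hN0, hJ₁, hJr, t1, t2, t3]
   rw [div_lt_iff₀ hg0] at j1
   rw [div_lt_iff₀ hτ0] at j2
   rw [div_lt_iff₀ hκ] at j3
   exact by
    obtain ⟨hTr, hMx, hRb, hPA⟩ := hS
    have hp := F.isLaw
    have hA0 : 0 < Pe F.p A := lt_of_lt_of_le (Real.exp_pos _) hPA
    -- the windows
    obtain ⟨K, hK⟩ : ∃ K, K = J / (2 * N) := ⟨_, rfl⟩
    have hN0' : 0 < N := by exact_mod_cast hN0
    have hK1 : N * K ≤ J / 2 := by
      rw [hK, ← Nat.div_div_eq_div_mul]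
      exact Nat.mul_div_le _ _
    have hK2 : (J : ℝ) < 2 * N * (K + 1) := by
      have := Nat.lt_mul_div_succ J (show 0 < 2 * N by omega)
      rw [← hK] at this
      exact_mod_cast this
    have hK3 : J / 4 ≤ (N : ℝ) * K := by linarith only [hN0, hJ₁, hJr, t1, t2, t3, t5, hK2]
    have hK4 : N * K ≤ J := hK1.trans (Nat.div_le_self _ _)
    have hK4r : (N : ℝ) * K ≤ J := by exact_mod_cast hK4
    obtain ⟨w₀, hw₀⟩ : ∃ w, w = J - N * K := ⟨_, rfl⟩
    have hw1 : w₀ + N * K = J := by omega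
    have hw2 : J ≤ 2 * w₀ := by omega
    have hw2r : (J : ℝ) ≤ 2 * w₀ := by exact_mod_cast hw2
    have hw3 : w₀ ≤ J := by omega
    -- labels
    obtain ⟨l, hl⟩ : ∃ l : F.Ω → Fin (N + 1) → (ℕ × (Fin (k + 1) → ℤ)) × F.ζ,
      l = fun ω (i : Fin (N + 1)) => F.c (w₀ + (i : ℕ) * K) ω := ⟨_, rfl⟩
    have hlw : ∀ i : Fin (N + 1), w₀ + (i : ℕ) * K ≤ J := by
      intro i
      have : (i : ℕ) * K ≤ N * K := Nat.mul_le_mul_right K (by omega)
      omega
    have hres : ∀ B : F.Ω → Prop, 0 < Pe F.p B →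
        CH (Pool.Agent.H49.Ent.cond F.p B True) l (Fam.pt F) ≤ δ := by
      intro B hB
      have hlaw := isLaw_cond hp hB
      have h1 := CH_pi_le hlaw.nonneg (c := cc (k + 1)) (Fam.pt F) (N + 1)
        (fun (i : Fin (N + 1)) ω => F.c (w₀ + (i : ℕ) * K) ω) (fun i => Rows.CH_c_pt (F.res B True hlaw) (hlw i))
      push_cast at h1
      rw [hl, hδ]
      linarith only [h1]
    exact by
     have hκJ : 0 ≤ κ * J := by positivity
     obtain ⟨s1, s2⟩ := Stb.refine hp hstab hnot hA0 hδ0 (fun B _ hB => hres B hB)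
       (by linarith only [hl2, hδ0, hLρ0, j3])
     -- cleaning
     obtain ⟨κ', hκ'⟩ : ∃ κ', κ' = κ * J - (2 * δ + Real.log 2) := ⟨_, rfl⟩
     rw [← hκ'] at s1
     have hκ'1 : κ * J / 2 ≤ κ' := by rw [hκ']; linarith only [hl2, hLρ0, j3]
     have hκ'2 : 2 * Real.log 2 ≤ κ' := by linarith only [hl2, hδ0, hLρ0, j3, hκ']
     obtain ⟨c1, c2⟩ := Stb.clean hp hκ'2 hA0 s1 s2 rfl
     obtain ⟨Nb, hNb⟩ : ∃ Nb : F.Ω → Prop, Nb = Pop (Pool.Agent.H49.Ent.cond F.p A True) F.d
       (fun ω => (Fam.pt F ω, l ω)) (fun D (s : (Fin (k + 1) → ℝ) × (Fin k → Fin (k + 1) → ℝ)) =>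
         ∃ c : Fin k → ℝ, ∀ j, |D j - s.1 j - ∑ i, c i * s.2 i j| ≤ 1 / 2 ^ h)
       (Real.exp (-(κ' / 2))) := ⟨_, rfl⟩
     rw [← hNb] at c1 c2
     obtain ⟨A', hA'⟩ : ∃ A' : F.Ω → Prop, A' = fun ω => A ω ∧ ¬ Nb ω := ⟨_, rfl⟩
     have c2' := c2
     rw [← hA'] at c2'
     have hPA' : Real.exp (-((2 * τ) * J)) ≤ Pe F.p A' := by
       have d1 := Pe_diff c1
       rw [hA']
       refine le_trans ?_ d1
       have d2 : Real.exp (-(2 * τ * J)) ≤ Real.exp (-Real.log 2) * Real.exp (-(τ * J)) := by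
         rw [← Real.exp_add]
         exact Real.exp_le_exp.2 (by linarith only [j2])
       exact d2.trans (mul_le_mul_of_nonneg_left hPA (Real.exp_pos _).le)
     obtain ⟨hlaw, -, hMx', -⟩ := max_res F ha hτ0.le (by linarith only [hτ0] : (0 : ℝ) ≤ 2 * τ) hTr hMx hRb
       A' hPA'
     have e7 : (1 + a) * (5 * τ + 2 * τ) = τ' := by
       rw [hτ]
       field_simp
       ring
     exact by
      rw [e7] at hMx'
      have hTm : (F.res A' True hlaw).Tm (τ' * J) := hMx'.1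
      have hGa : (R - τ') * J ≤ (F.res A' True hlaw).Ga a := hMx'.2
      have hτθ : τ' ≤ θ / 2 := by
        rw [hτ']
        exact (min_le_left _ _).trans (min_le_right _ _)
      have hτη : τ' ≤ η := by
        rw [hτ']
        exact min_le_right _ _
      have hτN : τ' ≤ g / (64 * (N * (k + 3) + 1)) := by
        rw [hτ']
        exact (min_le_left _ _).trans (min_le_left _ _)
      -- truncation
      have hTm2 := (htrc J (F.res A' True hlaw) w₀ hw3 (τ' * J) hTm).1
      have hTm3 : ((F.res A' True hlaw).trc w₀ hw3).Tm (θ * w₀) := by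
        unfold Fam.Tm at hTm2 ⊢
        refine le_trans ?_ hTm2
        have : τ' * J ≤ θ * w₀ := by
          calc τ' * J ≤ θ / 2 * J := mul_le_mul_of_nonneg_right hτθ hJ0.le
            _ ≤ θ / 2 * (2 * w₀) := mul_le_mul_of_nonneg_left hw2r (by positivity)
            _ = _ := by ring
        linarith only [this]
      have hw4 : w₀ ≥ J₂ := by
        have : (J₂ : ℝ) ≤ w₀ := by linarith only [hN0, hJ₁, hJr, t1, t2, t3, t5, hw2r]
        exact_mod_cast this
      have hub := hU w₀ hw4 ((F.res A' True hlaw).trc w₀ hw3) hTm3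
      have hGa2 : (R - η) * J ≤ (F.res A' True hlaw).Ga a := by
        refine le_trans ?_ hGa
        exact mul_le_mul_of_nonneg_right (by linarith only [hτη]) hJ0.le
      have h3 := (hap3 J w₀ hw3 (F.res A' True hlaw) a R η (τ' * J) ha hη0.le hTm hGa2 hub).2
      -- rows
      exact by
       obtain ⟨ρ, hρ⟩ : ∃ ρ, ρ = Real.exp (-(κ' / 2)) := ⟨_, rfl⟩
       have hKr : (J : ℝ) / (2 * N) - 1 < K := by
         have : (J : ℝ) / (2 * N) < K + 1 := by
           rw [div_lt_iff₀ (by positivity)]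
           linarith only [hK2]
         linarith only [this]
       have hhc : (h : ℝ) ≤ 1 / (8 * N * (k + 2)) * J := by
         refine hh.trans (mul_le_mul_of_nonneg_right ?_ hJ0.le)
         rw [hc2]
         exact min_le_right _ _
       have hhc1 : (h : ℝ) ≤ c₁ * J := by
         refine hh.trans (mul_le_mul_of_nonneg_right ?_ hJ0.le)
         rw [hc2]
         exact min_le_left _ _
       obtain ⟨a', ha'⟩ : ∃ a', a' = K - ((h + 2 + 3) * (k + 1) + (h + 2)) := ⟨_, rfl⟩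
       have hroom : (h + 2 + 3) * (k + 1) + (h + 2) ≤ K := by
         have : (((h + 2 + 3) * (k + 1) + (h + 2) : ℕ) : ℝ) ≤ K := by
           push_cast
           exact lin_room hk hN0 hhc j6 hKr
         exact_mod_cast this
       have haK : a' + (h + 2 + 3) * (k + 1) + (h + 2) ≤ K := by omega
       have e4 : (4 : ℝ) / 2 ^ (h + 2) = 1 / 2 ^ h := by
         rw [pow_add]
         field_simp
         norm_num
       have hrow := hrows J (F.res A' True hlaw) K a' (h + 2) N w₀ (τ' * J) ρ (by omega) hTm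
         (by omega) haK (by
         intro i hi ω hω v B
         have hdet : Det (Pool.Agent.H49.Ent.cond F.p A' True) (fun ω => (Fam.pt F ω, l ω))
             (fun ω => (F.c (w₀ + i * K) ω, (F.c (w₀ + (i + 1) * K) ω,
               (F.X (w₀ + (i + 1) * K) ω, F.T1 (w₀ + (i + 1) * K) ω)))) := by
           intro ω ω' _ _ e
           have b := Prod.ext_iff.mp e
           have b1 : F.X J ω = F.X J ω' ∧ F.W ω = F.W ω' := Prod.ext_iff.mp b.1
           have b2 : F.T ω = F.T ω' ∧ F.Z ω = F.Z ω' := Prod.ext_iff.mp b1.2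
           have b3 : l ω = l ω' := b.2
           have b4 : F.c (w₀ + i * K) ω = F.c (w₀ + i * K) ω' := by
             have := congrFun b3 ⟨i, by omega⟩
             rw [hl] at this
             exact this
           have b5 : F.c (w₀ + (i + 1) * K) ω = F.c (w₀ + (i + 1) * K) ω' := by
             have := congrFun b3 ⟨i + 1, by omega⟩
             rw [hl] at this
             exact this
           have b6 : F.X (w₀ + (i + 1) * K) ω = F.X (w₀ + (i + 1) * K) ω' :=
             Pool.STK.B58.fl_fine (hlw ⟨i + 1, by omega⟩) b1.1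
           have b7 : F.T1 (w₀ + (i + 1) * K) ω = F.T1 (w₀ + (i + 1) * K) ω' := by
             unfold Fam.T1
             rw [b2.1]
           exact Prod.ext b4 (Prod.ext b5 (Prod.ext b6 b7))
         have nc := (c2'.coarse hlaw hdet).cond_le hlaw hω (v, B)
         rw [e4, hρ]
         exact nc)
       exact by
        have hJw : ((J : ℝ) - w₀) = N * K := by
          have : ((w₀ + N * K : ℕ) : ℝ) = J := by rw [hw1]
          push_cast at this
          linarith only [this]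
        rw [hJw] at h3
        rw [hw1] at hrow
        -- the upper bound
        have h4 : CH (F.res A' True hlaw).p ((F.res A' True hlaw).X J)
            (fun ω => ((F.res A' True hlaw).X w₀ ω, (F.res A' True hlaw).W ω)) ≤
            ((k + 1) * Real.log 2 - g) * (N * K) + 2 * η * J + τ' * J + C₃ := by
          obtain ⟨S, hS⟩ : ∃ S, S = CH (F.res A' True hlaw).p ((F.res A' True hlaw).X J)
            (fun ω => ((F.res A' True hlaw).X w₀ ω, (F.res A' True hlaw).W ω)) := ⟨_, rfl⟩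
          rw [← hS] at h3 ⊢
          have f1 : a * (((k + 1) * Real.log 2 - g) * (N * K) + 2 * η * J + τ' * J + C₃) -
              ((((k + 1 : ℕ) : ℝ) * Real.log 2 - R) * (N * K) + 2 * η * J + a * (τ' * J + C₃)) =
              (a - 1) * ((k + 1) * Real.log 2) * (N * K) + (a - 1) * (2 * η * J) := by
            rw [hg]
            push_cast
            field_simp
            ring
          have f2 : 0 ≤ (a - 1) * ((k + 1) * Real.log 2) * (N * K) + (a - 1) * (2 * η * J) := by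
            have : 0 ≤ a - 1 := by linarith only [ha]
            positivity
          have f3 : a * S ≤ a * (((k + 1) * Real.log 2 - g) * (N * K) + 2 * η * J + τ' * J + C₃) := by
            linarith only [h3, f1, f2]
          exact le_of_mul_le_mul_left f3 ha0
        refine lin_arith (k := k) (g := g) (N := N) (K := K) (a' := a') (J := J) (h' := (h : ℝ) + 2)
          (e := τ' * J) (ρ := ρ) (η := η) (L2 := Real.log 2) (C₁ := C₁) (C₃ := C₃) (c := c₁)
          hk hg0 hN0.le (by positivity) hl2.le ?_ ?_ ?_ hK3 hK4r hJ0.le hrow h4 hN2 ?_ ?_ ?_ ?_ ?_ ?_ hJ0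
        · exact lin_cast (by omega)
        · have : a' ≤ K := by omega
          exact_mod_cast this
        · rw [hρ]; positivity
        · linarith only [hhc1]
        · rw [hc]
          refine le_of_eq ?_
          field_simp
        · -- `ρ` is small
          have f1 : Lρ ≤ κ' / 2 := by linarith only [hl2, hδ0, hLρ0, j3, hκ']
          have f2 : ρ ≤ Real.exp (-Lρ) := by
            rw [hρ]
            exact Real.exp_le_exp.2 (by linarith only [hl2, hδ0, hLρ0, j3, hκ'])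
          have f3 : Real.exp (-Lρ) = 1 / ((k + 2) ^ 2 * Real.log 2 * 64 / g + 1) := by
            rw [hLρ, Real.exp_neg, Real.exp_log (by positivity), one_div]
          rw [f3] at f2
          calc ((k : ℝ) + 2) ^ 2 * Real.log 2 * ρ ≤ (k + 2) ^ 2 * Real.log 2 *
                (1 / ((k + 2) ^ 2 * Real.log 2 * 64 / g + 1)) :=
                mul_le_mul_of_nonneg_left f2 (by positivity)
            _ ≤ g / 64 := by
                rw [mul_one_div, div_le_iff₀ (by positivity)]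
                have : g / 64 * ((k + 2) ^ 2 * Real.log 2 * 64 / g + 1) =
                  (k + 2) ^ 2 * Real.log 2 + g / 64 := by
                  field_simp
                rw [this]
                linarith only [hg0]
        · have f1 : N * ((k + 3) * (τ' * J)) + τ' * J = (τ' * (N * (k + 3) + 1)) * J := by ring
          rw [f1]
          refine mul_le_mul_of_nonneg_right ?_ hJ0.le
          rw [le_div_iff₀ (by positivity)] at hτN
          linarith only [hτN]
        · rw [hη]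
          linarith only
        · rw [← hCst]
          linarith only [j1]

end Pool.K2S
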