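import Pool.Agent.H9.K2.Stmts2
import Pool.Agent.H44.K2.END2
import Pool.Agent.H12.KA.WIN

/-!
# Maximal families have no visible planks of macroscopic size which are conserved
-/

set_option autoImplicit false

namespace Pool.K2S

open Finset Real
open Pool.Agent.H49.Ent Pool.Agent.H32.Dense Pool.STK Pool.KA

/-- **No planks.** `z` is a label of the line on the window of length `2 ^ (-g)`, visible from the
position; `A` is a frame; the label determines the transversal position up to `2 ^ (-P)`. If `g` is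
small and `P` is close to `J`, this is impossible in a maximal family. -/
def NPLStmt : Prop :=
  ∀ c k : ℕ, KP c → KP k → ∀ a R : ℝ, 1 ≤ a → 0 < R → ∀ b : ℝ,
    ∃ x > 0, ∃ τ > 0, ∃ J₁ : ℕ, ∀ J ≥ J₁, ∀ F : Fam (c + k) J, F.Mx a R τ →
    ∀ g : ℕ, (g : ℝ) ≤ x * J → ∀ (κ : Type) (z : F.Ω → κ)
      (A B : κ → Fin (c + k) → Fin (c + k) → ℝ),
    (∀ y i j, |A y i j| ≤ 1) → (∀ y i j, |B y i j| ≤ b) →
    (∀ y i l, ∑ j, B y i j * A y j l = if i = l then 1 else 0) →
    Det F.p (fun ω => (F.l ω, (F.T1 g ω, F.Z ω))) z →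
    CH F.p z (fun ω => (F.X J ω, F.W ω)) ≤ τ * J →
    ∀ P : ℕ, P ≤ J → (1 - x) * J ≤ P →
    τ * J < CH F.p (fun ω => fl P (prj (A (z ω)) (Fin.castAdd k) (F.x ω)))
      (fun ω => (z ω, F.W ω))

namespace NPL

open ENP

variable {m J : ℕ}

/-- The line in the window determines the line. -/
theorem win_det (F : Fam m J) (g : ℕ) {ω ω' : F.Ω} (hl : (F.win g).l ω = (F.win g).l ω')
    (hZ : (F.win g).Z ω = (F.win g).Z ω') :
    F.l ω = F.l ω' ∧ F.T1 g ω = F.T1 g ω' ∧ F.Z ω = F.Z ω' := by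
  have e1 : (fun i => Int.fract (2 ^ g * F.x1 g ω i)) = fun i => Int.fract (2 ^ g * F.x1 g ω' i) :=
    (Prod.ext_iff.mp hl).1
  have e2 : F.d ω = F.d ω' := (Prod.ext_iff.mp hl).2
  have e3 : F.c g ω = F.c g ω' := hZ
  have e4 : F.T1 g ω = F.T1 g ω' := (Prod.ext_iff.mp (Prod.ext_iff.mp e3).1).1
  have e5 : fl g (F.x1 g ω) = fl g (F.x1 g ω') := (Prod.ext_iff.mp (Prod.ext_iff.mp e3).1).2
  have e6 : F.Z ω = F.Z ω' := (Prod.ext_iff.mp e3).2
  have e7 : ∀ i, F.x1 g ω i = F.x1 g ω' i := by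
    intro i
    have h1 : Int.fract (2 ^ g * F.x1 g ω i) = Int.fract (2 ^ g * F.x1 g ω' i) := congrFun e1 i
    have h2 : ⌊2 ^ g * F.x1 g ω i⌋ = ⌊2 ^ g * F.x1 g ω' i⌋ := congrFun e5 i
    have h3 : 2 ^ g * F.x1 g ω i = 2 ^ g * F.x1 g ω' i := by
      rw [← Int.floor_add_fract (2 ^ g * F.x1 g ω i), ← Int.floor_add_fract (2 ^ g * F.x1 g ω' i),
        h1, h2]
    exact mul_left_cancel₀ (by positivity) h3
  have e8 : F.u ω = F.u ω' := by
    funext i
    have h1 := e7 i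
    unfold Fam.x1 at h1
    rw [e4, e2] at h1
    linarith only [h1]
  exact ⟨Prod.ext e8 e2, e4, e6⟩

/-- The positions in the window. -/
theorem win_x (F : Fam m J) {g : ℕ} (hg : g ≤ J) (ω : F.Ω) (i : Fin m) :
    (F.win g).x ω i = 2 ^ g * F.x ω i - fl g (F.x1 g ω) i := by
  unfold Fam.x Fam.t
  have h1 := Pool.KA.Win.time_split J g (F.T ω) hg
  rw [h1]
  have e1 : (F.win g).u ω i = Int.fract (2 ^ g * F.x1 g ω i) := rfl
  have e2 : (F.win g).d ω i = F.d ω i := rfl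
  have e3 : (F.win g).T ω = F.T ω % 2 ^ (J - g) := rfl
  have e4 : (fl g (F.x1 g ω) i : ℤ) = ⌊2 ^ g * F.x1 g ω i⌋ := rfl
  rw [e1, e2, e3, e4, Int.fract]
  unfold Fam.x1 Fam.T1
  have b : (2 : ℝ) ^ g ≠ 0 := by positivity
  field_simp
  ring

/-- Projections of positions in the window. -/
theorem win_prj (F : Fam m J) {g : ℕ} (hg : g ≤ J) {n : ℕ} (A : Fin m → Fin m → ℝ)
    (e : Fin n → Fin m) (ω : F.Ω) (i : Fin n) :
    prj A e ((F.win g).x ω) i = 2 ^ g * prj A e (F.x ω) i -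
      ∑ j, A (e i) j * (fl g (F.x1 g ω) j : ℝ) := by
  unfold prj
  rw [Finset.mul_sum, ← Finset.sum_sub_distrib]
  refine Finset.sum_congr rfl fun j _ => ?_
  rw [win_x F hg]
  ring

theorem arith {C c R x τ ε J J' P' L Cr V h1 h2 : ℝ} (hC : 0 ≤ C) (hc : 0 ≤ c) (hR : 0 < R)
    (hx0 : 0 ≤ x) (hτ1 : τ ≤ x) (hx3 : x ≤ R / (16 * (C + c + 1))) (hτ3 : τ ≤ R / 64)
    (hJ : 0 < J) (hL : 0 ≤ L) (hL' : L ≤ 1) (hJ'1 : (3 / 4 : ℝ) * J ≤ J') (hJ'2 : J' ≤ J)
    (hJP : J' - P' ≤ x * J) (hCr : 64 * Cr ≤ R * J) (hV : (R - C * (τ + x)) * J' ≤ V)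
    (hmain : V ≤ ε * J' + h1 + h2 + c * ((J' - P') * L)) (hv : h1 ≤ τ * J)
    (hN : h2 ≤ τ * J + Cr) (hε : ε = R / 8) : False := by
  have hJ' : 0 ≤ J' := by linarith only [hJ, hJ'1]
  have r1 : (C + c + 1) * x ≤ R / 16 := by
    have k1 : (C + c + 1) * x ≤ (C + c + 1) * (R / (16 * (C + c + 1))) :=
      mul_le_mul_of_nonneg_left hx3 (by positivity)
    have k2 : (C + c + 1) * (R / (16 * (C + c + 1))) = R / 16 := by
      field_simp
    linarith only [k1, k2]
  have cx : 0 ≤ c * x := mul_nonneg hc hx0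
  have Cx : 0 ≤ C * x := mul_nonneg hC hx0
  have r2 : C * (τ + x) ≤ R / 8 := by
    have k1 : C * τ ≤ C * x := mul_le_mul_of_nonneg_left hτ1 hC
    have k2 : (C + c + 1) * x = C * x + c * x + x := by ring
    have k3 : C * (τ + x) = C * τ + C * x := by ring
    linarith only [hx0, r1, cx, k1]
  have r3 : c * ((J' - P') * L) ≤ R / 16 * J := by
    have k0 : (J' - P') * L ≤ x * J := by
      rcases le_total 0 (J' - P') with h | h
      · have : (J' - P') * L ≤ (J' - P') * 1 := mul_le_mul_of_nonneg_left hL' h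
        linarith only [hJP, this]
      · have : (J' - P') * L ≤ 0 := mul_nonpos_of_nonpos_of_nonneg h hL
        have : 0 ≤ x * J := mul_nonneg hx0 hJ.le
        linarith
    have k1 : c * ((J' - P') * L) ≤ c * (x * J) := mul_le_mul_of_nonneg_left k0 hc
    have k2 : c * (x * J) = c * x * J := by ring
    have k3 : c * x ≤ R / 16 := by
      have : (C + c + 1) * x = C * x + c * x + x := by ring
      linarith only [hx0, r1, Cx]
    have k4 : c * x * J ≤ R / 16 * J := mul_le_mul_of_nonneg_right k3 hJ.le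
    linarith only [k1, k4]
  have r4 : 7 / 8 * R * (3 / 4 * J) ≤ (R - C * (τ + x)) * J' := by
    have k1 : 7 / 8 * R ≤ R - C * (τ + x) := by linarith only [r2]
    exact mul_le_mul k1 hJ'1 (by positivity) (by linarith only [hR, r2])
  have r5 : ε * J' ≤ R / 8 * J := by
    rw [hε]
    exact mul_le_mul_of_nonneg_left hJ'2 (by positivity)
  have r6 : τ * J ≤ R / 64 * J := mul_le_mul_of_nonneg_right hτ3 hJ.le
  have r8 : 0 < R * J := mul_pos hR hJ
  have e4 : 7 / 8 * R * (3 / 4 * J) = 21 / 32 * (R * J) := by ring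
  have e5 : R / 8 * J = 1 / 8 * (R * J) := by ring
  have e6 : R / 64 * J = 1 / 64 * (R * J) := by ring
  have e3 : R / 16 * J = 1 / 16 * (R * J) := by ring
  rw [e4] at r4
  rw [e5] at r5
  rw [e6] at r6
  rw [e3] at r3
  linarith only [hCr, hV, hmain, hv, hN, r3, r4, r5, r6, r8]

end NPL

open NPL ENP

theorem npl_thm (hM : MOPStmt) : NPLStmt := by
  intro c k hc hk a R ha hR b
  obtain ⟨C, hC0, hC⟩ := hM (c + k) a R ha hR
  set ε : ℝ := R / 8 with hε
  have hε0 : 0 < ε := by positivity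
  obtain ⟨θ, hθ, J₀, hJ₀⟩ := end2_thm c k hc hk b ε hε0
  have hl2 : 0 < Real.log 2 := Real.log_pos (by norm_num)
  have hl2' : Real.log 2 ≤ 1 := by
    have := Real.log_le_sub_one_of_pos (x := 2) (by norm_num)
    linarith only [this]
  -- the parameters
  set x : ℝ := min (1 / 4) (min (θ / (4 * (C + 1))) (R / (16 * (C + c + 1)))) with hx
  have hx0 : 0 < x := lt_min (by norm_num) (lt_min (by positivity) (by positivity))
  have hx1 : x ≤ 1 / 4 := min_le_left _ _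
  have hx2 : x ≤ θ / (4 * (C + 1)) := (min_le_right _ _).trans (min_le_left _ _)
  have hx3 : x ≤ R / (16 * (C + c + 1)) := (min_le_right _ _).trans (min_le_right _ _)
  set Cr : ℝ := c * Real.log 5 with hCr
  have hCr0 : 0 ≤ Cr := mul_nonneg (Nat.cast_nonneg _) (Real.log_nonneg (by norm_num))
  set τ : ℝ := min x (min (θ / 4) (R / 64)) with hτ
  have hτ0 : 0 < τ := lt_min hx0 (lt_min (by positivity) (by positivity))
  have hτ1 : τ ≤ x := min_le_left _ _
  have hτ2 : τ ≤ θ / 4 := (min_le_right _ _).trans (min_le_left _ _)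
  have hτ3 : τ ≤ R / 64 := (min_le_right _ _).trans (min_le_right _ _)
  obtain ⟨J₁, hJ₁⟩ := exists_nat_gt (max (1 / τ) (64 * Cr / R))
  refine ⟨x, hx0, τ, hτ0, max (2 * J₀) (max J₁ 1), fun J hJ F hF g hg κ z A B hA hB hBA hz hvis P hPJ
    hP => ?_⟩
  have hJa : 2 * J₀ ≤ J := (le_max_left _ _).trans hJ
  have hJb : J₁ ≤ J := (le_max_left _ _).trans ((le_max_right _ _).trans hJ)
  have hJc : 1 ≤ J := (le_max_right _ _).trans ((le_max_right _ _).trans hJ)
  have hJpos : (0 : ℝ) < J := by exact_mod_cast hJc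
  have hJbr : (J₁ : ℝ) ≤ J := by exact_mod_cast hJb
  have hJτ : 1 ≤ τ * J := by
    have h1 : 1 / τ < J := lt_of_le_of_lt (le_max_left _ _) (lt_of_lt_of_le hJ₁ hJbr)
    rw [div_lt_iff₀ hτ0] at h1
    linarith only [h1]
  have hJC : 64 * Cr ≤ R * J := by
    have h1 : 64 * Cr / R < J := lt_of_le_of_lt (le_max_right _ _) (lt_of_lt_of_le hJ₁ hJbr)
    rw [div_lt_iff₀ hR] at h1
    linarith only [h1]
  have hgJr : (g : ℝ) ≤ J / 4 := hg.trans (by nlinarith only [hx1])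
  have hgJ : g ≤ J := by
    have : (g : ℝ) ≤ J := by linarith only [hJpos, hgJr]
    exact_mod_cast this
  by_contra hcon
  push Not at hcon
  -- the window family
  set F' := F.win g with hF'
  have hp := F.isLaw
  have hp0 := hp.nonneg
  have hMx : F'.Mx a R (C * (τ + x)) :=
    (hC J F τ x hJc hτ0.le hx0.le hx1 hJτ hF).2.2.1 g hgJ hg
  have hJ' : ((J - g : ℕ) : ℝ) = (J : ℝ) - g := by rw [Nat.cast_sub hgJ]
  have hJ'1 : (3 / 4 : ℝ) * J ≤ ((J - g : ℕ) : ℝ) := by rw [hJ']; linarith only [hgJr]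
  have hJ'2 : ((J - g : ℕ) : ℝ) ≤ J := by
    rw [hJ']
    have : (0 : ℝ) ≤ g := Nat.cast_nonneg _
    linarith only
  have hJ'3 : J₀ ≤ J - g := by
    have h1 : (2 * J₀ : ℝ) ≤ J := by exact_mod_cast hJa
    have h2 : (J₀ : ℝ) ≤ ((J - g : ℕ) : ℝ) := by linarith only [hJpos, hgJr, hJ', h1]
    exact_mod_cast h2
  have hgP : g ≤ P := by
    have h1 : (g : ℝ) ≤ P := by
      have : (1 - x) * J ≥ 3 / 4 * J := by nlinarith only [hx1]
      linarith only [hP, hgJr, this]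
    exact_mod_cast h1
  have hPr : ((P - g : ℕ) : ℝ) = (P : ℝ) - g := by rw [Nat.cast_sub hgP]
  have hdetz : Det F'.p (fun ω => (F'.l ω, F'.Z ω)) z := by
    intro ω ω' h1 h2 h
    obtain ⟨e1, e2⟩ := Prod.ext_iff.mp h
    obtain ⟨k1, k2, k3⟩ := win_det F g e1 e2
    exact hz ω ω' h1 h2 (Prod.ext k1 (Prod.ext k2 k3))
  -- time deficit
  have hTm : (F'.cnd z).Tm (θ * ((J - g : ℕ) : ℝ)) := by
    have h1 : CH F'.p F'.T (fun ω => (F'.l ω, (z ω, F'.Z ω))) =
        CH F'.p F'.T (fun ω => (F'.l ω, F'.Z ω)) := by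
      refine CH_congr F'.isLaw.nonneg (fun _ _ _ _ h => (Prod.ext_iff.mp h).1)
        (fun _ _ _ _ h => (Prod.ext_iff.mp h).1) ?_ ?_
      · intro ω ω' _ _ h
        simp only [Prod.mk.injEq] at h ⊢
        exact ⟨h.1, h.2.2⟩
      · intro ω ω' h1 h2 h
        have h3 := hdetz ω ω' h1 h2 h
        simp only [Prod.mk.injEq] at h ⊢
        exact ⟨h.1, h3, h.2⟩
    have h2 := hMx.1
    unfold Fam.Tm at h2 ⊢
    change ((J - g : ℕ) : ℝ) * Real.log 2 - θ * ((J - g : ℕ) : ℝ) ≤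
      CH F'.p F'.T (fun ω => (F'.l ω, (z ω, F'.Z ω)))
    rw [h1]
    have h3 : C * (τ + x) ≤ θ := by
      have k1 : C * (τ + x) ≤ (C + 1) * (2 * x) := by nlinarith only [hx0, hC0, hτ1]
      have k2 : (C + 1) * (2 * x) ≤ (C + 1) * (2 * (θ / (4 * (C + 1)))) :=
        mul_le_mul_of_nonneg_left (by linarith only [hx2]) (by linarith only [hC0, hx0, hx1])
      have k3 : (C + 1) * (2 * (θ / (4 * (C + 1)))) = θ / 2 := by
        field_simp
        ring
      linarith only [hτ0, hτ2, k1, k2, k3]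
    have h4 : C * (τ + x) * ((J - g : ℕ) : ℝ) ≤ θ * ((J - g : ℕ) : ℝ) :=
      mul_le_mul_of_nonneg_right h3 (Nat.cast_nonneg _)
    linarith only [h2, h4]
  have hmain := hJ₀ (J - g) hJ'3 F' κ z A B hA hB hBA hTm (P - g) (Nat.sub_le_sub_right hPJ g)
    (by
      have h1 : (J : ℝ) - g ≤ 2 * ((P : ℝ) - g) := by
        have : (1 - x) * J ≥ 3 / 4 * J := by nlinarith only [hx1]
        linarith only [hP, hgJr, this]
      rw [← hJ', ← hPr] at h1
      exact_mod_cast h1)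
  -- visibility
  have hv : CH F'.p z (fun ω => (F'.X (J - g) ω, F'.W ω)) ≤ τ * J := by
    refine le_trans (CH_mono_cond hp0 ?_) hvis
    intro ω ω' _ _ h
    have e1 : F'.X (J - g) ω = F'.X (J - g) ω' := (Prod.ext_iff.mp h).1
    have e2 : F.T ω % 2 ^ (J - g) = F.T ω' % 2 ^ (J - g) :=
      (Prod.ext_iff.mp (Prod.ext_iff.mp h).2).1
    have e3 : F.c g ω = F.c g ω' := (Prod.ext_iff.mp (Prod.ext_iff.mp h).2).2
    have e4 : F.T1 g ω = F.T1 g ω' := (Prod.ext_iff.mp (Prod.ext_iff.mp e3).1).1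
    have e5 : fl g (F.x1 g ω) = fl g (F.x1 g ω') := (Prod.ext_iff.mp (Prod.ext_iff.mp e3).1).2
    have e6 : F.Z ω = F.Z ω' := (Prod.ext_iff.mp e3).2
    refine Prod.ext ?_ (Prod.ext (Pool.KA.Win.T_det F g e4 e2) e6)
    funext i
    have k1 := congrFun e1 i
    rw [Pool.KA.Win.win_X F g hgJ, Pool.KA.Win.win_X F g hgJ, congrFun e5 i,
      Nat.sub_add_cancel hgJ] at k1
    change F.X J ω i = F.X J ω' i
    linarith only [k1]
  -- the transversal position
  have hN : CH F'.p (fun ω => fl (P - g) (prj (A (z ω)) (Fin.castAdd k) (F'.x ω)))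
      (fun ω => (z ω, F'.W ω)) ≤ τ * J + Cr := by
    have h1 := CH_le_add hp0 (fun ω => fl (P - g) (prj (A (z ω)) (Fin.castAdd k) (F'.x ω)))
      (fun ω => fl P (prj (A (z ω)) (Fin.castAdd k) (F.x ω))) (fun ω => (z ω, F'.W ω))
    have h2 : CH F.p (fun ω => fl P (prj (A (z ω)) (Fin.castAdd k) (F.x ω)))
        (fun ω => (z ω, F'.W ω)) ≤ τ * J := by
      refine le_trans (CH_mono_cond hp0 ?_) hcon
      intro ω ω' _ _ h
      have e0 : z ω = z ω' := (Prod.ext_iff.mp h).1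
      have e2 : F.T ω % 2 ^ (J - g) = F.T ω' % 2 ^ (J - g) :=
        (Prod.ext_iff.mp (Prod.ext_iff.mp h).2).1
      have e3 : F.c g ω = F.c g ω' := (Prod.ext_iff.mp (Prod.ext_iff.mp h).2).2
      have e4 : F.T1 g ω = F.T1 g ω' := (Prod.ext_iff.mp (Prod.ext_iff.mp e3).1).1
      have e6 : F.Z ω = F.Z ω' := (Prod.ext_iff.mp e3).2
      exact Prod.ext e0 (Prod.ext (Pool.KA.Win.T_det F g e4 e2) e6)
    have h3 := CH_le_vec hp0 hp.sum_one
      (fun ω => fl (P - g) (prj (A (z ω)) (Fin.castAdd k) (F'.x ω)))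
      (fun ω => (fl P (prj (A (z ω)) (Fin.castAdd k) (F.x ω)), (z ω, F'.W ω))) (fun _ => 2)
      (by
        intro ω ω' _ _ h i
        have e1 : fl P (prj (A (z ω)) (Fin.castAdd k) (F.x ω)) =
          fl P (prj (A (z ω')) (Fin.castAdd k) (F.x ω')) := (Prod.ext_iff.mp h).1
        have e0 : z ω = z ω' := (Prod.ext_iff.mp (Prod.ext_iff.mp h).2).1
        have e3 : F.c g ω = F.c g ω' :=
          (Prod.ext_iff.mp (Prod.ext_iff.mp (Prod.ext_iff.mp h).2).2).2
        have e5 : fl g (F.x1 g ω) = fl g (F.x1 g ω') :=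
          (Prod.ext_iff.mp (Prod.ext_iff.mp e3).1).2
        have k1 := of_fl_eq e1 i
        have k2 : |2 ^ (P - g) * prj (A (z ω)) (Fin.castAdd k) (F'.x ω) i -
            2 ^ (P - g) * prj (A (z ω')) (Fin.castAdd k) (F'.x ω') i| ≤ 1 := by
          rw [win_prj F hgJ, win_prj F hgJ, e5, e0]
          have k3 : (2 : ℝ) ^ (P - g) * (2 ^ g * prj (A (z ω')) (Fin.castAdd k) (F.x ω) i -
              ∑ j, A (z ω') (Fin.castAdd k i) j * (fl g (F.x1 g ω') j : ℝ)) -
              2 ^ (P - g) * (2 ^ g * prj (A (z ω')) (Fin.castAdd k) (F.x ω') i -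
              ∑ j, A (z ω') (Fin.castAdd k i) j * (fl g (F.x1 g ω') j : ℝ)) =
              2 ^ P * (prj (A (z ω')) (Fin.castAdd k) (F.x ω) i -
                prj (A (z ω')) (Fin.castAdd k) (F.x ω') i) := by
            have k4 : (2 : ℝ) ^ P = 2 ^ (P - g) * 2 ^ g := by
              rw [← pow_add, Nat.sub_add_cancel hgP]
            rw [k4]
            ring
          rw [k3, abs_mul, abs_of_pos (by positivity : (0 : ℝ) < 2 ^ P)]
          rw [e0] at k1
          rw [le_div_iff₀ (by positivity)] at k1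
          linarith only [k1]
        have k5 := floor_dist k2
        have k6 : |((⌊2 ^ (P - g) * prj (A (z ω)) (Fin.castAdd k) (F'.x ω) i⌋ -
            ⌊2 ^ (P - g) * prj (A (z ω')) (Fin.castAdd k) (F'.x ω') i⌋ : ℤ) : ℝ)| ≤ 2 := by
          linarith only [k5]
        exact k6)
    rw [Ex_const hp.sum_one] at h3
    have h4 : (c : ℝ) * Real.log (2 * 2 + 1) = Cr := by
      rw [hCr]
      norm_num
    rw [h4] at h3
    have h5 : CH F'.p (fun ω => fl (P - g) (prj (A (z ω)) (Fin.castAdd k) (F'.x ω)))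
        (fun ω => (z ω, F'.W ω)) = CH F.p
          (fun ω => fl (P - g) (prj (A (z ω)) (Fin.castAdd k) (F'.x ω)))
          (fun ω => (z ω, F'.W ω)) := rfl
    rw [h5]
    linarith only [h1, h2, h3]
  -- the violation
  have hV : (R - C * (τ + x)) * ((J - g : ℕ) : ℝ) ≤ F'.V (J - g) := by
    have h1 := hMx.2
    refine h1.trans ?_
    unfold Fam.Ga Fam.V
    rw [sub_self, zero_mul, mul_zero, sub_zero]
    have h2 : 0 ≤ CH F'.p (F'.X (J - g)) F'.W := CH_nonneg F'.isLaw.nonneg _ _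
    nlinarith only [ha, h2]
  have hJP : (((J - g : ℕ) : ℝ) - ((P - g : ℕ) : ℝ)) ≤ x * J := by
    rw [hJ', hPr]
    linarith only [hP]
  -- conclusion
  have hfin := arith (C := C) (c := c) hC0 (Nat.cast_nonneg c) hR hx0.le hτ1 hx3 hτ3 hJpos hl2.le
    hl2' hJ'1 hJ'2 hJP hJC hV hmain hv hN hε
  exact hfin

end Pool.K2S
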