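import Pool.Agent.H13.K2S.Zon
import Pool.Agent.H13.K2S.NoPlank
import Pool.Agent.H13.KAL.KP1

/-!
# The end: the frames cannot be conserved on macroscopic windows of small length exponent
-/

set_option autoImplicit false

namespace Pool.K2S

open Finset Real
open Pool.Agent.H49.Ent Pool.Agent.H32.Dense Pool.STK Pool.KA Pool.KSAT Pool.KA.TRC

namespace Npc

variable {J : ℕ}

/-- The slope of the label, cut off. -/
noncomputable def sl (l : ℕ) (j₁ : Fin 2) (y : (Fin 2 → ℤ) × (Fin 2 → ℤ) × (Fin 2 → ℤ)) : ℝ :=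
  max (-4) (min 4 ((y.1 j₁ : ℝ) / 2 ^ l))

theorem sl_le (l : ℕ) (j₁ : Fin 2) (y : (Fin 2 → ℤ) × (Fin 2 → ℤ) × (Fin 2 → ℤ)) :
    |sl l j₁ y| ≤ 4 := by
  unfold sl
  rw [abs_le]
  exact ⟨le_max_left _ _, max_le (by norm_num) (min_le_left _ _)⟩

/-- The frame. -/
noncomputable def MA (l : ℕ) (i₀ j₁ : Fin 2) (y : (Fin 2 → ℤ) × (Fin 2 → ℤ) × (Fin 2 → ℤ))
    (i j : Fin 2) : ℝ :=
  if i = 0 then (if j = i₀ then -(sl l j₁ y / 4) else 1 / 4) else (if j = i₀ then 1 else 0)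

/-- Its inverse. -/
noncomputable def MB (l : ℕ) (i₀ j₁ : Fin 2) (y : (Fin 2 → ℤ) × (Fin 2 → ℤ) × (Fin 2 → ℤ))
    (i j : Fin 2) : ℝ :=
  if i = i₀ then (if j = 0 then 0 else 1) else (if j = 0 then 4 else sl l j₁ y)

theorem MA_le (l : ℕ) (i₀ j₁ : Fin 2) (y : (Fin 2 → ℤ) × (Fin 2 → ℤ) × (Fin 2 → ℤ))
    (i j : Fin 2) : |MA l i₀ j₁ y i j| ≤ 1 := by
  have h := sl_le l j₁ y
  unfold MA
  split_ifs
  · rw [abs_neg, abs_div]
    rw [div_le_one (by norm_num)]
    rw [abs_of_pos (by norm_num : (0 : ℝ) < 4)]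
    exact h
  · rw [abs_of_pos (by norm_num)]; norm_num
  · simp
  · simp

theorem MB_le (l : ℕ) (i₀ j₁ : Fin 2) (y : (Fin 2 → ℤ) × (Fin 2 → ℤ) × (Fin 2 → ℤ))
    (i j : Fin 2) : |MB l i₀ j₁ y i j| ≤ 4 := by
  have h := sl_le l j₁ y
  unfold MB
  split_ifs
  · simp
  · simp
  · rw [abs_of_pos (by norm_num)]
  · exact h

theorem MB_MA (l : ℕ) (i₀ j₁ : Fin 2) (y : (Fin 2 → ℤ) × (Fin 2 → ℤ) × (Fin 2 → ℤ))
    (i k : Fin 2) : ∑ j, MB l i₀ j₁ y i j * MA l i₀ j₁ y j k = if i = k then 1 else 0 := by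
  rw [Fin.sum_univ_two]
  unfold MB MA
  by_cases h1 : i = i₀
  · by_cases h2 : k = i₀
    · simp [h1, h2]
    · have : ¬ i = k := fun h => h2 (h ▸ h1)
      simp [h1, h2, h1 ▸ this]
  · by_cases h2 : k = i₀
    · have : ¬ i = k := fun h => h1 (h ▸ h2)
      simp [h1, h2]
      ring
    · have : i = k := by
        revert h1 h2
        revert i k i₀
        decide
      simp [h1, h2, this]

theorem ex_idx : ∀ i₀ : Fin 2, ∃ j₁ : Fin 2, j₁ ≠ i₀ := by
  decide

theorem two_idx : ∀ (i₀ j₁ : Fin 2), j₁ ≠ i₀ → (i₀ = 0 ∧ j₁ = 1) ∨ (i₀ = 1 ∧ j₁ = 0) := by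
  decide

/-- The normal form. -/
noncomputable def nf (i₀ : Fin 2) (s : Fin 2 → ℝ) (x : Fin 2 → ℝ) (j : Fin 2) : ℝ :=
  x j - s j * x i₀

/-- The slopes of the window, rounded. -/
noncomputable def z1 {V Ω : Type} (l : ℕ) (wn : Ω → V) (ζ : V → Fin 2 → ℝ) (ω : Ω) (j : Fin 2) : ℤ :=
  ⌊(2 : ℝ) ^ l * ζ (wn ω) j⌋

/-- The rounded slopes. -/
noncomputable def zs (l : ℕ) (y : Fin 2 → ℤ) (j : Fin 2) : ℝ := (y j : ℝ) / 2 ^ l

/-- The label: slopes, normal position at the start of the window, normal direction. -/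
noncomputable def lab (F : Fam 2 J) (i₀ : Fin 2) (l w : ℕ)
    (ζ : ((Fin 2 → ℝ) × (Fin 2 → ℝ)) × F.ζ × ℕ → Fin 2 → ℝ) (ω : F.Ω) :
    (Fin 2 → ℤ) × (Fin 2 → ℤ) × (Fin 2 → ℤ) :=
  (z1 l (slam F w) ζ ω, fl l (nf i₀ (zs l (z1 l (slam F w) ζ ω)) (F.x1 w ω)),
    fl l (nf i₀ (zs l (z1 l (slam F w) ζ ω)) (F.d ω)))

theorem zs_near {V Ω : Type} (l : ℕ) (wn : Ω → V) (ζ : V → Fin 2 → ℝ) (ω : Ω) (j : Fin 2) :
    |ζ (wn ω) j - zs l (z1 l wn ζ ω) j| ≤ 1 / 2 ^ l := by
  unfold zs z1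
  have hl : (0 : ℝ) < 2 ^ l := by positivity
  have h1 := Int.floor_le ((2 : ℝ) ^ l * ζ (wn ω) j)
  have h2 := Int.lt_floor_add_one ((2 : ℝ) ^ l * ζ (wn ω) j)
  have e : ζ (wn ω) j - ((⌊(2 : ℝ) ^ l * ζ (wn ω) j⌋ : ℤ) : ℝ) / 2 ^ l =
      ((2 : ℝ) ^ l * ζ (wn ω) j - (⌊(2 : ℝ) ^ l * ζ (wn ω) j⌋ : ℤ)) / 2 ^ l := by
    field_simp
  rw [e, abs_div, abs_of_pos hl]
  refine div_le_div_of_nonneg_right ?_ hl.le
  rw [abs_le]
  constructor <;> linarith

/-- Floors of two numbers which are close. -/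
theorem floor_close2 {l : ℕ} {x y c : ℝ} (h : |x - y| ≤ c / 2 ^ l) (hc : c ≤ 48) :
    |((⌊(2 : ℝ) ^ l * x⌋ - ⌊(2 : ℝ) ^ l * y⌋ : ℤ) : ℝ)| ≤ 49 := by
  have hl : (0 : ℝ) < 2 ^ l := by positivity
  have h1 : |(2 : ℝ) ^ l * x - 2 ^ l * y| ≤ c := by
    rw [← mul_sub, abs_mul, abs_of_pos hl]
    calc (2 : ℝ) ^ l * |x - y| ≤ 2 ^ l * (c / 2 ^ l) := mul_le_mul_of_nonneg_left h hl.le
      _ = c := by field_simp
  have a1 := Int.floor_le ((2 : ℝ) ^ l * x)
  have a2 := Int.lt_floor_add_one ((2 : ℝ) ^ l * x)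
  have b1 := Int.floor_le ((2 : ℝ) ^ l * y)
  have b2 := Int.lt_floor_add_one ((2 : ℝ) ^ l * y)
  rw [abs_le] at h1 ⊢
  push_cast
  constructor <;> linarith [h1.1, h1.2]

variable {F : Fam 2 J} {i₀ : Fin 2} {l w : ℕ}
  {ζ : ((Fin 2 → ℝ) × (Fin 2 → ℝ)) × F.ζ × ℕ → Fin 2 → ℝ}
  {e n : (Fin 2 → ℤ) × (ℕ × F.ζ) → Fin 2 → ℝ}

/-- Two samples at one exact point with the same slopes. -/
theorem dir_close {ω ω' : F.Ω} (hpt : Fam.pt F ω = Fam.pt F ω')
    (h1 : ∀ j, |F.d ω j - e (Fam.pt F ω) j * F.d ω i₀ - n (Fam.pt F ω) j| ≤ 1 / 2 ^ l)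
    (h1' : ∀ j, |F.d ω' j - e (Fam.pt F ω') j * F.d ω' i₀ - n (Fam.pt F ω') j| ≤ 1 / 2 ^ l)
    (h2 : ∀ j, |e (Fam.pt F ω) j - ζ (slam F w ω) j| ≤ 1 / 2 ^ l)
    (s : Fin 2 → ℝ) (hs : ∀ j, |ζ (slam F w ω) j - s j| ≤ 1 / 2 ^ l) (j : Fin 2) :
    |nf i₀ s (F.d ω) j - nf i₀ s (F.d ω') j| ≤ 6 / 2 ^ l := by
  have a1 := h1 j
  have a2 := h1' j
  rw [← hpt] at a2
  have a3 : |e (Fam.pt F ω) j - s j| ≤ 2 * (1 / 2 ^ l) := by
    have b1 := abs_le.1 (h2 j)
    have b2 := abs_le.1 (hs j)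
    rw [abs_le]
    constructor <;> linarith only [b1, b2, b1.1, b1.2, b2.1, b2.2]
  have a4 : |F.d ω i₀ - F.d ω' i₀| ≤ 2 := by
    have b1 := abs_le.1 (F.dir ω i₀)
    have b2 := abs_le.1 (F.dir ω' i₀)
    rw [abs_le]
    constructor <;> linarith only [b1, b2, b1.1, b1.2, b2.1, b2.2]
  have a5 : |(e (Fam.pt F ω) j - s j) * (F.d ω i₀ - F.d ω' i₀)| ≤ 4 * (1 / 2 ^ l) := by
    rw [abs_mul]
    calc _ ≤ 2 * (1 / 2 ^ l) * 2 := mul_le_mul a3 a4 (abs_nonneg _) (by positivity)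
      _ = _ := by ring
  unfold nf
  have e1 : F.d ω j - s j * F.d ω i₀ - (F.d ω' j - s j * F.d ω' i₀) =
      (F.d ω j - e (Fam.pt F ω) j * F.d ω i₀ - n (Fam.pt F ω) j) -
      (F.d ω' j - e (Fam.pt F ω) j * F.d ω' i₀ - n (Fam.pt F ω) j) +
      (e (Fam.pt F ω) j - s j) * (F.d ω i₀ - F.d ω' i₀) := by ring
  rw [e1]
  rw [abs_le] at a1 a2 a5 ⊢
  have e2 : (6 : ℝ) / 2 ^ l = 6 * (1 / 2 ^ l) := by ring
  rw [e2]
  constructor <;> linarith only [a1, a2, a5, a1.1, a1.2, a2.1, a2.2, a5.1, a5.2]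

/-- The normal position at the start of the window. -/
theorem nf_x1 (s : Fin 2 → ℝ) (ω : F.Ω) (j : Fin 2) :
    nf i₀ s (F.x1 w ω) j = nf i₀ s (F.x ω) j -
      ((2 ^ w * F.t ω - F.T1 w ω) / 2 ^ w) * nf i₀ s (F.d ω) j := by
  unfold nf Fam.x1 Fam.x
  have : (2 : ℝ) ^ w ≠ 0 := by positivity
  field_simp
  ring

theorem s_mem (hw : w ≤ J) (ω : F.Ω) : 0 ≤ (2 ^ w * F.t ω - F.T1 w ω) / 2 ^ w ∧
    (2 ^ w * F.t ω - F.T1 w ω) / 2 ^ w ≤ 1 := by
  have h := T1_real F hw ω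
  have hw : (1 : ℝ) ≤ 2 ^ w := one_le_pow₀ (by norm_num)
  constructor
  · exact div_nonneg h.1 (by positivity)
  · rw [div_le_one (by positivity)]
    linarith only [h, hw, h.2]

theorem T_det {ω ω' : F.Ω} (h : F.T ω = F.T ω') :
    (2 ^ w * F.t ω - F.T1 w ω) / 2 ^ w = (2 ^ w * F.t ω' - F.T1 w ω') / 2 ^ w := by
  unfold Fam.t Fam.T1
  rw [h]

/-- The label is visible from the exact point, up to a bounded number of values. -/
theorem lab_vis (hl : l ≤ J) (hw : w ≤ J) (hz : ∀ ω, 0 < F.p ω → ∀ j, |ζ (slam F w ω) j| ≤ 3)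
    (h1 : ∀ ω, 0 < F.p ω → ∀ j,
      |F.d ω j - e (Fam.pt F ω) j * F.d ω i₀ - n (Fam.pt F ω) j| ≤ 1 / 2 ^ l)
    (h2 : ∀ ω, 0 < F.p ω → ∀ j, |e (Fam.pt F ω) j - ζ (slam F w ω) j| ≤ 1 / 2 ^ l) :
    CH F.p (lab F i₀ l w ζ) (Fam.pt F) ≤ 3 * cc 2 := by
  have hp := F.isLaw.nonneg
  have hl0 : (0 : ℝ) < 2 ^ l := by positivity
  have c0 : CH F.p (fun _ => (0 : Fin 2 → ℤ)) (Fam.pt F) = 0 := CH_eq_zero hp fun _ _ _ _ _ => rfl
  -- the slopes
  have k1 : CH F.p (z1 l (slam F w) ζ) (Fam.pt F) ≤ cc 2 := by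
    have := CH_le_round F.isLaw (z1 l (slam F w) ζ) (fun _ => (0 : Fin 2 → ℤ)) (Fam.pt F)
      (fun ω ω' a b hh _ j => by
        have b1 := abs_le.1 (h2 ω a j)
        have b2 := abs_le.1 (h2 ω' b j)
        rw [← hh] at b2
        refine floor_close2 (c := 2) ?_ (by norm_num)
        have : (2 : ℝ) / 2 ^ l = 2 * (1 / 2 ^ l) := by ring
        rw [this, abs_le]
        constructor <;> linarith only [b1, b2, b1.1, b1.2, b2.1, b2.2])
    linarith only [c0, this]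
  -- the normal direction
  have k3 : CH F.p (fun ω => fl l (nf i₀ (zs l (z1 l (slam F w) ζ ω)) (F.d ω)))
      (fun ω => (z1 l (slam F w) ζ ω, Fam.pt F ω)) ≤ cc 2 := by
    have := CH_le_round F.isLaw (fun ω => fl l (nf i₀ (zs l (z1 l (slam F w) ζ ω)) (F.d ω)))
      (fun _ => (0 : Fin 2 → ℤ)) (fun ω => (z1 l (slam F w) ζ ω, Fam.pt F ω))
      (fun ω ω' a b hh _ j => by
        have e1 := Prod.ext_iff.mp hh
        have e2 : z1 l (slam F w) ζ ω = z1 l (slam F w) ζ ω' := e1.1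
        have e3 : Fam.pt F ω = Fam.pt F ω' := e1.2
        have h3 := dir_close e3 (h1 ω a) (h1 ω' b) (h2 ω a) (zs l (z1 l (slam F w) ζ ω))
          (fun j => zs_near l (slam F w) ζ ω j) j
        refine floor_close2 (c := 6) ?_ (by norm_num)
        rw [← e2]
        exact h3)
    have c1 : CH F.p (fun _ => (0 : Fin 2 → ℤ)) (fun ω => (z1 l (slam F w) ζ ω, Fam.pt F ω)) =
      0 := CH_eq_zero hp fun _ _ _ _ _ => rfl
    linarith only [this, c1]
  -- the normal position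
  exact by
   have k2 : CH F.p (fun ω => fl l (nf i₀ (zs l (z1 l (slam F w) ζ ω)) (F.x1 w ω)))
       (fun ω => (z1 l (slam F w) ζ ω, Fam.pt F ω)) ≤ cc 2 := by
     have := CH_le_round F.isLaw
       (fun ω => fl l (nf i₀ (zs l (z1 l (slam F w) ζ ω)) (F.x1 w ω)))
       (fun _ => (0 : Fin 2 → ℤ)) (fun ω => (z1 l (slam F w) ζ ω, Fam.pt F ω))
       (fun ω ω' a b hh _ j => by
         have e1 := Prod.ext_iff.mp hh
         have e2 : z1 l (slam F w) ζ ω = z1 l (slam F w) ζ ω' := e1.1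
         have e3 : Fam.pt F ω = Fam.pt F ω' := e1.2
         have e4 : F.X J ω = F.X J ω' ∧ F.W ω = F.W ω' := Prod.ext_iff.mp e3
         have e5 : F.T ω = F.T ω' := (Prod.ext_iff.mp e4.2).1
         have h3 := dir_close e3 (h1 ω a) (h1 ω' b) (h2 ω a) (zs l (z1 l (slam F w) ζ ω))
           (fun j => zs_near l (slam F w) ζ ω j) j
         refine floor_close2 (c := 16) ?_ (by norm_num)
         rw [← e2, nf_x1, nf_x1, ← T_det e5]
         obtain ⟨s, hs⟩ : ∃ s, s = (2 ^ w * F.t ω - F.T1 w ω) / 2 ^ w := ⟨_, rfl⟩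
         have hs1 := s_mem (F := F) hw ω
         rw [← hs] at hs1 ⊢
         -- positions
         have hx : ∀ i, |F.x ω i - F.x ω' i| ≤ 1 / 2 ^ l := by
           intro i
           have hJ0 : (0 : ℝ) < 2 ^ J := by positivity
           have b1 : ⌊(2 : ℝ) ^ J * F.x ω i⌋ = ⌊(2 : ℝ) ^ J * F.x ω' i⌋ := congrFun e4.1 i
           have b2 := Int.floor_le ((2 : ℝ) ^ J * F.x ω i)
           have b3 := Int.lt_floor_add_one ((2 : ℝ) ^ J * F.x ω i)
           have b4 := Int.floor_le ((2 : ℝ) ^ J * F.x ω' i)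
           have b5 := Int.lt_floor_add_one ((2 : ℝ) ^ J * F.x ω' i)
           rw [← b1] at b4 b5
           have b6 : |(2 : ℝ) ^ J * (F.x ω i - F.x ω' i)| ≤ 1 := by
             rw [abs_le]
             constructor <;> linarith
           rw [abs_mul, abs_of_pos hJ0] at b6
           have b7 : |F.x ω i - F.x ω' i| ≤ 1 / 2 ^ J := by
             rw [le_div_iff₀ hJ0]; linarith only [b6]
           refine b7.trans (one_div_le_one_div_of_le hl0 ?_)
           exact pow_le_pow_right₀ (by norm_num) hl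
         have hsl : |zs l (z1 l (slam F w) ζ ω) j| ≤ 4 := by
           have b1 := abs_le.1 (zs_near l (slam F w) ζ ω j)
           have b2 := abs_le.1 (hz ω a j)
           have b3 : (1 : ℝ) / 2 ^ l ≤ 1 := by
             rw [div_le_one hl0]
             exact one_le_pow₀ (by norm_num)
           rw [abs_le]
           constructor <;> linarith only [b1, b2, b3, b1.1, b1.2, b2.1, b2.2]
         obtain ⟨sg, hsg⟩ : ∃ sg, sg = zs l (z1 l (slam F w) ζ ω) := ⟨_, rfl⟩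
         rw [← hsg] at h3 hsl ⊢
         have q1 : |nf i₀ sg (F.x ω) j - nf i₀ sg (F.x ω') j| ≤ 5 * (1 / 2 ^ l) := by
           unfold nf
           have e6 : F.x ω j - sg j * F.x ω i₀ - (F.x ω' j - sg j * F.x ω' i₀) =
             (F.x ω j - F.x ω' j) - sg j * (F.x ω i₀ - F.x ω' i₀) := by ring
           rw [e6]
           have e7 : |sg j * (F.x ω i₀ - F.x ω' i₀)| ≤ 4 * (1 / 2 ^ l) := by
             rw [abs_mul]
             exact mul_le_mul hsl (hx i₀) (abs_nonneg _) (by norm_num)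
           calc _ ≤ |F.x ω j - F.x ω' j| + |sg j * (F.x ω i₀ - F.x ω' i₀)| := abs_sub _ _
             _ ≤ _ := by linarith only [e7, hx, hx j]
         have q2 : |s * (nf i₀ sg (F.d ω) j - nf i₀ sg (F.d ω') j)| ≤ 6 * (1 / 2 ^ l) := by
           rw [abs_mul, abs_of_nonneg hs1.1]
           calc _ ≤ 1 * (6 / 2 ^ l) := mul_le_mul hs1.2 h3 (abs_nonneg _) (by norm_num)
             _ = _ := by ring
         have e8 : nf i₀ sg (F.x ω) j - s * nf i₀ sg (F.d ω) j -
             (nf i₀ sg (F.x ω') j - s * nf i₀ sg (F.d ω') j) =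
             (nf i₀ sg (F.x ω) j - nf i₀ sg (F.x ω') j) -
             s * (nf i₀ sg (F.d ω) j - nf i₀ sg (F.d ω') j) := by ring
         rw [e8]
         have e9 : (16 : ℝ) / 2 ^ l = 16 * (1 / 2 ^ l) := by ring
         rw [e9]
         have e10 : (0 : ℝ) ≤ 1 / 2 ^ l := by positivity
         calc _ ≤ |nf i₀ sg (F.x ω) j - nf i₀ sg (F.x ω') j| +
               |s * (nf i₀ sg (F.d ω) j - nf i₀ sg (F.d ω') j)| := abs_sub _ _
           _ ≤ _ := by linarith only [q1, q2, e10])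
     have c1 : CH F.p (fun _ => (0 : Fin 2 → ℤ)) (fun ω => (z1 l (slam F w) ζ ω, Fam.pt F ω)) =
       0 := CH_eq_zero hp fun _ _ _ _ _ => rfl
     linarith only [this, c1]
   exact by
    have a1 := CH_le_add hp (lab F i₀ l w ζ) (z1 l (slam F w) ζ) (Fam.pt F)
    have a2 : CH F.p (lab F i₀ l w ζ) (fun ω => (z1 l (slam F w) ζ ω, Fam.pt F ω)) ≤
        CH F.p (fun ω => (fl l (nf i₀ (zs l (z1 l (slam F w) ζ ω)) (F.x1 w ω)),
          fl l (nf i₀ (zs l (z1 l (slam F w) ζ ω)) (F.d ω))))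
          (fun ω => (z1 l (slam F w) ζ ω, Fam.pt F ω)) := by
      refine CH_mono_left hp fun ω ω' _ _ hh => ?_
      have b1 := Prod.ext_iff.mp hh
      have b2 := Prod.ext_iff.mp b1.1
      have b3 := Prod.ext_iff.mp b1.2
      exact Prod.ext b3.1 (Prod.ext b2.1 b2.2)
    have a3 := CH_subadd hp (fun ω => fl l (nf i₀ (zs l (z1 l (slam F w) ζ ω)) (F.x1 w ω)))
      (fun ω => fl l (nf i₀ (zs l (z1 l (slam F w) ζ ω)) (F.d ω)))
      (fun ω => (z1 l (slam F w) ζ ω, Fam.pt F ω))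
    linarith only [k1, k3, k2, a1, a2, a3]

/-- The normal position is a function of the label and the time, up to a bounded number of
values. -/
theorem lab_con (hw : w ≤ J) {j₁ : Fin 2} (hj : j₁ ≠ i₀)
    (hz : ∀ ω, 0 < F.p ω → ∀ j, |ζ (slam F w ω) j| ≤ 3) :
    CH F.p (fun ω => fl l (prj (MA l i₀ j₁ (lab F i₀ l w ζ ω)) (Fin.castAdd 1) (F.x ω) :
      Fin 1 → ℝ)) (fun ω => (lab F i₀ l w ζ ω, F.W ω)) ≤ cc 1 := by
  have hp := F.isLaw.nonneg
  have hl0 : (0 : ℝ) < 2 ^ l := by positivity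
  have hprj : ∀ ω, 0 < F.p ω → ∀ j : Fin 1,
      prj (MA l i₀ j₁ (lab F i₀ l w ζ ω)) (Fin.castAdd 1) (F.x ω) j =
        nf i₀ (zs l (z1 l (slam F w) ζ ω)) (F.x ω) j₁ / 4 := by
    intro ω hω j
    have hsl : sl l j₁ (lab F i₀ l w ζ ω) = zs l (z1 l (slam F w) ζ ω) j₁ := by
      have b1 := abs_le.1 (zs_near l (slam F w) ζ ω j₁)
      have b2 := abs_le.1 (hz ω hω j₁)
      have b3 : (1 : ℝ) / 2 ^ l ≤ 1 := by
        rw [div_le_one hl0]
        exact one_le_pow₀ (by norm_num)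
      have e1 : sl l j₁ (lab F i₀ l w ζ ω) =
        max (-4) (min 4 (zs l (z1 l (slam F w) ζ ω) j₁)) := rfl
      rw [e1, min_eq_right (by linarith only [b1, b2, b3, b1.1, b1.2, b2.1, b2.2]),
        max_eq_right (by linarith only [b1, b2, b3, b1.1, b1.2, b2.1, b2.2])]
    have hj0 : (Fin.castAdd 1 j : Fin (1 + 1)) = 0 := by
      have : j = 0 := Subsingleton.elim _ _
      rw [this]
      rfl
    unfold prj
    rw [hj0]
    have e2 : ∀ f : Fin 2 → ℝ, ∑ k, f k = f i₀ + f j₁ := by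
      intro f
      rw [Fin.sum_univ_two]
      rcases two_idx i₀ j₁ hj with ⟨h1, h2⟩ | ⟨h1, h2⟩
      · rw [h1, h2]
      · rw [h1, h2, add_comm]
    rw [e2]
    unfold MA nf
    rw [if_pos rfl, if_pos rfl, if_pos rfl, if_neg hj, hsl]
    ring
  exact by
   have key := CH_le_round F.isLaw
     (fun ω => fl l (prj (MA l i₀ j₁ (lab F i₀ l w ζ ω)) (Fin.castAdd 1) (F.x ω) : Fin 1 → ℝ))
     (fun _ => (0 : Fin 1 → ℤ)) (fun ω => (lab F i₀ l w ζ ω, F.W ω))
     (fun ω ω' a b hh _ j => by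
       have b1 := Prod.ext_iff.mp hh
       have b2 : lab F i₀ l w ζ ω = lab F i₀ l w ζ ω' := b1.1
       have b3 : F.T ω = F.T ω' := (Prod.ext_iff.mp b1.2).1
       have c1 := Prod.ext_iff.mp b2
       have c2 := Prod.ext_iff.mp c1.2
       have e1 : z1 l (slam F w) ζ ω = z1 l (slam F w) ζ ω' := c1.1
       refine floor_close2 (c := 2) ?_ (by norm_num)
       rw [hprj ω a j, hprj ω' b j]
       obtain ⟨sg, hsg⟩ : ∃ sg, sg = zs l (z1 l (slam F w) ζ ω) := ⟨_, rfl⟩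
       have e2 : ⌊(2 : ℝ) ^ l * nf i₀ sg (F.x1 w ω) j₁⌋ =
           ⌊(2 : ℝ) ^ l * nf i₀ sg (F.x1 w ω') j₁⌋ := by
         have := congrFun c2.1 j₁
         rw [hsg]
         have h5 : ⌊(2 : ℝ) ^ l * nf i₀ (zs l (z1 l (slam F w) ζ ω)) (F.x1 w ω) j₁⌋ =
           ⌊(2 : ℝ) ^ l * nf i₀ (zs l (z1 l (slam F w) ζ ω')) (F.x1 w ω') j₁⌋ := this
         rw [h5, e1]
       have e3 : ⌊(2 : ℝ) ^ l * nf i₀ sg (F.d ω) j₁⌋ =
           ⌊(2 : ℝ) ^ l * nf i₀ sg (F.d ω') j₁⌋ := by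
         have := congrFun c2.2 j₁
         rw [hsg]
         have h5 : ⌊(2 : ℝ) ^ l * nf i₀ (zs l (z1 l (slam F w) ζ ω)) (F.d ω) j₁⌋ =
           ⌊(2 : ℝ) ^ l * nf i₀ (zs l (z1 l (slam F w) ζ ω')) (F.d ω') j₁⌋ := this
         rw [h5, e1]
       rw [← e1, ← hsg]
       obtain ⟨s, hs⟩ : ∃ s, s = (2 ^ w * F.t ω - F.T1 w ω) / 2 ^ w := ⟨_, rfl⟩
       have hs1 := s_mem (F := F) hw ω
       have d1 := nf_x1 (F := F) (i₀ := i₀) (w := w) sg ω j₁
       have d2 := nf_x1 (F := F) (i₀ := i₀) (w := w) sg ω' j₁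
       rw [← T_det b3, ← hs] at d2
       rw [← hs] at d1 hs1
       have near : ∀ x y : ℝ, ⌊(2 : ℝ) ^ l * x⌋ = ⌊(2 : ℝ) ^ l * y⌋ → |x - y| ≤ 1 / 2 ^ l := by
         intro x y h
         have f1 := Int.floor_le ((2 : ℝ) ^ l * x)
         have f2 := Int.lt_floor_add_one ((2 : ℝ) ^ l * x)
         have f3 := Int.floor_le ((2 : ℝ) ^ l * y)
         have f4 := Int.lt_floor_add_one ((2 : ℝ) ^ l * y)
         rw [← h] at f3 f4
         have f5 : |(2 : ℝ) ^ l * (x - y)| ≤ 1 := by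
           rw [abs_le]
           constructor <;> linarith
         rw [abs_mul, abs_of_pos hl0] at f5
         rw [le_div_iff₀ hl0]
         linarith only [f5]
       have g1 := near _ _ e2
       have g2 := near _ _ e3
       have g3 : |s * (nf i₀ sg (F.d ω) j₁ - nf i₀ sg (F.d ω') j₁)| ≤ 1 / 2 ^ l := by
         rw [abs_mul, abs_of_nonneg hs1.1]
         calc _ ≤ 1 * (1 / 2 ^ l) := mul_le_mul hs1.2 g2 (abs_nonneg _) (by norm_num)
           _ = _ := one_mul _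
       have g4 : nf i₀ sg (F.x ω) j₁ / 4 - nf i₀ sg (F.x ω') j₁ / 4 =
           ((nf i₀ sg (F.x1 w ω) j₁ - nf i₀ sg (F.x1 w ω') j₁) +
             s * (nf i₀ sg (F.d ω) j₁ - nf i₀ sg (F.d ω') j₁)) / 4 := by
         rw [d1, d2]
         ring
       rw [g4]
       have g5 : (2 : ℝ) / 2 ^ l = 2 * (1 / 2 ^ l) := by ring
       have g6 : (0 : ℝ) ≤ 1 / 2 ^ l := by positivity
       rw [g5, abs_div, abs_of_pos (by norm_num : (0 : ℝ) < 4), div_le_iff₀ (by norm_num)]
       refine (abs_add_le _ _).trans ?_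
       linarith only [g1, g3, g6])
   exact by
    have c1 : CH F.p (fun _ => (0 : Fin 1 → ℤ)) (fun ω => (lab F i₀ l w ζ ω, F.W ω)) = 0 :=
      CH_eq_zero hp fun _ _ _ _ _ => rfl
    linarith only [key, c1]

end Npc

/-- Steep slopes of a fine frame are possible at points with a thin fan only. -/
theorem steep_ball {Ω U V : Type} {pt : Ω → U} {wn : Ω → V} {d : Ω → Fin 2 → ℝ} {A : Ω → Prop}
    {i₀ : Fin 2} {r rb : ℝ} {e n eb nb : U → Fin 2 → ℝ} {ζ : V → Fin 2 → ℝ}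
    (hb : IsFrame i₀ rb pt d A eb nb) (h : OnL i₀ r pt d A e n)
    (hz : ∀ ω, A ω → ∀ j, |e (pt ω) j - ζ (wn ω) j| ≤ 1) :
    Ball (2 * r + 4 * rb) pt d (fun ω => A ω ∧ ∃ j, 3 < |ζ (wn ω) j|) := by
  classical
  have hex : ∀ y : U, ∃ v : Fin 2 → ℝ, ∀ ω, A ω → (∃ j, 3 < |ζ (wn ω) j|) → pt ω = y →
      ∀ j, |d ω j - v j| ≤ 2 * r + 4 * rb := by
    intro y
    by_cases hy : ∃ ω, A ω ∧ (∃ j, 3 < |ζ (wn ω) j|) ∧ pt ω = y
    · obtain ⟨ω₀, h0, -, h00⟩ := hy
      refine ⟨d ω₀, fun ω hω hj hpt k => ?_⟩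
      obtain ⟨j, hj⟩ := hj
      have e1 : 2 < |e (pt ω) j| := by
        have := abs_sub_abs_le_abs_sub (ζ (wn ω) j) (e (pt ω) j)
        rw [abs_sub_comm] at this
        linarith only [hj, this, hz, hω, hz ω hω j]
      have e2 := hb.bound ω hω j
      have e3 : 1 ≤ |e (pt ω) j - eb (pt ω) j| := by
        have := abs_sub_abs_le_abs_sub (e (pt ω) j) (eb (pt ω) j)
        linarith only [e1, e2, this]
      have a1 := h ω hω j
      have a2 := h ω₀ h0 j
      have b1 := hb.line ω hω j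
      have b2 := hb.line ω₀ h0 j
      have c1 := hb.line ω hω k
      have c2 := hb.line ω₀ h0 k
      have c3 := hb.bound ω hω k
      rw [h00, ← hpt] at a2 b2 c2
      obtain ⟨Δ, hΔ⟩ : ∃ Δ, Δ = d ω i₀ - d ω₀ i₀ := ⟨_, rfl⟩
      have k1 : |(e (pt ω) j - eb (pt ω) j) * Δ| ≤ 2 * r + 2 * rb := by
        rw [hΔ]
        rw [abs_le] at a1 a2 b1 b2 ⊢
        constructor <;> nlinarith only [a1, a2, b1, b2, a1.1, a1.2, a2.1, a2.2, b1.1, b1.2, b2.1, b2.2]
      have k2 : |Δ| ≤ 2 * r + 2 * rb := by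
        rw [abs_mul] at k1
        have := abs_nonneg Δ
        nlinarith only [k1, e3, this]
      have k3 : |eb (pt ω) k * Δ| ≤ 2 * r + 2 * rb := by
        rw [abs_mul]
        have h1 := abs_nonneg Δ
        have h2 := abs_nonneg (eb (pt ω) k)
        nlinarith only [k2, c3, h1]
      rw [hΔ] at k3
      rw [abs_le] at c1 c2 k3 ⊢
      constructor <;> nlinarith only [c1, c2, k3, c1.1, c1.2, c2.1, c2.2, k3.1, k3.2]
    · exact ⟨0, fun ω hω hj hpt => absurd ⟨ω, hω, hj, hpt⟩ hy⟩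
  choose v hv using hex
  exact ⟨v, fun ω hω => hv _ ω hω.1 hω.2 rfl⟩

/-- The arithmetic of the ball. -/
theorem ball_arith {l q f : ℕ} (h1 : q + 3 ≤ l) (h2 : q + 3 ≤ f) :
    2 * ((1 : ℝ) / 2 ^ l) + 4 * (1 / 2 ^ f) ≤ 1 / 2 ^ q := by
  have e1 : (1 : ℝ) / 2 ^ l ≤ 1 / 2 ^ (q + 3) :=
    one_div_le_one_div_of_le (by positivity) (pow_le_pow_right₀ (by norm_num) h1)
  have e2 : (1 : ℝ) / 2 ^ f ≤ 1 / 2 ^ (q + 3) :=
    one_div_le_one_div_of_le (by positivity) (pow_le_pow_right₀ (by norm_num) h2)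
  have e3 : (1 : ℝ) / 2 ^ (q + 3) = 1 / 2 ^ q / 8 := by
    rw [pow_add]
    field_simp
    norm_num
  have e4 : (0 : ℝ) < 1 / 2 ^ q := by positivity
  rw [e3] at e1 e2
  linarith only [e1, e2, e4]

open Npc in
/-- **(NPC)** -/
theorem npc_thm (hM : MOPStmt) (h6 : AP6RStmt) : NPCStmt := by
  classical
  intro a R ha hR hU
  obtain ⟨x, hx, τ₀, hτ₀, J₁, hnpl⟩ := npl_thm hM 1 1 Pool.KAL.KP1.kp_one Pool.KAL.KP1.kp_one a R
    ha.le hR 4
  obtain ⟨x', hx'⟩ : ∃ x', x' = min (x / 2) (1 / 2) := ⟨_, rfl⟩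
  have hx'0 : 0 < x' := by rw [hx']; exact lt_min (by linarith only [hx]) (by norm_num)
  have hx'1 : x' ≤ 1 / 2 := by rw [hx']; exact min_le_right _ _
  have hx'x : x' ≤ x / 2 := by rw [hx']; exact min_le_left _ _
  refine ⟨x', hx'0, by linarith only [hx'0, hx'1], fun h₁ hh₁ => ⟨1, fun N hN i₀ j v hj hj2 hv => ?_⟩⟩
  have hNpos : (0 : ℝ) < N := by exact_mod_cast hN
  have hN0 : 0 < N := hN
  obtain ⟨xb, hxb⟩ : ∃ xb, xb = min h₁ (1 / 4) / 4 := ⟨_, rfl⟩
  have hxb0 : 0 < xb := by rw [hxb]; have := lt_min hh₁ (show (0 : ℝ) < 1 / 4 by norm_num); linarith only [this]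
  have hxb1 : 4 * xb ≤ h₁ := by rw [hxb]; have := min_le_left h₁ (1 / 4); linarith only [this]
  have hxb2 : 16 * xb ≤ 1 := by rw [hxb]; have := min_le_right h₁ (1 / 4); linarith only [this]
  obtain ⟨τb, hτb, Jb, hball⟩ := not_ball h6 ha.le hR hU hxb0
  refine Claim.one ⟨1, fun J F _ => Ball (1 / 2 ^ (⌊xb * J⌋₊ + 1)) (Fam.pt F) F.d,
    fun _ _ _ => Ball.hered _ _ _⟩ fun κ hκ => ?_
  obtain ⟨τ, hτ⟩ : ∃ τ, τ = min τ₀ τb / (14 * (1 + a)) := ⟨_, rfl⟩
  have hτ0 : 0 < τ := by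
    rw [hτ]
    have : 0 < min τ₀ τb := lt_min hτ₀ hτb
    positivity
  have hl2 : 0 < Real.log 2 := Real.log_pos (by norm_num)
  obtain ⟨J₂, hJ₂⟩ := exists_nat_gt (Real.log 2 / κ + Real.log 2 / τ + 8 / xb + 2 * N / x +
    4 * N + 3 * cc 2 / τ₀ + cc 1 / τ₀ + 4)
  refine ⟨τ, hτ0, max J₂ (max J₁ Jb), fun J hJ F A hS hSb hLb hCn => ?_⟩
  have hJr : Real.log 2 / κ + Real.log 2 / τ + 8 / xb + 2 * N / x + 4 * N + 3 * cc 2 / τ₀ +
      cc 1 / τ₀ + 4 < J :=
    hJ₂.trans_le (by exact_mod_cast (le_max_left _ _).trans hJ)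
  exact by
   have hcc : ∀ m : ℕ, 0 ≤ cc m := fun m => by
     unfold cc
     exact mul_nonneg (by positivity) (Real.log_nonneg (by norm_num))
   have q1 : 0 < Real.log 2 / κ := by positivity
   have q2 : 0 < Real.log 2 / τ := by positivity
   have q3 : 0 < 8 / xb := by positivity
   have q4 : 0 < 2 * N / x := by positivity
   have q5 : 0 ≤ 3 * cc 2 / τ₀ := div_nonneg (mul_nonneg (by norm_num) (hcc 2)) hτ₀.le
   have q6 : 0 ≤ cc 1 / τ₀ := div_nonneg (hcc 1) hτ₀.le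
   have hJ0 : (0 : ℝ) < J := by linarith only [hNpos, hxb0, hxb2, hJr, q1, q2, q3, q4, q5, q6]
   have r1 : Real.log 2 ≤ κ * J := by
     have : Real.log 2 / κ < J := by linarith only [hNpos, hxb0, hxb2, hJr, q2, q3, q4, q5, q6]
     rw [div_lt_iff₀ hκ] at this
     linarith only [this]
   have r2 : Real.log 2 ≤ τ * J := by
     have : Real.log 2 / τ < J := by linarith only [hNpos, hxb0, hxb2, hJr, q1, q3, q4, q5, q6]
     rw [div_lt_iff₀ hτ0] at this
     linarith only [this]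
   have r3 : 8 ≤ xb * J := by
     have : 8 / xb < J := by linarith only [hNpos, hxb0, hxb2, hJr, q1, q2, q4, q5, q6]
     rw [div_lt_iff₀ hxb0] at this
     linarith only [this]
   have r4 : 2 * N ≤ x * J := by
     have : 2 * N / x < J := by linarith only [hNpos, hxb0, hxb2, hJr, q1, q2, q3, q5, q6]
     rw [div_lt_iff₀ hx] at this
     linarith only [this]
   have r5 : 3 * cc 2 ≤ τ₀ * J := by
     have : 3 * cc 2 / τ₀ < J := by linarith only [hNpos, hxb0, hxb2, hJr, q1, q2, q3, q4, q6]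
     rw [div_lt_iff₀ hτ₀] at this
     linarith only [this]
   exact by
    have r6 : cc 1 ≤ τ₀ * J := by
      have : cc 1 / τ₀ < J := by linarith only [hNpos, hxb0, hxb2, hJr, q1, q2, q3, q4, q5]
      rw [div_lt_iff₀ hτ₀] at this
      linarith only [this]
    have r7 : 4 * (N : ℝ) ≤ J := by linarith only [hxb0, hxb2, hJr, q1, q2, q3, q4, q5, q6]
    have hp := F.isLaw
    have hA0 : 0 < Pe F.p A := lt_of_lt_of_le (Real.exp_pos _) hS.2.2.2
    -- scales
    obtain ⟨u, hu⟩ : ∃ u, u = J / N := ⟨_, rfl⟩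
    have hu1 : (N : ℝ) * u ≤ J := by rw [hu]; exact_mod_cast Nat.mul_div_le J N
    have hu2 : (J : ℝ) < N * (u + 1) := by rw [hu]; exact_mod_cast Nat.lt_mul_div_succ J hN0
    have hu0 : (0 : ℝ) ≤ u := Nat.cast_nonneg u
    rw [← hu] at hCn
    obtain ⟨l, hl⟩ : ∃ l, l = j * u := ⟨_, rfl⟩
    obtain ⟨w, hw⟩ : ∃ w, w = v * u := ⟨_, rfl⟩
    rw [← hl, ← hw] at hCn
    have hlr : (l : ℝ) = j * u := by rw [hl]; push_cast; ring
    have hwr : (w : ℝ) = v * u := by rw [hw]; push_cast; ring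
    have hlJ : l ≤ J := by
      have : (l : ℝ) ≤ J := by
        rw [hlr]
        have : (j : ℝ) * u ≤ N * u := mul_le_mul_of_nonneg_right (by exact_mod_cast hj) hu0
        linarith only [hu1, this]
      exact_mod_cast this
    have hwx : (w : ℝ) ≤ x' * J := by
      rw [hwr]
      calc (v : ℝ) * u ≤ x' * N * u := mul_le_mul_of_nonneg_right hv hu0
        _ = x' * (N * u) := by ring
        _ ≤ _ := mul_le_mul_of_nonneg_left hu1 hx'0.le
    have hwJ : w ≤ J := by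
      have : (w : ℝ) ≤ J := by
        have : x' * J ≤ 1 / 2 * J := mul_le_mul_of_nonneg_right hx'1 hJ0.le
        linarith only [hNpos, hxb0, hxb2, hJr, q1, q2, q3, q4, q5, q6, hwx, this]
      exact_mod_cast this
    exact by
     have hl1 : (1 - x') * (J - N) ≤ l := by
       rw [hlr]
       have h1 : (1 - x') * N * u ≤ j * u := mul_le_mul_of_nonneg_right hj2 hu0
       have h2 : (1 - x') * (J - N) ≤ (1 - x') * (N * u) :=
         mul_le_mul_of_nonneg_left (by linarith only [hu2]) (by linarith only [hx'1, hxb0, hxb2])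
       linarith only [h1, h2]
     have hl2' : (J : ℝ) / 4 ≤ l := by
       have : (1 / 2 : ℝ) * (J - N) ≤ (1 - x') * (J - N) :=
         mul_le_mul_of_nonneg_right (by linarith only [hx'1]) (by linarith only [hNpos, hxb0, hxb2, hJr, q1, q2, q3, q4, q5, q6])
       linarith only [hNpos, hxb0, hxb2, hJr, q1, q2, q3, q4, q5, q6, hl1, this]
     have hl3 : (1 - x) * J ≤ l := by
       refine le_trans ?_ hl1
       have h1 : x' * J ≤ x / 2 * J := mul_le_mul_of_nonneg_right hx'x hJ0.le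
       have h2 : 0 ≤ x' * N := by positivity
       nlinarith only [hv, r4, h1]
     obtain ⟨eb, nb, hb⟩ := hLb
     obtain ⟨e, n, ζ, h1, h2⟩ := hCn
     have hinv : (1 : ℝ) / 2 ^ l ≤ 1 := by
       rw [div_le_one (by positivity)]
       exact one_le_pow₀ (by norm_num)
     -- the points with steep slopes
     obtain ⟨Bg, hBg⟩ : ∃ Bg : F.Ω → Prop, Bg = fun ω => A ω ∧ ∃ j, 3 < |ζ (slam F w ω) j| :=
       ⟨_, rfl⟩
     have hsteep := steep_ball (wn := slam F w) (ζ := ζ) hb h1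
       (fun ω hω k => (h2 ω hω k).trans hinv)
     rw [← hBg] at hsteep
     have hq1 : (⌊xb * J⌋₊ : ℝ) ≤ xb * J := Nat.floor_le (by positivity)
     have hballB : Ball (1 / 2 ^ (⌊xb * J⌋₊ + 1)) (Fam.pt F) F.d Bg := by
       obtain ⟨vv, hvv⟩ := hsteep
       refine ⟨vv, fun ω hω k => (hvv ω hω k).trans (ball_arith ?_ ?_)⟩
       · have : ((⌊xb * J⌋₊ + 1 + 3 : ℕ) : ℝ) ≤ l := by
           push_cast
           have : 16 * (xb * J) ≤ J := by
             calc 16 * (xb * J) = 16 * xb * J := by ring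
               _ ≤ 1 * J := mul_le_mul_of_nonneg_right hxb2 hJ0.le
               _ = J := one_mul _
           linarith only [hxb0, hxb2, r3, hl2', hq1, this]
         exact_mod_cast this
       · refine Nat.le_floor ?_
         push_cast
         have : 4 * (xb * J) ≤ h₁ * J := by
           calc 4 * (xb * J) = 4 * xb * J := by ring
             _ ≤ h₁ * J := mul_le_mul_of_nonneg_right hxb1 hJ0.le
         linarith only [hxb0, hxb2, r3, hq1, this]
     -- the family on `A` is maximal, so the ball property fails on `A`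
     exact by
      have hmin : 0 < min τ₀ τb := lt_min hτ₀ hτb
      obtain ⟨hlaw, -, hMx, -⟩ := hS.res ha.le hτ0.le
      have hnb : ¬ Ball (1 / 2 ^ (⌊xb * J⌋₊ + 1)) (Fam.pt F) F.d A := by
        rintro ⟨vv, hvv⟩
        have hMx' : (F.res A True hlaw).Mx a R τb := by
          have e1 : (1 + a) * (6 * τ) ≤ τb := by
            rw [hτ]
            have : (1 + a) * (6 * (min τ₀ τb / (14 * (1 + a)))) = 6 / 14 * min τ₀ τb := by
              field_simp
            rw [this]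
            have := min_le_right τ₀ τb
            linarith only [hτb, this]
          refine ⟨?_, ?_⟩
          · have := hMx.1
            unfold Fam.Tm at this ⊢
            have h3 : (1 + a) * (6 * τ) * J ≤ τb * J := mul_le_mul_of_nonneg_right e1 hJ0.le
            linarith only [hlaw, this, h3]
          · have := hMx.2
            have h3 : (1 + a) * (6 * τ) * J ≤ τb * J := mul_le_mul_of_nonneg_right e1 hJ0.le
            nlinarith only [hlaw, this, h3]
        refine hball J ((le_max_right _ _).trans ((le_max_right _ _).trans hJ))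
          (F.res A True hlaw) hMx' (⌊xb * J⌋₊ + 1) ?_ ?_ ⟨vv, fun ω hω k => ?_⟩
        · have : ((⌊xb * J⌋₊ + 1 : ℕ) : ℝ) ≤ J := by
            push_cast
            have : 16 * (xb * J) ≤ J := by
              calc 16 * (xb * J) = 16 * xb * J := by ring
                _ ≤ 1 * J := mul_le_mul_of_nonneg_right hxb2 hJ0.le
                _ = J := one_mul _
            linarith only [hxb0, hxb2, r3, hq1, this]
          exact_mod_cast this
        · push_cast
          exact (Nat.lt_floor_add_one _).le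
        · have hω' : 0 < Pool.Agent.H49.Ent.cond F.p A True ω := hω
          have hωA := ((cond_pos_iff hp.nonneg A True ω).1 hω').2
          have hA' : A ω := by simpa using hωA
          exact hvv ω hA' k
      exact by
       have hBgs : Pe F.p Bg < Real.exp (-(κ * J)) * Pe F.p A := by
         by_contra hcon
         push Not at hcon
         refine hnb ((hSb 0).of_sub (B := Bg) (fun ω hω => ?_) hcon hballB)
         rw [hBg] at hω
         exact hω.1
       obtain ⟨A', hA'⟩ : ∃ A' : F.Ω → Prop, A' = fun ω => A ω ∧ ¬ Bg ω := ⟨_, rfl⟩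
       have hPA' : Real.exp (-((2 * τ) * J)) ≤ Pe F.p A' := by
         have hexp : Real.exp (-(κ * J)) ≤ 1 / 2 := by
           rw [show (1 / 2 : ℝ) = Real.exp (-Real.log 2) by
             rw [Real.exp_neg, Real.exp_log (by norm_num)]; norm_num]
           exact Real.exp_le_exp.2 (by linarith only [r1])
         have d0 : Pe F.p (fun ω => A ω ∧ Bg ω) ≤ Pe F.p A / 2 := by
           have k1 : Pe F.p (fun ω => A ω ∧ Bg ω) ≤ Pe F.p Bg := Pe_mono hp fun ω hω => hω.2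
           have k2 : Real.exp (-(κ * J)) * Pe F.p A ≤ 1 / 2 * Pe F.p A :=
             mul_le_mul_of_nonneg_right hexp hA0.le
           linarith only [hBgs, k1, k2]
         have d1 := Pe_diff d0
         rw [hA']
         refine le_trans ?_ d1
         have d2 : Real.exp (-(2 * τ * J)) ≤ Real.exp (-Real.log 2) * Real.exp (-(τ * J)) := by
           rw [← Real.exp_add]
           exact Real.exp_le_exp.2 (by linarith only [r2])
         exact d2.trans (mul_le_mul_of_nonneg_left hS.2.2.2 (Real.exp_pos _).le)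
       obtain ⟨hlaw', -, hMx2, -⟩ := max_res F ha.le hτ0.le (by linarith only [hτ0] : (0 : ℝ) ≤ 2 * τ) hS.1
         hS.2.1 hS.2.2.1 A' hPA'
       have hMx3 : (F.res A' True hlaw').Mx a R τ₀ := by
         have e1 : (1 + a) * (5 * τ + 2 * τ) ≤ τ₀ := by
           rw [hτ]
           have : (1 + a) * (5 * (min τ₀ τb / (14 * (1 + a))) + 2 * (min τ₀ τb / (14 * (1 + a)))) =
               1 / 2 * min τ₀ τb := by
             field_simp
             ring
           rw [this]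
           have := min_le_left τ₀ τb
           linarith only [hτ₀, this]
         refine ⟨?_, ?_⟩
         · have := hMx2.1
           unfold Fam.Tm at this ⊢
           have h3 : (1 + a) * (5 * τ + 2 * τ) * J ≤ τ₀ * J := mul_le_mul_of_nonneg_right e1 hJ0.le
           linarith only [hlaw', this, h3]
         · have := hMx2.2
           have h3 : (1 + a) * (5 * τ + 2 * τ) * J ≤ τ₀ * J := mul_le_mul_of_nonneg_right e1 hJ0.le
           nlinarith only [hlaw', this, h3]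
       -- the support
       exact by
        have hsup : ∀ ω, 0 < (F.res A' True hlaw').p ω → A ω ∧ ∀ k, |ζ (slam F w ω) k| ≤ 3 := by
          intro ω hω
          have hω' : 0 < Pool.Agent.H49.Ent.cond F.p A' True ω := hω
          have hωA := ((cond_pos_iff hp.nonneg A' True ω).1 hω').2
          have hA2 : A' ω := by simpa using hωA
          rw [hA'] at hA2
          refine ⟨hA2.1, fun k => ?_⟩
          by_contra hk
          push Not at hk
          refine hA2.2 ?_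
          rw [hBg]
          exact ⟨hA2.1, k, hk⟩
        obtain ⟨j₁, hj₁⟩ := ex_idx i₀
        have hdet : Det (F.res A' True hlaw').p (fun ω => ((F.res A' True hlaw').l ω,
            (F.res A' True hlaw').T1 w ω, (F.res A' True hlaw').Z ω))
            (lab (F.res A' True hlaw') i₀ l w ζ) := by
          intro ω ω' _ _ hh
          have b1 := Prod.ext_iff.mp hh
          have b2 : F.l ω = F.l ω' := b1.1
          have b3 := Prod.ext_iff.mp b1.2
          have b4 : F.T1 w ω = F.T1 w ω' := b3.1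
          have b5 : F.Z ω = F.Z ω' := b3.2
          have b6 : slam F w ω = slam F w ω' := by
            unfold slam
            rw [b2, b4, b5]
          have b7 : F.u ω = F.u ω' ∧ F.d ω = F.d ω' := Prod.ext_iff.mp b2
          have b8 : F.x1 w ω = F.x1 w ω' := by
            funext i
            unfold Fam.x1
            rw [b7.1, b7.2, b4]
          have c1 : z1 l (slam F w) ζ ω = z1 l (slam F w) ζ ω' := by
            unfold z1
            rw [b6]
          change (z1 l (slam F w) ζ ω, fl l (nf i₀ (zs l (z1 l (slam F w) ζ ω)) (F.x1 w ω)),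
            fl l (nf i₀ (zs l (z1 l (slam F w) ζ ω)) (F.d ω))) = (z1 l (slam F w) ζ ω',
            fl l (nf i₀ (zs l (z1 l (slam F w) ζ ω')) (F.x1 w ω')),
            fl l (nf i₀ (zs l (z1 l (slam F w) ζ ω')) (F.d ω')))
          rw [c1, b8, b7.2]
        exact by
         have hvis := lab_vis (F := F.res A' True hlaw') (i₀ := i₀) (l := l) (w := w) (ζ := ζ)
           (e := e) (n := n) hlJ hwJ (fun ω hω => (hsup ω hω).2)
           (fun ω hω => h1 ω (hsup ω hω).1) (fun ω hω => h2 ω (hsup ω hω).1)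
         have hcon := lab_con (F := F.res A' True hlaw') (i₀ := i₀) (l := l) (w := w) (ζ := ζ)
           hwJ hj₁ (fun ω hω => (hsup ω hω).2)
         have hfin := hnpl J ((le_max_left _ _).trans ((le_max_right _ _).trans hJ))
           (F.res A' True hlaw') hMx3 w (hwx.trans (mul_le_mul_of_nonneg_right (by linarith only [hx, hx'x]) hJ0.le))
           _ (lab (F.res A' True hlaw') i₀ l w ζ) (MA l i₀ j₁) (MB l i₀ j₁) (MA_le l i₀ j₁)
           (MB_le l i₀ j₁) (MB_MA l i₀ j₁) hdet (hvis.trans r5) l hlJ hl3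
         have := hfin.trans_le hcon
         linarith only [hlaw', r6, hcon, hfin]

end Pool.K2S
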