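import Pool.Agent.H13.K2S.Skel

/-!
# The rows of the tail, and the zone
-/

set_option autoImplicit false

namespace Pool.K2S

open Finset Real
open Pool.Agent.H49.Ent Pool.Agent.H32.Dense Pool.STK Pool.KA Pool.KSAT

/-- A large event in a maximal family gives a maximal family. -/
theorem Fam.Stt.res {m J : ℕ} {F : Fam m J} {a R τ : ℝ} (ha : 1 ≤ a) (hτ : 0 ≤ τ)
    {A : F.Ω → Prop} (hS : Fam.Stt F a R τ A) :
    ∃ h : IsLaw (Pool.Agent.H49.Ent.cond F.p A True), (F.res A True h).Tr ∧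
      (F.res A True h).Mx a R ((1 + a) * (6 * τ)) ∧ (F.res A True h).Rb ((2 * τ) * J) := by
  obtain ⟨h1, h2, h3, h4⟩ := hS
  obtain ⟨h, k1, k2, k3⟩ := max_res F ha hτ hτ h1 h2 h3 A h4
  refine ⟨h, k1, ?_, ?_⟩
  · have : (1 + a) * (5 * τ + τ) = (1 + a) * (6 * τ) := by ring
    rw [this] at k2
    exact k2
  · have : (τ + τ) = 2 * τ := by ring
    rw [this] at k3
    exact k3

/-- **(P3)** The rows of a tail are not full. -/
theorem tail_thm (hO : AOPStmt) (m : ℕ) {a R : ℝ} (ha : 1 ≤ a) (hU : UBa m a R)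
    {η : ℝ} (hη : 0 < η) : ∃ τ : ℝ, 0 < τ ∧ ∃ J₁ : ℕ, ∀ J ≥ J₁, ∀ (F : Fam m J)
      (A : F.Ω → Prop), Fam.Stt F a R τ A → ∀ x : ℕ, x ≤ J → J ≤ 2 * x →
      CH (Pool.Agent.H49.Ent.cond F.p A True) (F.X J) (fun ω => (F.X x ω, F.W ω)) ≤
        (m * Real.log 2 - R / a) * ((J : ℝ) - x) + η * J := by
  obtain ⟨C₃, hC₃, hap3⟩ := ap3_thm hO m
  obtain ⟨C₄, hC₄, htrc⟩ := trc_thm m
  have ha0 : 0 < a := by linarith only [ha]
  obtain ⟨θ, hθ, J₂, hU⟩ := hU (η / 8) (by linarith only [hη])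
  obtain ⟨τ', hτ'⟩ : ∃ τ', τ' = min (θ / 2) (η / 8) := ⟨_, rfl⟩
  have hτ'0 : 0 < τ' := by rw [hτ']; exact lt_min (by linarith only [hθ]) (by linarith only [hη])
  obtain ⟨τ, hτ⟩ : ∃ τ, τ = τ' / (6 * (1 + a)) := ⟨_, rfl⟩
  have hτ0 : 0 < τ := by rw [hτ]; positivity
  obtain ⟨J₁, hJ₁⟩ := exists_nat_gt (8 * C₃ / η)
  refine ⟨τ, hτ0, max (2 * J₂) (J₁ + 1), ?_⟩
  intro J hJ F A hS x hx hx2
  have hJ2 : 2 * J₂ ≤ J := (le_max_left _ _).trans hJ
  have hJ1 : J₁ + 1 ≤ J := (le_max_right _ _).trans hJ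
  have hJr : (0 : ℝ) < J := by
    have : 0 < J := by omega
    exact_mod_cast this
  have hJC : C₃ ≤ η / 8 * J := by
    have h1 : 8 * C₃ / η < J := hJ₁.trans_le (by exact_mod_cast (by omega : J₁ ≤ J))
    rw [div_lt_iff₀ hη] at h1
    linarith only [h1]
  have hxr : (J : ℝ) ≤ 2 * x := by exact_mod_cast hx2
  have hxJ : (x : ℝ) ≤ J := by exact_mod_cast hx
  obtain ⟨hlaw, -, hMx, -⟩ := hS.res ha hτ0.le
  have e7 : (1 + a) * (6 * τ) = τ' := by
    rw [hτ]
    field_simp
  rw [e7] at hMx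
  have hTm : (F.res A True hlaw).Tm (τ' * J) := hMx.1
  have hTm2 := (htrc J (F.res A True hlaw) x hx (τ' * J) hTm).1
  have hTm3 : ((F.res A True hlaw).trc x hx).Tm (θ * x) := by
    unfold Fam.Tm at hTm2 ⊢
    refine le_trans ?_ hTm2
    have : τ' * J ≤ θ * x := by
      calc τ' * J ≤ θ / 2 * J := mul_le_mul_of_nonneg_right
            (by rw [hτ']; exact min_le_left _ _) hJr.le
        _ ≤ θ / 2 * (2 * x) := mul_le_mul_of_nonneg_left hxr (by positivity)
        _ = _ := by ring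
    linarith only [this]
  have hub := hU x (by omega) ((F.res A True hlaw).trc x hx) hTm3
  have hτη : τ' ≤ η / 8 := by rw [hτ']; exact min_le_right _ _
  have hGa : (R - η / 8) * J ≤ (F.res A True hlaw).Ga a := by
    refine le_trans ?_ hMx.2
    exact mul_le_mul_of_nonneg_right (by linarith only [hτη]) hJr.le
  have h3 := (hap3 J x hx (F.res A True hlaw) a R (η / 8) (τ' * J) ha (by linarith only [hτ'0, hτη]) hTm hGa
    hub).2
  obtain ⟨S, hS'⟩ : ∃ S, S = CH (Pool.Agent.H49.Ent.cond F.p A True) (F.X J)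
    (fun ω => (F.X x ω, F.W ω)) := ⟨_, rfl⟩
  have h4 : a * S ≤ (m * Real.log 2 - R) * ((J : ℝ) - x) + 2 * (η / 8) * J +
      a * (τ' * J + C₃) := by
    rw [hS']
    exact h3
  rw [← hS']
  have hd : 0 ≤ (J : ℝ) - x := by linarith only [hxJ]
  have f1 : a * ((m * Real.log 2 - R / a) * ((J : ℝ) - x) + η * J) -
      ((m * Real.log 2 - R) * ((J : ℝ) - x) + 2 * (η / 8) * J + a * (τ' * J + C₃)) =
      (a - 1) * (m * Real.log 2) * ((J : ℝ) - x) + (a - 1) * (2 * (η / 8) * J) +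
        a * ((3 / 4 * η) * J - (τ' * J + C₃)) := by
    field_simp
    ring
  have f2 : 0 ≤ (3 / 4 * η) * J - (τ' * J + C₃) := by
    have : τ' * J ≤ η / 8 * J := mul_le_mul_of_nonneg_right hτη hJr.le
    have : 0 < η * J := by positivity
    linarith
  have hl2 : 0 < Real.log 2 := Real.log_pos (by norm_num)
  have f3 : 0 ≤ (a - 1) * (m * Real.log 2) * ((J : ℝ) - x) + (a - 1) * (2 * (η / 8) * J) +
        a * ((3 / 4 * η) * J - (τ' * J + C₃)) := by
    have : 0 ≤ a - 1 := by linarith only [ha]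
    positivity
  exact le_of_mul_le_mul_left (by linarith only [h4, f1, f3]) ha0

/-- The arithmetic of the zone. -/
theorem zon_arith {γ X X' N L u J p e n η S L2 : ℝ} (hγ0 : 0 < γ) (hγ1 : γ ≤ 1) (hX0 : 0 < X)
    (hX' : X' = γ * X / 64) (he : e ≤ X') (hN : 64 ≤ γ * X * N) (hN0 : 0 < N)
    (hu2 : J ≤ N * u + N) (hu0 : 0 ≤ u) (hp : p ≤ (1 - X) * N + 1)
    (hp0 : (1 - X) * N ≤ p) (hX1 : X ≤ 1)
    (hn : N - p - X' * N - L ≤ n * L) (hL : L ≤ 2 * (e * N)) (hL2 : 0 < L2)
    (h1 : (2 - γ / 4) * (n * L * u * L2) ≤ S)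
    (h2 : S ≤ (2 - γ) * L2 * (J - p * u) + η * J) (hη : η ≤ γ * X / 32 * L2)
    (hJ : 128 * N ≤ γ * X * J) : False := by
  have hγX : 0 < γ * X := mul_pos hγ0 hX0
  -- `n L ≥ (X - 3 X' - 1/N) N`
  have k1 : X * N - 1 - 3 * (X' * N) ≤ n * L := by
    have : e * N ≤ X' * N := mul_le_mul_of_nonneg_right he hN0.le
    nlinarith only [hp, hn, hL, this]
  have k2 : 3 * (X' * N) + 1 ≤ γ * X / 16 * N := by
    rw [hX']
    nlinarith only [hN]
  have k3 : (X - γ * X / 16) * N ≤ n * L := by nlinarith only [k1, k2]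
  -- `J - p u ≤ X J + N`
  have k4 : J - p * u ≤ X * J + N := by
    have : (1 - X) * N * u ≤ p * u := mul_le_mul_of_nonneg_right hp0 hu0
    have h3 : (1 - X) * (N * u) ≥ (1 - X) * (J - N) :=
      mul_le_mul_of_nonneg_left (by linarith only [hu2]) (by linarith only [hX1])
    nlinarith only [hN, hγ0, this, h3]
  have k5 : (X - γ * X / 16) * (N * u) ≤ n * L * u := by
    have := mul_le_mul_of_nonneg_right k3 hu0
    linarith only [this]
  have k6 : (X - γ * X / 16) * (J - N) ≤ n * L * u := by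
    refine le_trans ?_ k5
    refine mul_le_mul_of_nonneg_left (by linarith only [hu2]) ?_
    have : γ * X / 16 ≤ X := by nlinarith only [hX0, hγ1]
    linarith only [this]
  have k7 : (2 - γ / 4) * ((X - γ * X / 16) * (J - N)) * L2 ≤ S := by
    refine le_trans ?_ h1
    have : (2 - γ / 4) * ((X - γ * X / 16) * (J - N)) ≤ (2 - γ / 4) * (n * L * u) :=
      mul_le_mul_of_nonneg_left k6 (by linarith only [hγ1])
    calc _ ≤ (2 - γ / 4) * (n * L * u) * L2 := mul_le_mul_of_nonneg_right this hL2.le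
      _ = _ := by ring
  have k8 : (2 - γ) * L2 * (J - p * u) ≤ (2 - γ) * L2 * (X * J + N) :=
    mul_le_mul_of_nonneg_left k4 (mul_nonneg (by linarith only [hγ1]) hL2.le)
  have hJ0 : 0 < J := by nlinarith only [hN, hN0, hJ]
  have k9 : η * J ≤ γ * X / 32 * L2 * J := mul_le_mul_of_nonneg_right hη hJ0.le
  -- divide by `L2`
  have k10 : (2 - γ / 4) * ((X - γ * X / 16) * (J - N)) ≤
      (2 - γ) * (X * J + N) + γ * X / 32 * J := by
    have : (2 - γ / 4) * ((X - γ * X / 16) * (J - N)) * L2 ≤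
      ((2 - γ) * (X * J + N) + γ * X / 32 * J) * L2 := by nlinarith only [h2, k7, k8, k9]
    exact le_of_mul_le_mul_right this hL2
  have k11 : (2 - γ / 4) * (X - γ * X / 16) ≥ 2 * X - γ * X / 4 - γ * X / 8 := by
    nlinarith only [hγ0, hγX, mul_pos hγ0 hγX]
  have k12 : 0 ≤ J - N := by nlinarith only [hγ1, hN, hJ, hJ0, k10, hγ0, hN0, hX1]
  have k13 : (2 * X - γ * X / 4 - γ * X / 8) * (J - N) ≤
      (2 - γ) * (X * J + N) + γ * X / 32 * J := by
    refine le_trans ?_ k10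
    have := mul_le_mul_of_nonneg_right k11 k12
    linarith only [this]
  have k14 : (2 * X - γ * X / 4 - γ * X / 8) * N ≤ 2 * N := by
    refine mul_le_mul_of_nonneg_right ?_ hN0.le
    nlinarith only [hX1, hγX]
  have k15 : (2 - γ) * N ≤ 2 * N := mul_le_mul_of_nonneg_right (by linarith only [hγ0]) hN0.le
  nlinarith only [hN0, hJ, k13, k14, k15]

theorem zon_thm (hO : AOPStmt) : ZONStmt := by
  intro a R ha hR hU X₀ hX₀ hX₀1
  have ha0 : 0 < a := by linarith only [ha]
  have hl2 : 0 < Real.log 2 := Real.log_pos (by norm_num)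
  obtain ⟨X, hX⟩ : ∃ X, X = min X₀ (1 / 4) := ⟨_, rfl⟩
  have hX0 : 0 < X := by rw [hX]; exact lt_min hX₀ (by norm_num)
  have hXX : X ≤ X₀ := by rw [hX]; exact min_le_left _ _
  have hXh : X ≤ 1 / 4 := by rw [hX]; exact min_le_right _ _
  obtain ⟨γ, hγ⟩ : ∃ γ, γ = min (R / a / Real.log 2) 1 := ⟨_, rfl⟩
  have hγ0 : 0 < γ := by rw [hγ]; exact lt_min (by positivity) one_pos
  have hγ1 : γ ≤ 1 := by rw [hγ]; exact min_le_right _ _
  have hγR : γ * Real.log 2 ≤ R / a := by
    have : γ ≤ R / a / Real.log 2 := by rw [hγ]; exact min_le_left _ _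
    rwa [le_div_iff₀ hl2] at this
  obtain ⟨X', hX'⟩ : ∃ X', X' = γ * X / 64 := ⟨_, rfl⟩
  have hX'0 : 0 < X' := by rw [hX']; positivity
  refine ⟨γ / 4, by positivity, X', hX'0, fun e he he2 => ?_⟩
  obtain ⟨N₁, hN₁⟩ := exists_nat_gt (64 / (γ * X) + 1 / e + 1)
  refine ⟨N₁, fun N hN => ?_⟩
  have hNr : 64 / (γ * X) + 1 / e + 1 < N := hN₁.trans_le (by exact_mod_cast hN)
  have q1 : 0 < 64 / (γ * X) := by positivity
  have q2 : 0 < 1 / e := by positivity
  have hN1 : (1 : ℝ) < N := by linarith only [hNr, q1, q2]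
  have hNpos : (0 : ℝ) < N := by linarith only [hX0, hXh, hNr, q1, q2]
  have hN0 : 0 < N := by exact_mod_cast hNpos
  have hN64 : 64 ≤ γ * X * N := by
    have : 64 / (γ * X) ≤ N := by linarith only [hX0, hXh, hNr, q2]
    rw [div_le_iff₀ (by positivity)] at this
    linarith only [this]
  have hNe : 1 ≤ e * N := by
    have : 1 / e ≤ N := by linarith only [hX0, hXh, hNr, q1]
    rw [div_le_iff₀ he] at this
    linarith only [this]
  -- the blocks
  obtain ⟨L, hL⟩ : ∃ L, L = ⌈e * N⌉₊ := ⟨_, rfl⟩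
  have hL1 : e * N ≤ L := by rw [hL]; exact Nat.le_ceil _
  have hL2 : (L : ℝ) ≤ 2 * (e * N) := by
    have : (L : ℝ) < e * N + 1 := by rw [hL]; exact Nat.ceil_lt_add_one (by positivity)
    linarith only [hNe, this]
  have hL0 : 0 < L := by
    have : (0 : ℝ) < L := by linarith only [hX0, hXh, hNe, hL1]
    exact_mod_cast this
  obtain ⟨p, hp⟩ : ∃ p, p = ⌈(1 - X) * N⌉₊ := ⟨_, rfl⟩
  have h1X : 0 ≤ (1 - X) * N := mul_nonneg (by linarith only [hX0, hXh]) hNpos.le
  have hp1 : (1 - X) * N ≤ p := by rw [hp]; exact Nat.le_ceil _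
  have hp2 : (p : ℝ) ≤ (1 - X) * N + 1 := by
    rw [hp]; exact (Nat.ceil_lt_add_one h1X).le
  have hrange : 0 ≤ (N : ℝ) - p - X' * N := by
    have : X' * N ≤ X * N / 64 := by
      rw [hX']
      have : γ * X * N ≤ 1 * (X * N) := by
        have : 0 ≤ X * N := by positivity
        nlinarith only [hγ1, hγ0, hN64]
      linarith only [this]
    have : 64 ≤ X * N := by
      have : γ * X * N ≤ 1 * (X * N) := by
        have : 0 ≤ X * N := by positivity
        nlinarith
      linarith only [hN64, this]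
    linarith
  obtain ⟨n, hn⟩ : ∃ n, n = ⌊((N : ℝ) - p - X' * N) / L⌋₊ := ⟨_, rfl⟩
  have hLr : (0 : ℝ) < L := by exact_mod_cast hL0
  have hn1 : (n : ℝ) * L ≤ (N : ℝ) - p - X' * N := by
    have : (n : ℝ) ≤ ((N : ℝ) - p - X' * N) / L := by
      rw [hn]; exact Nat.floor_le (div_nonneg hrange hLr.le)
    rwa [le_div_iff₀ hLr] at this
  have hn2 : (N : ℝ) - p - X' * N - L ≤ n * L := by
    have : ((N : ℝ) - p - X' * N) / L < n + 1 := by rw [hn]; exact Nat.lt_floor_add_one _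
    rw [div_lt_iff₀ hLr] at this
    linarith only [this]
  have hpn : p + n * L ≤ N := by
    have : ((p + n * L : ℕ) : ℝ) ≤ N := by
      push_cast
      have : 0 ≤ X' * N := by positivity
      linarith only [hn1, this]
    exact_mod_cast this
  obtain ⟨η, hη⟩ : ∃ η, η = γ * X / 32 * Real.log 2 := ⟨_, rfl⟩
  have hη0 : 0 < η := by rw [hη]; positivity
  obtain ⟨τ, hτ, J₁, htail⟩ := tail_thm hO 2 ha hU hη0
  obtain ⟨J₂, hJ₂⟩ := exists_nat_gt (128 * N / (γ * X))
  refine Claim.of hτ (max J₁ (max J₂ (4 * N))) fun J hJ F A hS => ?_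
  have hJ1 : J₁ ≤ J := (le_max_left _ _).trans hJ
  have hJ2 : J₂ ≤ J := (le_max_left _ _).trans ((le_max_right _ _).trans hJ)
  have hJ4 : 4 * N ≤ J := (le_max_right _ _).trans ((le_max_right _ _).trans hJ)
  have hJN : 128 * N ≤ γ * X * J := by
    have h1 : 128 * N / (γ * X) < J := hJ₂.trans_le (by exact_mod_cast hJ2)
    rw [div_lt_iff₀ (by positivity)] at h1
    linarith only [h1]
  by_contra hcon
  push Not at hcon
  obtain ⟨u, hu⟩ : ∃ u, u = J / N := ⟨_, rfl⟩
  have hu1 : N * u ≤ J := by rw [hu]; exact Nat.mul_div_le J N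
  have hu2 : J < N * (u + 1) := by rw [hu]; exact Nat.lt_mul_div_succ J hN0
  have hu1r : (N : ℝ) * u ≤ J := by exact_mod_cast hu1
  have hu2r : (J : ℝ) ≤ N * u + N := by
    have : (J : ℝ) < N * (u + 1) := by exact_mod_cast hu2
    linarith only [this]
  rw [← hu] at hcon
  obtain ⟨hlaw, -, -, -⟩ := hS.res ha hτ.le
  have hq := hlaw.nonneg
  -- telescoping
  have hrow := Rows.rows_eq (F.res A True hlaw) (L * u) (p * u) n
  have hblock : ∀ i ∈ range n, (2 - γ / 4) * ((L : ℝ) * u * Real.log 2) ≤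
      CH (F.res A True hlaw).p ((F.res A True hlaw).X (p * u + (i + 1) * (L * u)))
        (fun ω => ((F.res A True hlaw).X (p * u + i * (L * u)) ω, (F.res A True hlaw).W ω)) := by
    intro i hi
    rw [Finset.mem_range] at hi
    have hiL : (i + 1) * L ≤ n * L := Nat.mul_le_mul_right L hi
    have e1 : p * u + i * (L * u) = (p + i * L) * u := by ring
    have e2 : p * u + (i + 1) * (L * u) = (p + (i + 1) * L) * u := by ring
    have h1 := hcon (p + i * L) (p + (i + 1) * L) (by nlinarith only [hL0]) (by omega) ?_ ?_ ?_ ?_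
    · unfold Zn at h1
      push Not at h1
      rw [e1, e2]
      refine le_trans (le_of_eq ?_) h1.le
      push_cast
      ring
    · push_cast
      have : (0 : ℝ) ≤ i * L := by positivity
      have : (1 - X₀) * N ≤ (1 - X) * N := mul_le_mul_of_nonneg_right (by linarith only [hXX]) hNpos.le
      linarith
    · have : (((i + 1) * L : ℕ) : ℝ) ≤ n * L := by exact_mod_cast hiL
      push_cast at this ⊢
      linarith only [hn1, this]
    · push_cast
      linarith only [hL1]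
    · push_cast
      linarith only [hL2]
  have hsum := Finset.sum_le_sum hblock
  rw [hrow, Finset.sum_const, Finset.card_range, nsmul_eq_mul] at hsum
  have hend : p * u + n * (L * u) ≤ J := by
    have : p * u + n * (L * u) = (p + n * L) * u := by ring
    rw [this]
    exact (Nat.mul_le_mul_right u hpn).trans hu1
  have hmono : CH (F.res A True hlaw).p ((F.res A True hlaw).X (p * u + n * (L * u)))
        (fun ω => ((F.res A True hlaw).X (p * u) ω, (F.res A True hlaw).W ω)) ≤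
      CH (Pool.Agent.H49.Ent.cond F.p A True) (F.X J) (fun ω => (F.X (p * u) ω, F.W ω)) := by
    refine CH_mono_left hq fun ω ω' _ _ h => ?_
    exact Pool.STK.B58.fl_fine hend (Prod.ext_iff.mp h).1
  have hxp : J ≤ 2 * (p * u) := by
    have h1 : (J : ℝ) ≤ 2 * (p * u) := by
      have h2 : (3 / 4 : ℝ) * N ≤ p := by
        refine le_trans ?_ hp1
        exact mul_le_mul_of_nonneg_right (by linarith only [hXh]) hNpos.le
      have h3 : (3 / 4 : ℝ) * N * u ≤ p * u := mul_le_mul_of_nonneg_right h2 (Nat.cast_nonneg u)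
      have h4 : 4 * (N : ℝ) ≤ J := by exact_mod_cast hJ4
      linarith only [hNr, q1, q2, hu2r, h3, h4]
    exact_mod_cast h1
  have htl := htail J hJ1 F A hS (p * u) (by omega) hxp
  refine zon_arith (γ := γ) (X := X) (X' := X') (N := N) (L := L) (u := u) (J := J) (p := p)
    (e := e) (n := n) (η := η) (S := CH (Pool.Agent.H49.Ent.cond F.p A True) (F.X J)
      (fun ω => (F.X (p * u) ω, F.W ω))) (L2 := Real.log 2) hγ0 hγ1 hX0 hX' he2 hN64 hNpos
    hu2r (Nat.cast_nonneg u) hp2 hp1 (by linarith only [hX0, hXh]) hn2 hL2 hl2 ?_ ?_ (by rw [hη]) hJN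
  · refine le_trans (le_of_eq ?_) (hsum.trans hmono)
    ring
  · refine htl.trans ?_
    have h1 : 0 ≤ (J : ℝ) - ((p * u : ℕ) : ℝ) := by
      have : ((p * u : ℕ) : ℝ) ≤ J := by
        have : p * u ≤ J := by omega
        exact_mod_cast this
      linarith only [this]
    push_cast at h1 ⊢
    have : (2 * Real.log 2 - R / a) * ((J : ℝ) - p * u) ≤
        (2 - γ) * Real.log 2 * ((J : ℝ) - p * u) := by
      refine mul_le_mul_of_nonneg_right ?_ h1
      linarith only [hγR]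
    linarith only [this]

end Pool.K2S
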