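import Pool.Agent.H13.K2S.Skel
import Pool.Agent.H13.K2S.Lin
import Pool.Agent.H13.K2S.Cht
import Pool.Agent.H13.K2S.Zon
import Pool.Agent.H13.K2S.Npc
import Pool.Agent.H13.K2S.NoPlank
import Pool.Agent.H13.K2S.Eng
import Pool.Agent.H20.K2.AOP
import Pool.Agent.H34.K2.AEX
import Pool.Agent.H44.KA.GRO
import Pool.Agent.H33.K2.REX
import Pool.Agent.H58.K2.MEX
import Pool.Agent.H13.K2.MZV
import Pool.Agent.H5.K2.MRN
import Pool.Agent.H68.K2.RMX
import Pool.Agent.H97.K2.RTY
import Pool.Agent.H97.K2.AP5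
import Pool.Agent.H64.KA.TUB
import Pool.Agent.H52.K2.AP6
import Pool.Agent.H43.K2.MOP
import Pool.Agent.H35.K2S.FFAll

/-!
# The class `(a, R)`: everything that is proved, without hypotheses; `K'(2)` from (ENG)
-/

set_option autoImplicit false

namespace Pool.K2S

open Finset Real
open Pool.Agent.H49.Ent Pool.Agent.H32.Dense Pool.STK Pool.KA Pool.KSAT

theorem aop : AOPStmt := aop_thm

theorem mop : MOPStmt := mop_thm aop

theorem ap2 : AP2Stmt := ap2_thm aop

theorem ap3 : AP3Stmt := ap3_thm aop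

theorem ap5 : AP5Stmt := ap5_thm

theorem ap6r : AP6RStmt := ap6r_thm ap5 ap2 tub_thm

theorem aex : AEXStmt := aex_thm gro_thm

theorem rex : REXStmt := rex_thm MEX_thm mzv_thm mrn_thm (rmx_thm rty_thm ap5_thm)

theorem npl : NPLStmt := npl_thm mop

theorem cht : CHTStmt := cht_thm aop

theorem zon : ZONStmt := zon_thm aop

theorem npc : NPCStmt := npc_thm mop ap6r

theorem ff : FFStmt := ff_all

/-- **`K'(2)` from (ENG).** -/
theorem kp_two (hE : ENGStmt) : KP 2 :=
  kp_two_of_claims aex rex cht zon ff hE npc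

/-- **`K'(2)` from (MNJ) and (MIC).** -/
theorem kp_two_of (hN : MNJStmt) (hM : MICStmt) : KP 2 := kp_two (eng_thm hN hM)

end Pool.K2S
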