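import Pool.Agent.H7.KSAT.SLPt
import Pool.Agent.H20.KA.TRC
import Pool.Agent.H58.STK.Base

/-!
# Saturated rows in many windows: sum of the saturation inequalities
-/

set_option autoImplicit false

namespace Pool.K2S

open Finset Real
open Pool.Agent.H49.Ent Pool.Agent.H32.Dense Pool.STK Pool.KA Pool.KSAT Pool.KA.TRC

variable {m J : ℕ}

namespace Rows

/-- Chain rule for a variable which is determined by the other one. -/
theorem chain_det {Ω S T U : Type} [Fintype Ω] {p : Ω → ℝ} (hp : ∀ ω, 0 ≤ p ω) (X : Ω → S)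
    (Y : Ω → T) (W : Ω → U) (h : Det p X Y) :
    CH p X W = CH p Y W + CH p X (fun ω => (Y ω, W ω)) := by
  rw [← CH_chain hp X Y W]
  refine CH_congr hp ?_ ?_ ?_ ?_
  · intro ω ω' a c e
    have e1 := (Prod.ext_iff.1 e).1
    exact Prod.ext e1 (h ω ω' a c e1)
  · intro ω ω' _ _ e
    exact (Prod.ext_iff.1 (Prod.ext_iff.1 e).1).1
  · intro ω ω' _ _ e
    exact e
  · intro ω ω' _ _ e
    exact e

/-- The position at the start of the window is near the position. -/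
theorem x1_near (F : Fam m J) {g : ℕ} (h : g ≤ J) (ω : F.Ω) (i : Fin m) :
    |(2 : ℝ) ^ g * F.x1 g ω i - 2 ^ g * F.x ω i| ≤ 1 := by
  have h1 := T1_real F h ω
  have h2 := F.dir ω i
  have e : (2 : ℝ) ^ g * F.x1 g ω i - 2 ^ g * F.x ω i =
      -((2 ^ g * F.t ω - F.T1 g ω) * F.d ω i) := by
    unfold Fam.x1 Fam.x
    have : (2 : ℝ) ^ g ≠ 0 := by positivity
    field_simp
    ring
  rw [e, abs_neg, abs_mul, abs_of_nonneg h1.1]
  calc (2 ^ g * F.t ω - F.T1 g ω) * |F.d ω i| ≤ 1 * 1 :=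
        mul_le_mul h1.2.le h2 (abs_nonneg _) (by norm_num)
    _ = 1 := by norm_num

theorem T1_det (F : Fam m J) {w w' : ℕ} (h : w ≤ w') (h' : w' ≤ J) {ω ω' : F.Ω}
    (e : F.T1 w' ω = F.T1 w' ω') : F.T1 w ω = F.T1 w ω' := by
  obtain ⟨K, rfl⟩ := Nat.exists_eq_add_of_le h
  rw [T1_div F h' ω, T1_div F h' ω', e]

theorem x1_near2 (F : Fam m J) {w w' : ℕ} (h : w ≤ w') (h' : w' ≤ J) (ω : F.Ω) (i : Fin m) :
    |(2 : ℝ) ^ w * F.x1 w ω i - 2 ^ w * F.x1 w' ω i| ≤ 1 := by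
  obtain ⟨K, rfl⟩ := Nat.exists_eq_add_of_le h
  have h2 := F.dir ω i
  have h3 := T1_div F h' ω
  have a1 := Nat.div_add_mod (F.T1 (w + K) ω) (2 ^ K)
  have a3 := Nat.mod_lt (F.T1 (w + K) ω) (show 0 < 2 ^ K by positivity)
  rw [← h3] at a1
  have b1 : (2 ^ K * (F.T1 w ω : ℝ) + ((F.T1 (w + K) ω % 2 ^ K : ℕ) : ℝ)) = F.T1 (w + K) ω := by
    exact_mod_cast a1
  have b3 : ((F.T1 (w + K) ω % 2 ^ K : ℕ) : ℝ) < 2 ^ K := by exact_mod_cast a3
  have b4 : (0 : ℝ) ≤ ((F.T1 (w + K) ω % 2 ^ K : ℕ) : ℝ) := by positivity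
  have e : (2 : ℝ) ^ w * F.x1 w ω i - 2 ^ w * F.x1 (w + K) ω i =
      -((((F.T1 (w + K) ω % 2 ^ K : ℕ) : ℝ) / 2 ^ K) * F.d ω i) := by
    unfold Fam.x1
    rw [← b1, pow_add]
    have c1 : (2 : ℝ) ^ w ≠ 0 := by positivity
    have c2 : (2 : ℝ) ^ K ≠ 0 := by positivity
    field_simp
    ring
  rw [e, abs_neg, abs_mul, abs_of_nonneg (by positivity)]
  calc ((F.T1 (w + K) ω % 2 ^ K : ℕ) : ℝ) / 2 ^ K * |F.d ω i| ≤ 1 * 1 :=
        mul_le_mul (by rw [div_le_one (by positivity)]; exact b3.le) h2 (abs_nonneg _)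
          (by norm_num)
    _ = 1 := by norm_num

/-- The label of the longer window, given the label of the shorter one. -/
theorem CH_c_c (F : Fam m J) {w w' : ℕ} (h : w ≤ w') (h' : w' ≤ J) :
    CH F.p (F.c w) (F.c w') ≤ cc m := by
  have hp := F.isLaw.nonneg
  have h1 : CH F.p (F.c w) (F.c w') ≤ CH F.p (fun ω => fl w (F.x1 w ω)) (F.c w') := by
    have e1 := CH_le_add hp (F.c w) (fun ω => fl w (F.x1 w ω)) (F.c w')
    have e2 : CH F.p (F.c w) (fun ω => (fl w (F.x1 w ω), F.c w' ω)) = 0 := by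
      refine CH_eq_zero hp fun ω ω' _ _ e => ?_
      have b := Prod.ext_iff.mp e
      have b2 := Prod.ext_iff.mp b.2
      have b3 := Prod.ext_iff.mp b2.1
      exact Prod.ext (Prod.ext (T1_det F h h' b3.1) b.1) b2.2
    linarith
  refine h1.trans ?_
  have h2 := CH_le_round F.isLaw (fun ω => fl w (F.x1 w ω)) (fun ω => fl w (F.x1 w' ω)) (F.c w')
    (fun ω ω' _ _ _ e k => by
      refine floor_close (A := 2 ^ w * F.x1 w' ω k) (B := 2 ^ w * F.x1 w' ω' k) ?_
        (x1_near2 F h h' ω k) (x1_near2 F h h' ω' k)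
      exact congrFun e k)
  have h3 : CH F.p (fun ω => fl w (F.x1 w' ω)) (F.c w') = 0 := by
    refine CH_eq_zero hp fun ω ω' _ _ e => ?_
    exact Pool.STK.B58.fl_fine h (Prod.ext_iff.mp (Prod.ext_iff.mp e).1).2
  linarith

/-- The position, given the label of the window. -/
theorem CH_X_c (F : Fam m J) {w : ℕ} (h : w ≤ J) {S : Type} (Y : F.Ω → S)
    (hY : Det F.p Y (F.c w)) : CH F.p (F.X w) Y ≤ cc m := by
  have hp := F.isLaw.nonneg
  have h2 := CH_le_round F.isLaw (F.X w) (fun ω => fl w (F.x1 w ω)) Y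
    (fun ω ω' _ _ _ e k => by
      refine floor_close (A := 2 ^ w * F.x1 w ω k) (B := 2 ^ w * F.x1 w ω' k) (congrFun e k) ?_ ?_
      · rw [abs_sub_comm]; exact x1_near F h ω k
      · rw [abs_sub_comm]; exact x1_near F h ω' k)
  have h3 : CH F.p (fun ω => fl w (F.x1 w ω)) Y = 0 := by
    refine CH_eq_zero hp fun ω ω' a b e => ?_
    exact (Prod.ext_iff.mp (Prod.ext_iff.mp (hY ω ω' a b e)).1).2
  linarith

/-- The position at the start of the window, given the position. -/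
theorem CH_x1_X (F : Fam m J) {w : ℕ} (h : w ≤ J) {S : Type} (Y : F.Ω → S) :
    CH F.p (fun ω => fl w (F.x1 w ω)) Y ≤ CH F.p (F.X w) Y + cc m :=
  CH_le_round F.isLaw (fun ω => fl w (F.x1 w ω)) (F.X w) Y
    (fun ω ω' _ _ _ e k =>
      floor_close (A := 2 ^ w * F.x ω k) (B := 2 ^ w * F.x ω' k) (congrFun e k)
        (x1_near F h ω k) (x1_near F h ω' k))

theorem CH_X_x1 (F : Fam m J) {w : ℕ} (h : w ≤ J) {S : Type} (Y : F.Ω → S) :
    CH F.p (F.X w) Y ≤ CH F.p (fun ω => fl w (F.x1 w ω)) Y + cc m :=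
  CH_le_round F.isLaw (F.X w) (fun ω => fl w (F.x1 w ω)) Y
    (fun ω ω' _ _ _ e k => by
      refine floor_close (A := 2 ^ w * F.x1 w ω k) (B := 2 ^ w * F.x1 w ω' k) (congrFun e k) ?_ ?_
      · rw [abs_sub_comm]; exact x1_near F h ω k
      · rw [abs_sub_comm]; exact x1_near F h ω' k)

/-- The label of the window, given the exact position and time. -/
theorem CH_c_pt (F : Fam m J) {w : ℕ} (h : w ≤ J) :
    CH F.p (F.c w) (fun ω => (F.X J ω, F.W ω)) ≤ cc m := by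
  have hp := F.isLaw.nonneg
  have h1 := CH_x1_X F h (fun ω => (F.X J ω, F.W ω))
  have h2 : CH F.p (F.X w) (fun ω => (F.X J ω, F.W ω)) = 0 := by
    refine CH_eq_zero hp fun ω ω' _ _ e => ?_
    exact Pool.STK.B58.fl_fine h (Prod.ext_iff.mp e).1
  have h3 : CH F.p (F.c w) (fun ω => (F.X J ω, F.W ω)) ≤
      CH F.p (fun ω => fl w (F.x1 w ω)) (fun ω => (F.X J ω, F.W ω)) := by
    have a1 := CH_le_add hp (F.c w) (fun ω => fl w (F.x1 w ω)) (fun ω => (F.X J ω, F.W ω))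
    have a2 : CH F.p (F.c w) (fun ω => (fl w (F.x1 w ω), (F.X J ω, F.W ω))) = 0 := by
      refine CH_eq_zero hp fun ω ω' _ _ e => ?_
      have b := Prod.ext_iff.mp e
      have b2 : F.W ω = F.W ω' := (Prod.ext_iff.mp b.2).2
      have b3 : F.T ω = F.T ω' ∧ F.Z ω = F.Z ω' := Prod.ext_iff.mp b2
      refine Prod.ext (Prod.ext ?_ b.1) b3.2
      change F.T1 w ω = F.T1 w ω'
      unfold Fam.T1
      rw [b3.1]
    linarith
  linarith

/-- Functions of the line and of the first digits of the time are almost independent of the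
other digits of the time. -/
theorem time_le (F : Fam m J) {g : ℕ} (h : g ≤ J) {e : ℝ} (he : F.Tm e) {S U : Type}
    (Y : F.Ω → S) (V : F.Ω → U) (hY : Det F.p (fun ω => (F.l ω, F.Z ω, F.T1 g ω)) Y)
    (hV : Det F.p (fun ω => (F.l ω, F.Z ω, F.T1 g ω)) V) (hg : Det F.p V (F.T1 g)) :
    CH F.p Y V ≤ CH F.p Y (fun ω => (F.T ω, V ω)) + e := by
  have hp := F.isLaw.nonneg
  -- T given V
  have h1 : CH F.p F.T V ≤ (J - g : ℕ) * Real.log 2 := by
    have a1 := CH_div F.isLaw F.T V (J - g)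
    have a2 : CH F.p F.T V ≤ CH F.p F.T (fun ω => (F.T ω / 2 ^ (J - g), V ω)) := by
      refine CH_mono_cond hp fun ω ω' a b e => ?_
      exact Prod.ext (hg ω ω' a b e) e
    exact a2.trans a1
  -- T given the line
  have h2 : (J - g : ℕ) * Real.log 2 - e ≤ CH F.p F.T (fun ω => (F.l ω, F.Z ω, F.T1 g ω)) := by
    have a1 := CH_le_add hp F.T (F.T1 g) (fun ω => (F.l ω, F.Z ω))
    have a2 : CH F.p (F.T1 g) (fun ω => (F.l ω, F.Z ω)) ≤ g * Real.log 2 := by
      refine CH_lt F.isLaw (F.T1 g) _ g fun ω => ?_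
      unfold Fam.T1
      rw [Nat.div_lt_iff_lt_mul (by positivity), ← pow_add]
      have h1 := F.tim ω
      have e1 : g + (J - g) = J := by omega
      rwa [e1]
    have a3 : CH F.p F.T (fun ω => (F.T1 g ω, (F.l ω, F.Z ω))) =
        CH F.p F.T (fun ω => (F.l ω, F.Z ω, F.T1 g ω)) := by
      refine CH_congr hp ?_ ?_ ?_ ?_
      · intro ω ω' _ _ hh
        simp only [Prod.mk.injEq] at hh ⊢
        tauto
      · intro ω ω' _ _ hh
        simp only [Prod.mk.injEq] at hh ⊢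
        tauto
      · intro ω ω' _ _ hh
        simp only [Prod.mk.injEq] at hh ⊢
        tauto
      · intro ω ω' _ _ hh
        simp only [Prod.mk.injEq] at hh ⊢
        tauto
    have a4 : (J : ℝ) = g + (J - g : ℕ) := by
      rw [Nat.cast_sub h]; ring
    unfold Fam.Tm at he
    rw [a4] at he
    rw [a3] at a1
    linarith
  have h3 : CH F.p F.T (fun ω => (F.l ω, F.Z ω, F.T1 g ω)) ≤ CH F.p F.T (fun ω => (Y ω, V ω)) := by
    refine CH_mono_cond hp fun ω ω' a b e => ?_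
    exact Prod.ext (hY ω ω' a b e) (hV ω ω' a b e)
  have h4 := CH_bayes hp Y F.T V
  linarith

/-- One window: the rows above the window are controlled by the rows of the positions. -/
theorem row_le (F : Fam m J) {w w' : ℕ} (h : w ≤ w') (h' : w' ≤ J) {e : ℝ} (he : F.Tm e)
    {S : Type} (A : F.Ω → S) :
    CH F.p (F.X w') (fun ω => (F.T1 w' ω, A ω, F.c w ω)) ≤
      CH F.p (F.X w') (fun ω => (F.X w ω, F.W ω)) + (e + 3 * cc m) := by
  have hp := F.isLaw.nonneg
  have h1 := CH_X_x1 F h' (fun ω => (F.T1 w' ω, A ω, F.c w ω))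
  have h2 : CH F.p (fun ω => fl w' (F.x1 w' ω)) (fun ω => (F.T1 w' ω, A ω, F.c w ω)) ≤
      CH F.p (fun ω => fl w' (F.x1 w' ω)) (fun ω => (F.T1 w' ω, F.c w ω)) := by
    refine CH_mono_cond hp fun ω ω' _ _ e => ?_
    have b := Prod.ext_iff.mp e
    exact Prod.ext b.1 (Prod.ext_iff.mp b.2).2
  have h3 := time_le F h' he (fun ω => fl w' (F.x1 w' ω)) (fun ω => (F.T1 w' ω, F.c w ω))
    (by
      intro ω ω' _ _ e
      simp only [Prod.mk.injEq, Fam.l] at e
      obtain ⟨⟨e1, e2⟩, e3, e4⟩ := e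
      have : F.x1 w' ω = F.x1 w' ω' := by
        funext i
        unfold Fam.x1
        rw [e1, e2, e4]
      change fl w' (F.x1 w' ω) = fl w' (F.x1 w' ω')
      rw [this])
    (by
      intro ω ω' _ _ e
      simp only [Prod.mk.injEq, Fam.l] at e
      obtain ⟨⟨e1, e2⟩, e3, e4⟩ := e
      have e5 := T1_det F h h' e4
      have : F.x1 w ω = F.x1 w ω' := by
        funext i
        unfold Fam.x1
        rw [e1, e2, e5]
      refine Prod.ext e4 (Prod.ext (Prod.ext e5 ?_) e3)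
      change fl w (F.x1 w ω) = fl w (F.x1 w ω')
      rw [this])
    (by
      intro ω ω' _ _ e
      exact (Prod.ext_iff.mp e).1)
  have h4 := CH_x1_X F h' (fun ω => (F.T ω, (F.T1 w' ω, F.c w ω)))
  have h5 := CH_le_add hp (F.X w') (F.X w) (fun ω => (F.T ω, (F.T1 w' ω, F.c w ω)))
  have h6 := CH_X_c F (h.trans h') (fun ω => (F.T ω, (F.T1 w' ω, F.c w ω))) (by
    intro ω ω' _ _ e
    exact (Prod.ext_iff.mp (Prod.ext_iff.mp e).2).2)
  have h7 : CH F.p (F.X w') (fun ω => (F.X w ω, (F.T ω, (F.T1 w' ω, F.c w ω)))) ≤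
      CH F.p (F.X w') (fun ω => (F.X w ω, F.W ω)) := by
    refine CH_mono_cond hp fun ω ω' _ _ e => ?_
    have b := Prod.ext_iff.mp e
    have b2 := Prod.ext_iff.mp b.2
    refine Prod.ext b.1 (Prod.ext b2.1 ?_)
    exact (Prod.ext_iff.mp (Prod.ext_iff.mp b2.2).2).2
  linarith

/-- The information on the direction in one window. -/
theorem info_le (F : Fam m J) {w w' : ℕ} (h : w ≤ w') (h' : w' ≤ J) {S : Type} (Y : F.Ω → S) :
    CH F.p Y (F.c w) - CH F.p Y (fun ω => (F.c w ω, (F.c w' ω, (F.X w' ω, F.T1 w' ω)))) ≤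
      CH F.p Y (F.c w) - CH F.p Y (F.c w') + 2 * cc m := by
  have hp := F.isLaw.nonneg
  have h1 := CH_bayes hp Y (fun ω => (F.c w ω, F.X w' ω)) (F.c w')
  have h2 : CH F.p Y (fun ω => ((F.c w ω, F.X w' ω), F.c w' ω)) ≤
      CH F.p Y (fun ω => (F.c w ω, (F.c w' ω, (F.X w' ω, F.T1 w' ω)))) := by
    refine CH_mono_cond hp fun ω ω' _ _ e => ?_
    simp only [Prod.mk.injEq] at e
    obtain ⟨⟨a1, a2⟩, a3⟩ := e
    refine Prod.ext a1 (Prod.ext a3 (Prod.ext a2 ?_))
    exact (Prod.ext_iff.mp (Prod.ext_iff.mp a3).1).1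
  have h3 : CH F.p (fun ω => (F.c w ω, F.X w' ω)) (F.c w') ≤ 2 * cc m := by
    have a1 := CH_subadd hp (F.c w) (F.X w') (F.c w')
    have a2 := CH_c_c F h h'
    have a3 := CH_X_c F h' (F.c w') (fun _ _ _ _ e => e)
    linarith
  have h4 := CH_nonneg hp (fun ω => (F.c w ω, F.X w' ω)) (fun ω => (Y ω, F.c w' ω))
  linarith

/-- The direction has at most `m K` bits. -/
theorem CH_D_le (F : Fam m J) (K : ℕ) {S : Type} (W : F.Ω → S) :
    CH F.p (F.D K) W ≤ m * (K * Real.log 2) + cc m := by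
  have hp := F.isLaw.nonneg
  have h1 := CH_le_add hp (F.D K) (F.D 0) W
  have h2 : CH F.p (F.D 0) W ≤ cc m := by
    have a1 := CH_le_round F.isLaw (F.D 0) (fun _ => (0 : Fin m → ℤ)) W
      (fun ω ω' _ _ _ _ k => by
        refine floor_close (A := 0) (B := 0) rfl ?_ ?_
        · simpa using F.dir ω k
        · simpa using F.dir ω' k)
    have a2 : CH F.p (fun _ => (0 : Fin m → ℤ)) W = 0 := CH_eq_zero hp fun _ _ _ _ _ => rfl
    linarith
  have h3 := CH_floor F.isLaw F.d W 0 K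
  rw [Nat.zero_add] at h3
  have h4 : CH F.p (F.D K) (fun ω => (F.D 0 ω, W ω)) ≤ m * (K * Real.log 2) := h3
  linarith

/-- Telescoping of the rows. -/
theorem rows_eq (F : Fam m J) (K w₀ : ℕ) (N : ℕ) :
    ∑ i ∈ range N, CH F.p (F.X (w₀ + (i + 1) * K)) (fun ω => (F.X (w₀ + i * K) ω, F.W ω)) =
      CH F.p (F.X (w₀ + N * K)) (fun ω => (F.X w₀ ω, F.W ω)) := by
  have hp := F.isLaw.nonneg
  have h : ∀ w w' : ℕ, w ≤ w' → CH F.p (F.X w') (fun ω => (F.X w ω, F.W ω)) =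
      CH F.p (F.X w') F.W - CH F.p (F.X w) F.W := by
    intro w w' hw
    have := chain_det hp (F.X w') (F.X w) F.W fun ω ω' _ _ e => Pool.STK.B58.fl_fine hw e
    linarith
  induction N with
  | zero =>
    rw [Finset.sum_range_zero, h w₀ (w₀ + 0 * K) (by omega)]
    simp
  | succ N ih =>
    have e1 : N * K ≤ (N + 1) * K := Nat.mul_le_mul_right K (Nat.le_succ N)
    rw [Finset.sum_range_succ, ih, h w₀ (w₀ + N * K) (by omega),
      h (w₀ + N * K) (w₀ + (N + 1) * K) (by omega), h w₀ (w₀ + (N + 1) * K) (by omega)]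
    ring

end Rows

open Rows in
open Classical in
/-- **Rows in many windows.** If the directions are nonconcentrated in every window (given the
labels of two consecutive windows and the position) then almost all the rows of the positions are
full; the total loss is a bounded number of time deficits plus the information on the direction at
scale `K`, which is counted once. -/
theorem rows_thm (k : ℕ) : ∃ C : ℝ, 0 ≤ C ∧ ∀ (J : ℕ) (F : Fam (k + 1) J) (K a h N w₀ : ℕ)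
    (e ρ : ℝ), w₀ + N * K ≤ J → F.Tm e → 2 ≤ h → a + (h + 3) * (k + 1) + h ≤ K →
    (∀ i < N, ∀ ω, 0 < F.p ω → ∀ (v : Fin (k + 1) → ℝ) (B : Fin k → Fin (k + 1) → ℝ),
      (∑ ω', if ∃ c : Fin k → ℝ, ∀ j, |F.d ω' j - v j - ∑ i, c i * B i j| ≤ 4 / 2 ^ h
        then cond F.p (fun ω => (F.c (w₀ + i * K) ω, (F.c (w₀ + (i + 1) * K) ω,
          (F.X (w₀ + (i + 1) * K) ω, F.T1 (w₀ + (i + 1) * K) ω))))
          (F.c (w₀ + i * K) ω, (F.c (w₀ + (i + 1) * K) ω,
          (F.X (w₀ + (i + 1) * K) ω, F.T1 (w₀ + (i + 1) * K) ω))) ω' else 0) ≤ ρ) →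
    N * ((k + 1) * (a * Real.log 2) - (k + 2) ^ 2 * (a * Real.log 2) * ρ - (k + 3) * e - C) -
      (k + 2) * ((k + 1) * (K * Real.log 2) + C) ≤
      CH F.p (F.X (w₀ + N * K)) (fun ω => (F.X w₀ ω, F.W ω)) := by
  obtain ⟨C₀, hC₀, hsl⟩ := slPt (k + 1) k
  have hcc : 0 ≤ cc (k + 1) := by
    unfold cc
    exact mul_nonneg (by positivity) (Real.log_nonneg (by norm_num))
  have hk : (0 : ℝ) ≤ k := by positivity
  refine ⟨C₀ + 3 * cc (k + 1) + (k + 2) * (2 * cc (k + 1)), by positivity, ?_⟩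
  intro J F K a h N w₀ e ρ hJ he hh haK hconc
  have hp := F.isLaw.nonneg
  have step : ∀ i ∈ range N, (k + 1) * (a * Real.log 2) - (k + 2) ^ 2 * (a * Real.log 2) * ρ -
      (k + 3) * e - (C₀ + 3 * cc (k + 1) + (k + 2) * (2 * cc (k + 1))) -
      (k + 2) * (CH F.p (F.D K) (F.c (w₀ + i * K)) -
        CH F.p (F.D K) (F.c (w₀ + (i + 1) * K))) ≤
      CH F.p (F.X (w₀ + (i + 1) * K)) (fun ω => (F.X (w₀ + i * K) ω, F.W ω)) := by
    intro i hi
    rw [Finset.mem_range] at hi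
    have hN : w₀ + (i + 1) * K ≤ J := by
      have : (i + 1) * K ≤ N * K := Nat.mul_le_mul_right K hi
      omega
    have hw : w₀ + i * K + K = w₀ + (i + 1) * K := by ring
    have hle : w₀ + i * K ≤ w₀ + (i + 1) * K := by omega
    have h1 := hsl J F _ _ (F.c (w₀ + i * K)) (fun ω => (F.c (w₀ + (i + 1) * K) ω,
        (F.X (w₀ + (i + 1) * K) ω, F.T1 (w₀ + (i + 1) * K) ω))) (w₀ + i * K) K a h e ρ
      (by rw [hw]; exact hN) he
      (by
        intro ω ω' _ _ hs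
        simp only [slam, Prod.mk.injEq, Fam.l] at hs
        obtain ⟨⟨e1, e2⟩, e3, e4⟩ := hs
        have : F.x1 (w₀ + i * K) ω = F.x1 (w₀ + i * K) ω' := by
          funext j
          unfold Fam.x1
          rw [e1, e2, e4]
        unfold Fam.c
        rw [this, e3, e4])
      (by
        intro ω ω' _ _ hs
        rw [hw]
        simp only [Prod.mk.injEq] at hs
        exact ⟨hs.2.2, hs.2.1⟩) hh haK (hconc i hi)
    rw [hw] at h1
    have h2 : CH F.p (F.X (w₀ + (i + 1) * K)) (fun ω => (F.T1 (w₀ + (i + 1) * K) ω,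
        F.X (w₀ + (i + 1) * K - a) ω, F.c (w₀ + i * K) ω)) ≤ _ := row_le F hle hN he _
    have h3 := info_le F hle hN (F.D K)
    have h4 : ((k : ℝ) + 2) * (CH F.p (F.D K) (F.c (w₀ + i * K)) - CH F.p (F.D K)
        (fun ω => (F.c (w₀ + i * K) ω, (F.c (w₀ + (i + 1) * K) ω,
          (F.X (w₀ + (i + 1) * K) ω, F.T1 (w₀ + (i + 1) * K) ω))))) ≤
        (k + 2) * (CH F.p (F.D K) (F.c (w₀ + i * K)) -
          CH F.p (F.D K) (F.c (w₀ + (i + 1) * K)) + 2 * cc (k + 1)) :=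
      mul_le_mul_of_nonneg_left h3 (by positivity)
    have h5 : ((k : ℝ) + 2) * (a * Real.log 2) * (1 - (k + 2) * ρ) - a * Real.log 2 =
        (k + 1) * (a * Real.log 2) - (k + 2) ^ 2 * (a * Real.log 2) * ρ := by ring
    rw [h5] at h1
    nlinarith [h1, h2, h4]
  have hs := Finset.sum_le_sum step
  rw [rows_eq] at hs
  have htel : ∑ i ∈ range N, (CH F.p (F.D K) (F.c (w₀ + i * K)) -
      CH F.p (F.D K) (F.c (w₀ + (i + 1) * K))) ≤ (k + 1) * (K * Real.log 2) + cc (k + 1) := by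
    have h1 := Finset.sum_range_sub' (fun i => CH F.p (F.D K) (F.c (w₀ + i * K))) N
    rw [h1]
    have h2 := CH_D_le F K (F.c (w₀ + 0 * K))
    have h3 := CH_nonneg hp (F.D K) (F.c (w₀ + N * K))
    push_cast at h2
    linarith
  rw [Finset.sum_sub_distrib, Finset.sum_const, Finset.card_range, nsmul_eq_mul,
    ← Finset.mul_sum] at hs
  have h6 : ((k : ℝ) + 2) * ∑ i ∈ range N, (CH F.p (F.D K) (F.c (w₀ + i * K)) -
      CH F.p (F.D K) (F.c (w₀ + (i + 1) * K))) ≤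
      (k + 2) * ((k + 1) * (K * Real.log 2) + cc (k + 1)) :=
    mul_le_mul_of_nonneg_left htel (by positivity)
  have h7 : ((k : ℝ) + 2) * ((k + 1) * (K * Real.log 2) + cc (k + 1)) ≤
      (k + 2) * ((k + 1) * (K * Real.log 2) +
        (C₀ + 3 * cc (k + 1) + (k + 2) * (2 * cc (k + 1)))) := by
    refine mul_le_mul_of_nonneg_left ?_ (by positivity)
    have : 0 ≤ (k + 2) * (2 * cc (k + 1)) := by positivity
    linarith
  linarith

end Pool.K2S
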