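import Pool.Agent.H13.K2S.Mnj
import Pool.Agent.H64.K2.Plk

/-!
# The Fam layer of the critical step: definitions

Labels of windows, block variables inside a context, frames at the exact points and frames of the
windows. All precisions are in bits.
-/

set_option autoImplicit false

namespace Pool.KA

open Finset Real
open Pool.Agent.H49.Ent Pool.Agent.H32.Dense Pool.STK

variable {m J : ℕ}

/-- The general label: window `g`, frame `z`, base position to `a`, normal position to `a + lam`,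
base velocity to `c`, normal velocity to `c + lam`. For `g = J` the time is exact. -/
noncomputable def Fam.glb (F : Fam m J) (g a c lam : ℕ) (i0 : Fin m) (z : F.Ω → Fin m → ℝ)
    (ω : F.Ω) : ((ℕ × (Fin m → ℝ)) × ((Fin m → ℤ) × (Fin m → ℤ))) × F.ζ :=
  (((F.T1 g ω, z ω), (fl a (pco lam i0 (z ω) (F.x1 g ω)), fl c (pco lam i0 (z ω) (F.d ω)))),
    F.Z ω)

/-- The position inside the cell, in `[0, 1)`. -/
noncomputable def Fam.gu (F : Fam m J) (g a lam : ℕ) (i0 : Fin m) (z : F.Ω → Fin m → ℝ)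
    (ω : F.Ω) (i : Fin m) : ℝ := Int.fract (2 ^ a * pco lam i0 (z ω) (F.x1 g ω) i)

/-- The velocity inside the cell, in `[0, 1)`. -/
noncomputable def Fam.gd (F : Fam m J) (c lam : ℕ) (i0 : Fin m) (z : F.Ω → Fin m → ℝ)
    (ω : F.Ω) (i : Fin m) : ℝ := Int.fract (2 ^ c * pco lam i0 (z ω) (F.d ω) i)

/-- The time inside the window, in `[0, 1)`. -/
noncomputable def Fam.tw (F : Fam m J) (g : ℕ) (ω : F.Ω) : ℝ := 2 ^ g * F.t ω - F.T1 g ω

/-- The label of the context `(w, q)`. -/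
noncomputable def Fam.qlb (F : Fam m J) (w q lam : ℕ) (i0 : Fin m) (z : F.Ω → Fin m → ℝ) :=
  F.glb w (q + w) q lam i0 z

end Pool.KA

namespace Pool.K2S

open Finset Real
open Pool.Agent.H49.Ent Pool.Agent.H32.Dense Pool.STK Pool.KA Pool.KSAT

variable {J : ℕ}

/-- A frame of precision `2 ^ (-H)` at the exact points, with slopes at most `2`. -/
structure Frm (F : Fam 2 J) (i₀ : Fin 2) (A : F.Ω → Prop) (H : ℕ)
    (f n : (Fin 2 → ℤ) × (ℕ × F.ζ) → Fin 2 → ℝ) : Prop where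
  on : OnL i₀ (1 / 2 ^ H) (Fam.pt F) F.d A f n
  bd : ∀ ω, A ω → ∀ j, |f (Fam.pt F ω) j| ≤ 2

/-- A frame of the windows `w`, of precision `2 ^ (-l)`. -/
structure Win (F : Fam 2 J) (i₀ : Fin 2) (A : F.Ω → Prop)
    (f : (Fin 2 → ℤ) × (ℕ × F.ζ) → Fin 2 → ℝ) (w l : ℕ) (z : F.Ω → Fin 2 → ℝ) : Prop where
  fn : ∃ g : (((Fin 2 → ℝ) × (Fin 2 → ℝ)) × F.ζ × ℕ) → Fin 2 → ℝ, ∀ ω, z ω = g (slam F w ω)
  gr : ∀ ω j, ∃ k : ℤ, z ω j = k / 2 ^ l
  z0 : ∀ ω, z ω i₀ = 0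
  cl : ∀ ω, A ω → ∀ j, j ≠ i₀ → |f (Fam.pt F ω) j - z ω j| ≤ 2 / 2 ^ l

end Pool.K2S
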