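import Pool.Agent.H13.K2S.Lin

/-!
# Claims about stable events in maximal families

A claim is a statement about a large event of a regular maximal family which holds as soon as
the event is stable for finitely many lists of hereditary properties (each list may depend on the
freedom of the earlier lists). Claims can be combined, and they are realised: for a claim there are
families and events for which it holds.
-/

set_option autoImplicit false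

namespace Pool.K2S

open Finset Real
open Pool.Agent.H49.Ent Pool.Agent.H32.Dense Pool.STK Pool.KA

variable {m : ℕ}

/-- A finite list of hereditary properties of events, for every family. -/
structure PList (m : ℕ) where
  /-- the length of the list -/
  n : ℕ
  /-- the properties -/
  Q : ∀ (J : ℕ) (F : Fam m J), Fin n → (F.Ω → Prop) → Prop
  her : ∀ (J : ℕ) (F : Fam m J) (i : Fin n), Hered (Q J F i)

/-- The event is stable for the list, with freedom `κ`. -/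
def PList.Sb (L : PList m) {J : ℕ} (F : Fam m J) (κ : ℝ) (A : F.Ω → Prop) : Prop :=
  ∀ i, Stb F.p (κ * J) A (L.Q J F i)

/-- Statements about events in families. -/
abbrev Stat (m : ℕ) : Type 1 := ∀ (J : ℕ) (F : Fam m J), (F.Ω → Prop) → Prop

/-- The statement holds for stable events of maximal families; `r` levels. -/
def Cl (a R : ℝ) : ℕ → Stat m → Prop
  | 0, Φ => ∃ τ > 0, ∃ J₁ : ℕ, ∀ J ≥ J₁, ∀ (F : Fam m J) (A : F.Ω → Prop),
      Fam.Stt F a R τ A → Φ J F A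
  | r + 1, Φ => ∃ L : PList m, ∀ κ > 0, Cl a R r (fun _ F A => L.Sb F κ A → Φ _ F A)

/-- The statement holds for stable events of maximal families. -/
def Claim (a R : ℝ) (Φ : Stat m) : Prop := ∃ r, Cl a R r Φ

theorem rg_mono {Ω S : Type} [Fintype Ω] {p : Ω → ℝ} {f : Ω → S} {h e e' : ℝ} (he : e ≤ e')
    (hr : Rg p f h e) : Rg p f h e' := by
  refine ⟨hr.1.trans (Real.exp_le_exp.2 (by linarith)), fun s => (hr.2 s).trans ?_⟩
  exact Real.exp_le_exp.2 (by linarith)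

theorem Fam.Stt.mono {J : ℕ} {F : Fam m J} {a R τ τ' : ℝ} (h : τ ≤ τ') {A : F.Ω → Prop}
    (hS : Fam.Stt F a R τ A) : Fam.Stt F a R τ' A := by
  obtain ⟨h1, h2, h3, h4⟩ := hS
  have hJ : τ * (J : ℝ) ≤ τ' * J := mul_le_mul_of_nonneg_right h (Nat.cast_nonneg J)
  refine ⟨h1, ⟨?_, ?_⟩, ?_, (Real.exp_le_exp.2 (by linarith)).trans h4⟩
  · have := h2.1
    unfold Fam.Tm at this ⊢
    linarith
  · have := h2.2
    nlinarith
  · obtain ⟨⟨a1, b1⟩, ⟨a2, b2⟩, ⟨a3, b3⟩, ⟨a4, b4⟩, ⟨a5, b5⟩⟩ := h3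
    exact ⟨⟨a1, rg_mono hJ b1⟩, ⟨a2, rg_mono hJ b2⟩, ⟨a3, rg_mono hJ b3⟩, ⟨a4, rg_mono hJ b4⟩,
      ⟨a5, rg_mono hJ b5⟩⟩

theorem Cl.mono {a R : ℝ} {J₂ : ℕ} : ∀ {r : ℕ} {Φ Ψ : Stat m},
    (∀ J ≥ J₂, ∀ (F : Fam m J) (A : F.Ω → Prop), Φ J F A → Ψ J F A) → Cl a R r Φ → Cl a R r Ψ
  | 0, _, _, h, ⟨τ, hτ, J₁, hc⟩ => ⟨τ, hτ, max J₁ J₂, fun J hJ F A hA =>
      h J ((le_max_right _ _).trans hJ) F A (hc J ((le_max_left _ _).trans hJ) F A hA)⟩
  | _ + 1, _, _, h, ⟨L, hc⟩ => ⟨L, fun κ hκ =>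
      Cl.mono (fun J hJ F A h1 h2 => h J hJ F A (h1 h2)) (hc κ hκ)⟩

theorem Cl.and {a R : ℝ} : ∀ {r : ℕ} {Φ Ψ : Stat m},
    Cl a R r Φ → Cl a R r Ψ → Cl a R r (fun _ F A => Φ _ F A ∧ Ψ _ F A)
  | 0, _, _, ⟨τ, hτ, J₁, hc⟩, ⟨τ', hτ', J₁', hc'⟩ => ⟨min τ τ', lt_min hτ hτ', max J₁ J₁',
      fun J hJ F A hA => ⟨hc J ((le_max_left _ _).trans hJ) F A (hA.mono (min_le_left _ _)),
        hc' J ((le_max_right _ _).trans hJ) F A (hA.mono (min_le_right _ _))⟩⟩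
  | r + 1, Φ, Ψ, ⟨L, hc⟩, ⟨L', hc'⟩ => by
    refine ⟨⟨L.n + L'.n, fun J F => Fin.addCases (L.Q J F) (L'.Q J F), ?_⟩, fun κ hκ => ?_⟩
    · intro J F i
      refine Fin.addCases (fun i => ?_) (fun i => ?_) i
      · simpa using L.her J F i
      · simpa using L'.her J F i
    · refine Cl.mono (J₂ := 0) ?_ (Cl.and (hc κ hκ) (hc' κ hκ))
      rintro J - F A ⟨h1, h2⟩ h3
      refine ⟨h1 fun i => ?_, h2 fun i => ?_⟩
      · have := h3 (Fin.castAdd _ i)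
        simpa using this
      · have := h3 (Fin.natAdd _ i)
        simpa using this

theorem Cl.succ {a R : ℝ} {r : ℕ} {Φ : Stat m} (h : Cl a R r Φ) : Cl a R (r + 1) Φ :=
  ⟨⟨0, fun _ _ i => Fin.elim0 i, fun _ _ i => Fin.elim0 i⟩, fun _ _ =>
    Cl.mono (J₂ := 0) (fun _ _ _ _ h1 _ => h1) h⟩

theorem Cl.le {a R : ℝ} {r r' : ℕ} (hr : r ≤ r') {Φ : Stat m} (h : Cl a R r Φ) :
    Cl a R r' Φ := by
  induction hr with
  | refl => exact h
  | step _ ih => exact ih.succ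

theorem Claim.mono {a R : ℝ} {Φ Ψ : Stat m} (J₂ : ℕ)
    (h : ∀ J ≥ J₂, ∀ (F : Fam m J) (A : F.Ω → Prop), Φ J F A → Ψ J F A) (hc : Claim a R Φ) :
    Claim a R Ψ := hc.imp fun _ hr => Cl.mono h hr

theorem Claim.and {a R : ℝ} {Φ Ψ : Stat m} (h1 : Claim a R Φ) (h2 : Claim a R Ψ) :
    Claim a R (fun _ F A => Φ _ F A ∧ Ψ _ F A) := by
  obtain ⟨r, hr⟩ := h1
  obtain ⟨r', hr'⟩ := h2
  exact ⟨max r r', Cl.and (hr.le (le_max_left _ _)) (hr'.le (le_max_right _ _))⟩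

/-- A claim which holds without stability. -/
theorem Claim.of {a R τ : ℝ} {Φ : Stat m} (hτ : 0 < τ) (J₁ : ℕ)
    (h : ∀ J ≥ J₁, ∀ (F : Fam m J) (A : F.Ω → Prop), Fam.Stt F a R τ A → Φ J F A) :
    Claim a R Φ := ⟨0, τ, hτ, J₁, h⟩

/-- A claim with one level. -/
theorem Claim.one {a R : ℝ} {Φ : Stat m} (L : PList m)
    (h : ∀ κ > 0, ∃ τ > 0, ∃ J₁ : ℕ, ∀ J ≥ J₁, ∀ (F : Fam m J) (A : F.Ω → Prop),
      Fam.Stt F a R τ A → L.Sb F κ A → Φ J F A) : Claim a R Φ := by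
  refine ⟨1, L, fun κ hκ => ?_⟩
  obtain ⟨τ, hτ, J₁, h1⟩ := h κ hκ
  exact ⟨τ, hτ, J₁, h1⟩

theorem Claim.mp {a R : ℝ} {Φ Ψ : Stat m} (h1 : Claim a R (fun _ F A => Φ _ F A → Ψ _ F A))
    (h2 : Claim a R Φ) : Claim a R Ψ :=
  Claim.mono 0 (fun _ _ _ _ h => h.1 h.2) (h1.and h2)

/-- Finitely many claims. -/
theorem Claim.all {a R : ℝ} (n : ℕ) {Φ : ℕ → Stat m} (h : ∀ i < n, Claim a R (Φ i)) :
    Claim a R (fun _ F A => ∀ i < n, Φ i _ F A) := by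
  induction n with
  | zero => exact Claim.of one_pos 0 (fun _ _ _ _ _ i hi => absurd hi (by omega))
  | succ n ih =>
    refine Claim.mono 0 ?_ ((ih fun i hi => h i (by omega)).and (h n (by omega)))
    rintro J - F A ⟨h1, h2⟩ i hi
    rcases Nat.lt_succ_iff_lt_or_eq.1 hi with h3 | h3
    · exact h1 i h3
    · rw [h3]; exact h2

/-! ### Realisation -/

/-- A sequence whose partial sums are small compared with a function of the next term. -/
theorem exists_seq (M : ℕ) : ∀ f : ℝ → ℝ, (∀ κ > 0, 0 < f κ) →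
    ∃ κ : ℕ → ℝ, (∀ n, 0 < κ n) ∧ ∀ n ≤ M, ∑ i ∈ range n, κ i ≤ f (κ n) := by
  induction M with
  | zero =>
    intro f hf
    refine ⟨fun _ => 1, fun _ => one_pos, fun n hn => ?_⟩
    have : n = 0 := by omega
    rw [this, Finset.sum_range_zero]
    exact (hf 1 one_pos).le
  | succ M ih =>
    intro f hf
    obtain ⟨κ, h1, h2⟩ := ih (fun κ => f κ / 2) (fun κ hκ => half_pos (hf κ hκ))
    -- the minimum of `f (κ n) / 2`, `n ≤ M`
    obtain ⟨μ, hμ0, hμ⟩ : ∃ μ > 0, ∀ n ≤ M, μ ≤ f (κ n) / 2 := by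
      have hne : ((range (M + 1)).image fun n => f (κ n) / 2).Nonempty :=
        ⟨f (κ 0) / 2, Finset.mem_image.2 ⟨0, Finset.mem_range.2 (by omega), rfl⟩⟩
      refine ⟨((range (M + 1)).image fun n => f (κ n) / 2).min' hne, ?_, fun n hn => ?_⟩
      · obtain ⟨n, -, hn⟩ := Finset.mem_image.1 (Finset.min'_mem _ hne)
        rw [← hn]
        exact half_pos (hf _ (h1 n))
      · exact Finset.min'_le _ _ (Finset.mem_image.2 ⟨n, Finset.mem_range.2 (by omega), rfl⟩)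
    refine ⟨fun n => if n = 0 then μ else κ (n - 1), ?_, ?_⟩
    · intro n
      by_cases h : n = 0
      · simp [h, hμ0]
      · simp [h, h1]
    · intro n hn
      rcases Nat.eq_zero_or_pos n with rfl | hn0
      · rw [Finset.sum_range_zero]
        simpa using (hf _ hμ0).le
      · obtain ⟨n, rfl⟩ := Nat.exists_eq_succ_of_ne_zero hn0.ne'
        rw [Finset.sum_range_succ']
        have e1 : ∑ i ∈ range n, (if i + 1 = 0 then μ else κ (i + 1 - 1)) =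
            ∑ i ∈ range n, κ i := Finset.sum_congr rfl fun i _ => by simp
        rw [e1]
        simp only [Nat.succ_eq_add_one, if_true, Nat.add_sub_cancel]
        rw [if_neg (by omega)]
        have := hμ n (by omega)
        have := h2 n (by omega)
        linarith

theorem Cl.win {a R : ℝ} : ∀ (r : ℕ) (Φ : Stat m), Cl a R r Φ → ∀ δ > 0,
    ∃ c > 0, ∃ J₁ : ℕ, ∀ J ≥ J₁, ∀ (F : Fam m J) (A₀ : F.Ω → Prop), Fam.Stt F a R c A₀ →
      ∃ A : F.Ω → Prop, Sub A A₀ ∧ Real.exp (-(δ * J)) * Pe F.p A₀ ≤ Pe F.p A ∧ Φ J F A := by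
  intro r
  induction r with
  | zero =>
    rintro Φ ⟨τ, hτ, J₁, h⟩ δ hδ
    refine ⟨τ, hτ, J₁, fun J hJ F A₀ hS => ⟨A₀, fun _ h => h, ?_, h J hJ F A₀ hS⟩⟩
    have : Real.exp (-(δ * J)) ≤ 1 := by
      rw [Real.exp_le_one_iff]
      have : 0 ≤ δ * J := by positivity
      linarith
    calc _ ≤ 1 * Pe F.p A₀ := mul_le_mul_of_nonneg_right this (Pe_nonneg F.isLaw A₀)
      _ = _ := one_mul _
  | succ r ih =>
    rintro Φ ⟨L, hL⟩ δ hδ
    have key : ∀ κ : ℝ, ∃ c : ℝ, ∃ J₁ : ℕ, 0 < κ → 0 < c ∧ ∀ J ≥ J₁, ∀ (F : Fam m J)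
        (A₀ : F.Ω → Prop), Fam.Stt F a R c A₀ → ∃ A : F.Ω → Prop, Sub A A₀ ∧
        Real.exp (-(min κ (δ / 2) * J)) * Pe F.p A₀ ≤ Pe F.p A ∧ (L.Sb F κ A → Φ J F A) := by
      intro κ
      by_cases hκ : 0 < κ
      · obtain ⟨c, hc, J₁, h⟩ := ih _ (hL κ hκ) (min κ (δ / 2)) (lt_min hκ (half_pos hδ))
        exact ⟨c, J₁, fun _ => ⟨hc, h⟩⟩
      · exact ⟨0, 0, fun h => absurd h hκ⟩
    choose c J₁ hc using key
    obtain ⟨κ, hκ0, hκ⟩ := exists_seq L.n (fun κ => min (c κ / 4) (δ / 4))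
      (fun κ hκ => lt_min (by have := (hc κ hκ).1; linarith) (by linarith))
    obtain ⟨μ, hμ0, hμ⟩ : ∃ μ > 0, ∀ n ≤ L.n, μ ≤ c (κ n) / 2 := by
      have hne : ((range (L.n + 1)).image fun n => c (κ n) / 2).Nonempty :=
        ⟨c (κ 0) / 2, Finset.mem_image.2 ⟨0, Finset.mem_range.2 (by omega), rfl⟩⟩
      refine ⟨((range (L.n + 1)).image fun n => c (κ n) / 2).min' hne, ?_, fun n hn => ?_⟩
      · obtain ⟨n, -, hn⟩ := Finset.mem_image.1 (Finset.min'_mem _ hne)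
        rw [← hn]
        exact half_pos (hc _ (hκ0 n)).1
      · exact Finset.min'_le _ _ (Finset.mem_image.2 ⟨n, Finset.mem_range.2 (by omega), rfl⟩)
    obtain ⟨J₂, hJ₂⟩ : ∃ J₂ : ℕ, ∀ n ≤ L.n, J₁ (κ n) ≤ J₂ :=
      ⟨∑ n ∈ range (L.n + 1), J₁ (κ n), fun n hn =>
        Finset.single_le_sum (f := fun n => J₁ (κ n)) (fun _ _ => Nat.zero_le _)
          (Finset.mem_range.2 (by omega))⟩
    refine ⟨μ, hμ0, J₂, fun J hJ F A₀ hS => ?_⟩
    have hJr : (0 : ℝ) ≤ J := Nat.cast_nonneg J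
    obtain ⟨n, hn, A₁, hA1, hP1, hS1⟩ := stab_inside (p := F.p) (L.Q J F) (L.her J F)
      (fun i => 2 * κ i * J) A₀
    have hsum : ∑ i ∈ range n, 2 * κ i * J = 2 * (∑ i ∈ range n, κ i) * J := by
      rw [Finset.mul_sum, Finset.sum_mul]
    rw [hsum] at hP1
    have hle := hκ n hn
    have hle1 : ∑ i ∈ range n, κ i ≤ c (κ n) / 4 := hle.trans (min_le_left _ _)
    have hle2 : ∑ i ∈ range n, κ i ≤ δ / 4 := hle.trans (min_le_right _ _)
    obtain ⟨hcn, hwin⟩ := hc (κ n) (hκ0 n)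
    have hS' : Fam.Stt F a R (c (κ n)) A₁ := by
      have h0 := hS.mono (τ' := c (κ n)) ((hμ n hn).trans (by linarith))
      refine ⟨h0.1, h0.2.1, h0.2.2.1, ?_⟩
      refine le_trans ?_ hP1
      refine le_trans ?_ (mul_le_mul_of_nonneg_left hS.2.2.2 (Real.exp_pos _).le)
      rw [← Real.exp_add]
      refine Real.exp_le_exp.2 ?_
      have e1 : 2 * (∑ i ∈ range n, κ i) * J ≤ c (κ n) / 2 * J :=
        mul_le_mul_of_nonneg_right (by linarith) hJr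
      have e2 : μ * J ≤ c (κ n) / 2 * J := mul_le_mul_of_nonneg_right (hμ n hn) hJr
      linarith
    obtain ⟨A, hA, hP, hΦ⟩ := hwin J ((hJ₂ n hn).trans hJ) F A₁ hS'
    refine ⟨A, hA.trans hA1, ?_, hΦ fun i => ?_⟩
    · refine le_trans ?_ hP
      refine le_trans ?_ (mul_le_mul_of_nonneg_left hP1 (Real.exp_pos _).le)
      rw [← mul_assoc, ← Real.exp_add]
      refine mul_le_mul_of_nonneg_right (Real.exp_le_exp.2 ?_) (Pe_nonneg F.isLaw A₀)
      have e1 : 2 * (∑ i ∈ range n, κ i) * J ≤ δ / 2 * J :=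
        mul_le_mul_of_nonneg_right (by linarith) hJr
      have e2 : min (κ n) (δ / 2) * J ≤ δ / 2 * J :=
        mul_le_mul_of_nonneg_right (min_le_right _ _) hJr
      linarith
    · have h1 := (hS1 i).sub (L.her J F i) hA hP
      refine h1.mono F.isLaw ?_
      have e2 : min (κ n) (δ / 2) * J ≤ κ n * J :=
        mul_le_mul_of_nonneg_right (min_le_left _ _) hJr
      linarith

/-- **Realisation.** -/
theorem Claim.real (hREX : REXStmt) {a R : ℝ} (ha : 1 ≤ a) (hR : 0 < R) (hU : UBa m a R)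
    (hL : LBa m a R) {Φ : Stat m} (hΦ : Claim a R Φ) {τ : ℝ} (hτ : 0 < τ) (J₀ : ℕ) :
    ∃ J ≥ J₀, ∃ (F : Fam m J) (A : F.Ω → Prop), Fam.Stt F a R τ A ∧ Φ J F A := by
  obtain ⟨r, hr⟩ := hΦ
  obtain ⟨c, hc, J₁, h⟩ := Cl.win r Φ hr (τ / 2) (half_pos hτ)
  obtain ⟨c', hc'⟩ : ∃ c', c' = min c (τ / 2) := ⟨_, rfl⟩
  have hc'0 : 0 < c' := by rw [hc']; exact lt_min hc (half_pos hτ)
  obtain ⟨J, hJ, F, h1, h2, h3⟩ := hREX m a R ha hR hU hL c' hc'0 c' hc'0 (max J₀ J₁)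
  have hp := F.isLaw
  have hJr : (0 : ℝ) ≤ J := Nat.cast_nonneg J
  have hS : Fam.Stt F a R c' (fun _ => True) := by
    refine ⟨h2, h1, h3, ?_⟩
    rw [Pe_univ hp, Real.exp_le_one_iff]
    have : 0 ≤ c' * J := by positivity
    linarith
  obtain ⟨A, -, hP, hΦA⟩ := h J ((le_max_right _ _).trans hJ) F _
    (hS.mono (by rw [hc']; exact min_le_left _ _))
  refine ⟨J, (le_max_left _ _).trans hJ, F, A, ?_, hΦA⟩
  have h0 := hS.mono (τ' := τ) (by rw [hc']; exact (min_le_right _ _).trans (by linarith))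
  refine ⟨h0.1, h0.2.1, h0.2.2.1, ?_⟩
  refine le_trans ?_ hP
  rw [Pe_univ hp, mul_one]
  refine Real.exp_le_exp.2 ?_
  have : τ / 2 * J ≤ τ * J := mul_le_mul_of_nonneg_right (by linarith) hJr
  linarith

/-- The entropy inequality follows from a contradiction in stable maximal families. -/
theorem kp_of_claim (hAEX : AEXStmt) (hREX : REXStmt)
    (h : ∀ a R : ℝ, 1 < a → 0 < R → UBa m a R → Claim (m := m) a R (fun _ _ _ => False)) :
    KP m := by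
  by_contra hK
  obtain ⟨a₀, ha₀, hex⟩ := hAEX m hK
  obtain ⟨R, hR, -, hU, hL⟩ := hex a₀ ha₀ le_rfl
  obtain ⟨J, -, F, A, -, hF⟩ := Claim.real hREX ha₀.le hR hU hL (h a₀ R ha₀ hR hU) one_pos 0
  exact hF

/-- LIN as a claim. -/
theorem lin_claim (hO : AOPStmt) (k : ℕ) {a R : ℝ} (ha : 1 ≤ a) (hR : 0 < R)
    (hU : UBa (k + 1) a R) :
    ∃ c₁ > 0, Claim (m := k + 1) a R (fun J F A => ∀ h : ℕ, (h : ℝ) ≤ c₁ * J →
      Hyp (1 / 2 ^ h) (Fam.pt F) F.d A) := by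
  obtain ⟨c₁, hc, h⟩ := lin_thm hO k ha hR hU
  refine ⟨c₁, hc, Claim.one ⟨1, fun J F _ => Hyp (1 / 2 ^ ⌊c₁ * J⌋₊) (Fam.pt F) F.d,
    fun _ _ _ => Hyp.hered _ _ _⟩ fun κ hκ => ?_⟩
  obtain ⟨τ, hτ, J₁, h1⟩ := h κ hκ
  refine ⟨τ, hτ, J₁, fun J hJ F A hS hL i hi => ?_⟩
  have h2 := h1 J hJ F A hS ⌊c₁ * J⌋₊ (Nat.floor_le (by positivity)) (hL 0)
  obtain ⟨ζ, hζ⟩ := h2
  refine ⟨ζ, fun ω hω => ?_⟩
  obtain ⟨c, hcc⟩ := hζ ω hω
  refine ⟨c, fun j => (hcc j).trans ?_⟩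
  refine one_div_le_one_div_of_le (by positivity) ?_
  exact pow_le_pow_right₀ (by norm_num) (Nat.le_floor hi)

end Pool.K2S
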