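import Pool.Agent.H13.K2S.OcDefs

/-!
# The Fam layer of the critical step: statements of the modules

`Q = cond F.p A True` is the law. Contexts are `F.qlb w q l i₀ z` (window `w`, base position to
`q + w`, normal position to `P = q + w + l`, base velocity to `q`, normal velocity to `q + l`),
always together with the exact time `F.T`.
-/

set_option autoImplicit false

namespace Pool.K2S

open Finset Real
open Pool.Agent.H49.Ent Pool.Agent.H32.Dense Pool.STK Pool.KA Pool.KSAT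

variable {J : ℕ}

/-- The digits `(q, q']` of the base velocity are determined by the exact point and the digits
up to `q`. -/
def Frz (F : Fam 2 J) (i₀ : Fin 2) (q q' : ℕ) (A : F.Ω → Prop) : Prop :=
  ∃ φ : ((Fin 2 → ℤ) × (ℕ × F.ζ)) × ℤ → ℝ, ∀ ω, A ω →
    |F.d ω i₀ - φ (Fam.pt F ω, ⌊(2 : ℝ) ^ q * F.d ω i₀⌋)| ≤ 1 / 2 ^ q'

theorem Frz.hered (F : Fam 2 J) (i₀ : Fin 2) (q q' : ℕ) : Hered (Frz F i₀ q q') :=
  fun _ _ h ⟨φ, hφ⟩ => ⟨φ, fun ω hω => hφ ω (h ω hω)⟩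

/-- The normal position inside the context, at the time of the sample, in the unit of the context,
relative to the centre of the cell; `φ` is the slope at the exact point. -/
noncomputable def nuv (F : Fam 2 J) (i₀ : Fin 2) (w q l : ℕ) (z : F.Ω → Fin 2 → ℝ)
    (φ : F.Ω → ℝ) (ω : F.Ω) : ℝ :=
  F.gu w (q + w) l i₀ z ω (1 - i₀) + F.tw w ω * F.gd q l i₀ z ω (1 - i₀) -
    2 ^ l * (φ ω - z ω (1 - i₀)) *
      (F.gu w (q + w) l i₀ z ω i₀ + F.tw w ω * F.gd q l i₀ z ω i₀)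

/-- The base position inside the context at the time of the sample. -/
noncomputable def yv (F : Fam 2 J) (i₀ : Fin 2) (w q l : ℕ) (z : F.Ω → Fin 2 → ℝ)
    (ω : F.Ω) : ℝ := F.gu w (q + w) l i₀ z ω i₀ + F.tw w ω * F.gd q l i₀ z ω i₀

/-- The line data inside the context, `X` digits. -/
noncomputable def Vx (F : Fam 2 J) (i₀ : Fin 2) (w q l X : ℕ) (z : F.Ω → Fin 2 → ℝ)
    (ω : F.Ω) : ℤ × (ℤ × ℤ) :=
  (⌊(2 : ℝ) ^ X * F.gu w (q + w) l i₀ z ω i₀⌋, (⌊(2 : ℝ) ^ X * F.gd q l i₀ z ω i₀⌋,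
    ⌊(2 : ℝ) ^ X * F.gd q l i₀ z ω (1 - i₀)⌋))

/-- `φ` is a function of the context and the exact time, and it is the slope at the exact point up
to `2 / 2 ^ L`. -/
def Slp (F : Fam 2 J) (i₀ : Fin 2) (A : F.Ω → Prop)
    (f : (Fin 2 → ℤ) × (ℕ × F.ζ) → Fin 2 → ℝ) (w q l L : ℕ) (z : F.Ω → Fin 2 → ℝ)
    (φ : F.Ω → ℝ) : Prop :=
  (∃ g : ((((ℕ × (Fin 2 → ℝ)) × ((Fin 2 → ℤ) × (Fin 2 → ℤ))) × F.ζ) × ℕ) → ℝ,
    ∀ ω, φ ω = g (F.qlb w q l i₀ z ω, F.T ω)) ∧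
  ∀ ω, A ω → |f (Fam.pt F ω) (1 - i₀) - φ ω| ≤ 2 / 2 ^ L

/-! ### (WS): rows of the base position are full in planks. -/

/-- **(WS)** (row WF, helper35). In a context `(w, q)` with `q` active the rows of the base
position are full. The number of levels does not depend on `η`. -/
def WSStmt : Prop :=
  ∀ a R : ℝ, 1 < a → 0 < R → UBa 2 a R → ∃ r : ℕ, ∀ h₁ η : ℝ, 0 < h₁ → 0 < η →
    ∃ γ : ℝ, 0 < γ ∧ γ ≤ 1 / 4 ∧ ∀ N : ℕ, 0 < N → ∀ (i₀ : Fin 2) (w q l : ℕ),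
    q + w + l ≤ N → (q : ℝ) + γ * N + 1 ≤ N →
    Cl (m := 2) a R r (fun J F A => Lb F i₀ ⌊h₁ * J⌋₊ A →
      ¬ Frz F i₀ (q * (J / N)) (q * (J / N) + ⌊γ * J⌋₊) A →
      ∀ (f n : (Fin 2 → ℤ) × (ℕ × F.ζ) → Fin 2 → ℝ) (z : F.Ω → Fin 2 → ℝ) (H : ℕ),
      (q + l) * (J / N) ≤ H → Frm F i₀ A H f n → Win F i₀ A f (w * (J / N)) (l * (J / N)) z →
      ∀ P : ℕ, (q + w) * (J / N) ≤ P → P ≤ J →
        ((P : ℝ) - ((q + w) * (J / N) : ℕ)) * Real.log 2 - η * J ≤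
          CH (Pool.Agent.H49.Ent.cond F.p A True) (fun ω => ⌊(2 : ℝ) ^ P * F.x ω i₀⌋)
            (fun ω => (F.qlb (w * (J / N)) (q * (J / N)) (l * (J / N)) i₀ z ω, F.T ω)))

/-- **(NFZ)** (helper35). The first digits of the base velocity are not frozen. -/
def NFZStmt : Prop :=
  ∀ a R : ℝ, 1 < a → 0 < R → UBa 2 a R → ∃ r : ℕ, ∀ h₁ γ : ℝ, 0 < h₁ → 0 < γ →
    ∀ i₀ : Fin 2, Cl (m := 2) a R r (fun J F A => Lb F i₀ ⌊h₁ * J⌋₊ A →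
      ¬ Frz F i₀ 0 ⌊γ * J⌋₊ A)

/-- **(ACT)** (helper44). The base velocity has linear entropy given the exact point. -/
def ACT1Stmt : Prop :=
  ∀ a R : ℝ, 1 < a → 0 < R → UBa 2 a R → ∃ cR : ℝ, 0 < cR ∧ ∀ x h₁ : ℝ, 0 < x → 0 < h₁ →
    Claim (m := 2) a R (fun J F A => ∀ i₀ : Fin 2, Lb F i₀ ⌊h₁ * J⌋₊ A →
      ∀ q : ℕ, q ≤ J → x * J ≤ (q : ℝ) → Ln F i₀ q A →
        cR * q ≤ CH (Pool.Agent.H49.Ent.cond F.p A True) (fun ω => ⌊(2 : ℝ) ^ q * F.d ω i₀⌋)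
          (Fam.pt F))

/-- **(FRZ)** (helper44). Frozen digits have no entropy. -/
def FRZStmt : Prop :=
  ∃ C : ℝ, ∀ (J : ℕ) (F : Fam 2 J) (i₀ : Fin 2) (A : F.Ω → Prop) (q q' : ℕ),
    IsLaw (Pool.Agent.H49.Ent.cond F.p A True) → Frz F i₀ q q' A →
    CH (Pool.Agent.H49.Ent.cond F.p A True) (fun ω => ⌊(2 : ℝ) ^ q' * F.d ω i₀⌋)
      (fun ω => (⌊(2 : ℝ) ^ q * F.d ω i₀⌋, Fam.pt F ω)) ≤ C

open Classical in
/-- **(ACTSEL)** (helper44, pure). Points from which the growth is linear at all scales. -/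
def ACTSELStmt : Prop :=
  ∀ (n : ℕ) (c : ℝ) (f : ℕ → ℝ), 0 < c → (∀ q < n, 0 ≤ f (q + 1) - f q ∧ f (q + 1) - f q ≤ 1) →
    c * n ≤ f n - f 0 →
    c / 2 * n ≤ (((Finset.range n).filter fun q => ∀ s, q + s ≤ n →
      c / 2 * s ≤ f (q + s) - f q).card : ℝ)

/-- The positions on the mesh and the velocities on the mesh given the exact point are regular. -/
def RowsReg (N : ℕ) (η : ℝ) {J : ℕ} (F : Fam 2 J) (A : F.Ω → Prop) : Prop :=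
  ∀ s ≤ N, ∃ h, Rg (Pool.Agent.H49.Ent.cond F.p A True) (fun ω => (F.X (s * (J / N)) ω, F.W ω))
    h (η * J)

/-! ### Lemmas for one law -/

/-- **(FLAT)** (helper64). The slope at the exact point is almost a function of the context and
the exact time: `v` is a window whose rows are full, the slope is visible from the position at the
resolution `P` of the context. -/
def FLTStmt : Prop :=
  ∃ C : ℝ, ∀ (J : ℕ) (F : Fam 2 J) (i₀ : Fin 2) (A : F.Ω → Prop)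
    (f n : (Fin 2 → ℤ) × (ℕ × F.ζ) → Fin 2 → ℝ) (w q l v l' H L : ℕ)
    (z z' : F.Ω → Fin 2 → ℝ) (e : (Fin 2 → ℤ) × (ℕ × F.ζ) → ℝ) (η : ℝ),
    IsLaw (Pool.Agent.H49.Ent.cond F.p A True) → Frm F i₀ A H f n →
    Win F i₀ A f w l z → Win F i₀ A f v l' z' →
    w ≤ v → v ≤ q + w → q + w + l ≤ v + l' → q + w + l ≤ J → l ≤ L → L ≤ l' → l' ≤ H →
    (∀ ω, A ω → |f (Fam.pt F ω) (1 - i₀) - e (F.X (q + w + l) ω, F.W ω)| ≤ 2 / 2 ^ L) →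
    (((q + w + l : ℕ) : ℝ) - v) * Real.log 2 - η ≤
      CH (Pool.Agent.H49.Ent.cond F.p A True) (fun ω => ⌊(2 : ℝ) ^ (q + w + l) * F.x ω i₀⌋)
        (fun ω => (F.qlb v 0 l' i₀ z' ω, F.T ω)) →
    CH (Pool.Agent.H49.Ent.cond F.p A True) (fun ω => ⌊(2 : ℝ) ^ L * f (Fam.pt F ω) (1 - i₀)⌋)
      (fun ω => (F.qlb w q l i₀ z ω, F.T ω)) ≤ η + C

/-- **(H2)** (helper98). Fixed rows `(P, P + X]`, the windows `w j` decrease. -/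
def H2Stmt : Prop :=
  ∃ C : ℝ, ∀ (J : ℕ) (F : Fam 2 J) (i₀ : Fin 2) (A : F.Ω → Prop)
    (f n : (Fin 2 → ℤ) × (ℕ × F.ζ) → Fin 2 → ℝ) (N P X H : ℕ) (w q l L : ℕ → ℕ)
    (z : ℕ → F.Ω → Fin 2 → ℝ) (φ : ℕ → F.Ω → ℝ),
    IsLaw (Pool.Agent.H49.Ent.cond F.p A True) → Frm F i₀ A H f n →
    (∀ j ≤ N, Win F i₀ A f (w j) (l j) (z j) ∧ Slp F i₀ A f (w j) (q j) (l j) (L j) (z j) (φ j) ∧
      q j + w j + l j = P ∧ l j + X ≤ L j ∧ q j + l j ≤ H) →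
    (∀ j < N, w (j + 1) + X ≤ w j ∧ l (j + 1) + X ≤ l j ∧ l j + X ≤ L (j + 1)) →
    P ≤ J →
    ∑ j ∈ Finset.range N,
      (CH (Pool.Agent.H49.Ent.cond F.p A True)
          (fun ω => ⌊(2 : ℝ) ^ X * nuv F i₀ (w j) (q j) (l j) (z j) (φ j) ω⌋)
          (fun ω => (F.qlb (w j) (q j) (l j) i₀ (z j) ω, F.T ω)) -
        CH (Pool.Agent.H49.Ent.cond F.p A True)
          (fun ω => ⌊(2 : ℝ) ^ X * nuv F i₀ (w j) (q j) (l j) (z j) (φ j) ω⌋)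
          (fun ω => (Vx F i₀ (w j) (q j) (l j) X (z j) ω,
            (F.qlb (w j) (q j) (l j) i₀ (z j) ω, F.T ω)))) ≤
      X * Real.log 2 + C * (N + 1)

/-- **(H3')** (helper8). Fixed velocity block `(q, q + X]`, the windows `w j` increase. -/
def H3Stmt : Prop :=
  ∃ C : ℝ, ∀ (J : ℕ) (F : Fam 2 J) (i₀ : Fin 2) (A : F.Ω → Prop)
    (f n : (Fin 2 → ℤ) × (ℕ × F.ζ) → Fin 2 → ℝ) (N q X H : ℕ) (w l : ℕ → ℕ)
    (z : ℕ → F.Ω → Fin 2 → ℝ),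
    IsLaw (Pool.Agent.H49.Ent.cond F.p A True) → Frm F i₀ A H f n →
    (∀ j ≤ N, Win F i₀ A f (w j) (l j) (z j) ∧ q + w j + l j ≤ J ∧ q + l j ≤ H) →
    (∀ j < N, w j + X ≤ w (j + 1) ∧ l j ≤ l (j + 1)) →
    ∑ j ∈ Finset.range N,
      (CH (Pool.Agent.H49.Ent.cond F.p A True)
          (fun ω => ⌊(2 : ℝ) ^ X * F.gd q (l j) i₀ (z j) ω i₀⌋)
          (fun ω => (F.qlb (w j) q (l j) i₀ (z j) ω, F.T ω)) -
        CH (Pool.Agent.H49.Ent.cond F.p A True)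
          (fun ω => ⌊(2 : ℝ) ^ X * F.gd q (l j) i₀ (z j) ω i₀⌋)
          (fun ω => (⌊(2 : ℝ) ^ X * yv F i₀ (w j) q (l j) (z j) ω⌋,
            (F.qlb (w j) q (l j) i₀ (z j) ω, F.T ω)))) ≤
      X * Real.log 2 + C * (N + 1)

/-- **(H3)** (helper8): from (WS) at the same `q` and (H3'). -/
def H3bStmt : Prop :=
  ∃ C : ℝ, ∀ (J : ℕ) (F : Fam 2 J) (i₀ : Fin 2) (A : F.Ω → Prop)
    (f : (Fin 2 → ℤ) × (ℕ × F.ζ) → Fin 2 → ℝ) (w q l X : ℕ) (z : F.Ω → Fin 2 → ℝ) (η ε : ℝ),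
    IsLaw (Pool.Agent.H49.Ent.cond F.p A True) → Win F i₀ A f w l z → q + w + X ≤ J →
    X * Real.log 2 - η ≤ CH (Pool.Agent.H49.Ent.cond F.p A True)
      (fun ω => ⌊(2 : ℝ) ^ (q + w + X) * F.x ω i₀⌋)
      (fun ω => (F.qlb w q l i₀ z ω, F.T ω)) →
    CH (Pool.Agent.H49.Ent.cond F.p A True) (fun ω => ⌊(2 : ℝ) ^ X * F.gd q l i₀ z ω i₀⌋)
        (fun ω => (F.qlb w q l i₀ z ω, F.T ω)) -
      CH (Pool.Agent.H49.Ent.cond F.p A True) (fun ω => ⌊(2 : ℝ) ^ X * F.gd q l i₀ z ω i₀⌋)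
        (fun ω => (⌊(2 : ℝ) ^ X * yv F i₀ w q l z ω⌋, (F.qlb w q l i₀ z ω, F.T ω))) ≤ ε →
    X * Real.log 2 - η - ε - C ≤ CH (Pool.Agent.H49.Ent.cond F.p A True)
      (fun ω => ⌊(2 : ℝ) ^ X * F.gu w (q + w) l i₀ z ω i₀⌋)
      (fun ω => (⌊(2 : ℝ) ^ X * F.gd q l i₀ z ω i₀⌋, F.qlb w q l i₀ z ω))

/-- **(H4)** (helper44). The base velocity inside the context, given the context. -/
def H4Stmt : Prop :=
  ∃ C : ℝ, ∀ (J : ℕ) (F : Fam 2 J) (i₀ : Fin 2) (A : F.Ω → Prop)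
    (f n : (Fin 2 → ℤ) × (ℕ × F.ζ) → Fin 2 → ℝ) (w q l X H : ℕ) (z : F.Ω → Fin 2 → ℝ),
    IsLaw (Pool.Agent.H49.Ent.cond F.p A True) → Frm F i₀ A H f n → Win F i₀ A f w l z →
    q + w + l ≤ J → q + l ≤ H →
    CH (Pool.Agent.H49.Ent.cond F.p A True) (fun ω => ⌊(2 : ℝ) ^ (q + X) * F.d ω i₀⌋)
      (fun ω => (⌊(2 : ℝ) ^ q * F.d ω i₀⌋, Fam.pt F ω)) ≤
    CH (Pool.Agent.H49.Ent.cond F.p A True) (fun ω => ⌊(2 : ℝ) ^ X * F.gd q l i₀ z ω i₀⌋)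
      (F.qlb w q l i₀ z) + C

/-- **(H5)** (helper70). The rows of the normal position in the context are not full. The window
`v` has full rows, `v ≤ q + w`. -/
def H5Stmt : Prop :=
  ∃ C : ℝ, ∀ (J : ℕ) (F : Fam 2 J) (i₀ : Fin 2) (A : F.Ω → Prop)
    (f n : (Fin 2 → ℤ) × (ℕ × F.ζ) → Fin 2 → ℝ) (w q l v l' H L r h : ℕ)
    (z z' : F.Ω → Fin 2 → ℝ) (φ : F.Ω → ℝ) (e : (Fin 2 → ℤ) × (ℕ × F.ζ) → ℝ) (c η : ℝ),
    IsLaw (Pool.Agent.H49.Ent.cond F.p A True) → Frm F i₀ A H f n →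
    Win F i₀ A f w l z → Win F i₀ A f v l' z' → Slp F i₀ A f w q l L z φ →
    w ≤ v → v ≤ q + w → q + w + l + r + h ≤ v + l' → q + w + l + r + h ≤ J →
    l + r + h ≤ L → L ≤ l' → l' ≤ H →
    (∀ ω, A ω → |f (Fam.pt F ω) (1 - i₀) - e (F.X (q + w + l + r) ω, F.W ω)| ≤ 2 / 2 ^ L) →
    (((q + w + l + r + h : ℕ) : ℝ) - v) * Real.log 2 - η ≤
      CH (Pool.Agent.H49.Ent.cond F.p A True)
        (fun ω => ⌊(2 : ℝ) ^ (q + w + l + r + h) * F.x ω i₀⌋)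
        (fun ω => (F.qlb v 0 l' i₀ z' ω, F.T ω)) →
    CH (Pool.Agent.H49.Ent.cond F.p A True) (F.X (q + w + l + r + h))
      (fun ω => (F.X (q + w + l + r) ω, F.W ω)) ≤ (2 - c) * (h * Real.log 2) →
    CH (Pool.Agent.H49.Ent.cond F.p A True)
        (fun ω => ⌊(2 : ℝ) ^ (r + h) * nuv F i₀ w q l z φ ω⌋)
        (fun ω => (⌊(2 : ℝ) ^ r * nuv F i₀ w q l z φ ω⌋, (F.qlb w q l i₀ z ω, F.T ω))) ≤
      (1 - c) * (h * Real.log 2) + η + C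

/-- **(H6)** (helper9). If on no large part of `A` the slopes are functions of the window up to
`ρ`, then two times of a line see different slopes. -/
def H6Stmt : Prop :=
  ∀ (J : ℕ) (F : Fam 2 J) (i₀ : Fin 2) (A : F.Ω → Prop)
    (f : (Fin 2 → ℤ) × (ℕ × F.ζ) → Fin 2 → ℝ) (w : ℕ) (ρ κ : ℝ),
    IsLaw (Pool.Agent.H49.Ent.cond F.p A True) → 0 ≤ κ →
    (∀ B : F.Ω → Prop, Sub B A → Real.exp (-κ) * Pe F.p A ≤ Pe F.p B →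
      ¬ ∃ ζ : (((Fin 2 → ℝ) × (Fin 2 → ℝ)) × F.ζ × ℕ) → ℝ, ∀ ω, B ω →
        |f (Fam.pt F ω) (1 - i₀) - ζ (slam F w ω)| ≤ ρ) →
    Pe (cpy (Pool.Agent.H49.Ent.cond F.p A True) (slam F w))
      (fun x => |f (Fam.pt F x.1) (1 - i₀) - f (Fam.pt F x.2) (1 - i₀)| ≤ ρ) ≤ Real.exp (-κ)

end Pool.K2S
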