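import Pool.Agent.H13.K2S.OcAsm
import Pool.Agent.H59.OC.Dic
import Pool.Agent.H98.OC.H23
import Pool.Agent.H70.OC.H5F
import Pool.Agent.H50.K2.Piece

/-!
# One good context contradicts theorem OC

`ctx_false`: the data of one context `(w, q)` satisfy the hypotheses of theorem OC.
`h5_event`: (H5) for events.
-/

set_option autoImplicit false

namespace Pool.K2S

open Finset Real
open Pool.Agent.H49.Ent Pool.Agent.H32.Dense Pool.STK Pool.KA Pool.KSAT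

variable {J : ℕ}

/-- The conclusion of (OCB) at fixed constants. -/
def OCC (c ca x₀ κ ϖ ι ε : ℝ) (X₀ : ℕ) : Prop :=
  ∀ (Ω β Λ Θ : Type) [Fintype Ω] (p : Ω → ℝ) (b : Ω → β) (L : Ω → Λ) (T : Ω → Θ)
    (y om be m0 th S nu : Ω → ℝ) (X : ℕ), OCData p b L T y om be m0 th S nu → X₀ ≤ X →
    Pool.KVA.MI p T L b ≤ ι * X →
    (1 - ι) * X * Real.log 2 ≤ CH p (Uni.dg X th) (fun ω => (L ω, b ω)) →
    CH p (Uni.dg X nu) (fun ω => (b ω, T ω)) -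
      CH p (Uni.dg X nu) (fun ω => ((Uni.dg X y ω, (Uni.dg X om ω, Uni.dg X be ω)),
        (b ω, T ω))) ≤ ι * X →
    (1 - ι) * X * Real.log 2 ≤ CH p (Uni.dg X y) (fun ω => (Uni.dg X om ω, b ω)) →
    ca * X * Real.log 2 ≤ CH p (Uni.dg X om) b →
    (∀ j : ℕ, (j + 1) * ⌊κ * X⌋₊ ≤ X → ∀ E : Ω → Prop, ϖ ≤ Pe p E →
      CH (Pool.Agent.H49.Ent.cond p E True) (Uni.dg ((j + 1) * ⌊κ * X⌋₊) nu)
        (fun ω => (Uni.dg (j * ⌊κ * X⌋₊) nu ω, (b ω, T ω))) ≤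
        (1 - c) * ⌊κ * X⌋₊ * Real.log 2) →
    Pool.KAF.Pr (dbl p (fun ω => (L ω, b ω))) {w | |S w.1 - S w.2| < (2 : ℝ) ^ (-(x₀ * X))} ≤ ε →
    False

theorem ctx_false (h3b : H3bStmt) {c ca x₀ κ ϖ ι ε : ℝ} {X₀ : ℕ}
    (hOC : OCC c ca x₀ κ ϖ ι ε X₀) : ∃ C : ℝ, 0 ≤ C ∧ ∀ (J : ℕ) (F : Fam 2 J) (i₀ : Fin 2)
    (A : F.Ω → Prop) (f : (Fin 2 → ℤ) × (ℕ × F.ζ) → Fin 2 → ℝ)
    (w q l L X : ℕ) (z : F.Ω → Fin 2 → ℝ) (φ : F.Ω → ℝ) (e η ε₃ : ℝ),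
    IsLaw (Pool.Agent.H49.Ent.cond F.p A True) → Win F i₀ A f w l z → Slp F i₀ A f w q l L z φ →
    l ≤ L → q + w + X ≤ J → X₀ ≤ X →
    (J : ℝ) * Real.log 2 - e ≤ CH (Pool.Agent.H49.Ent.cond F.p A True) F.T
      (fun ω => (F.l ω, F.Z ω)) →
    e ≤ ι * X → e ≤ ι * X * Real.log 2 →
    df2 F i₀ A X w q l z φ ≤ ι * X → df3 F i₀ A X w q l z ≤ ε₃ →
    X * Real.log 2 - η ≤ CH (Pool.Agent.H49.Ent.cond F.p A True)
      (fun ω => ⌊(2 : ℝ) ^ (q + w + X) * F.x ω i₀⌋)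
      (fun ω => (F.qlb w q l i₀ z ω, F.T ω)) →
    η + ε₃ + C ≤ ι * X * Real.log 2 →
    ca * X * Real.log 2 ≤ CH (Pool.Agent.H49.Ent.cond F.p A True)
      (fun ω => ⌊(2 : ℝ) ^ X * F.gd q l i₀ z ω i₀⌋) (F.qlb w q l i₀ z) →
    (∀ j : ℕ, (j + 1) * ⌊κ * X⌋₊ ≤ X → ∀ E : F.Ω → Prop,
      ϖ ≤ Pe (Pool.Agent.H49.Ent.cond F.p A True) E →
      CH (Pool.Agent.H49.Ent.cond (Pool.Agent.H49.Ent.cond F.p A True) E True)
        (fun ω => ⌊(2 : ℝ) ^ ((j + 1) * ⌊κ * X⌋₊) * nuv F i₀ w q l z φ ω⌋)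
        (fun ω => (⌊(2 : ℝ) ^ (j * ⌊κ * X⌋₊) * nuv F i₀ w q l z φ ω⌋,
          (F.qlb w q l i₀ z ω, F.T ω))) ≤
        (1 - c) * ⌊κ * X⌋₊ * Real.log 2) →
    Pool.KAF.Pr (dbl (Pool.Agent.H49.Ent.cond F.p A True)
        (fun ω => (F.l ω, F.qlb w q l i₀ z ω)))
      {x | |2 ^ l * (φ x.1 - z x.1 (1 - i₀)) - 2 ^ l * (φ x.2 - z x.2 (1 - i₀))| <
        (2 : ℝ) ^ (-(x₀ * X))} ≤ ε → False := by
  obtain ⟨C, h3b⟩ := h3b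
  refine ⟨|C|, abs_nonneg C, ?_⟩
  intro J F i₀ A f w q l L X z φ e η ε₃ hQ hW hS hL hJ hX hT he he' h2 h3 hWS hη h4 h5 h6
  have hD := ocdata_fam F i₀ A f w q l L z φ hQ (by omega) hW hS hL
  have hz := hW.fn
  have m1 := H1.h1_mi F hQ w q l i₀ hz (by omega) hT
  have m2 := H1.h1_dig F hQ w q l i₀ hz hT (i := X) (by omega)
  have hch := CH_chain hQ.nonneg F.T F.l (F.qlb w q l i₀ z)
  have k3 := h3b J F i₀ A f w q l X z η ε₃ hQ hW (by omega) hWS h3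
  have hl2 : 0 < Real.log 2 := Real.log_pos (by norm_num)
  have hC := le_abs_self C
  refine hOC F.Ω _ _ _ _ _ _ _ _ _ _ _ _ _ _ X hD hX ?_ ?_ h2 ?_ h4 h5 h6
  · unfold Pool.KVA.MI
    rw [hch]
    linarith
  · have e1 : (1 - ι) * X * Real.log 2 = X * Real.log 2 - ι * X * Real.log 2 := by ring
    rw [e1]
    exact le_trans (by linarith) m2
  · have e1 : (1 - ι) * X * Real.log 2 = X * Real.log 2 - ι * X * Real.log 2 := by ring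
    rw [e1]
    exact le_trans (by linarith) k3

/-- (H5) for events. -/
theorem h5_event : ∃ C : ℝ, 0 ≤ C ∧ ∀ (J : ℕ) (F : Fam 2 J) (i₀ : Fin 2) (A E : F.Ω → Prop)
    (f n : (Fin 2 → ℤ) × (ℕ × F.ζ) → Fin 2 → ℝ) (w q l v l' H L r h : ℕ)
    (z z' : F.Ω → Fin 2 → ℝ) (φ : F.Ω → ℝ) (e : (Fin 2 → ℤ) × (ℕ × F.ζ) → ℝ) (c η : ℝ),
    0 < Pe F.p A → 0 < Pe F.p (fun ω => A ω ∧ E ω) → Frm F i₀ A H f n →
    Win F i₀ A f w l z → Win F i₀ A f v l' z' → Slp F i₀ A f w q l L z φ →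
    w ≤ v → v ≤ q + w → q + w + l + r + h ≤ v + l' → q + w + l + r + h ≤ J →
    l + r + h ≤ L → L ≤ l' → l' ≤ H →
    (∀ ω, A ω → |f (Fam.pt F ω) (1 - i₀) - e (F.X (q + w + l) ω, F.W ω)| ≤ 2 / 2 ^ L) →
    (((q + w + l + r + h : ℕ) : ℝ) - v) * Real.log 2 - η ≤
      CH (Pool.Agent.H49.Ent.cond F.p (fun ω => A ω ∧ E ω) True)
        (fun ω => ⌊(2 : ℝ) ^ (q + w + l + r + h) * F.x ω i₀⌋)
        (fun ω => (F.qlb v 0 l' i₀ z' ω, F.T ω)) →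
    CH (Pool.Agent.H49.Ent.cond F.p (fun ω => A ω ∧ E ω) True) (F.X (q + w + l + r + h))
      (fun ω => (F.X (q + w + l + r) ω, F.W ω)) ≤ (2 - c) * (h * Real.log 2) →
    CH (Pool.Agent.H49.Ent.cond (Pool.Agent.H49.Ent.cond F.p A True) E True)
        (fun ω => ⌊(2 : ℝ) ^ (r + h) * nuv F i₀ w q l z φ ω⌋)
        (fun ω => (⌊(2 : ℝ) ^ r * nuv F i₀ w q l z φ ω⌋, (F.qlb w q l i₀ z ω, F.T ω))) ≤
      (1 - c) * (h * Real.log 2) + η + C := by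
  obtain ⟨C, H5⟩ := Pool.OCT.h5_thm
  refine ⟨|C|, abs_nonneg C, ?_⟩
  intro J F i₀ A E f n w q l v l' H L r h z z' φ e c η hA hE hF hW hW' hS h1 h2 h3 h4 h5 h6 h7
    he hWS hrow
  have hsub : Sub (fun ω => A ω ∧ E ω) A := fun ω h => h.1
  have hF' : Frm F i₀ (fun ω => A ω ∧ E ω) H f n := ⟨hF.on.sub hsub, fun ω hω => hF.bd ω hω.1⟩
  have hW1 : Win F i₀ (fun ω => A ω ∧ E ω) f w l z :=
    ⟨hW.fn, hW.gr, hW.z0, fun ω hω => hW.cl ω hω.1⟩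
  have hW2 : Win F i₀ (fun ω => A ω ∧ E ω) f v l' z' :=
    ⟨hW'.fn, hW'.gr, hW'.z0, fun ω hω => hW'.cl ω hω.1⟩
  have hS' : Slp F i₀ (fun ω => A ω ∧ E ω) f w q l L z φ := ⟨hS.1, fun ω hω => hS.2 ω hω.1⟩
  rw [Piece.cond_inter hA.ne']
  have key := H5 J F i₀ (fun ω => A ω ∧ E ω) f n w q l v l' H L r h z z' φ
    (fun x => e (fun i => x.1 i / 2 ^ r, x.2)) c η (isLaw_cond F.isLaw hE) hF' hW1 hW2 hS'
    h1 h2 h3 h4 h5 h6 h7 ?_ hWS hrow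
  · have := le_abs_self C
    linarith
  · intro ω hω
    have e1 : (fun i => F.X (q + w + l + r) ω i / 2 ^ r) = F.X (q + w + l) ω := by
      funext i
      show ⌊(2 : ℝ) ^ (q + w + l + r) * F.x ω i⌋ / 2 ^ r = ⌊(2 : ℝ) ^ (q + w + l) * F.x ω i⌋
      have e2 : (2 : ℝ) ^ (q + w + l) * F.x ω i =
          (2 : ℝ) ^ (q + w + l + r) * F.x ω i / ((2 ^ r : ℕ) : ℝ) := by
        rw [pow_add _ _ r]
        push_cast
        field_simp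
      rw [e2, Int.floor_div_natCast]
      norm_num
    simp only [e1]
    exact he ω hω.1

end Pool.K2S
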