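import Pool.Agent.H13.K2S.Slo
import Pool.Agent.H97.K2.RTY
import Pool.Agent.H33.K2.REX
import Pool.Agent.H50.K2.Piece
import Pool.Agent.H5.K2.Exh
import Pool.Agent.H35.K2S.FFAll

/-!
# The engine for regular rows

(ENG) follows from (ENGR), the engine under the hypothesis that the rows of the mesh are regular,
and (ENGR) follows from (MNJ) and (MICR).
-/

set_option autoImplicit false

namespace Pool.K2S

open Finset Real
open Pool.Agent.H49.Ent Pool.Agent.H32.Dense Pool.STK Pool.KA Pool.KSAT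

variable {m : ℕ}

/-! ### Parts of constant proportion -/

/-- A claim holds for all parts of constant proportion. -/
theorem Cl.evp {a R ρ : ℝ} (hρ : 0 < ρ) (hρ1 : ρ ≤ 1) : ∀ {r : ℕ} {Φ : Stat m}, Cl a R r Φ →
    Cl a R r (fun _ F A => ∀ A' : F.Ω → Prop, Sub A' A → ρ * Pe F.p A ≤ Pe F.p A' → Φ _ F A')
  | 0, Φ, ⟨τ, hτ, J₁, hc⟩ => by
    obtain ⟨J₂, hJ₂⟩ := exists_nat_gt (-Real.log ρ / (τ / 2))
    refine ⟨τ / 2, half_pos hτ, max J₁ J₂, fun J hJ F A hA A' hA' hP => ?_⟩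
    refine hc J ((le_max_left _ _).trans hJ) F A' ?_
    have hJ2 : (J₂ : ℝ) ≤ J := by exact_mod_cast (le_max_right _ _).trans hJ
    have h1 : -Real.log ρ ≤ τ / 2 * J := by
      have := hJ₂.le.trans hJ2
      rw [div_le_iff₀ (by positivity)] at this
      linarith only [this]
    obtain ⟨b1, b2, b3, b4⟩ := hA
    have hb : Fam.Stt F a R (τ / 2) A := ⟨b1, b2, b3, b4⟩
    obtain ⟨c1, c2, c3, -⟩ := hb.mono (show τ / 2 ≤ τ by linarith only [hτ])
    refine ⟨c1, c2, c3, le_trans ?_ hP⟩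
    have h2 : Real.exp (-(τ / 2 * J)) ≤ ρ := by
      rw [← Real.le_log_iff_exp_le hρ]
      linarith only [h1]
    calc Real.exp (-(τ * J)) = Real.exp (-(τ / 2 * J)) * Real.exp (-(τ / 2 * J)) := by
          rw [← Real.exp_add]; congr 1; ring
      _ ≤ ρ * Pe F.p A := mul_le_mul h2 b4 (Real.exp_pos _).le hρ.le
  | r + 1, Φ, ⟨L, hc⟩ => by
    refine ⟨L, fun κ hκ => ?_⟩
    obtain ⟨J₂, hJ₂⟩ := exists_nat_gt (-Real.log ρ / (κ / 2))
    refine Cl.mono (J₂ := J₂) ?_ (Cl.evp hρ hρ1 (hc (κ / 2) (half_pos hκ)))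
    intro J hJ F A h1 h2 A' hA' hP
    refine h1 A' hA' hP fun i => ?_
    have hJ2 : (J₂ : ℝ) ≤ J := by exact_mod_cast hJ
    have h3 : -Real.log ρ ≤ κ / 2 * J := by
      have := hJ₂.le.trans hJ2
      rw [div_le_iff₀ (by positivity)] at this
      linarith only [this]
    have h4 := (h2 i).sub (a := κ / 2 * J) (L.her J F i) hA' (le_trans ?_ hP)
    · have : κ * (J : ℝ) - κ / 2 * J = κ / 2 * J := by ring
      rwa [this] at h4
    · refine mul_le_mul_of_nonneg_right ?_ (Pe_nonneg F.isLaw A)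
      rw [← Real.le_log_iff_exp_le hρ]
      linarith only [h3]

theorem Claim.evp {a R ρ : ℝ} (hρ : 0 < ρ) (hρ1 : ρ ≤ 1) {Φ : Stat m} (h : Claim a R Φ) :
    Claim a R (fun _ F A => ∀ A' : F.Ω → Prop, Sub A' A → ρ * Pe F.p A ≤ Pe F.p A' →
      Φ _ F A') := h.imp fun _ hr => hr.evp hρ hρ1

/-! ### Regular parts -/

/-- The rows are regular on the large classes of a partition into a constant number of parts. -/
theorem reg_part {a R : ℝ} (ha : 1 ≤ a) (hR : 0 < R) (N : ℕ) {η ζ : ℝ} (hη : 0 < η)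
    (hζ : 0 < ζ) : ∃ M : ℕ, ∃ τ > 0, ∃ J₁ : ℕ, ∀ J ≥ J₁, ∀ (F : Fam 2 J) (A : F.Ω → Prop),
    Fam.Stt F a R τ A → ∃ (cl : F.Ω → Fin M) (bad : Fin M),
      law (Pool.Agent.H49.Ent.cond F.p A True) cl bad ≤ ζ ∧
      ∀ k ≠ bad, ζ / M ≤ law (Pool.Agent.H49.Ent.cond F.p A True) cl k →
        RowsReg N η F (fun ω => A ω ∧ cl ω = k) := by
  classical
  have hl2 : 0 < Real.log 2 := Real.log_pos (by norm_num)
  obtain ⟨B, hB⟩ : ∃ B : ℝ, B = 9 * Real.log 2 := ⟨_, rfl⟩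
  have hB0 : 0 < B := by rw [hB]; positivity
  obtain ⟨M, hM⟩ := rty_thm (N + 1) B (η / 2) ζ hB0 (half_pos hη) hζ
  obtain ⟨J₂, hJ₂⟩ := exists_nat_gt (-Real.log (ζ / M) / (η / 2))
  obtain ⟨τ, hτ⟩ : ∃ τ : ℝ, τ = R / ((1 + a) * 6) := ⟨_, rfl⟩
  have hτ0 : 0 < τ := by rw [hτ]; positivity
  refine ⟨M, τ, hτ0, max 1 J₂, fun J hJ F A hS => ?_⟩
  have hJ1 : 1 ≤ J := (le_max_left _ _).trans hJ
  have hJ2 : (J₂ : ℝ) ≤ J := by exact_mod_cast (le_max_right _ _).trans hJ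
  have hJr : (1 : ℝ) ≤ J := by exact_mod_cast hJ1
  obtain ⟨hq, hTr, hMx, -⟩ := hS.res ha hτ0.le
  have hMx' : (F.res A True hq).Mx a R R := by
    have : (1 + a) * (6 * τ) = R := by
      rw [hτ]; field_simp
    rwa [this] at hMx
  have hD : CH (Pool.Agent.H49.Ent.cond F.p A True) (F.D J) F.Z ≤ 2 * (((J : ℝ) + 3) *
      Real.log 2) := by
    have := aex_dir (F.res A True hq)
    exact_mod_cast this
  have hX : CH (Pool.Agent.H49.Ent.cond F.p A True) (F.X J) F.W ≤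
      CH (Pool.Agent.H49.Ent.cond F.p A True) (F.D J) F.Z := REX.CH_X ha le_rfl hMx'
  have hH : ∀ i : Fin (N + 1), H (Pool.Agent.H49.Ent.cond F.p A True)
      (fun ω => (F.X ((i : ℕ) * (J / N)) ω, F.W ω)) ≤ B * J := by
    intro i
    have hle : (i : ℕ) * (J / N) ≤ J := (Nat.mul_le_mul_right _ (by omega)).trans
      (Nat.mul_div_le J N)
    have h1 : H (Pool.Agent.H49.Ent.cond F.p A True)
        (fun ω => (F.X ((i : ℕ) * (J / N)) ω, F.W ω)) ≤
        H (Pool.Agent.H49.Ent.cond F.p A True) (fun ω => ((F.X J ω, F.T ω), F.Z ω)) := by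
      refine H_mono hq.nonneg fun ω ω' _ _ e => ?_
      obtain ⟨e1, e2⟩ := Prod.ext_iff.1 e
      obtain ⟨e3, e4⟩ := Prod.ext_iff.1 e1
      exact Prod.ext (Pool.STK.B58.fl_fine hle e3) (Prod.ext e4 e2)
    have h2 : H (Pool.Agent.H49.Ent.cond F.p A True) F.Z = 0 := REX.H_Z hTr
    have h3 : CH (Pool.Agent.H49.Ent.cond F.p A True) (fun ω => (F.X J ω, F.T ω)) F.Z =
        H (Pool.Agent.H49.Ent.cond F.p A True) (fun ω => ((F.X J ω, F.T ω), F.Z ω)) -
          H (Pool.Agent.H49.Ent.cond F.p A True) F.Z := rfl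
    have h4 : CH (Pool.Agent.H49.Ent.cond F.p A True) (fun ω => (F.X J ω, F.T ω)) F.Z ≤
        CH (Pool.Agent.H49.Ent.cond F.p A True) (F.X J) F.W + J * Real.log 2 :=
      REX.pair_le (F.res A True hq) (F.X J)
    rw [hB]
    nlinarith only [hD, hX, h1, h2, h3, h4, hl2, hJr]
  exact by
   obtain ⟨cl, bad, hbad, hreg⟩ := hM J hJ1 F.Ω
     (fun _ => (Fin 2 → ℤ) × (ℕ × F.ζ)) _ hq
     (fun i ω => (F.X ((i : ℕ) * (J / N)) ω, F.W ω)) hH
   refine ⟨cl, bad, hbad, fun k hk hlaw s hs => ?_⟩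
   have hM0 : 0 < M := Fin.pos bad
   have hM0r : (0 : ℝ) < M := by exact_mod_cast hM0
   have h1 : Real.exp (-(η / 2 * J)) ≤ law (Pool.Agent.H49.Ent.cond F.p A True) cl k := by
     refine le_trans ?_ hlaw
     rw [← Real.le_log_iff_exp_le (by positivity)]
     have := hJ₂.le.trans hJ2
     rw [div_le_iff₀ (by positivity)] at this
     linarith only [this]
   obtain ⟨h, hh⟩ := hreg k hk h1 ⟨s, by omega⟩
   have hA0 : Pe F.p A ≠ 0 := (lt_of_lt_of_le (Real.exp_pos _) hS.2.2.2).ne'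
   refine ⟨h, ?_⟩
   rw [← Piece.cond_inter (A := A) (B := fun ω => cl ω = k) hA0, Piece.cond_val]
   have e1 : 2 * (η / 2) * J = η * J := by ring
   rw [e1] at hh
   exact hh

/-! ### From (ENGR) to (ENG) -/

/-- **(ENGR)** (ENG) for regular rows. -/
def ENGRStmt : Prop :=
  ∀ a R : ℝ, 1 < a → 0 < R → UBa 2 a R → ∀ c e μ h₁ ω₀ : ℝ, 0 < c → 0 < e → 0 < μ → 0 < h₁ →
    0 < ω₀ → ∃ N₁ : ℕ, ∀ N ≥ N₁, ∃ η : ℝ, 0 < η ∧ ∀ (i₀ : Fin 2) (p₁ p₂ j : ℕ), p₁ ≤ p₂ →
    p₂ ≤ N → e * N ≤ (p₂ : ℝ) - p₁ → j ≤ p₁ → 1 ≤ j → ω₀ * N ≤ (p₁ : ℝ) - j →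
    Claim (m := 2) a R (fun J F A => RowsReg N η F A →
      Zn F c (p₁ * (J / N)) (p₂ * (J / N)) A →
      Lb F i₀ ⌊h₁ * J⌋₊ A →
      (∀ h : ℕ, (h : ℝ) ≤ ((p₂ : ℝ) - p₁ + j) * (J / N : ℕ) + μ * J → Ln F i₀ h A) →
      (∀ i < j, Cn F i₀ (i * (J / N)) ((p₁ - i) * (J / N)) A) →
      Cn F i₀ (j * (J / N)) ((p₁ - j) * (J / N)) A)

theorem Lb.hered {J : ℕ} (F : Fam m J) (i₀ : Fin m) (h : ℕ) : Hered (Lb F i₀ h) :=
  fun _ _ hB ⟨e, n, h1, h2⟩ => ⟨e, n, fun ω hω => h1 ω (hB ω hω), fun ω hω => h2 ω (hB ω hω)⟩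

/-- A weighted average which is small has a small term of large weight. -/
theorem exists_small_term {M : ℕ} {w x : Fin M → ℝ} {bad : Fin M} {c ζ L : ℝ}
    (hw : ∀ k, 0 ≤ w k) (hx : ∀ k, 0 ≤ x k) (hsum : ∑ k, w k = 1) (hc : 0 < c) (hc1 : c ≤ 1)
    (hζ : ζ = c / 16) (hL : 0 < L) (hbad : w bad ≤ ζ)
    (h : ∑ k, w k * x k ≤ (2 - c) * L) :
    ∃ k, k ≠ bad ∧ ζ / M ≤ w k ∧ x k ≤ (2 - c / 2) * L := by
  classical
  by_contra hcon
  push Not at hcon
  have hM0 : 0 < M := Fin.pos bad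
  have hM0r : (0 : ℝ) < M := by exact_mod_cast hM0
  have hζ0 : 0 < ζ := by rw [hζ]; positivity
  have h1 : ∀ k, w k * ((2 - c / 2) * L) - (if k = bad then ζ else 0) * ((2 - c / 2) * L) -
      ζ / M * ((2 - c / 2) * L) ≤ w k * x k := by
    intro k
    have hLL : 0 < (2 - c / 2) * L := mul_pos (by linarith only [hc1]) hL
    have hwx : 0 ≤ w k * x k := mul_nonneg (hw k) (hx k)
    have hq : 0 < ζ / M := by positivity
    by_cases hk : k = bad
    · rw [if_pos hk]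
      have e1 : w k * ((2 - c / 2) * L) ≤ ζ * ((2 - c / 2) * L) := by
        refine mul_le_mul_of_nonneg_right ?_ hLL.le
        rw [hk]; exact hbad
      have e2 : 0 ≤ ζ / M * ((2 - c / 2) * L) := by positivity
      linarith only [hwx, e1, e2]
    · rw [if_neg hk]
      rcases lt_or_ge (w k) (ζ / M) with h2 | h2
      · have e1 : w k * ((2 - c / 2) * L) ≤ ζ / M * ((2 - c / 2) * L) :=
          mul_le_mul_of_nonneg_right h2.le hLL.le
        linarith only [hwx, e1]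
      · have e1 : w k * ((2 - c / 2) * L) ≤ w k * x k :=
          mul_le_mul_of_nonneg_left (hcon k hk h2).le (hw k)
        have e2 : 0 ≤ ζ / M * ((2 - c / 2) * L) := by positivity
        linarith only [e1, e2]
  have h2 := Finset.sum_le_sum fun k (_ : k ∈ (Finset.univ : Finset (Fin M))) => h1 k
  rw [Finset.sum_sub_distrib, Finset.sum_sub_distrib, ← Finset.sum_mul, ← Finset.sum_mul, hsum,
    Finset.sum_ite_eq' Finset.univ bad, if_pos (Finset.mem_univ _), Finset.sum_const,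
    Finset.card_univ, Fintype.card_fin, nsmul_eq_mul] at h2
  have h3 : (M : ℝ) * (ζ / M * ((2 - c / 2) * L)) = ζ * ((2 - c / 2) * L) := by
    field_simp
  rw [h3] at h2
  have h4 : (1 - 2 * ζ) * (2 - c / 2) ≤ 2 - c := by
    refine le_of_mul_le_mul_right ?_ hL
    linarith only [h, h2]
  rw [hζ] at h4
  nlinarith only [hc, h4]

theorem eng_of_engr (hE : ENGRStmt) : ENGStmt := by
  classical
  intro a R ha hR hU c₀ e μ h₁ ω₀ hc₀ he hμ hh₁ hω₀
  have hl2 : 0 < Real.log 2 := Real.log_pos (by norm_num)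
  obtain ⟨c, hc⟩ : ∃ c, c = min c₀ 1 := ⟨_, rfl⟩
  have hc0 : 0 < c := by rw [hc]; exact lt_min hc₀ one_pos
  have hcc : c ≤ c₀ := by rw [hc]; exact min_le_left _ _
  have hc1 : c ≤ 1 := by rw [hc]; exact min_le_right _ _
  obtain ⟨N₁, hE⟩ := hE a R ha hR hU (c / 2) e μ h₁ ω₀ (half_pos hc0) he hμ hh₁ hω₀
  refine ⟨max N₁ 1, fun N hN i₀ p₁ p₂ j hp12 hp2N hep hjp hj1 hωp => ?_⟩
  have hN1 : N₁ ≤ N := (le_max_left _ _).trans hN
  have hN0 : 0 < N := (le_max_right _ _).trans hN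
  have hN0r : (0 : ℝ) < N := by exact_mod_cast hN0
  obtain ⟨η, hη, hE⟩ := hE N hN1
  have hE := hE i₀ p₁ p₂ j hp12 hp2N hep hjp hj1 hωp
  obtain ⟨ζ, hζ⟩ : ∃ ζ, ζ = c / 16 := ⟨_, rfl⟩
  have hζ0 : 0 < ζ := by rw [hζ]; positivity
  obtain ⟨M, τ, hτ, J₁, hreg⟩ := reg_part (a := a) (R := R) ha.le hR N hη hζ0
  rcases Nat.eq_zero_or_pos M with hM | hM
  · refine Claim.of hτ J₁ fun J hJ F A hS => ?_
    obtain ⟨cl, bad, -⟩ := hreg J hJ F A hS
    rw [hM] at bad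
    exact bad.elim0
  have hMr : (0 : ℝ) < M := by exact_mod_cast hM
  have hMr1 : (1 : ℝ) ≤ M := by exact_mod_cast hM
  have hρ : 0 < ζ / M := by positivity
  have hρ1 : ζ / M ≤ 1 := by
    rw [div_le_one hMr, hζ]
    linarith only [hc1, hζ, hζ0, hMr1]
  have hR' : Claim (m := 2) a R (fun J F A => ∃ (cl : F.Ω → Fin M) (bad : Fin M),
      law (Pool.Agent.H49.Ent.cond F.p A True) cl bad ≤ ζ ∧
      ∀ k ≠ bad, ζ / M ≤ law (Pool.Agent.H49.Ent.cond F.p A True) cl k →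
        RowsReg N η F (fun ω => A ω ∧ cl ω = k)) :=
    Claim.of hτ J₁ fun J hJ F A hS => hreg J hJ F A hS
  exact by
   have hL : Claim (m := 2) a R (fun J F A => IsLaw (Pool.Agent.H49.Ent.cond F.p A True) ∧
       0 < Pe F.p A) := by
     refine Claim.of one_pos 0 fun J _ F A hS => ?_
     obtain ⟨h, -⟩ := hS.res ha.le zero_le_one
     exact ⟨h, lt_of_lt_of_le (Real.exp_pos _) hS.2.2.2⟩
   -- stability of the conclusion
   have hC : Claim (m := 2) a R (fun J F A => ∀ A' : F.Ω → Prop, Sub A' A →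
       ζ / M * Pe F.p A ≤ Pe F.p A' → Cn F i₀ (j * (J / N)) ((p₁ - j) * (J / N)) A' →
       Cn F i₀ (j * (J / N)) ((p₁ - j) * (J / N)) A) := by
     obtain ⟨J₂, hJ₂⟩ := exists_nat_gt (-Real.log (ζ / M) / 1)
     refine ⟨1, ⟨1, fun J F _ => Cn F i₀ (j * (J / N)) ((p₁ - j) * (J / N)),
       fun J F _ => RotU.hered _ _ _ _ _ _⟩, fun κ hκ => ?_⟩
     obtain ⟨J₂, hJ₂⟩ := exists_nat_gt (-Real.log (ζ / M) / κ)
     refine ⟨1, one_pos, J₂, fun J hJ F A _ hSb A' hA' hP hCn => ?_⟩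
     refine (hSb 0).of_sub hA' (le_trans ?_ hP) hCn
     refine mul_le_mul_of_nonneg_right ?_ (Pe_nonneg F.isLaw A)
     rw [← Real.le_log_iff_exp_le hρ]
     have hJr : (J₂ : ℝ) ≤ J := by exact_mod_cast hJ
     have := hJ₂.le.trans hJr
     rw [div_le_iff₀ hκ] at this
     linarith only [this]
   refine Claim.mono N ?_ (((hE.evp hρ hρ1).and hR').and (hL.and hC))
   rintro J hJ F A ⟨⟨hE, cl, bad, hbad, hreg⟩, ⟨hq, hA0⟩, hC⟩ hZn hLb hLn hhist
   obtain ⟨u, hu⟩ : ∃ u, u = J / N := ⟨_, rfl⟩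
   have hu0 : 0 < u := by rw [hu]; exact Nat.div_pos hJ hN0
   have hur : (0 : ℝ) < u := by exact_mod_cast hu0
   have hpp : (0 : ℝ) < (p₂ : ℝ) - p₁ := lt_of_lt_of_le (by positivity) hep
   rw [← hu] at hE hZn hLn hhist hC ⊢
   have hLL : 0 < ((p₂ * u : ℕ) : ℝ) - (p₁ * u : ℕ) := by
     push_cast
     have := mul_pos hpp hur
     linarith only [this]
   -- the part
   exact by
    have hsum := Pool.KSAT.RES2.CH_sum hq.nonneg (F.X (p₂ * u))
      (fun ω => (F.X (p₁ * u) ω, F.W ω)) cl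
    have hmono : CH (Pool.Agent.H49.Ent.cond F.p A True) (F.X (p₂ * u))
        (fun ω => (cl ω, (F.X (p₁ * u) ω, F.W ω))) ≤
        CH (Pool.Agent.H49.Ent.cond F.p A True) (F.X (p₂ * u))
          (fun ω => (F.X (p₁ * u) ω, F.W ω)) :=
      CH_mono_cond hq.nonneg fun ω ω' _ _ e => (Prod.ext_iff.mp e).2
    have hsum' : ∑ k : Fin M, law (Pool.Agent.H49.Ent.cond F.p A True) cl k *
        CH (Pool.Agent.H49.Ent.cond (Pool.Agent.H49.Ent.cond F.p A True) cl k) (F.X (p₂ * u))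
          (fun ω => (F.X (p₁ * u) ω, F.W ω)) ≤
        (2 - c) * ((((p₂ * u : ℕ) : ℝ) - (p₁ * u : ℕ)) * Real.log 2) := by
      have h3 : ∑ k ∈ univ.image cl, law (Pool.Agent.H49.Ent.cond F.p A True) cl k *
          CH (Pool.Agent.H49.Ent.cond (Pool.Agent.H49.Ent.cond F.p A True) cl k) (F.X (p₂ * u))
            (fun ω => (F.X (p₁ * u) ω, F.W ω)) =
          ∑ k : Fin M, law (Pool.Agent.H49.Ent.cond F.p A True) cl k *
          CH (Pool.Agent.H49.Ent.cond (Pool.Agent.H49.Ent.cond F.p A True) cl k) (F.X (p₂ * u))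
            (fun ω => (F.X (p₁ * u) ω, F.W ω)) := by
        refine Finset.sum_subset (Finset.subset_univ _) fun k _ hk => ?_
        rw [law_eq_zero_of_notMem _ cl hk, zero_mul]
      rw [← h3, ← hsum]
      refine hmono.trans (hZn.trans ?_)
      refine mul_le_mul_of_nonneg_right (by linarith only [hcc]) (by positivity)
    have hone : ∑ k : Fin M, law (Pool.Agent.H49.Ent.cond F.p A True) cl k = 1 := by
      rw [← hq.sum_one, ← sum_law (Pool.Agent.H49.Ent.cond F.p A True) cl]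
      refine (Finset.sum_subset (Finset.subset_univ _) fun k _ hk => ?_).symm
      exact law_eq_zero_of_notMem _ cl hk
    obtain ⟨k, hk1, hk2, hk3⟩ := exists_small_term
      (w := fun k => law (Pool.Agent.H49.Ent.cond F.p A True) cl k)
      (x := fun k => CH (Pool.Agent.H49.Ent.cond (Pool.Agent.H49.Ent.cond F.p A True) cl k)
        (F.X (p₂ * u)) (fun ω => (F.X (p₁ * u) ω, F.W ω)))
      (bad := bad) (c := c) (ζ := ζ) (fun k => law_nonneg hq.nonneg cl k)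
      (fun k => CH_nonneg (cond_nonneg hq.nonneg cl k) _ _) hone hc0 hc1 hζ
      (mul_pos hLL hl2) hbad hsum'
    exact by
     have hsub : Sub (fun ω => A ω ∧ cl ω = k) A := fun ω h => h.1
     have hPe : ζ / M * Pe F.p A ≤ Pe F.p (fun ω => A ω ∧ cl ω = k) := by
       have h1 : Pe (Pool.Agent.H49.Ent.cond F.p A True) (fun ω => cl ω = k) =
           Pe F.p (fun ω => A ω ∧ cl ω = k) / Pe F.p A := Pe_cond _
       rw [Piece.law_val] at h1
       have h2 : ζ / M ≤ Pe F.p (fun ω => A ω ∧ cl ω = k) / Pe F.p A := by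
         rw [← h1]; exact hk2
       rwa [le_div_iff₀ hA0] at h2
     refine hC _ hsub hPe (hE _ hsub hPe (hreg k hk1 hk2) ?_ (Lb.hered F i₀ _ _ _ hsub hLb)
       (fun h hh => LineU.hered _ _ _ _ _ _ hsub (hLn h hh))
       (fun i hi => RotU.hered _ _ _ _ _ _ _ _ hsub (hhist i hi)))
     show CH (Pool.Agent.H49.Ent.cond F.p (fun ω => A ω ∧ cl ω = k) True) (F.X (p₂ * u))
       (fun ω => (F.X (p₁ * u) ω, F.W ω)) ≤ _
     rw [← Piece.cond_inter (A := A) (B := fun ω => cl ω = k) hA0.ne', Piece.cond_val]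
     exact hk3

/-! ### From (MNJ) and (MICR) to (ENGR) -/

theorem engr_thm (hMNJ : MNJStmt) (hMIC : MICRStmt) : ENGRStmt := by
  classical
  intro a R ha hR hU c₀ e μ h₁ ω₀ hc₀ he hμ hh₁ hω₀
  have hl2 : 0 < Real.log 2 := Real.log_pos (by norm_num)
  obtain ⟨c, hc⟩ : ∃ c, c = min c₀ 1 := ⟨_, rfl⟩
  have hc0 : 0 < c := by rw [hc]; exact lt_min hc₀ one_pos
  have hcc : c ≤ c₀ := by rw [hc]; exact min_le_left _ _
  have hc1 : c ≤ 1 := by rw [hc]; exact min_le_right _ _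
  obtain ⟨ω₁, hω₁⟩ : ∃ ω₁, ω₁ = min ω₀ (c * e / 16) := ⟨_, rfl⟩
  have hω₁0 : 0 < ω₁ := by rw [hω₁]; exact lt_min hω₀ (by positivity)
  have hω₁ω : ω₁ ≤ ω₀ := by rw [hω₁]; exact min_le_left _ _
  have hω₁c : ω₁ ≤ c * e / 16 := by rw [hω₁]; exact min_le_right _ _
  have hmnj := hMNJ a R ha hR hU
  obtain ⟨θ₀, hθ₀, hmic⟩ := hMIC a R ha hR hU (c / 4) μ h₁ ω₁ (by linarith only [hc0]) hμ hh₁ hω₁0
  obtain ⟨θ, hθe⟩ : ∃ θ, θ = min θ₀ 1 := ⟨_, rfl⟩
  have hθ : 0 < θ := by rw [hθe]; exact lt_min hθ₀ one_pos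
  have hθθ : θ ≤ θ₀ := by rw [hθe]; exact min_le_left _ _
  have hθ1 : θ ≤ 1 := by rw [hθe]; exact min_le_right _ _
  obtain ⟨ρ, hρ, hρ1, htwo⟩ := two_scale (c / 2) (θ / 2) (by linarith only [hc0]) (by linarith only [hθ])
  obtain ⟨e', he'⟩ : ∃ e', e' = ρ * (e / 2) := ⟨_, rfl⟩
  have he'0 : 0 < e' := by rw [he']; positivity
  obtain ⟨N₁, hmic⟩ := hmic e' he'0
  obtain ⟨η, hη⟩ : ∃ η, η = c * θ * e' / 32 := ⟨_, rfl⟩
  have hη0 : 0 < η := by rw [hη]; positivity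
  obtain ⟨N₂, hmnj⟩ := hmnj η μ h₁ ω₁ hη0 hμ hh₁ hω₁0
  obtain ⟨N₃, hN₃⟩ := exists_nat_gt (32 / (c * e) + 2 / (θ * e') + 1)
  refine ⟨max N₁ (max N₂ N₃), fun N hN => ?_⟩
  have hN1 : N₁ ≤ N := (le_max_left _ _).trans hN
  have hN2 : N₂ ≤ N := (le_max_left _ _).trans ((le_max_right _ _).trans hN)
  have hN3 : N₃ ≤ N := (le_max_right _ _).trans ((le_max_right _ _).trans hN)
  have hNr : 32 / (c * e) + 2 / (θ * e') + 1 < N :=
    hN₃.trans_le (by exact_mod_cast hN3)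
  exact by
   have q2 : 0 < 32 / (c * e) := by positivity
   have q3 : 0 < 2 / (θ * e') := by positivity
   have hNpos : (0 : ℝ) < N := by linarith only [hNr, q2, q3]
   have hN0 : 0 < N := by exact_mod_cast hNpos
   have r2 : 32 ≤ c * e * N := by
     have : 32 / (c * e) ≤ N := by linarith only [hNr, q3]
     rw [div_le_iff₀ (by positivity)] at this
     linarith only [this]
   have r3 : 2 ≤ θ * e' * N := by
     have : 2 / (θ * e') ≤ N := by linarith only [hNr, q2]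
     rw [div_le_iff₀ (by positivity)] at this
     linarith only [this]
   obtain ⟨ηR, hηR, hmic⟩ := hmic N hN1
   refine ⟨ηR, hηR, fun i₀ p₁ p₂ j hp12 hp2N hep hjp hj1 hωp => ?_⟩
   -- the zone without its top
   obtain ⟨k, hk⟩ : ∃ k, k = ⌊c / 8 * ((p₂ : ℝ) - p₁)⌋₊ := ⟨_, rfl⟩
   have hp12r : 0 < (p₂ : ℝ) - p₁ := lt_of_lt_of_le (by positivity) hep
   have hk1 : (k : ℝ) ≤ c / 8 * ((p₂ : ℝ) - p₁) := by
     rw [hk]; exact Nat.floor_le (by positivity)
   have hk2 : c / 8 * ((p₂ : ℝ) - p₁) < k + 1 := by rw [hk]; exact Nat.lt_floor_add_one _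
   have hk3 : k ≤ p₂ := by
     have h1 : (k : ℝ) ≤ p₂ := by
       have : c / 8 * ((p₂ : ℝ) - p₁) ≤ 1 * ((p₂ : ℝ) - p₁) :=
         mul_le_mul_of_nonneg_right (by linarith only [hc1]) hp12r.le
       have : (0 : ℝ) ≤ p₁ := Nat.cast_nonneg _
       linarith
     exact_mod_cast h1
   obtain ⟨p₃, hp₃⟩ : ∃ p₃, p₃ = p₂ - k := ⟨_, rfl⟩
   have hp₃r : (p₃ : ℝ) = p₂ - k := by rw [hp₃, Nat.cast_sub hk3]
   have hp13 : ((p₂ : ℝ) - p₁) / 2 ≤ (p₃ : ℝ) - p₁ := by
     rw [hp₃r]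
     have : c / 8 * ((p₂ : ℝ) - p₁) ≤ 1 / 8 * ((p₂ : ℝ) - p₁) :=
       mul_le_mul_of_nonneg_right (by linarith only [hc1]) hp12r.le
     linarith only [hp12r, hk1, this]
   exact by
    have hp13' : p₁ < p₃ := by
      have : (p₁ : ℝ) < p₃ := by linarith only [hp12r, hp13]
      exact_mod_cast this
    have hp32 : p₃ ≤ p₂ := by rw [hp₃]; exact Nat.sub_le _ _
    have hω₁p : ∀ t : ℕ, t ≤ p₃ → ω₁ * N ≤ (N : ℝ) - t := by
      intro t ht
      have h1 : (t : ℝ) ≤ p₃ := by exact_mod_cast ht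
      have h2 : (p₂ : ℝ) ≤ N := by exact_mod_cast hp2N
      have h3 : c / 8 * (e * N) ≤ c / 8 * ((p₂ : ℝ) - p₁) :=
        mul_le_mul_of_nonneg_left hep (by positivity)
      have h4 : ω₁ * N ≤ c * e / 16 * N := mul_le_mul_of_nonneg_right hω₁c hNpos.le
      nlinarith only [r2, hk2, hp₃r, h1, h2, h3, h4]
    have hωp' : ω₁ * N ≤ (p₁ : ℝ) - j := by
      refine le_trans (mul_le_mul_of_nonneg_right hω₁ω hNpos.le) hωp
    -- the claims
    have hA : Claim (m := 2) a R (fun J F A => ∀ x : Fin (N + 1) × Fin (N + 1) × Fin (N + 1),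
        ((x.1 : ℕ) ≤ x.2.1 ∧ (x.2.1 : ℕ) ≤ x.2.2 ∧ (x.1 : ℕ) + 1 ≤ x.2.2 ∧
          ω₁ * N ≤ ((x.1 : ℕ) : ℝ) ∧ ω₁ * N ≤ (N : ℝ) - ((x.2.2 : ℕ) : ℝ)) →
        Lb F i₀ ⌊h₁ * J⌋₊ A →
        (∀ h : ℕ, (h : ℝ) ≤ (((x.2.2 : ℕ) : ℝ) - ((x.1 : ℕ) : ℝ)) * (J / N : ℕ) + μ * J →
          Ln F i₀ h A) →
        Cn F i₀ (((x.2.2 : ℕ) - ((x.1 : ℕ) + 1)) * (J / N)) (((x.1 : ℕ) + 1) * (J / N)) A →
        ¬ Cn F i₀ (((x.2.1 : ℕ) - (x.1 : ℕ)) * (J / N)) ((x.1 : ℕ) * (J / N)) A →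
        (2 * (((x.2.2 : ℕ) : ℝ) - ((x.2.1 : ℕ) : ℝ)) - η * N) *
            ((J / N : ℕ) * Real.log 2) ≤
          CH (Pool.Agent.H49.Ent.cond F.p A True) (F.X ((x.2.2 : ℕ) * (J / N)))
            (fun ω => (F.X ((x.2.1 : ℕ) * (J / N)) ω, F.W ω))) := by
      refine Claim.finite fun x => Claim.cnd fun hx => ?_
      exact hmnj N hN2 i₀ (x.1 : ℕ) (x.2.1 : ℕ) (x.2.2 : ℕ) hx.1 hx.2.1 hx.2.2.1
        hx.2.2.2.1 hx.2.2.2.2
    exact by
     obtain ⟨ext, hext⟩ : ∃ ext : (Fin (N + 1) → Fin (N + 2)) → ℕ → ℕ, ext = fun g w =>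
         if h : w < N + 1 then ((g ⟨w, h⟩ : Fin (N + 2)) : ℕ) else 0 := ⟨_, rfl⟩
     have hB : Claim (m := 2) a R (fun J F A => ∀ x : (Fin (N + 1) × Fin (N + 1)) ×
         (Fin (N + 1) × Fin (N + 1)) × (Fin (N + 1) → Fin (N + 2)),
         (e' * N ≤ (((x.1.2 : ℕ) : ℝ)) - ((x.1.1 : ℕ) : ℝ) ∧ ω₁ * N ≤ (((x.2.1.1 : ℕ) : ℝ)) ∧
           (x.2.1.1 : ℕ) ≤ x.2.1.2 ∧ ω₁ * N ≤ (N : ℝ) - ((x.1.2 : ℕ) : ℝ) ∧
           (∀ w, (x.2.1.1 : ℕ) ≤ w → w ≤ (x.2.1.2 : ℕ) →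
             (x.1.1 : ℕ) ≤ w + ext x.2.2 w ∧ w + ext x.2.2 w ≤ (x.1.2 : ℕ)) ∧
           (∀ w, (x.2.1.1 : ℕ) ≤ w → w < (x.2.1.2 : ℕ) → ext x.2.2 w ≤ ext x.2.2 (w + 1) ∧
             (ext x.2.2 (w + 1) : ℝ) ≤ ext x.2.2 w +
               θ₀ * ((((x.1.2 : ℕ) : ℝ)) - ((x.1.1 : ℕ) : ℝ))) ∧
           ((x.2.1.1 : ℕ) : ℝ) + ext x.2.2 (x.2.1.1 : ℕ) ≤ ((x.1.1 : ℕ) : ℝ) +
             θ₀ * ((((x.1.2 : ℕ) : ℝ)) - ((x.1.1 : ℕ) : ℝ)) ∧
           ((x.1.2 : ℕ) : ℝ) - θ₀ * ((((x.1.2 : ℕ) : ℝ)) - ((x.1.1 : ℕ) : ℝ)) ≤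
             ((x.2.1.2 : ℕ) : ℝ) + ext x.2.2 (x.2.1.2 : ℕ)) →
         RowsReg N ηR F A →
         (∀ s t : ℕ, (x.1.1 : ℕ) ≤ s → t ≤ (x.1.2 : ℕ) →
           θ₀ * ((((x.1.2 : ℕ) : ℝ)) - ((x.1.1 : ℕ) : ℝ)) ≤ (t : ℝ) - s →
           CH (Pool.Agent.H49.Ent.cond F.p A True) (F.X (t * (J / N)))
             (fun ω => (F.X (s * (J / N)) ω, F.W ω)) ≤
           (2 - c / 4) * (((t : ℝ) - s) * ((J / N : ℕ) * Real.log 2))) →
         Lb F i₀ ⌊h₁ * J⌋₊ A →
         (∀ h : ℕ, (h : ℝ) ≤ (((x.1.2 : ℕ) : ℝ) - ((x.2.1.1 : ℕ) : ℝ)) * (J / N : ℕ) + μ * J →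
           Ln F i₀ h A) →
         (∀ w, (x.2.1.1 : ℕ) ≤ w → w ≤ (x.2.1.2 : ℕ) →
           Cn F i₀ (ext x.2.2 w * (J / N)) (w * (J / N)) A ∧
           ¬ Cn F i₀ ((ext x.2.2 w + 1) * (J / N)) (w * (J / N)) A) → False) := by
       refine Claim.finite fun x => Claim.cnd fun hx => ?_
       obtain ⟨x1, x2, x3, x4, x5, x6, x7, x8⟩ := hx
       exact hmic i₀ (x.1.1 : ℕ) (x.1.2 : ℕ) (x.2.1.1 : ℕ) (x.2.1.2 : ℕ) (ext x.2.2)
         x1 x2 x3 x4 x5 x6 x7 x8
     -- the large event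
     exact by
      have hL : Claim (m := 2) a R (fun J F A => IsLaw (Pool.Agent.H49.Ent.cond F.p A True)) := by
        refine Claim.of one_pos 0 fun J _ F A hS => ?_
        obtain ⟨h, -⟩ := hS.res ha.le zero_le_one
        exact h
      refine Claim.mono N ?_ ((hA.and hB).and hL)
      rintro J hJ F A ⟨⟨hA, hB⟩, hq⟩ hReg hZn hLb hLn hhist
      by_contra hcon
      obtain ⟨u, hu⟩ : ∃ u, u = J / N := ⟨_, rfl⟩
      have hu0 : 0 < u := by rw [hu]; exact Nat.div_pos hJ hN0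
      have hu1 : N * u ≤ J := by rw [hu]; exact Nat.mul_div_le J N
      have hur : (0 : ℝ) < u := by exact_mod_cast hu0
      rw [← hu] at hA hB hZn hLn hhist hcon
      have hUL : (0 : ℝ) < u * Real.log 2 := by positivity
      have hbd := rowf_bd F A hq hu0
      -- the deficit of the zone without its top
      have hzone : rowf F A u p₃ - rowf F A u p₁ ≤ (2 - c / 2) * ((p₃ : ℝ) - p₁) := by
        have h1 := (hbd p₃ p₂ hp32).1
        have h2 := rowf_eq F A hq hu0 hp12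
        have h3 : rowf F A u p₂ - rowf F A u p₁ ≤ (2 - c₀) * ((p₂ : ℝ) - p₁) := by
          refine le_of_mul_le_mul_right ?_ hUL
          rw [h2]
          refine hZn.trans (le_of_eq ?_)
          push_cast
          ring
        have h4 : (2 - c₀) * ((p₂ : ℝ) - p₁) ≤ (2 - c) * ((p₂ : ℝ) - p₁) :=
          mul_le_mul_of_nonneg_right (by linarith only [hcc]) hp12r.le
        have h5 : (p₂ : ℝ) - p₁ = ((p₃ : ℝ) - p₁) + k := by rw [hp₃r]; ring
        have h6 : (2 - c) * ((p₂ : ℝ) - p₁) = (2 - c) * ((p₃ : ℝ) - p₁) + (2 - c) * k := by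
          rw [h5]; ring
        have h7 : (2 - c) * (k : ℝ) ≤ 2 * k :=
          mul_le_mul_of_nonneg_right (by linarith only [hc0]) (Nat.cast_nonneg k)
        have h8 : (k : ℝ) ≤ c / 4 * ((p₃ : ℝ) - p₁) := by
          refine hk1.trans ?_
          have : c / 8 * ((p₂ : ℝ) - p₁) ≤ c / 8 * (2 * ((p₃ : ℝ) - p₁)) :=
            mul_le_mul_of_nonneg_left (by linarith only [hp13]) (by positivity)
          linarith only [this]
        linarith only [hk1, hp₃r, h1, h3, h4, h6, h7]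
      exact by
       obtain ⟨pa, pb, hpa1, hpab, hpb1, hlen, hsub⟩ := htwo p₁ p₃ (rowf F A u) hp13' hbd hzone
       have hpabr : (0 : ℝ) < (pb : ℝ) - pa := by
         have : (pa : ℝ) < pb := by exact_mod_cast hpab
         linarith only [this]
       have hlen' : e' * N ≤ (pb : ℝ) - pa := by
         refine le_trans ?_ hlen
         rw [he']
         have : ρ * (e / 2 * N) ≤ ρ * ((p₃ : ℝ) - p₁) :=
           mul_le_mul_of_nonneg_left (by linarith only [hep, hp13]) hρ.le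
         linarith only [this]
       have hpbN : pb ≤ N := by omega
       have hpos : 0 < c * θ * e' * N := by positivity
       -- the crossing
       obtain ⟨δ, hδ⟩ : ∃ δ, δ = θ / 2 * ((pb : ℝ) - pa) := ⟨_, rfl⟩
       have hδ1 : δ ≤ (pb : ℝ) - pa := by
         rw [hδ]
         have : θ / 2 * ((pb : ℝ) - pa) ≤ 1 * ((pb : ℝ) - pa) :=
           mul_le_mul_of_nonneg_right (by linarith only [hθ1]) hpabr.le
         linarith only [this]
       have hδ2 : δ + 1 ≤ θ * ((pb : ℝ) - pa) := by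
         rw [hδ]
         have : θ * (e' * N) ≤ θ * ((pb : ℝ) - pa) := mul_le_mul_of_nonneg_left hlen' hθ.le
         linarith only [r3, this]
       have hLn' : ∀ v t : ℕ, p₁ - j ≤ v → t ≤ p₂ →
           ∀ h : ℕ, (h : ℝ) ≤ ((t : ℝ) - v) * u + μ * J → Ln F i₀ h A := by
         intro v t hv ht h hh
         refine hLn h (hh.trans ?_)
         have h1 : (t : ℝ) - v ≤ (p₂ : ℝ) - p₁ + j := by
           have h2 : ((p₁ - j : ℕ) : ℝ) ≤ v := by exact_mod_cast hv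
           rw [Nat.cast_sub hjp] at h2
           have h3 : (t : ℝ) ≤ p₂ := by exact_mod_cast ht
           linarith only [h2, h3]
         have := mul_le_mul_of_nonneg_right h1 hur.le
         linarith only [this]
       exact by
        have hcross := crossing (fun l w => Cn F i₀ (l * u) (w * u) A) (w₀ := p₁ - j) (pa := pa)
          (pb := pb) (δ := δ)
          (fun w => by simpa using hLb.cn (w * u))
          (fun l l' w hl h => h.mono (Nat.mul_le_mul_right u hl))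
          (fun l w w' hw hw' h => h.mono_w (Nat.mul_le_mul_right u hw)
            ((Nat.mul_le_mul_right u (hw'.trans hpbN)).trans hu1))
          (by omega) hpab.le hδ1
          (fun h => hcon (h.mono (Nat.mul_le_mul_right u (by omega))))
          (fun w s t hw hws hst hwt hpas htpb hQ1 hQ2 => by
            by_contra hc2
            push Not at hc2
            have hv : ω₁ * N ≤ (w : ℝ) := by
              refine hωp'.trans ?_
              have : ((p₁ - j : ℕ) : ℝ) ≤ w := by exact_mod_cast hw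
              rw [Nat.cast_sub hjp] at this
              exact this
            have h1 := hA (⟨w, by omega⟩, ⟨s, by omega⟩, ⟨t, by omega⟩)
              ⟨hws, hst, hwt, hv, hω₁p t (by omega)⟩ hLb
              (hLn' w t hw (by omega)) hQ1 hQ2
            have h2 := rowf_eq F A hq hu0 hst
            have h3 := hsub s t hpas htpb (by rw [← hδ]; exact hc2)
            have h4 : (2 * ((t : ℝ) - s) - η * N) ≤ rowf F A u t - rowf F A u s := by
              refine le_of_mul_le_mul_right ?_ hUL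
              rw [h2]
              exact h1
            refine jump_arith (c := c) (θ := θ) (n := (pb : ℝ) - pa) (k := (t : ℝ) - s)
              (N := N) (e := e') (η := η) hc0 hθ hlen' hη (by rw [← hδ]; exact hc2) h4 ?_ hpos
            refine h3.trans (le_of_eq ?_)
            ring)
        obtain ⟨wa, wb, lam, k1, k2, k3, k4, k5, k6, k7, k8, k9⟩ := hcross
        -- the engine
        exact by
         obtain ⟨g, hg⟩ : ∃ g : Fin (N + 1) → Fin (N + 2), g = fun w =>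
             ⟨lam w, by have := k4 w; omega⟩ := ⟨_, rfl⟩
         have hext' : ∀ w, w ≤ N → ext g w = lam w := by
           intro w hw
           rw [hext, hg]
           simp only
           rw [dif_pos (by omega)]
         have hth : θ * ((pb : ℝ) - pa) ≤ θ₀ * ((pb : ℝ) - pa) :=
           mul_le_mul_of_nonneg_right hθθ hpabr.le
         refine hB ((⟨pa, by omega⟩, ⟨pb, by omega⟩), (⟨wa, by omega⟩, ⟨wb, by omega⟩), g)
           ⟨hlen', ?_, k2, hω₁p pb hpb1, ?_, ?_, ?_, ?_⟩ hReg ?_ hLb ?_ ?_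
         · refine hωp'.trans ?_
           have : ((p₁ - j : ℕ) : ℝ) ≤ wa := by exact_mod_cast k1.le
           rw [Nat.cast_sub hjp] at this
           exact this
         · intro w h1 h2
           rw [hext' w (by simp only at h2; omega)]
           exact k5 w h1 h2
         · intro w h1 h2
           rw [hext' w (by simp only at h2; omega), hext' (w + 1) (by simp only at h2; omega)]
           obtain ⟨h3, h4⟩ := k6 w h1 h2
           refine ⟨h3, h4.trans ?_⟩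
           show (lam w : ℝ) + δ ≤ lam w + θ₀ * ((pb : ℝ) - pa)
           linarith only [hδ2, hth]
         · show (wa : ℝ) + ext g wa ≤ pa + θ₀ * ((pb : ℝ) - pa)
           rw [hext' wa (by omega)]
           linarith only [hδ2, k7, hth]
         · show (pb : ℝ) - θ₀ * ((pb : ℝ) - pa) ≤ wb + ext g wb
           rw [hext' wb (by omega)]
           linarith only [hδ2, k8, hth]
         · intro s t hs ht hst
           have hst' : θ₀ * ((pb : ℝ) - pa) ≤ (t : ℝ) - s := hst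
           have h0 : (s : ℝ) ≤ t := by
             have : 0 ≤ θ₀ * ((pb : ℝ) - pa) := by positivity
             linarith only [hpab, hpbN, k2, k3, hδ, hδ2, hth, hst]
           have h0' : s ≤ t := by exact_mod_cast h0
           have h1 := hsub s t hs ht (by
             have : θ / 2 * ((pb : ℝ) - pa) ≤ θ * ((pb : ℝ) - pa) :=
               mul_le_mul_of_nonneg_right (by linarith only [hθ]) hpabr.le
             linarith only [hpab, hpbN, k2, k3, hδ, hδ2, hth, hst])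
           rw [← rowf_eq F A hq hu0 h0']
           have h2 : (2 - c / 2 / 2) * ((t : ℝ) - s) = (2 - c / 4) * ((t : ℝ) - s) := by ring
           rw [h2] at h1
           have := mul_le_mul_of_nonneg_right h1 hUL.le
           linarith only [this]
         · intro h hh
           exact hLn' wa pb k1.le (by omega) h hh
         · intro w h1 h2
           rw [hext' w (by simp only at h2; omega)]
           exact k9 w h1 h2

/-- (ENG) from one nonfull row, the slopes and the crossing for regular rows. -/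
theorem eng_of_mics (h1 : MNJ1Stmt) (hS : MICSStmt) : ENGStmt :=
  eng_of_engr (engr_thm (mnj_thm h1) (micr_of_mics (Pool.Agent.H60.K2S.lip_thm h1)
    (plcx_thm ap6r_all) hS))

end Pool.K2S
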