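import Mathlib

/-!
# The numbers of the critical step

All the scales are fixed proportions of the length of the zone.
-/

set_option autoImplicit false

namespace Pool.K2S

/-- The scales. `k`: the range of the velocity scales, `q₀`: the first one, `nw`: the range of the
windows, `t`: the step of the chains, `Xm`: the length of the blocks, `sz`: the length of the
intervals of rows which are not full, `Lp P`: the precision of the slopes seen from the row
`P`. -/
theorem mic_num {s cR κX κ x₀ ε' θ : ℝ} (hs : 0 < s) (hs1 : s ≤ 1) (hcR : 0 < cR)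
    (hcR1 : cR ≤ 1) (hκX : 0 < κX) (hκX1 : κX ≤ s / 4) (hκX2 : κX ≤ cR / 2) (hκ : 0 < κ)
    (hκ1 : κ ≤ 1) (hx₀ : 0 < x₀) (hε : 0 < ε') (hκX3 : κX ≤ ε' * s / 8) (hθ : 0 < θ)
    (hθ1 : θ ≤ κ / 4 * (κX * s ^ 2 * cR / 32768)) :
    ∃ n₀ : ℕ, ∀ (pa pb wa wb : ℕ) (lam : ℕ → ℕ), (n₀ : ℝ) ≤ (pb : ℝ) - pa → wa ≤ wb →
    (∀ w, wa ≤ w → w ≤ wb → pa ≤ w + lam w ∧ w + lam w ≤ pb) →
    (∀ w, wa ≤ w → w < wb → lam w ≤ lam (w + 1)) →
    (wa : ℝ) + lam wa ≤ pa + θ * ((pb : ℝ) - pa) →
    (pb : ℝ) - θ * ((pb : ℝ) - pa) ≤ wb + lam wb →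
    (∀ w w', wa ≤ w → w ≤ w' → w' ≤ wb →
      s * ((lam w' : ℝ) - lam w) ≤ max ((w' : ℝ) - w) (θ * ((pb : ℝ) - pa)) ∧
      (θ * ((pb : ℝ) - pa) ≤ (w' : ℝ) - w → s * ((w' : ℝ) - w) ≤ (lam w' : ℝ) - lam w)) →
    ∃ (k q₀ nw t Xm sz : ℕ) (Lp : ℕ → ℕ),
      κX * s ^ 2 * cR / 32768 * ((pb : ℝ) - pa) ≤ Xm ∧ 1 ≤ q₀ ∧ (q₀ : ℝ) ≤ cR * k ∧
      (Xm : ℝ) ≤ cR / 2 * k ∧ 0 < nw ∧ 0 < t ∧ 16 ≤ sz ∧ θ * ((pb : ℝ) - pa) ≤ sz ∧
      wa + k + nw + k ≤ wb ∧
      (∀ w, wa + k ≤ w → w ≤ wb → 2 ≤ lam w ∧ pa + 1 ≤ w + lam w ∧ w + lam w ≤ pb) ∧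
      (∀ w w', wa ≤ w → w ≤ w' → w' ≤ wb → lam w ≤ lam w') ∧
      (∀ w w', wa + k ≤ w → w + t ≤ w' → w' ≤ wb → w + Xm ≤ w' ∧ lam w + Xm ≤ lam w') ∧
      (∀ w w' q, wa + k ≤ w → w < wa + k + nw → wa + k ≤ w' → w' < wa + k + nw → q₀ ≤ q →
        w + q ≤ wb → lam w' - 1 + Xm ≤ Lp (q + w + (lam w - 1)) ∧
        Lp (q + w + (lam w - 1)) ≤ lam (w + q) - 1) ∧
      (∀ w q, wa + k ≤ w → q₀ ≤ q → w + q ≤ wb → lam w - 1 ≤ Lp (q + w + (lam w - 1)) ∧
        ∃ v, w ≤ v ∧ v ≤ w + q ∧ v + lam v + sz ≤ q + w + (lam w - 1) ∧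
          Lp (q + w + (lam w - 1)) ≤ lam v - 1) ∧
      (∀ w q, wa ≤ w → w + q ≤ wb → q + lam w ≤ pb - wa) ∧
      (nw : ℝ) + ((lam (wa + k + nw) : ℝ) - lam (wa + k)) + k + 1 ≤ 2 * k ∧
      (t : ℝ) ≤ ε' * nw ∧ 3 ≤ x₀ * Xm ∧ (sz : ℝ) + 3 ≤ κ * Xm := by
  classical
  obtain ⟨χ, hχ⟩ : ∃ χ, χ = κX * s ^ 2 * cR / 32768 := ⟨_, rfl⟩
  rw [← hχ] at hθ1
  have hχ0 : 0 < χ := by rw [hχ]; positivity
  have hs2 : s ^ 2 ≤ s := by
    have := mul_le_mul_of_nonneg_left hs1 hs.le
    rw [sq]
    linarith only [this]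
  have hs2' : 0 < s ^ 2 := by positivity
  have hχs : χ ≤ s / 32768 := by
    rw [hχ]
    have h1 : κX * s ^ 2 * cR ≤ 1 * s * 1 := by
      refine mul_le_mul (mul_le_mul (by linarith only [hs1, hκX, hκX1]) hs2 hs2'.le (by norm_num)) hcR1 hcR.le
        (by linarith only [hκX, hκX1])
    linarith only [h1]
  obtain ⟨n₀, hn₀⟩ := exists_nat_gt ((100 + 3 / x₀ + 64 / ε' + 100 / κ) / χ)
  rw [div_lt_iff₀ hχ0] at hn₀
  refine ⟨n₀, fun pa pb wa wb lam hn hab hrow hstep hfirst hlast hslope => ?_⟩
  obtain ⟨n, hne⟩ : ∃ n : ℝ, n = (pb : ℝ) - pa := ⟨_, rfl⟩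
  rw [← hne] at hn hfirst hlast hslope
  have hbig : 100 + 3 / x₀ + 64 / ε' + 100 / κ < χ * n := by
    refine hn₀.trans_le ?_
    rw [mul_comm]
    exact mul_le_mul_of_nonneg_left hn hχ0.le
  have p1 : 0 < 3 / x₀ := by positivity
  have p2 : 0 < 64 / ε' := by positivity
  have p3 : 0 < 100 / κ := by positivity
  have hχn : 100 < χ * n := by linarith only [hbig, p1, p2, p3]
  have hn0 : 0 < n := by
    by_contra hcon
    push Not at hcon
    have : χ * n ≤ 0 := mul_nonpos_of_nonneg_of_nonpos hχ0.le hcon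
    linarith only [hs1, hχ0, hχs, hbig, p1, p2, p3, this]
  -- the numbers
  exact by
   obtain ⟨k, hk⟩ : ∃ k, k = ⌊s / 64 * n⌋₊ := ⟨_, rfl⟩
   have k1 : (k : ℝ) ≤ s / 64 * n := by rw [hk]; exact Nat.floor_le (by positivity)
   have k2 : s / 64 * n < k + 1 := by rw [hk]; exact Nat.lt_floor_add_one _
   have hsn : χ * n ≤ s / 32768 * n := mul_le_mul_of_nonneg_right hχs hn0.le
   have k3 : s / 128 * n ≤ k := by linarith only [hs1, hχ0, hχs, hbig, p1, p2, p3, k2, hsn]
   have hk0 : (0 : ℝ) ≤ k := Nat.cast_nonneg k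
   obtain ⟨q₀, hq₀⟩ : ∃ q₀, q₀ = ⌊cR / 4 * k⌋₊ := ⟨_, rfl⟩
   have q1 : (q₀ : ℝ) ≤ cR / 4 * k := by rw [hq₀]; exact Nat.floor_le (by positivity)
   have q2 : cR / 4 * k < q₀ + 1 := by rw [hq₀]; exact Nat.lt_floor_add_one _
   have q3 : cR / 8 * k ≤ q₀ := by
     have h1 : cR / 8 * (s / 128 * n) ≤ cR / 8 * k := mul_le_mul_of_nonneg_left k3 (by linarith only [hcR])
     have h2 : χ * n ≤ cR / 8 * (s / 128 * n) := by
       have e1 : cR / 8 * (s / 128 * n) = (cR * s / 1024) * n := by ring
       rw [e1]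
       refine mul_le_mul_of_nonneg_right ?_ hn0.le
       rw [hχ]
       have h3 : κX * s ^ 2 * cR ≤ 1 * s * cR := by
         refine mul_le_mul_of_nonneg_right ?_ hcR.le
         exact mul_le_mul (by linarith only [hs1, hκX1, hχ0, hχs]) hs2 hs2'.le (by norm_num)
       have h4 := mul_pos hcR hs
       linarith only [hχ, hχ0, h3]
     linarith only [hs1, hχ0, hχs, hbig, p1, p2, p3, q2, h1, h2]
   have hq0 : (0 : ℝ) ≤ q₀ := Nat.cast_nonneg q₀
   obtain ⟨xv, hxv⟩ : ∃ xv, xv = ⌊s / 8 * q₀⌋₊ := ⟨_, rfl⟩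
   have x1 : (xv : ℝ) ≤ s / 8 * q₀ := by rw [hxv]; exact Nat.floor_le (by positivity)
   have x2 : s / 8 * q₀ < xv + 1 := by rw [hxv]; exact Nat.lt_floor_add_one _
   have hq4 : cR * s / 1024 * n ≤ q₀ := by
     refine le_trans ?_ q3
     have := mul_le_mul_of_nonneg_left k3 (show 0 ≤ cR / 8 by linarith only [hcR])
     refine le_trans (le_of_eq ?_) this
     ring
   exact by
    have x3 : s / 16 * q₀ ≤ xv := by
      have h1 : s / 16 * (cR * s / 1024 * n) ≤ s / 16 * q₀ :=
        mul_le_mul_of_nonneg_left hq4 (by linarith only [hχ0, hχs])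
      have h2 : χ * n ≤ s / 16 * (cR * s / 1024 * n) := by
        have e1 : s / 16 * (cR * s / 1024 * n) = (s ^ 2 * cR / 16384) * n := by ring
        rw [e1]
        refine mul_le_mul_of_nonneg_right ?_ hn0.le
        rw [hχ]
        have h3 : κX * s ^ 2 * cR ≤ 1 * s ^ 2 * cR := by
          refine mul_le_mul_of_nonneg_right ?_ hcR.le
          exact mul_le_mul_of_nonneg_right (by linarith only [hs1, hκX1, hχ0, hχs]) hs2'.le
        have h4 : 0 < s ^ 2 * cR := mul_pos hs2' hcR
        linarith only [hχ, hχ0, h3]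
      linarith only [hs1, hχ0, hχs, hbig, p1, p2, p3, x2, h1, h2]
    have hx4 : s ^ 2 * cR / 16384 * n ≤ xv := by
      refine le_trans ?_ x3
      have := mul_le_mul_of_nonneg_left hq4 (show 0 ≤ s / 16 by linarith only [hχ0, hχs])
      refine le_trans (le_of_eq ?_) this
      ring
    have hxv0 : (0 : ℝ) ≤ xv := Nat.cast_nonneg xv
    obtain ⟨Xm, hXm⟩ : ∃ Xm, Xm = ⌊κX * xv⌋₊ := ⟨_, rfl⟩
    have m1 : (Xm : ℝ) ≤ κX * xv := by rw [hXm]; exact Nat.floor_le (by positivity)
    have m2 : κX * xv < Xm + 1 := by rw [hXm]; exact Nat.lt_floor_add_one _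
    have hkx : 2 * (χ * n) ≤ κX * xv := by
      refine le_trans (le_of_eq ?_) (mul_le_mul_of_nonneg_left hx4 hκX.le)
      rw [hχ]
      ring
    have m3 : χ * n ≤ Xm := by linarith only [hs1, hχ0, hχs, hbig, p1, p2, p3, m2, hkx]
    have hXbig : 100 + 3 / x₀ + 64 / ε' + 100 / κ < Xm := hbig.trans_le m3
    have hX100 : (100 : ℝ) < Xm := by linarith only [hs1, hχ0, hχs, hbig, p1, p2, p3, m2, hkx]
    exact by
     have hX0 : (0 : ℝ) < Xm := by linarith only [hs1, hχ0, hχs, hbig, p1, p2, p3, m2, hkx]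
     have hXxv : (Xm : ℝ) ≤ s / 4 * xv := m1.trans (mul_le_mul_of_nonneg_right hκX1 hxv0)
     have hXxv' : (Xm : ℝ) ≤ xv / 4 := by
       refine hXxv.trans ?_
       have : s / 4 * xv ≤ 1 / 4 * xv := mul_le_mul_of_nonneg_right (by linarith only [hs1]) hxv0
       linarith only [this]
     have hxq : (xv : ℝ) ≤ q₀ / 8 := by
       refine x1.trans ?_
       have : s / 8 * q₀ ≤ 1 / 8 * q₀ := mul_le_mul_of_nonneg_right (by linarith only [hs1]) hq0
       linarith only [this]
     have hqk : (q₀ : ℝ) ≤ k / 4 := by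
       refine q1.trans ?_
       have : cR / 4 * k ≤ 1 / 4 * k := mul_le_mul_of_nonneg_right (by linarith only [hcR1]) hk0
       linarith only [this]
     have hθn : θ * n ≤ κ / 4 * Xm := by
       calc θ * n ≤ κ / 4 * χ * n := mul_le_mul_of_nonneg_right hθ1 hn0.le
         _ = κ / 4 * (χ * n) := by ring
         _ ≤ _ := mul_le_mul_of_nonneg_left m3 (by linarith only [hκ])
     have hθn' : θ * n ≤ Xm / 4 := by
       refine hθn.trans ?_
       have : κ / 4 * Xm ≤ 1 / 4 * Xm := mul_le_mul_of_nonneg_right (by linarith only [hκ1]) hX0.le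
       linarith only [this]
     have hθn0 : 0 < θ * n := mul_pos hθ hn0
     obtain ⟨nw, hnw⟩ : ∃ nw, nw = xv / 2 := ⟨_, rfl⟩
     have w1 : 2 * nw ≤ xv := by omega
     have w2 : xv ≤ 2 * nw + 1 := by omega
     have w1r : 2 * (nw : ℝ) ≤ xv := by exact_mod_cast w1
     have w2r : (xv : ℝ) ≤ 2 * nw + 1 := by exact_mod_cast w2
     obtain ⟨t, ht⟩ : ∃ t, t = ⌈(Xm : ℝ) / s⌉₊ + 1 := ⟨_, rfl⟩
     have hXs : (Xm : ℝ) ≤ Xm / s := by
       rw [le_div_iff₀ hs]
       exact mul_le_of_le_one_right hX0.le hs1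
     exact by
      have t1 : (Xm : ℝ) / s ≤ t := by
        rw [ht]; push_cast
        have := Nat.le_ceil ((Xm : ℝ) / s)
        linarith only [hs1, hχ0, hχs, this]
      have t2 : (t : ℝ) ≤ Xm / s + 2 := by
        rw [ht]; push_cast
        have := Nat.ceil_lt_add_one (show (0 : ℝ) ≤ (Xm : ℝ) / s by positivity)
        linarith only [this]
      have t3 : Xm ≤ t := by exact_mod_cast hXs.trans t1
      have t4 : (Xm : ℝ) ≤ s * t := by
        rw [div_le_iff₀ hs] at t1
        linarith only [t1]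
      obtain ⟨sz, hsz⟩ : ∃ sz, sz = ⌈θ * n⌉₊ + 16 := ⟨_, rfl⟩
      have z1 : θ * n ≤ sz := by
        rw [hsz]; push_cast
        have := Nat.le_ceil (θ * n)
        linarith only [hs1, hχ0, hχs, this]
      have z2 : (sz : ℝ) ≤ θ * n + 17 := by
        rw [hsz]; push_cast
        have := Nat.ceil_lt_add_one hθn0.le
        linarith only [this]
      -- the slopes
      have hmono : ∀ v v', wa ≤ v → v ≤ v' → v' ≤ wb → lam v ≤ lam v' := by
        intro v v' h1 h2 h3
        induction v', h2 using Nat.le_induction with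
        | base => exact le_rfl
        | succ n hn ih => exact (ih (by omega)).trans (hstep n (by omega) (by omega))
      have hablr : (wa : ℝ) ≤ wb := by exact_mod_cast hab
      -- the range of the windows
      have hwab : s / 4 * n ≤ (wb : ℝ) - wa := by
        have h1 := (hslope wa wb le_rfl hab le_rfl).1
        have h2 : n - 2 * (θ * n) ≤ ((wb : ℝ) - wa) + ((lam wb : ℝ) - lam wa) := by linarith only [hlast, hfirst, hne]
        have h3 : s * (n - 2 * (θ * n)) ≤ s * ((wb : ℝ) - wa) + s * ((lam wb : ℝ) - lam wa) := by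
          have := mul_le_mul_of_nonneg_left h2 hs.le
          linarith only [this]
        have h4 : s * ((wb : ℝ) - wa) ≤ 1 * ((wb : ℝ) - wa) :=
          mul_le_mul_of_nonneg_right hs1 (by linarith only [hablr])
        have h5 : θ * n ≤ s / 32768 * n := by
          calc θ * n ≤ κ / 4 * χ * n := mul_le_mul_of_nonneg_right hθ1 hn0.le
            _ = κ / 4 * (χ * n) := by ring
            _ ≤ 1 * (χ * n) := mul_le_mul_of_nonneg_right (by linarith only [hs1, hκ1, hχ0, hχs]) (by linarith only [hs1, hχ0, hχs, hbig, p1, p2, p3])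
            _ ≤ s / 32768 * n := by linarith only [hsn]
        have h6 : s * (2 * (θ * n)) ≤ 1 * (2 * (θ * n)) :=
          mul_le_mul_of_nonneg_right hs1 (by linarith only [hθn0])
        have h7 : 0 < s * n := mul_pos hs hn0
        have e0 : s * (n - 2 * (θ * n)) = s * n - s * (2 * (θ * n)) := by ring
        rw [e0] at h3
        rcases le_total (θ * n) ((wb : ℝ) - wa) with h | h
        · rw [max_eq_left h] at h1
          linarith only [hs1, hχ0, hχs, hbig, p1, p2, p3, k1, hsn, hXxv', hxq, hqk, hθn', h1, h3, h4, h6]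
        · rw [max_eq_right h] at h1
          linarith only [hs1, hχ0, hχs, hbig, p1, p2, p3, k1, hsn, hXxv', hxq, hqk, hθn', h1, h3, h4, h6, h]
      exact by
       have hk3 : wa + k + nw + k ≤ wb := by
         have h1 : (nw : ℝ) ≤ k := by linarith only [hs1, hχ0, hχs, hbig, p1, p2, p3, k2, hsn, hxq, hqk, w1r]
         have h2 : ((wa + k + nw + k : ℕ) : ℝ) ≤ wb := by
           push_cast
           have h3 : 0 < s * n := mul_pos hs hn0
           linarith only [hs1, hχ0, hχs, hbig, p1, p2, p3, k1, hsn, hxq, hqk, w1r, hwab]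
         exact_mod_cast h2
       have hsk : (Xm : ℝ) ≤ s * k := by
         refine hXxv.trans ?_
         have h1 : (xv : ℝ) ≤ k := by linarith only [hs1, hχ0, hχs, hbig, p1, p2, p3, k2, hsn, hxq, hqk]
         have h2 := mul_le_mul_of_nonneg_left h1 (show 0 ≤ s / 4 by linarith only [hχ0, hχs])
         have h3 := mul_nonneg hs.le hk0
         linarith only [hXxv, h2]
       have hkθ : θ * n ≤ k := by linarith only [hs1, hχ0, hχs, hbig, p1, p2, p3, k2, hsn, hXxv', hxq, hqk, hθn']
       have hk1 : 1 ≤ k := by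
         have : (1 : ℝ) ≤ k := by linarith only [hs1, hχ0, hχs, hbig, p1, p2, p3, k2, hsn]
         exact_mod_cast this
       have hrow2 : ∀ w, wa + k ≤ w → w ≤ wb → 2 ≤ lam w ∧ pa + 1 ≤ w + lam w ∧ w + lam w ≤ pb := by
         intro w h1 h2
         have h3 : (wa : ℝ) + k ≤ w := by exact_mod_cast h1
         have h4 := (hslope wa w le_rfl (by omega) h2).2 (by linarith only [hs1, hχ0, hχs, hbig, p1, p2, p3, k2, hsn, hXxv', hxq, hqk, hθn', h3])
         have h5 : s * k ≤ s * ((w : ℝ) - wa) := mul_le_mul_of_nonneg_left (by linarith only [h3]) hs.le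
         have h6 : (0 : ℝ) ≤ lam wa := Nat.cast_nonneg _
         have h7 : (2 : ℝ) ≤ lam w := by linarith only [hs1, hχ0, hχs, hbig, p1, p2, p3, m2, hkx, hsk, h4, h5]
         have h8 := hrow wa le_rfl (by omega)
         have h9 := hmono wa w le_rfl (by omega) h2
         have h10 := hrow w (by omega) h2
         refine ⟨by exact_mod_cast h7, by omega, h10.2⟩
       -- the windows of the precision
       obtain ⟨vf, hvf⟩ : ∃ vf : ℕ → ℕ, vf = fun P =>
         Nat.findGreatest (fun v => wa + k ≤ v ∧ v + lam v + sz ≤ P) wb := ⟨_, rfl⟩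
       exact by
        have hxv1 : θ * n ≤ (xv : ℝ) := by linarith only [hs1, hχ0, hχs, hbig, p1, p2, p3, m2, hkx, hXxv', hθn']
        have hkey : ∀ w q, wa + k ≤ w → q₀ ≤ q → w + q ≤ wb →
            w + xv ≤ vf (q + w + (lam w - 1)) ∧ vf (q + w + (lam w - 1)) ≤ w + q ∧
            vf (q + w + (lam w - 1)) + lam (vf (q + w + (lam w - 1))) + sz ≤ q + w + (lam w - 1) := by
          intro w q h1 h2 h3
          have hxq' : xv ≤ q := by
            have h4 : (xv : ℝ) ≤ q₀ := by linarith only [hxq]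
            have h5 : xv ≤ q₀ := by exact_mod_cast h4
            omega
          have h4 := (hslope w (w + xv) (by omega) (Nat.le_add_right _ _) (by omega)).1
          push_cast at h4
          have e1 : (w : ℝ) + xv - w = xv := by ring
          rw [e1, max_eq_left hxv1] at h4
          have h5 : s * ((lam (w + xv) : ℝ) - lam w) ≤ s * (q₀ / 8) := by linarith only [x1, h4]
          have h6 : (lam (w + xv) : ℝ) - lam w ≤ q₀ / 8 := le_of_mul_le_mul_left h5 hs
          have h7 := hrow2 w h1 (by omega)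
          have h8 : (w + xv) + lam (w + xv) + sz ≤ q + w + (lam w - 1) := by
            have h9 : (((w + xv) + lam (w + xv) + sz + 1 : ℕ) : ℝ) ≤ ((q + w + lam w : ℕ) : ℝ) := by
              push_cast
              have h10 : (q₀ : ℝ) ≤ q := by exact_mod_cast h2
              linarith only [hs1, hχ0, hχs, hbig, p1, p2, p3, m2, hkx, hXxv', hxq, hθn', z2, h6, h10]
            have h11 : (w + xv) + lam (w + xv) + sz + 1 ≤ q + w + lam w := by exact_mod_cast h9
            omega
          have hP : (fun v => wa + k ≤ v ∧ v + lam v + sz ≤ q + w + (lam w - 1)) (w + xv) :=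
            ⟨by omega, h8⟩
          have g1 : w + xv ≤ vf (q + w + (lam w - 1)) := by
            rw [hvf]
            exact Nat.le_findGreatest (by omega) hP
          have g2 : wa + k ≤ vf (q + w + (lam w - 1)) ∧ vf (q + w + (lam w - 1)) +
              lam (vf (q + w + (lam w - 1))) + sz ≤ q + w + (lam w - 1) := by
            rw [hvf]
            exact Nat.findGreatest_spec (P := fun v => wa + k ≤ v ∧ v + lam v + sz ≤
              q + w + (lam w - 1)) (m := w + xv) (n := wb) (by omega) hP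
          have g3 : vf (q + w + (lam w - 1)) ≤ wb := by rw [hvf]; exact Nat.findGreatest_le _
          refine ⟨g1, ?_, g2.2⟩
          by_contra hcon
          push Not at hcon
          have g4 := hmono w (vf (q + w + (lam w - 1))) (by omega) (by omega) g3
          have g5 := g2.2
          omega
        exact by
         refine ⟨k, q₀, nw, t, Xm, sz, fun P => lam (vf P) - 1, ?_, ?_, ?_, ?_, ?_, ?_, ?_, ?_, hk3,
           hrow2, hmono, ?_, ?_, ?_, ?_, ?_, ?_, ?_, ?_⟩
         · rw [← hχ, ← hne]; exact m3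
         · have : (1 : ℝ) ≤ q₀ := by linarith only [hs1, hχ0, hχs, hbig, p1, p2, p3, m2, hkx, hXxv', hxq]
           exact_mod_cast this
         · have : cR / 4 * k ≤ cR * k := mul_le_mul_of_nonneg_right (by linarith only [hcR]) hk0
           linarith only [q1]
         · have h1 : (xv : ℝ) ≤ k := by linarith only [hs1, hχ0, hχs, hbig, p1, p2, p3, k2, hsn, hxq, hqk]
           have h2 : κX * xv ≤ cR / 2 * k := mul_le_mul hκX2 h1 hxv0 (by linarith only [hcR])
           linarith only [q1, hXxv', hxq]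
         · have : (0 : ℝ) < nw := by linarith only [hs1, hχ0, hχs, hbig, p1, p2, p3, m2, hkx, hXxv', w2r]
           exact_mod_cast this
         · rw [ht]; omega
         · rw [hsz]; omega
         · rw [← hne]; exact z1
         · intro w w' h1 h2 h3
           refine ⟨by omega, ?_⟩
           have h4 : (w : ℝ) + t ≤ w' := by exact_mod_cast h2
           have h5 : (Xm : ℝ) ≤ t := by exact_mod_cast t3
           have h6 := (hslope w w' (by omega) (by omega) h3).2 (by linarith only [hs1, hχ0, hχs, hbig, p1, p2, p3, m2, hkx, hθn', hXs, t1, h4])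
           have h7 : s * t ≤ s * ((w' : ℝ) - w) := mul_le_mul_of_nonneg_left (by linarith only [h4]) hs.le
           have h8 : ((lam w + Xm : ℕ) : ℝ) ≤ lam w' := by push_cast; linarith only [t4, h6, h7]
           exact_mod_cast h8
         · intro w w' q h1 h2 h3 h4 h5 h6
           obtain ⟨g1, g2, g3⟩ := hkey w q h1 h5 h6
           have hxq' : xv ≤ q := by
             have h4 : (xv : ℝ) ≤ q₀ := by linarith only [hxq]
             have h5 : xv ≤ q₀ := by exact_mod_cast h4
             omega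
           have e1 := hmono w' (w + nw) (by omega) (by omega) (by omega)
           have e2 := (hslope (w + nw) (w + xv) (by omega) (by omega) (by omega)).2
             (by push_cast; linarith only [hs1, hχ0, hχs, hbig, p1, p2, p3, m2, hkx, hXxv', hθn', w1r])
           have e3 := hmono (w + xv) (vf (q + w + (lam w - 1))) (by omega) g1 (by omega)
           have e4 : s * (xv / 2) ≤ s * (((w + xv : ℕ) : ℝ) - ((w + nw : ℕ) : ℝ)) := by
             refine mul_le_mul_of_nonneg_left ?_ hs.le
             push_cast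
             linarith only [w1r]
           have e5 : (Xm : ℝ) ≤ s * (xv / 2) := by
             refine hXxv.trans ?_
             have h3 := mul_nonneg hs.le hxv0
             linarith only [hXxv]
           have e6 : ((lam (w + nw) + Xm : ℕ) : ℝ) ≤ lam (w + xv) := by push_cast; linarith only [hXxv, e2, e4]
           have e7 : lam (w + nw) + Xm ≤ lam (w + xv) := by exact_mod_cast e6
           have e8 := hrow2 w' h3 (by omega)
           have e9 := hmono (vf (q + w + (lam w - 1))) (w + q) (by omega) g2 h6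
           constructor
           · show lam w' - 1 + Xm ≤ lam (vf (q + w + (lam w - 1))) - 1
             omega
           · show lam (vf (q + w + (lam w - 1))) - 1 ≤ lam (w + q) - 1
             omega
         · intro w q h1 h2 h3
           obtain ⟨g1, g2, g3⟩ := hkey w q h1 h2 h3
           have e3 := hmono w (vf (q + w + (lam w - 1))) (by omega) (by omega) (by omega)
           refine ⟨?_, vf (q + w + (lam w - 1)), by omega, g2, g3, le_rfl⟩
           show lam w - 1 ≤ lam (vf (q + w + (lam w - 1))) - 1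
           omega
         · intro w q h1 h2
           have e1 := hmono w wb h1 (by omega) le_rfl
           have e2 := hrow wb hab le_rfl
           omega
         · have h1 := (hslope (wa + k) (wa + k + nw) (by omega) (by omega) (by omega)).1
           push_cast at h1
           have e1 : (wa : ℝ) + k + nw - (wa + k) = nw := by ring
           rw [e1] at h1
           have h2 : max (nw : ℝ) (θ * n) ≤ s * (k / 64) := by
             have h3 : (xv : ℝ) ≤ s * (k / 32) := by
               refine x1.trans ?_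
               have := mul_le_mul_of_nonneg_left hqk (show 0 ≤ s / 8 by linarith only [hχ0, hχs])
               linarith only [this]
             refine max_le ?_ ?_
             · linarith only [w1r, h3]
             · linarith only [hs1, hχ0, hχs, hbig, p1, p2, p3, m2, hkx, hXxv', hθn', h3]
           have h3 : s * ((lam (wa + k + nw) : ℝ) - lam (wa + k)) ≤ s * (k / 64) := h1.trans h2
           have h4 := le_of_mul_le_mul_left h3 hs
           have h5 : (nw : ℝ) ≤ k / 64 := by linarith only [hxq, hqk, w1r]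
           linarith only [hs1, hχ0, hχs, hbig, p1, p2, p3, k2, hsn, hxq, hqk, w1r, h4]
         · have h1 : (Xm : ℝ) / s ≤ κX * xv / s := div_le_div_of_nonneg_right m1 hs.le
           have h2 : κX * xv / s ≤ ε' / 8 * xv := by
             rw [div_le_iff₀ hs]
             have := mul_le_mul_of_nonneg_right hκX3 hxv0
             linarith only [this]
           have h3 : 64 / ε' < xv := by linarith only [hs1, hχ0, hχs, hbig, p1, p3, m2, hkx, hXxv']
           rw [div_lt_iff₀ hε] at h3
           have h4 : ε' * (xv / 4) ≤ ε' * nw := mul_le_mul_of_nonneg_left (by linarith only [hs1, hχ0, hχs, hbig, p1, p2, p3, m2, hkx, hXxv', w2r]) hε.le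
           linarith only [hs1, hχ0, hχs, hbig, p1, p2, p3, m2, hkx, hXs, t2, h1, h2, h4]
         · have h1 : 3 / x₀ < Xm := by linarith only [hs1, hχ0, hχs, hbig, p2, p3, m2, hkx]
           rw [div_lt_iff₀ hx₀] at h1
           linarith only [h1]
         · have h1 : 100 / κ < Xm := by linarith only [hs1, hχ0, hχs, hbig, p1, p2, m2, hkx]
           rw [div_lt_iff₀ hκ] at h1
           linarith only [hs1, hχ0, hχs, hθn, z2, h1]

end Pool.K2S
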