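import Pool.Agent.H13.K2S.OcFam
import Pool.Agent.H97.OC.Defs

/-!
# The Fam layer of the critical step: second layer

Statements from which the crossing of a zone (MICS) is assembled. Positions are in rows of the
mesh `u = J / N`; the frames of the windows `w` have precision `(lam w - 1) u`, the slopes seen
from the contexts `(w, q)` have precision `Lp P * u`, a function of the row
`P = q + w + (lam w - 1)` only.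
-/

set_option autoImplicit false

namespace Pool.K2S

open Finset Real
open Pool.Agent.H49.Ent Pool.Agent.H32.Dense Pool.STK Pool.KA Pool.KSAT

/-- The frames at the exact points, the frames of the windows and the slopes seen from the
contexts, on one event. -/
structure Frs {J : ℕ} (F : Fam 2 J) (i₀ : Fin 2) (A : F.Ω → Prop) (u H wa wb q₀ : ℕ)
    (lam Lp : ℕ → ℕ) (f n : (Fin 2 → ℤ) × (ℕ × F.ζ) → Fin 2 → ℝ) (z : ℕ → F.Ω → Fin 2 → ℝ)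
    (φ : ℕ → ℕ → F.Ω → ℝ) : Prop where
  frm : Frm F i₀ A H f n
  win : ∀ w, wa ≤ w → w ≤ wb → Win F i₀ A f (w * u) ((lam w - 1) * u) (z w)
  slp : ∀ w q, wa ≤ w → q₀ ≤ q → w + q ≤ wb →
    Slp F i₀ A f (w * u) (q * u) ((lam w - 1) * u) (Lp (q + w + (lam w - 1)) * u) (z w) (φ w q)
  vis : ∀ w q, wa ≤ w → q₀ ≤ q → w + q ≤ wb → ∃ e : (Fin 2 → ℤ) × (ℕ × F.ζ) → ℝ, ∀ ω, A ω →
    |f (Fam.pt F ω) (1 - i₀) - e (F.X ((q + w + (lam w - 1)) * u) ω, F.W ω)| ≤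
      2 / 2 ^ (Lp (q + w + (lam w - 1)) * u)

/-- **(FRM)** (helper64). Frames, windows and slopes are functions on the stable event itself.
From FLC (`flc_thm`), (FLT), (WS) at `q = 0` in the windows `w + q`, (NFZ) and the spread of the
fans; the property `∃ f n z φ, Frs ..` is hereditary, it is put into the outermost list. -/
def FRMStmt : Prop :=
  ∀ a R : ℝ, 1 < a → 0 < R → UBa 2 a R → ∀ c μ h₁ : ℝ, 0 < c → 0 < μ → 0 < h₁ →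
    ∀ (N s q₀ K pb wa wb : ℕ) (i₀ : Fin 2) (lam Lp : ℕ → ℕ), 0 < N → 1 ≤ s → 1 ≤ q₀ → pb ≤ N →
    (∀ w, wa ≤ w → w ≤ wb → 2 ≤ lam w ∧ w + lam w ≤ pb) →
    (∀ w w', wa ≤ w → w ≤ w' → w' ≤ wb → lam w ≤ lam w') →
    (∀ w q, wa ≤ w → w + q ≤ wb → q + lam w ≤ K) →
    (∀ w q, wa ≤ w → q₀ ≤ q → w + q ≤ wb → lam w - 1 ≤ Lp (q + w + (lam w - 1)) ∧
      ∃ v, w ≤ v ∧ v ≤ w + q ∧ v + lam v + s ≤ q + w + (lam w - 1) ∧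
        Lp (q + w + (lam w - 1)) ≤ lam v - 1) →
    Claim (m := 2) a R (fun J F A => Lb F i₀ ⌊h₁ * J⌋₊ A →
      (∀ h : ℕ, (h : ℝ) ≤ (K : ℝ) * (J / N : ℕ) + μ * J → Ln F i₀ h A) →
      (∀ w, wa ≤ w → w ≤ wb → Cn F i₀ (lam w * (J / N)) (w * (J / N)) A) →
      (∀ v, wa ≤ v → v ≤ wb → v + lam v + s ≤ pb →
        CH (Pool.Agent.H49.Ent.cond F.p A True) (F.X ((v + lam v + s) * (J / N)))
          (fun ω => (F.X ((v + lam v) * (J / N)) ω, F.W ω)) ≤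
        (2 - c) * ((s : ℝ) * ((J / N : ℕ) * Real.log 2))) →
      ∃ (f n : (Fin 2 → ℤ) × (ℕ × F.ζ) → Fin 2 → ℝ) (z : ℕ → F.Ω → Fin 2 → ℝ)
        (φ : ℕ → ℕ → F.Ω → ℝ),
        Frs F i₀ A (J / N) (K * (J / N)) wa wb q₀ lam Lp f n z φ)

/-- **(TRN)** (helper9). The slopes seen in a context are not constant on a line. -/
def TRNStmt : Prop :=
  ∀ a R : ℝ, 1 < a → 0 < R → UBa 2 a R → ∀ ε : ℝ, 0 < ε → ∀ (N w q l : ℕ) (i₀ : Fin 2),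
    0 < N → 1 ≤ l → q + w + l ≤ N →
    Claim (m := 2) a R (fun J F A => ¬ Cn F i₀ ((l + 1) * (J / N)) (w * (J / N)) A →
      ∀ (f n : (Fin 2 → ℤ) × (ℕ × F.ζ) → Fin 2 → ℝ) (z : F.Ω → Fin 2 → ℝ) (φ : F.Ω → ℝ)
        (H L : ℕ), (l + 1) * (J / N) ≤ H → (l + 2) * (J / N) ≤ L → Frm F i₀ A H f n →
      Win F i₀ A f (w * (J / N)) ((l - 1) * (J / N)) z →
      Slp F i₀ A f (w * (J / N)) (q * (J / N)) ((l - 1) * (J / N)) L z φ →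
      Pool.KAF.Pr (dbl (Pool.Agent.H49.Ent.cond F.p A True) (fun ω =>
          (F.l ω, F.qlb (w * (J / N)) (q * (J / N)) ((l - 1) * (J / N)) i₀ z ω)))
        {x | |(2 : ℝ) ^ ((l - 1) * (J / N)) * (φ x.1 - z x.1 (1 - i₀)) -
          2 ^ ((l - 1) * (J / N)) * (φ x.2 - z x.2 (1 - i₀))| < 1 / 2 ^ (3 * (J / N))} ≤ ε)

/-- **(ACTQ)** (helper44). Many active digits of the base velocity. -/
def ACTQStmt : Prop :=
  ∀ a R : ℝ, 1 < a → 0 < R → UBa 2 a R → ∃ cA : ℝ, 0 < cA ∧ cA ≤ 1 ∧ ∀ x h₁ : ℝ, 0 < x →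
    0 < h₁ → ∀ (N q₀ q₁ X : ℕ) (i₀ : Fin 2), 0 < N → x * N ≤ (q₁ : ℝ) → q₁ ≤ N →
    (q₀ : ℝ) + X + 1 ≤ cA * q₁ →
    Claim (m := 2) a R (fun J F A => Lb F i₀ ⌊h₁ * J⌋₊ A → Ln F i₀ (q₁ * (J / N)) A →
      ∃ G : Finset ℕ, (∀ q ∈ G, q₀ ≤ q ∧ q + X ≤ q₁) ∧ cA * q₁ ≤ (G.card : ℝ) ∧ ∀ q ∈ G,
        ¬ Frz F i₀ (q * (J / N)) ((q + 1) * (J / N)) A ∧
        cA * (((X * (J / N) : ℕ) : ℝ) * Real.log 2) ≤
          CH (Pool.Agent.H49.Ent.cond F.p A True)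
            (fun ω => ⌊(2 : ℝ) ^ (q * (J / N) + X * (J / N)) * F.d ω i₀⌋)
            (fun ω => (⌊(2 : ℝ) ^ (q * (J / N)) * F.d ω i₀⌋, Fam.pt F ω)))

/-- **(RWS)** (helper12). Rows of large parts which are not full, at all positions. -/
def RWSStmt : Prop :=
  ∀ c ρ : ℝ, 0 < c → c ≤ 1 → 0 < ρ → ∀ N pa pb s : ℕ, 0 < N → pb ≤ N → 16 ≤ s →
    ∃ (η : ℝ) (J₂ : ℕ), 0 < η ∧ ∀ J ≥ J₂, ∀ (F : Fam 2 J) (A : F.Ω → Prop),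
    IsLaw (Pool.Agent.H49.Ent.cond F.p A True) → RowsReg N η F A →
    (∀ s' t' : ℕ, pa ≤ s' → t' ≤ pb → s' + s ≤ t' →
      CH (Pool.Agent.H49.Ent.cond F.p A True) (F.X (t' * (J / N)))
        (fun ω => (F.X (s' * (J / N)) ω, F.W ω)) ≤
      (2 - c) * (((t' : ℝ) - s') * ((J / N : ℕ) * Real.log 2))) →
    ∀ A' : F.Ω → Prop, Sub A' A → ρ * Pe F.p A ≤ Pe F.p A' →
    ∀ P Q : ℕ, pa * (J / N) ≤ P → Q ≤ pb * (J / N) → P + (s + 2) * (J / N) ≤ Q →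
      CH (Pool.Agent.H49.Ent.cond F.p A' True) (F.X Q) (fun ω => (F.X P ω, F.W ω)) ≤
        (2 - c / 2) * (((Q : ℝ) - P) * Real.log 2)

/-- **(CHO)** (helper59, pure). The choice of the context `(w, q)`. `v` decreases by `d` along
the chains for `IA` and increases by `d` along the chains for `IB`. -/
def CHOStmt : Prop :=
  ∀ (g : ℕ → ℕ) (IA IB : ℕ → ℕ → ℝ) (w₁ w₂ q₀ q₁ q₂ d nP : ℕ) (G : Finset ℕ) (B : ℝ),
    1 ≤ d → d ≤ w₁ → w₁ ≤ w₂ → 0 ≤ B →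
    (∀ w w', w₁ - d ≤ w → w < w' → w' ≤ w₂ + d → g w < g w') →
    (∀ w, w₁ ≤ w → w ≤ w₂ → q₁ + g w ≤ q₂ + g (w - d)) →
    (∀ q ∈ G, q₀ ≤ q ∧ q ≤ q₁) → G.Nonempty →
    (∀ w q, w₁ ≤ w → w ≤ w₂ → q₀ ≤ q → q ≤ q₁ → 0 ≤ IA w q ∧ 0 ≤ IB w q) →
    (∀ (m : ℕ) (v p : ℕ → ℕ) (P : ℕ), (∀ j < m, v j = v (j + 1) + d) →
      (∀ j ≤ m, w₁ - d ≤ v j ∧ v j ≤ w₂ ∧ q₀ ≤ p j ∧ p j ≤ q₂ ∧ p j + g (v j) = P) →
      ∑ j ∈ Finset.range m, IA (v j) (p j) ≤ B) →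
    (∀ (m : ℕ) (v : ℕ → ℕ) (q : ℕ), q ∈ G → (∀ j < m, v (j + 1) = v j + d) →
      (∀ j ≤ m, w₁ ≤ v j ∧ v j ≤ w₂ + d) →
      ∑ j ∈ Finset.range m, IB (v j) q ≤ B) →
    g w₂ + q₁ ≤ g w₁ + q₀ + nP →
    ∃ w q, w₁ ≤ w ∧ w ≤ w₂ ∧ q ∈ G ∧
      (IA w q + IB w q) * (((w₂ : ℝ) + 1 - w₁) * G.card) ≤ d * B * (nP + 1 + G.card)

end Pool.K2S
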