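import Pool.Agent.H13.K2S.All
import Pool.Agent.H13.K2S.EngR
import Pool.Agent.H13.K2S.Mics
import Pool.Agent.H5.K2.Mnj1
import Pool.Agent.H8.K2S.H3
import Pool.Agent.H59.OC.OCB
import Pool.Agent.H97.OC.Thm
import Pool.Agent.H64.K2.FRM
import Pool.Agent.H70.OC.RWS

/-!
# The assembly of KP 2
-/

set_option autoImplicit false

namespace Pool.K2S

open Pool.KA Pool.STK Pool.KSAT

/-- **KP 2** from theorem OC and the two remaining Fam modules. -/
theorem kp_two_of_oc (hOC : Pool.OC.OCStmt) (hFRM : FRMStmt) (hRWS : RWSStmt) : KP 2 :=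
  kp_two (eng_of_mics mnj1_thm (mics_thm (ocb_thm hOC) hFRM hRWS h3 h3b))

/-- **KP 2.** -/
theorem kp_2 : KP 2 := kp_two_of_oc Pool.OC.oc_thm frm_thm rws_thm

end Pool.K2S
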