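import Pool.Agent.H13.K2S.Ctx

/-!
# The crossing of a zone, at a fixed resolution

All the inputs are given on one event `A` (and on its large parts); one context `(w, q)` is
chosen, and it contradicts theorem OC.
-/

set_option autoImplicit false

namespace Pool.K2S

open Finset Real
open Pool.Agent.H49.Ent Pool.Agent.H32.Dense Pool.STK Pool.KA Pool.KSAT

variable {J : ℕ}

theorem mic_J (h3 : H3Stmt) (h3b : H3bStmt) {cO ca x₀ κ ϖ ι ε : ℝ} {X₀ : ℕ}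
    (hϖ : 0 < ϖ) (hOC : OCC cO ca x₀ κ ϖ ι ε X₀) : ∃ C : ℝ, 0 ≤ C ∧ ∀ (J : ℕ) (F : Fam 2 J)
    (i₀ : Fin 2) (A : F.Ω → Prop) (u H pa pb wa wb q₀ k nw t Xm sz : ℕ) (lam Lp : ℕ → ℕ)
    (f n : (Fin 2 → ℤ) × (ℕ × F.ζ) → Fin 2 → ℝ) (z : ℕ → F.Ω → Fin 2 → ℝ)
    (φ : ℕ → ℕ → F.Ω → ℝ) (G : Finset ℕ) (c Kc ε' ε₃ e η : ℝ),
    0 < Pe F.p A → Frs F i₀ A u H wa wb q₀ lam Lp f n z φ →
    -- numbers
    0 < u → 0 < nw → 0 < t → pb * u ≤ J → wa + nw + k ≤ wb →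
    (∀ w, wa ≤ w → w ≤ wb → 2 ≤ lam w ∧ pa + 1 ≤ w + lam w ∧ w + lam w ≤ pb) →
    (∀ w w', wa ≤ w → w ≤ w' → w' ≤ wb → lam w ≤ lam w') →
    (∀ w w', wa ≤ w → w + t ≤ w' → w' ≤ wb → w + Xm ≤ w' ∧ lam w + Xm ≤ lam w') →
    (∀ w w' q, wa ≤ w → w < wa + nw → wa ≤ w' → w' < wa + nw → q₀ ≤ q → w + q ≤ wb →
      lam w' - 1 + Xm ≤ Lp (q + w + (lam w - 1)) ∧
      Lp (q + w + (lam w - 1)) ≤ lam (w + q) - 1) →
    (∀ w q, wa ≤ w → w + q ≤ wb → (q + lam w) * u ≤ H) →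
    (∀ q ∈ G, q₀ ≤ q ∧ q + Xm ≤ k) → G.Nonempty →
    ((nw : ℝ) + ((lam (wa + nw) : ℝ) - lam wa) + k + 1 ≤ Kc * G.card) → (t : ℝ) ≤ ε' * nw →
    X₀ ≤ Xm * u → 3 ≤ x₀ * Xm →
    e ≤ ι * (Xm * u : ℕ) → e ≤ ι * (Xm * u : ℕ) * Real.log 2 →
    (Kc + 1) * (ε' * (2 * ((Xm * u : ℕ) * Real.log 2) + C) + C) ≤ ι * (Xm * u : ℕ) →
    (Kc + 1) * (ε' * (2 * ((Xm * u : ℕ) * Real.log 2) + C) + C) ≤ ε₃ →
    η + ε₃ + C ≤ ι * (Xm * u : ℕ) * Real.log 2 →
    (sz + 2) * u ≤ ⌊κ * (Xm * u : ℕ)⌋₊ →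
    η + C ≤ (c - cO) * (⌊κ * (Xm * u : ℕ)⌋₊ * Real.log 2) →
    -- entropies
    (J : ℝ) * Real.log 2 - e ≤ CH (Pool.Agent.H49.Ent.cond F.p A True) F.T
      (fun ω => (F.l ω, F.Z ω)) →
    (∀ w q, wa ≤ w → w < wa + nw → q ∈ G →
      ca * (Xm * u : ℕ) * Real.log 2 ≤ CH (Pool.Agent.H49.Ent.cond F.p A True)
      (fun ω => ⌊(2 : ℝ) ^ (Xm * u) * F.gd (q * u) ((lam w - 1) * u) i₀ (z w) ω i₀⌋)
      (F.qlb (w * u) (q * u) ((lam w - 1) * u) i₀ (z w))) →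
    (∀ w q, wa ≤ w → w < wa + nw → q ∈ G →
      ((Xm * u : ℕ) : ℝ) * Real.log 2 - η ≤ CH (Pool.Agent.H49.Ent.cond F.p A True)
      (fun ω => ⌊(2 : ℝ) ^ (q * u + w * u + Xm * u) * F.x ω i₀⌋)
      (fun ω => (F.qlb (w * u) (q * u) ((lam w - 1) * u) i₀ (z w) ω, F.T ω))) →
    (∀ E : F.Ω → Prop, ϖ ≤ Pe (Pool.Agent.H49.Ent.cond F.p A True) E → ∀ v, wa ≤ v → v ≤ wb →
      ∀ P : ℕ, v * u ≤ P → P ≤ J → ((P : ℝ) - (v * u : ℕ)) * Real.log 2 - η ≤
      CH (Pool.Agent.H49.Ent.cond F.p (fun ω => A ω ∧ E ω) True)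
        (fun ω => ⌊(2 : ℝ) ^ P * F.x ω i₀⌋)
        (fun ω => (F.qlb (v * u) 0 ((lam v - 1) * u) i₀ (z v) ω, F.T ω))) →
    (∀ E : F.Ω → Prop, ϖ ≤ Pe (Pool.Agent.H49.Ent.cond F.p A True) E →
      ∀ P Q : ℕ, pa * u ≤ P → Q ≤ pb * u → P + (sz + 2) * u ≤ Q →
      CH (Pool.Agent.H49.Ent.cond F.p (fun ω => A ω ∧ E ω) True) (F.X Q)
        (fun ω => (F.X P ω, F.W ω)) ≤ (2 - c) * (((Q : ℝ) - P) * Real.log 2)) →
    (∀ w q, wa ≤ w → w < wa + nw → q ∈ G →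
      Pool.KAF.Pr (dbl (Pool.Agent.H49.Ent.cond F.p A True) (fun ω =>
          (F.l ω, F.qlb (w * u) (q * u) ((lam w - 1) * u) i₀ (z w) ω)))
        {x | |(2 : ℝ) ^ ((lam w - 1) * u) * (φ w q x.1 - z w x.1 (1 - i₀)) -
          2 ^ ((lam w - 1) * u) * (φ w q x.2 - z w x.2 (1 - i₀))| < 1 / 2 ^ (3 * u)} ≤ ε) →
    False := by
  classical
  obtain ⟨C₁, hC₁, hcho⟩ := h23_choice' h3
  obtain ⟨C₂, hC₂, hctx⟩ := ctx_false h3b hOC
  obtain ⟨C₃, hC₃, h5⟩ := h5_event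
  refine ⟨C₁ + C₂ + C₃, by positivity, ?_⟩
  intro J F i₀ A u H pa pb wa wb q₀ k nw t Xm sz lam Lp f n z φ G c Kc ε' ε₃ e η hPe hFrs hu hnw
    ht hpb hwb hrow hmono hstep hmarg hH hG hGne hKc hε' hX hx₀ he he' hch1 hch2 hη hblk hη2
    hT h4 hWSa hWS0 hRW hTR
  have hl2 : 0 < Real.log 2 := Real.log_pos (by norm_num)
  have hQ := isLaw_cond F.isLaw hPe
  obtain ⟨X, hXe⟩ : ∃ X, X = Xm * u := ⟨_, rfl⟩
  rw [← hXe] at hX he he' hch1 hch2 hη hblk hη2
  have hXr : (0 : ℝ) ≤ X := Nat.cast_nonneg X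
  have hε'0 : 0 ≤ ε' := by
    by_contra hcon
    push Not at hcon
    have h1 : (0 : ℝ) < nw := by exact_mod_cast hnw
    have h2 : ε' * nw < 0 := mul_neg_of_neg_of_pos hcon h1
    have h3 : (0 : ℝ) < t := by exact_mod_cast ht
    linarith only [hε', h2]
  have hGc : (0 : ℝ) < G.card := by exact_mod_cast Finset.card_pos.2 hGne
  have hlamr : (lam wa : ℝ) ≤ lam (wa + nw) := by
    exact_mod_cast hmono wa (wa + nw) le_rfl (Nat.le_add_right _ _) (by omega)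
  have hKc0 : 0 ≤ Kc := by
    by_contra hcon
    push Not at hcon
    have h2 : Kc * G.card < 0 := mul_neg_of_neg_of_pos hcon hGc
    have h3 : (0 : ℝ) ≤ nw := Nat.cast_nonneg nw
    have h4 : (0 : ℝ) ≤ k := Nat.cast_nonneg k
    linarith only [hKc, hlamr, h2]
  have hKc1 : 0 < Kc + 1 := by linarith only [hKc0]
  have hD : (Kc + 1) * (ε' * (2 * (X * Real.log 2) + C₁) + C₁) ≤
      (Kc + 1) * (ε' * (2 * (X * Real.log 2) + (C₁ + C₂ + C₃)) + (C₁ + C₂ + C₃)) := by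
    refine mul_le_mul_of_nonneg_left ?_ hKc1.le
    have : ε' * (2 * (X * Real.log 2) + C₁) ≤ ε' * (2 * (X * Real.log 2) + (C₁ + C₂ + C₃)) :=
      mul_le_mul_of_nonneg_left (by linarith only [hC₂, hC₃]) hε'0
    linarith only [hC₂, hC₃, this]
  -- the choice of the context
  obtain ⟨Wn, hWn⟩ : ∃ Wn, Wn = Finset.Ico wa (wa + nw) := ⟨_, rfl⟩
  obtain ⟨Pn, hPn⟩ : ∃ Pn, Pn = Finset.Icc (wa + (lam wa - 1)) (wa + nw + (lam (wa + nw) - 1) + k) :=
    ⟨_, rfl⟩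
  have hwq : ∀ w ∈ Wn, ∀ q ∈ G, wa ≤ w ∧ w < wa + nw ∧ q₀ ≤ q ∧ q + Xm ≤ k ∧ w + q ≤ wb := by
    intro w hw q hq
    rw [hWn, Finset.mem_Ico] at hw
    have h1 := hG q hq
    exact ⟨hw.1, hw.2, h1.1, h1.2, by omega⟩
  have hPnc : (Pn.card : ℝ) ≤ Kc * G.card := by
    refine le_trans ?_ hKc
    rw [hPn, Nat.card_Icc]
    have h1 := hrow wa le_rfl (by omega)
    have h2 := hmono wa (wa + nw) le_rfl (Nat.le_add_right _ _) (by omega)
    have h3 : wa + nw + (lam (wa + nw) - 1) + k + 1 - (wa + (lam wa - 1)) =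
        nw + (lam (wa + nw) - lam wa) + k + 1 := by omega
    rw [h3]
    push_cast [Nat.cast_sub h2]
    exact le_rfl
  obtain ⟨q, hq, w, hw, hdf⟩ := hcho J F i₀ A f n u X H t Wn G Pn (fun w => lam w - 1)
    (fun w q => Lp (q + w + (lam w - 1)) * u) z φ Kc ε' hQ hFrs.frm ht
    (by rw [hWn]; exact ⟨wa, Finset.mem_Ico.2 ⟨le_rfl, by omega⟩⟩) hGne
    (fun w hw => by
      rw [hWn, Finset.mem_Ico] at hw
      exact hFrs.win w hw.1 (by omega))
    (fun w hw q hq => by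
      obtain ⟨a1, a2, a3, a4, a5⟩ := hwq w hw q hq
      have b1 := hrow w a1 (by omega)
      have b2 := hmono w (w + q) a1 (Nat.le_add_right _ _) a5
      have b3 := hrow (w + q) (by omega) a5
      have b4 := hmono wa w le_rfl a1 (by omega)
      have b5 := hmono w (wa + nw) a1 a2.le (by omega)
      have b6 := hrow wa le_rfl (by omega)
      have b7 := hmarg w w q a1 a2 a1 a2 a3 a5
      refine ⟨hFrs.slp w q a1 a3 a5, ?_, ?_, ?_, ?_⟩
      · rw [hPn, Finset.mem_Icc]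
        constructor <;> omega
      · refine le_trans (Nat.mul_le_mul_right u ?_) hpb
        omega
      · rw [hXe, ← Nat.add_mul]
        exact Nat.mul_le_mul_right u b7.1
      · refine le_trans (Nat.mul_le_mul_right u ?_) (hH w q a1 a5)
        omega)
    (fun w hw w' hw' hww => by
      have hw2 := hw
      have hw2' := hw'
      rw [hWn, Finset.mem_Ico] at hw2 hw2'
      obtain ⟨c1, c2⟩ := hstep w w' hw2.1 hww (by omega)
      have c3 := hrow w hw2.1 (by omega)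
      refine ⟨?_, ?_, fun q hq => ?_⟩
      · rw [hXe, ← Nat.add_mul]
        exact Nat.mul_le_mul_right u c1
      · rw [hXe, ← Nat.add_mul]
        exact Nat.mul_le_mul_right u (by omega)
      · obtain ⟨a1, a2, a3, a4, a5⟩ := hwq w hw q hq
        rw [hXe, ← Nat.add_mul]
        exact Nat.mul_le_mul_right u (hmarg w w' q a1 a2 hw2'.1 hw2'.2 a3 a5).1)
    hPnc (by
      rw [hWn, Nat.card_Ico]
      have : wa + nw - wa = nw := by omega
      rw [this]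
      exact hε')
  obtain ⟨a1, a2, a3, a4, a5⟩ := hwq w hw q hq
  have b1 := hrow w a1 (by omega)
  have b3 := hrow (w + q) (by omega) a5
  obtain ⟨b7, b8⟩ := hmarg w w q a1 a2 a1 a2 a3 a5
  have hdf2 := df2_nonneg (i₀ := i₀) hQ X (w * u) (q * u) ((lam w - 1) * u) (z w) (φ w q)
  have hdf3 := df3_nonneg (i₀ := i₀) hQ X (w * u) (q * u) ((lam w - 1) * u) (z w)
  have hWw := hFrs.win w a1 (by omega)
  have hSw := hFrs.slp w q a1 a3 a5
  have hrowJ : (q + w + (lam w - 1) + Xm) * u ≤ J := by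
    refine le_trans (Nat.mul_le_mul_right u ?_) hpb
    omega
  have hrowJ' : q * u + w * u + (lam w - 1) * u + X ≤ J := by
    rw [hXe, ← Nat.add_mul, ← Nat.add_mul, ← Nat.add_mul]
    exact hrowJ
  refine hctx J F i₀ A f (w * u) (q * u) ((lam w - 1) * u) (Lp (q + w + (lam w - 1)) * u) X (z w)
    (φ w q) e η ε₃ hQ hWw hSw (Nat.mul_le_mul_right u (by omega)) (by omega) hX hT he he'
    (by linarith only [hch1, hD, hdf, hdf3]) (by linarith only [hch2, hD, hdf, hdf2]) ?_ ?_ ?_ ?_ ?_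
  · rw [hXe]
    exact hWSa w q a1 a2 hq
  · linarith only [hC₁, hC₃, hη]
  · rw [hXe]
    exact h4 w q a1 a2 hq
  · intro j hj E hE
    obtain ⟨h, hh⟩ : ∃ h, h = ⌊κ * X⌋₊ := ⟨_, rfl⟩
    rw [← hh] at hj hblk hη2 ⊢
    have hjh : j * h + h ≤ X := by
      have : (j + 1) * h = j * h + h := by ring
      omega
    have hPA : 0 < Pe F.p (fun ω => A ω ∧ E ω) := by
      have e1 : Pe (Pool.Agent.H49.Ent.cond F.p A True) E =
          Pe F.p (fun ω => A ω ∧ E ω) / Pe F.p A := Pe_cond _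
      have e2 : 0 < Pe F.p (fun ω => A ω ∧ E ω) / Pe F.p A := by
        rw [← e1]; linarith only [hϖ, hE]
      exact (div_pos_iff_of_pos_right hPe).1 e2
    have hv : (w + q) * u ≤ q * u + w * u := by rw [Nat.add_mul]; omega
    have hPX : (q + w + (lam w - 1)) * u + j * h + h ≤ (w + q) * u + (lam (w + q) - 1) * u := by
      have d1 : (q + w + (lam w - 1)) * u + X ≤ (w + q + (lam (w + q) - 1)) * u := by
        rw [hXe, ← Nat.add_mul]
        exact Nat.mul_le_mul_right u (by omega)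
      rw [Nat.add_mul (w + q)] at d1
      omega
    have hPe3 : q * u + w * u + (lam w - 1) * u = (q + w + (lam w - 1)) * u := by ring
    obtain ⟨vis, hvis⟩ := hFrs.vis w q a1 a3 a5
    have key := h5 J F i₀ A E f n (w * u) (q * u) ((lam w - 1) * u) ((w + q) * u)
      ((lam (w + q) - 1) * u) H (Lp (q + w + (lam w - 1)) * u) (j * h) h (z w) (z (w + q)) (φ w q)
      vis c η hPe hPA hFrs.frm hWw (hFrs.win (w + q) (by omega) a5) hSw
      (Nat.mul_le_mul_right u (Nat.le_add_right _ _)) hv (by rw [hPe3]; exact hPX)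
      (by rw [hPe3]; rw [hPe3] at hrowJ'; omega)
      (by
        have d1 : (lam w - 1) * u + X ≤ Lp (q + w + (lam w - 1)) * u := by
          rw [hXe, ← Nat.add_mul]
          exact Nat.mul_le_mul_right u b7
        omega)
      (Nat.mul_le_mul_right u b8)
      (by
        refine le_trans (Nat.mul_le_mul_right u ?_) (hH (w + q) 0 (by omega) (by omega))
        omega)
      (by rw [hPe3]; exact hvis) ?_ ?_
    · have e1 : (j + 1) * h = j * h + h := by ring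
      rw [e1]
      refine key.trans ?_
      have e2 : (1 - cO) * (h : ℝ) * Real.log 2 = (1 - c) * (h * Real.log 2) +
          (c - cO) * (h * Real.log 2) := by ring
      rw [e2]
      linarith only [hC₁, hC₂, hη2]
    · refine hWS0 E hE (w + q) (by omega) a5 _ ?_ ?_
      · omega
      · rw [hPe3]; rw [hPe3] at hrowJ'; omega
    · have hpaP : pa * u ≤ (q + w + (lam w - 1)) * u := Nat.mul_le_mul_right u (by omega)
      have hPpb : (q + w + (lam w - 1)) * u + X ≤ pb * u := by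
        rw [hXe, ← Nat.add_mul]
        exact Nat.mul_le_mul_right u (by omega)
      have key2 := hRW E hE (q * u + w * u + (lam w - 1) * u + j * h)
        (q * u + w * u + (lam w - 1) * u + j * h + h) (by rw [hPe3]; omega)
        (by rw [hPe3]; omega) (by omega)
      refine key2.trans (le_of_eq ?_)
      push_cast
      ring
  · refine le_trans ?_ (hTR w q a1 a2 hq)
    refine Uni.Pr_le_of (dbl_nonneg hQ.nonneg) fun x _ hx => ?_
    rw [Set.mem_ofPred_eq] at hx ⊢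
    refine lt_of_lt_of_le hx ?_
    have d1 : ((3 * u : ℕ) : ℝ) ≤ x₀ * X := by
      rw [hXe]
      push_cast
      have : (0 : ℝ) ≤ u := Nat.cast_nonneg u
      nlinarith only [hx₀]
    rw [one_div, ← Real.rpow_natCast, ← Real.rpow_neg (by norm_num)]
    exact Real.rpow_le_rpow_of_exponent_le (by norm_num) (by linarith only [d1])

end Pool.K2S
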